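import Pool.Agent.Work.MP_8f87b2_h26.Ms
import Pool.Agent.Work.MP_8f87b2_h26.Near

/-!
# The hop graph for one and for two beads
-/

set_option autoImplicit false

namespace Pool.OddHop

open Finset

variable {n m g : ℕ} [NeZero n]

theorem Ms.ext' {a b : Ms n m} (h : ∀ x, a.1 x = b.1 x) : a = b :=
  Subtype.ext (funext h)

theorem HopQ.symm' {hg : g ∣ n} {p q : Quotient (msSetoid m hg)} (h : HopQ hg p q) :
    HopQ hg q p := by
  obtain ⟨a, b, h1, h2, h3⟩ := h
  exact ⟨b, a, h2, h1, h3.symm⟩

/-- two beads at `x` and `y` -/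
def two (x y : ZMod n) : Ms n 2 :=
  ⟨Pi.single x 1 + Pi.single y 1, by
    simp only [Pi.add_apply, Finset.sum_add_distrib]
    simp [Pi.single_apply]⟩

theorem two_comm (x y : ZMod n) : two x y = two y x := by
  apply Ms.ext'
  intro z; simp [two, add_comm]

theorem two_add (x y t z : ZMod n) : (two x y).1 (z + t) = (two (x - t) (y - t)).1 z := by
  simp only [two, Pi.add_apply, Pi.single_apply, eq_sub_iff_add_eq]

theorem hop_two (x y : ZMod n) : Hop (two x y).1 (two x (y + 1)).1 := by
  refine ⟨y, y + 1, Or.inl rfl, ?_⟩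
  intro z
  simp only [two, Pi.add_apply, Pi.single_apply, eq_comm (a := z)]
  ring

theorem exists_two (a : Ms n 2) : ∃ x y, a = two x y := by
  have h1 : ∃ x, a.1 x ≠ 0 := by
    by_contra h
    push Not at h
    have h2 := a.2
    rw [Finset.sum_eq_zero (fun x _ => h x)] at h2
    omega
  obtain ⟨x, hx⟩ := h1
  let b : ZMod n → ℕ := a.1 - Pi.single x 1
  have hab : a.1 = b + Pi.single x 1 := by
    funext z
    simp only [b, Pi.add_apply, Pi.sub_apply, Pi.single_apply]
    split_ifs with h
    · subst h; omega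
    · omega
  have hb : ∑ z, b z = 1 := by
    have h2 := a.2
    rw [hab] at h2
    simp only [Pi.add_apply, Finset.sum_add_distrib] at h2
    simp only [Pi.single_apply, Finset.sum_ite_eq', Finset.mem_univ, if_true] at h2
    omega
  have h3 : ∃ y, b y ≠ 0 := by
    by_contra h
    push Not at h
    rw [Finset.sum_eq_zero (fun x _ => h x)] at hb
    omega
  obtain ⟨y, hy⟩ := h3
  refine ⟨x, y, ?_⟩
  have hb2 : b = Pi.single y 1 := by
    funext z
    rw [Pi.single_apply]
    have h4 := Finset.add_sum_erase Finset.univ b (Finset.mem_univ y)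
    split_ifs with h
    · subst h
      rw [hb] at h4
      omega
    · have h5 := Finset.single_le_sum (f := b) (s := Finset.univ.erase y)
        (fun i _ => Nat.zero_le _) (Finset.mem_erase.2 ⟨h, Finset.mem_univ z⟩)
      rw [hb] at h4
      omega
  apply Subtype.ext
  rw [hab, hb2]
  simp only [two]
  abel

theorem two_inj {x y x' y' : ZMod n} (h : two x y = two x' y') :
    (x = x' ∧ y = y') ∨ (x = y' ∧ y = x') := by
  have h1 : ∀ z, (Pi.single x 1 + Pi.single y 1 : ZMod n → ℕ) z =
      (Pi.single x' 1 + Pi.single y' 1 : ZMod n → ℕ) z := by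
    intro z
    exact congrFun (congrArg Subtype.val h) z
  simp only [Pi.add_apply, Pi.single_apply] at h1
  have hx := h1 x
  have hy := h1 y
  by_cases e1 : x = x' <;> by_cases e2 : y = y' <;> by_cases e3 : x = y' <;> by_cases e4 : y = x' <;>
    by_cases e5 : x = y <;> simp_all
  all_goals first
    | omega
    | (split_ifs at * <;> simp_all <;> omega)

/-- the class of the beads at `x` and `x + d` -/
def P (hg : g ∣ n) (x : ZMod n) (d : ℕ) : Quotient (msSetoid 2 hg) :=
  Quotient.mk _ (two x (x + d))

theorem P_surj (hn : Odd n) (hg : g ∣ n) (q : Quotient (msSetoid 2 hg)) :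
    ∃ x : ZMod n, ∃ d : ℕ, 2 * d + 1 ≤ n ∧ q = P hg x d := by
  obtain ⟨a, rfl⟩ := Quotient.exists_rep q
  obtain ⟨x, y, rfl⟩ := exists_two a
  by_cases h : 2 * (y - x).val + 1 ≤ n
  · refine ⟨x, (y - x).val, h, ?_⟩
    unfold P
    rw [ZMod.natCast_zmod_val, add_sub_cancel]
  · have h1 := ZMod.val_lt (y - x)
    obtain ⟨k, hk⟩ := hn
    refine ⟨y, n - (y - x).val, by omega, ?_⟩
    unfold P
    rw [two_comm]
    congr 2
    rw [Nat.cast_sub h1.le, ZMod.natCast_zmod_val, ZMod.natCast_self]
    ring

/-- reduction modulo `g` -/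
abbrev cm (hg : g ∣ n) : ZMod n →+* ZMod g := ZMod.castHom hg (ZMod g)

theorem P_eq {hg : g ∣ n} {x x' : ZMod n} {d d' : ℕ} (hd : 2 * d + 1 ≤ n)
    (hd' : 2 * d' + 1 ≤ n) (h : P hg x d = P hg x' d') :
    d = d' ∧ cm hg (x' - x) = 0 := by
  obtain ⟨t, ht, hs⟩ := Quotient.exact h
  have hs2 : two x (x + d) = two (x' - t) (x' + d' - t) := by
    apply Ms.ext'
    intro z
    rw [← two_add]
    exact (hs z).symm
  have hcast : ∀ e e' : ℕ, e < n → e' < n → (e : ZMod n) = e' → e = e' := by
    intro e e' he he' hee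
    have := congrArg ZMod.val hee
    rwa [ZMod.val_natCast_of_lt he, ZMod.val_natCast_of_lt he'] at this
  rcases two_inj hs2 with ⟨h1, h2⟩ | ⟨h1, h2⟩
  · have h3 : d = d' := by
      apply hcast d d' (by omega) (by omega)
      rw [h1] at h2
      have h4 : x' + (d' : ZMod n) - t = x' - t + d' := by ring
      rw [h4] at h2
      exact add_left_cancel h2
    refine ⟨h3, ?_⟩
    rw [h1, show x' - (x' - t) = t by ring, ht]
  · have h3 : ((d + d' : ℕ) : ZMod n) = (0 : ℕ) := by
      push_cast
      linear_combination h2 - h1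
    have h4 := hcast _ _ (by omega) (by omega) h3
    have h5 : d = 0 := by omega
    have h6 : d' = 0 := by omega
    subst h5
    subst h6
    refine ⟨rfl, ?_⟩
    rw [h1, show x' - (x' + ((0 : ℕ) : ZMod n) - t) = t by push_cast; ring, ht]

theorem P_tr (hg : g ∣ n) (x : ZMod n) {t : ZMod n} (ht : cm hg t = 0) (d : ℕ) :
    P hg (x + t) d = P hg x d := by
  apply Quotient.sound
  refine ⟨-t, by rw [map_neg, ht, neg_zero], ?_⟩
  intro z
  rw [two_add]
  congr 2 <;> ring

theorem hopQ_P (hg : g ∣ n) (x : ZMod n) (d : ℕ) : HopQ hg (P hg x d) (P hg x (d + 1)) :=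
  ⟨_, _, rfl, rfl, by
    have := hop_two x (x + d)
    rw [add_assoc] at this
    push_cast
    exact this⟩

theorem P_turn (hg : g ∣ n) {d : ℕ} (hd : 2 * d + 1 = n) (x : ZMod n) :
    P hg x (d + 1) = P hg (x + (d + 1 : ℕ)) d := by
  unfold P
  have h1 : x + ((d + 1 : ℕ) : ZMod n) + (d : ZMod n) = x := by
    have : ((2 * d + 1 : ℕ) : ZMod n) = 0 := by rw [hd]; exact ZMod.natCast_self n
    push_cast at this ⊢
    linear_combination this
  rw [h1, two_comm]

/-- the partner of `P x d` in the case of two beads -/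
def G2 (hg : g ∣ n) (x : ZMod n) (d : ℕ) : Quotient (msSetoid 2 hg) :=
  if d % 2 = 1 then P hg x (d - 1)
  else if 2 * d + 3 ≤ n then P hg x (d + 1)
  else if (2 * cm hg x).val = 0 then P hg x d
  else if (2 * cm hg x).val % 2 = 1 then P hg (x + (d + 1 : ℕ)) d
  else P hg (x - (d + 1 : ℕ)) d

theorem G2_tr (hg : g ∣ n) (x : ZMod n) {t : ZMod n} (ht : cm hg t = 0) (d : ℕ) :
    G2 hg (x + t) d = G2 hg x d := by
  unfold G2
  rw [map_add, ht, add_zero]
  have h1 : x + t + ((d + 1 : ℕ) : ZMod n) = x + ((d + 1 : ℕ) : ZMod n) + t := by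
    ring
  have h2 : x + t - ((d + 1 : ℕ) : ZMod n) = x - ((d + 1 : ℕ) : ZMod n) + t := by
    ring
  simp only [h1, h2, P_tr hg _ ht]

/-- **Two beads**: a near perfect matching of the hop graph. -/
theorem hasNear_two (hn : Odd n) (hg : g ∣ n) : HasNear 2 hg := by
  suffices h : ∃ F : Quotient (msSetoid 2 hg) → Quotient (msSetoid 2 hg), (∀ q, F (F q) = q) ∧
      (∀ q, F q ≠ q → HopQ hg q (F q)) ∧ ∀ q q', F q = q → F q' = q' → q = q' by
    obtain ⟨F, h1, h2, h3⟩ := h
    exact ⟨F, h1, fun q => or_iff_not_imp_left.2 (h2 q), h3⟩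
  have hg0 : g ≠ 0 := by
    rintro rfl
    exact NeZero.ne n (Nat.eq_zero_of_zero_dvd hg)
  have : NeZero g := ⟨hg0⟩
  have hgo : Odd g := Odd.of_dvd_nat hn hg
  have hP := P_surj hn hg
  choose x d hd hq using hP
  have key : ∀ (y : ZMod n) (e : ℕ), 2 * e + 1 ≤ n →
      G2 hg (x (P hg y e)) (d (P hg y e)) = G2 hg y e := by
    intro y e he
    obtain ⟨h1, h2⟩ := P_eq he (hd (P hg y e)) (hq (P hg y e))
    have h3 := G2_tr hg y h2 e
    rw [← h1, ← h3]
    congr 1
    ring
  -- the last layer
  have hodd1 : ∀ a : ZMod g, a.val % 2 = 1 → (a + 1).val = a.val + 1 := by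
    intro a ha
    have h1 := ZMod.val_lt a
    obtain ⟨k, hk⟩ := hgo
    have h2 : a.val + 1 < g := by omega
    have h3 : a + 1 = ((a.val + 1 : ℕ) : ZMod g) := by
      push_cast
      rw [ZMod.natCast_zmod_val]
    rw [h3, ZMod.val_natCast_of_lt h2]
  have heven1 : ∀ a : ZMod g, a.val ≠ 0 → (a - 1).val = a.val - 1 := by
    intro a ha
    have h1 := ZMod.val_lt a
    have h3 : a - 1 = ((a.val - 1 : ℕ) : ZMod g) := by
      rw [Nat.cast_sub (by omega), ZMod.natCast_zmod_val, Nat.cast_one]
    rw [h3, ZMod.val_natCast_of_lt (by omega)]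
  have hu : ∀ e : ℕ, 2 * e + 1 = n → 2 * cm hg ((e + 1 : ℕ) : ZMod n) = 1 := by
    intro e he
    rw [map_natCast]
    have h1 : ((2 * e + 1 : ℕ) : ZMod g) = 0 := by
      rw [he]
      exact (ZMod.natCast_eq_zero_iff n g).2 hg
    push_cast at h1 ⊢
    linear_combination h1
  have hlast : ∀ e : ℕ, 2 * e + 1 ≤ n → ¬ (2 * e + 3 ≤ n) → 2 * e + 1 = n := by
    intro e h1 h2
    obtain ⟨k, hk⟩ := hn
    omega
  refine ⟨fun q => G2 hg (x q) (d q), ?_, ?_, ?_⟩
  · intro q
    have hd0 := hd q
    have hq0 := hq q
    change G2 hg (x (G2 hg (x q) (d q))) (d (G2 hg (x q) (d q))) = q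
    set y := x q with hy
    set e := d q with he
    clear_value y e
    subst hq0
    by_cases h1 : e % 2 = 1
    · have hG : G2 hg y e = P hg y (e - 1) := by unfold G2; rw [if_pos h1]
      rw [hG, key y (e - 1) (by omega)]
      unfold G2
      rw [if_neg (by omega), if_pos (by omega), Nat.sub_add_cancel (by omega)]
    · by_cases h2 : 2 * e + 3 ≤ n
      · have hG : G2 hg y e = P hg y (e + 1) := by unfold G2; rw [if_neg h1, if_pos h2]
        rw [hG, key y (e + 1) (by omega)]
        unfold G2
        rw [if_pos (by omega), Nat.add_sub_cancel]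
      · have h0 := hlast e hd0 h2
        by_cases h3 : (2 * cm hg y).val = 0
        · have hG : G2 hg y e = P hg y e := by
            unfold G2; rw [if_neg h1, if_neg h2, if_pos h3]
          rw [hG, key y e hd0, hG]
        · by_cases h4 : (2 * cm hg y).val % 2 = 1
          · have hG : G2 hg y e = P hg (y + (e + 1 : ℕ)) e := by
              unfold G2; rw [if_neg h1, if_neg h2, if_neg h3, if_pos h4]
            have h5 : 2 * cm hg (y + ((e + 1 : ℕ) : ZMod n)) = 2 * cm hg y + 1 := by
              rw [map_add, mul_add, hu e h0]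
            have h6 := hodd1 _ h4
            rw [hG, key _ e hd0]
            unfold G2
            rw [if_neg h1, if_neg h2, h5, h6, if_neg (by omega), if_neg (by omega),
              add_sub_cancel_right]
          · have hG : G2 hg y e = P hg (y - (e + 1 : ℕ)) e := by
              unfold G2; rw [if_neg h1, if_neg h2, if_neg h3, if_neg h4]
            have h5 : 2 * cm hg (y - ((e + 1 : ℕ) : ZMod n)) = 2 * cm hg y - 1 := by
              rw [map_sub, mul_sub, hu e h0]
            have h6 := heven1 _ h3
            rw [hG, key _ e hd0]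
            by_cases h7 : (2 * cm hg y).val - 1 = 0
            · omega
            · unfold G2
              rw [if_neg h1, if_neg h2, h5, h6, if_neg h7, if_pos (by omega), sub_add_cancel]
  · intro q hne
    have hd0 := hd q
    have hq0 := hq q
    change G2 hg (x q) (d q) ≠ q at hne
    change HopQ hg q (G2 hg (x q) (d q))
    set y := x q with hy
    set e := d q with he
    clear_value y e
    subst hq0
    by_cases h1 : e % 2 = 1
    · have hG : G2 hg y e = P hg y (e - 1) := by unfold G2; rw [if_pos h1]
      have h2 := hopQ_P hg y (e - 1)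
      rw [Nat.sub_add_cancel (by omega)] at h2
      rw [hG]
      exact h2.symm'
    · by_cases h2 : 2 * e + 3 ≤ n
      · have hG : G2 hg y e = P hg y (e + 1) := by unfold G2; rw [if_neg h1, if_pos h2]
        rw [hG]
        exact hopQ_P hg y e
      · have h0 := hlast e hd0 h2
        by_cases h3 : (2 * cm hg y).val = 0
        · have hG : G2 hg y e = P hg y e := by
            unfold G2; rw [if_neg h1, if_neg h2, if_pos h3]
          exact absurd hG hne
        · by_cases h4 : (2 * cm hg y).val % 2 = 1
          · have hG : G2 hg y e = P hg (y + (e + 1 : ℕ)) e := by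
              unfold G2; rw [if_neg h1, if_neg h2, if_neg h3, if_pos h4]
            rw [hG, ← P_turn hg h0 y]
            exact hopQ_P hg y e
          · have hG : G2 hg y e = P hg (y - (e + 1 : ℕ)) e := by
              unfold G2; rw [if_neg h1, if_neg h2, if_neg h3, if_neg h4]
            have h5 := P_turn hg h0 (y - ((e + 1 : ℕ) : ZMod n))
            rw [sub_add_cancel] at h5
            rw [hG, ← h5]
            exact (hopQ_P hg _ e).symm'
  · have hfix : ∀ (y : ZMod n) (e : ℕ), 2 * e + 1 ≤ n → G2 hg y e = P hg y e →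
        2 * e + 1 = n ∧ cm hg y = 0 := by
      intro y e he hG
      unfold G2 at hG
      by_cases h1 : e % 2 = 1
      · rw [if_pos h1] at hG
        have := (P_eq (by omega) he hG).1
        omega
      · rw [if_neg h1] at hG
        by_cases h2 : 2 * e + 3 ≤ n
        · rw [if_pos h2] at hG
          have := (P_eq (by omega) he hG).1
          omega
        · have h0 := hlast e he h2
          refine ⟨h0, ?_⟩
          rw [if_neg h2] at hG
          have h2u := hu e h0
          by_cases h3 : (2 * cm hg y).val = 0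
          · rw [ZMod.val_eq_zero] at h3
            have : cm hg y = (2 * cm hg y) * cm hg ((e + 1 : ℕ) : ZMod n) := by
              linear_combination (- cm hg y) * h2u
            rw [this, h3, zero_mul]
          · exfalso
            rw [if_neg h3] at hG
            have h5 : cm hg ((e + 1 : ℕ) : ZMod n) = 0 := by
              split_ifs at hG with h4
              · obtain ⟨-, hs⟩ := P_eq he he hG
                rw [map_sub, map_add] at hs
                linear_combination - hs
              · obtain ⟨-, hs⟩ := P_eq he he hG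
                rw [map_sub, map_sub] at hs
                linear_combination hs
            rw [h5, mul_zero] at h2u
            have h6 : (2 * cm hg y) = 0 := by
              have : (2 * cm hg y) = (2 * cm hg y) * 1 := by ring
              rw [this, ← h2u, mul_zero]
            exact h3 (by rw [h6, ZMod.val_zero])
    intro q q' h1 h2
    simp only at h1 h2
    have e1 := hfix (x q) (d q) (hd q) (h1.trans (hq q))
    have e2 := hfix (x q') (d q') (hd q') (h2.trans (hq q'))
    have e3 : d q = d q' := by omega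
    have e4 : cm hg (x q' - x q) = 0 := by rw [map_sub, e1.2, e2.2, sub_zero]
    have e5 : x q' = x q + (x q' - x q) := by ring
    calc q = P hg (x q) (d q) := hq q
      _ = P hg (x q') (d q') := by rw [e5, P_tr hg _ e4, e3]
      _ = q' := (hq q').symm

end Pool.OddHop
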