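import Pool.Agent.Work.MP_8f87b2_h26.Ms

/-!
# The hop graph for one bead, and for three beads on three holes
-/

set_option autoImplicit false

namespace Pool.OddHop

open Finset

section One

variable {n g : ℕ} [NeZero n]

/-- one bead at `x` -/
def one (x : ZMod n) : Ms n 1 := ⟨Pi.single x 1, by simp [Pi.single_apply]⟩

theorem exists_one (a : Ms n 1) : ∃ x, a = one x := by
  have hb := a.2
  have h3 : ∃ y, a.1 y ≠ 0 := by
    by_contra h
    push Not at h
    rw [Finset.sum_eq_zero (fun x _ => h x)] at hb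
    omega
  obtain ⟨y, hy⟩ := h3
  refine ⟨y, ?_⟩
  apply Subtype.ext
  funext z
  change a.1 z = (Pi.single y 1 : ZMod n → ℕ) z
  rw [Pi.single_apply]
  have h4 := Finset.add_sum_erase Finset.univ a.1 (Finset.mem_univ y)
  split_ifs with h
  · subst h
    rw [hb] at h4
    omega
  · have h5 := Finset.single_le_sum (f := a.1) (s := Finset.univ.erase y)
      (fun i _ => Nat.zero_le _) (Finset.mem_erase.2 ⟨h, Finset.mem_univ z⟩)
    rw [hb] at h4
    omega

/-- moving everything by one hole -/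
def trPerm (n m : ℕ) [NeZero n] : Equiv.Perm (Ms n m) where
  toFun a := ⟨fun x => a.1 (x - 1), (Equiv.sum_comp (Equiv.subRight 1) a.1).trans a.2⟩
  invFun a := ⟨fun x => a.1 (x + 1), (Equiv.sum_comp (Equiv.addRight 1) a.1).trans a.2⟩
  left_inv := by
    intro a
    apply Subtype.ext
    funext x
    simp
  right_inv := by
    intro a
    apply Subtype.ext
    funext x
    simp

theorem trPerm_rel {m : ℕ} (hg : g ∣ n) (a b : Ms n m) :
    (msSetoid m hg) a b ↔ (msSetoid m hg) (trPerm n m a) (trPerm n m b) := by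
  change RelB hg a.1 b.1 ↔ RelB hg (trPerm n m a).1 (trPerm n m b).1
  unfold RelB
  constructor
  · rintro ⟨t, ht, h⟩
    refine ⟨t, ht, fun x => ?_⟩
    have := h (x - 1)
    change b.1 (x + t - 1) = a.1 (x - 1)
    rw [← this, show x + t - 1 = x - 1 + t by ring]
  · rintro ⟨t, ht, h⟩
    refine ⟨t, ht, fun x => ?_⟩
    have := h (x + 1)
    change b.1 (x + 1 + t - 1) = a.1 (x + 1 - 1) at this
    rw [add_sub_cancel_right] at this
    rw [← this, show x + 1 + t - 1 = x + t by ring]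

/-- **One bead.** -/
theorem hasCycle_one (hg : g ∣ n) : HasCycle 1 hg := by
  let f : Equiv.Perm (Quotient (msSetoid 1 hg)) :=
    Quotient.congr (trPerm n 1) (trPerm_rel hg)
  have hf : ∀ x : ZMod n, f (Quotient.mk _ (one x)) = Quotient.mk _ (one (x + 1)) := by
    intro x
    change Quotient.mk (msSetoid 1 hg) (trPerm n 1 (one x)) = _
    congr 1
    apply Subtype.ext
    funext z
    change (Pi.single x 1 : ZMod n → ℕ) (z - 1) = (Pi.single (x + 1) 1 : ZMod n → ℕ) z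
    simp only [Pi.single_apply, sub_eq_iff_eq_add]
  have hk : ∀ k : ℕ, (f ^ k) (Quotient.mk _ (one 0)) = Quotient.mk _ (one (k : ZMod n)) := by
    intro k
    induction k with
    | zero => simp
    | succ k ih =>
      rw [pow_succ', Equiv.Perm.mul_apply, ih, hf]
      push_cast
      rfl
  have hall : ∀ q, f.SameCycle (Quotient.mk _ (one 0)) q := by
    intro q
    obtain ⟨a, rfl⟩ := Quotient.exists_rep q
    obtain ⟨x, rfl⟩ := exists_one a
    refine ⟨(x.val : ℤ), ?_⟩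
    rw [zpow_natCast, hk, ZMod.natCast_zmod_val]
  refine ⟨f, ?_, fun p q => (hall p).symm.trans (hall q)⟩
  intro q
  obtain ⟨a, rfl⟩ := Quotient.exists_rep q
  obtain ⟨x, rfl⟩ := exists_one a
  refine ⟨one x, one (x + 1), rfl, (hf x).symm, x, x + 1, Or.inl rfl, ?_⟩
  intro z
  change (Pi.single x 1 : ZMod n → ℕ) z + _ = (Pi.single (x + 1) 1 : ZMod n → ℕ) z + _
  simp only [Pi.single_apply, eq_comm (a := z)]
  ring

end One

section Three

/-- contents of the three holes -/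
def mk3 (a b c : ℕ) (h : a + b + c = 3) : Ms 3 3 := ⟨![a, b, c], by
  change ∑ i : Fin 3, (![a, b, c] : Fin 3 → ℕ) i = 3
  simp [Fin.sum_univ_three, h]⟩

theorem exists_mk3 (x : Ms 3 3) : ∃ a b c h, x = mk3 a b c h := by
  refine ⟨x.1 0, x.1 1, x.1 2, ?_, ?_⟩
  · have h : ∑ i : Fin 3, x.1 i = 3 := x.2
    rw [Fin.sum_univ_three] at h
    exact h
  · apply Subtype.ext
    funext i
    change x.1 i = (![x.1 0, x.1 1, x.1 2] : Fin 3 → ℕ) i
    revert i
    change ∀ i : Fin 3, x.1 i = (![x.1 0, x.1 1, x.1 2] : Fin 3 → ℕ) i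
    rw [Fin.forall_fin_succ, Fin.forall_fin_two]
    exact ⟨rfl, rfl, rfl⟩

instance {g : ℕ} (hg : g ∣ 3) (a b : ZMod 3 → ℕ) : Decidable (RelB hg a b) := by
  unfold RelB; infer_instance

instance (a b : ZMod 3 → ℕ) : Decidable (Hop a b) := by
  unfold Hop; infer_instance

/-- a Hamiltonian cycle given by a list of representatives -/
theorem hasCycle_of_list {n m g : ℕ} [NeZero n] (hg : g ∣ n) (L : List (Ms n m))
    (hlen : 2 ≤ L.length)
    (hnd : L.Pairwise (fun a b => ¬ RelB hg a.1 b.1)) (hall : ∀ x : Ms n m, ∃ a ∈ L, RelB hg a.1 x.1)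
    (hhop : ∀ i : Fin L.length, ∃ a b : Ms n m, RelB hg (L.get i).1 a.1 ∧
      RelB hg (L.get ⟨(i.1 + 1) % L.length, Nat.mod_lt _ (by omega)⟩).1 b.1 ∧ Hop a.1 b.1) :
    HasCycle m hg := by
  classical
  let Lq : List (Quotient (msSetoid m hg)) := L.map (Quotient.mk _)
  have hlq : Lq.length = L.length := List.length_map _
  have hNd : Lq.Nodup := by
    unfold List.Nodup
    rw [List.pairwise_map]
    exact hnd.imp (fun h1 h2 => h1 (Quotient.exact h2))
  have hmem : ∀ q, q ∈ Lq := by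
    intro q
    obtain ⟨x, rfl⟩ := Quotient.exists_rep q
    obtain ⟨a, ha, hax⟩ := hall x
    exact List.mem_map.2 ⟨a, ha, Quotient.sound hax⟩
  refine ⟨Lq.formPerm, ?_, ?_⟩
  · intro q
    obtain ⟨i, hi, rfl⟩ := List.getElem_of_mem (hmem q)
    rw [List.formPerm_apply_getElem Lq hNd i hi]
    obtain ⟨a, b, h1, h2, h3⟩ := hhop ⟨i, by rw [← hlq]; exact hi⟩
    refine ⟨a, b, ?_, ?_, h3⟩
    · have : Lq[i] = Quotient.mk _ (L[i]'(by rw [← hlq]; exact hi)) := List.getElem_map _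
      rw [this]
      exact (Quotient.sound h1).symm
    · have : ∀ (j : ℕ) (hj : j < Lq.length), Lq[j] = Quotient.mk _ (L[j]'(by rw [← hlq]; exact hj)) :=
        fun j hj => List.getElem_map _
      rw [this]
      simp only [hlq]
      exact (Quotient.sound h2).symm
  · intro p q
    exact (List.Nodup.isCycleOn_formPerm hNd).2 (hmem p) (hmem q)

theorem hasCycle_33 {g : ℕ} (hg : g ∣ 3) : HasCycle 3 hg := by
  rcases (Nat.dvd_prime Nat.prime_three).1 hg with rfl | rfl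
  · refine hasCycle_of_list hg [mk3 3 0 0 rfl, mk3 2 1 0 rfl, mk3 1 1 1 rfl, mk3 1 2 0 rfl]
      (by decide) (by decide +revert) ?_ ?_
    · intro x
      obtain ⟨a, b, c, h, rfl⟩ := exists_mk3 x
      have ha : a ≤ 3 := by omega
      have hb : b ≤ 3 := by omega
      obtain rfl : c = 3 - a - b := by omega
      interval_cases a <;> interval_cases b <;> first | omega | decide +revert
    · have key : ∀ i : Fin 4, ∃ a ∈ [mk3 3 0 0 rfl, mk3 2 1 0 rfl, mk3 1 2 0 rfl, mk3 1 1 1 rfl,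
          mk3 2 0 1 rfl], ∃ b ∈ [mk3 3 0 0 rfl, mk3 2 1 0 rfl, mk3 1 2 0 rfl, mk3 1 1 1 rfl,
          mk3 2 0 1 rfl], RelB hg ([mk3 3 0 0 rfl, mk3 2 1 0 rfl, mk3 1 1 1 rfl,
            mk3 1 2 0 rfl].get i).1 a.1 ∧
          RelB hg ([mk3 3 0 0 rfl, mk3 2 1 0 rfl, mk3 1 1 1 rfl, mk3 1 2 0 rfl].get
            ⟨(i.1 + 1) % 4, Nat.mod_lt _ (by omega)⟩).1 b.1 ∧ Hop a.1 b.1 := by decide +revert
      intro i
      obtain ⟨a, -, b, -, h⟩ := key i
      exact ⟨a, b, h⟩
  · refine hasCycle_of_list hg [mk3 3 0 0 rfl, mk3 2 1 0 rfl, mk3 1 2 0 rfl, mk3 0 3 0 rfl,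
      mk3 0 2 1 rfl, mk3 0 1 2 rfl, mk3 0 0 3 rfl, mk3 1 0 2 rfl, mk3 1 1 1 rfl, mk3 2 0 1 rfl]
      (by decide) (by decide +revert) ?_ ?_
    · intro x
      obtain ⟨a, b, c, h, rfl⟩ := exists_mk3 x
      have ha : a ≤ 3 := by omega
      have hb : b ≤ 3 := by omega
      obtain rfl : c = 3 - a - b := by omega
      interval_cases a <;> interval_cases b <;> first | omega | decide +revert
    · have key : ∀ i : Fin 10, Hop ([mk3 3 0 0 rfl, mk3 2 1 0 rfl, mk3 1 2 0 rfl, mk3 0 3 0 rfl,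
          mk3 0 2 1 rfl, mk3 0 1 2 rfl, mk3 0 0 3 rfl, mk3 1 0 2 rfl, mk3 1 1 1 rfl,
          mk3 2 0 1 rfl].get i).1
          ([mk3 3 0 0 rfl, mk3 2 1 0 rfl, mk3 1 2 0 rfl, mk3 0 3 0 rfl,
          mk3 0 2 1 rfl, mk3 0 1 2 rfl, mk3 0 0 3 rfl, mk3 1 0 2 rfl, mk3 1 1 1 rfl,
          mk3 2 0 1 rfl].get ⟨(i.1 + 1) % 10, Nat.mod_lt _ (by omega)⟩).1 := by decide
      intro i
      exact ⟨_, _, RelB.refl hg _, RelB.refl hg _, key i⟩

end Three

end Pool.OddHop
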