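import Pool.Agent.Work.MP_8f87b2_h13.Vis
import Pool.Agent.Work.MP_8f87b2_rec.Rec
import Pool.Agent.Work.MP_8f87b2_base.Frame
import Pool.Agent.Work.MP_8f87b2_h26.Ms

/-!
# The families of the cycles of `T`

The cycles of `T` through the words `C(u, e)`, `u` in the cycle of `u₀`, `sum e = m`, correspond to the
multisets of size `m` on `ZMod (2 j + 1)` modulo the translations by multiples of `g`; every hop is a
pair `()R`, `R()`.
-/

set_option autoImplicit false

namespace Pool.OddHC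

open Finset BinaryTree

/-- the list of the values of a function on the gaps -/
def lf {n : ℕ} (a : ZMod n → ℕ) : List ℕ := (List.range n).map (fun i : ℕ => a (i : ZMod n))

theorem lf_length {n : ℕ} (a : ZMod n → ℕ) : (lf a).length = n := by simp [lf]

theorem lf_getElem {n : ℕ} (a : ZMod n → ℕ) (i : ℕ) (hi : i < (lf a).length) :
    (lf a)[i] = a (i : ZMod n) := by simp [lf]

theorem lf_sum {n : ℕ} [NeZero n] (a : ZMod n → ℕ) : (lf a).sum = ∑ x, a x := by
  have h1 : (lf a).sum = ∑ i ∈ range n, a ((i : ℕ) : ZMod n) := rfl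
  rw [h1]
  refine Finset.sum_bij' (fun i _ => (i : ZMod n)) (fun x _ => x.val) ?_ ?_ ?_ ?_ ?_
  · intro i _; exact mem_univ _
  · intro x _; exact mem_range.2 (ZMod.val_lt x)
  · intro i hi; exact ZMod.val_natCast_of_lt (mem_range.1 hi)
  · intro x _; exact ZMod.natCast_zmod_val x
  · intro i _; rfl

theorem lf_inj {n : ℕ} [NeZero n] {a b : ZMod n → ℕ} (h : lf a = lf b) : a = b := by
  funext x
  have h1 : x.val < (lf a).length := by rw [lf_length]; exact ZMod.val_lt x
  have h2 : x.val < (lf b).length := by rw [lf_length]; exact ZMod.val_lt x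
  have h3 : (lf a)[x.val] = (lf b)[x.val] := by simp only [h]
  rwa [lf_getElem, lf_getElem, ZMod.natCast_zmod_val] at h3

theorem lf_rotate {n : ℕ} [NeZero n] (a : ZMod n → ℕ) (r : ℕ) :
    (lf a).rotate r = lf (fun x => a (x + (r : ZMod n))) := by
  apply List.ext_getElem
  · rw [List.length_rotate, lf_length, lf_length]
  · intro i h1 h2
    rw [List.getElem_rotate, lf_getElem, lf_getElem]
    congr 1
    rw [lf_length, ZMod.natCast_mod]
    push_cast
    rfl

theorem exists_lf {n : ℕ} [NeZero n] {e : List ℕ} (he : e.length = n) : ∃ a : ZMod n → ℕ, e = lf a := by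
  refine ⟨fun x => e[x.val]'(by rw [he]; exact ZMod.val_lt x), ?_⟩
  apply List.ext_getElem
  · rw [lf_length, he]
  · intro i h1 h2
    rw [lf_getElem]
    congr 1
    rw [he] at h1
    exact (ZMod.val_natCast_of_lt h1).symm

variable {j k : ℕ}

/-- the word `C(u, a)` -/
def phi (u : X j) (a : ZMod (2 * j + 1) → ℕ) (h : j + pkn u.1 + ∑ x, a x = k) : X k :=
  insX u (lf a) (lf_length a) (by rw [lf_sum]; exact h)

theorem phi_congr {u u' : X j} {a a' : ZMod (2 * j + 1) → ℕ} (hu : u = u') (ha : a = a')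
    (h : j + pkn u.1 + ∑ x, a x = k) (h' : j + pkn u'.1 + ∑ x, a' x = k) :
    phi u a h = phi u' a' h' := by
  subst hu
  subst ha
  rfl

theorem phi_inj {u u' : X j} {a a' : ZMod (2 * j + 1) → ℕ}
    {h : j + pkn u.1 + ∑ x, a x = k} {h' : j + pkn u'.1 + ∑ x, a' x = k}
    (he : phi u a h = phi u' a' h') : u = u' ∧ a = a' := by
  have h1 : ins u.1 (lf a) = ins u'.1 (lf a') := congrArg Subtype.val he
  obtain ⟨h2, h3⟩ := ins_inj (by rw [lf_length, X_num]) (by rw [lf_length, X_num]) h1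
  exact ⟨Subtype.ext h2, lf_inj h3⟩

theorem sum_shift {n : ℕ} [NeZero n] (a : ZMod n → ℕ) (t : ZMod n) :
    ∑ x, a (x + t) = ∑ x, a x := Equiv.sum_comp (Equiv.addRight t) a

theorem TT_phi (u : X j) (a : ZMod (2 * j + 1) → ℕ) (h : j + pkn u.1 + ∑ x, a x = k) :
    TT (phi u a h) = phi (TT u) (fun x => a (x + Vo u))
      (by rw [TT_apply, pkn_TF, sum_shift]; exact h) := by
  rw [TT_apply]
  unfold phi
  rw [TF_insX]
  apply Subtype.ext
  change ins (TF u).1 ((lf a).rotate (Vo u).val) = ins (TT u).1 (lf fun x => a (x + Vo u))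
  rw [lf_rotate, ZMod.natCast_zmod_val, TT_apply]

theorem pkn_pow (u : X j) (i : ℕ) : pkn ((TT ^ i) u).1 = pkn u.1 := by
  induction i with
  | zero => rfl
  | succ i ih => rw [pow_succ', Equiv.Perm.mul_apply, TT_apply, pkn_TF, ih]

theorem pow_phi (u : X j) (a : ZMod (2 * j + 1) → ℕ) (h : j + pkn u.1 + ∑ x, a x = k) (i : ℕ) :
    (TT ^ i) (phi u a h) = phi ((TT ^ i) u) (fun x => a (x + sp u i))
      (by rw [pkn_pow, sum_shift]; exact h) := by
  induction i with
  | zero =>
    rw [pow_zero, Equiv.Perm.one_apply]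
    apply phi_congr
    · rfl
    · funext x; rw [sp_zero, add_zero]
  | succ i ih =>
    rw [pow_succ', Equiv.Perm.mul_apply, ih, TT_phi]
    apply phi_congr
    · rw [pow_succ', Equiv.Perm.mul_apply]
    · funext x; rw [sp_succ, add_assoc, add_comm (Vo _) (sp u i)]

theorem sameCycle_nat {α : Type*} [Finite α] {f : Equiv.Perm α} {x y : α} (h : f.SameCycle x y) :
    ∃ i : ℕ, (f ^ i) x = y := by
  obtain ⟨i, -, hi⟩ := h.exists_pow_eq'
  exact ⟨i, hi⟩

/-- when are two words over the same `u` in one cycle of `T` -/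
theorem same_iff (u : X j) (a b : ZMod (2 * j + 1) → ℕ) (h : j + pkn u.1 + ∑ x, a x = k)
    (h' : j + pkn u.1 + ∑ x, b x = k) :
    (TT : Equiv.Perm (X k)).SameCycle (phi u a h) (phi u b h') ↔
      ∃ i : ℕ, (TT ^ i) u = u ∧ b = fun x => a (x + sp u i) := by
  constructor
  · intro hs
    obtain ⟨i, hi⟩ := sameCycle_nat hs
    rw [pow_phi] at hi
    obtain ⟨h1, h2⟩ := phi_inj hi
    exact ⟨i, h1, h2.symm⟩
  · rintro ⟨i, h1, h2⟩
    refine ⟨(i : ℤ), ?_⟩
    rw [zpow_natCast, pow_phi]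
    exact phi_congr h1 h2.symm _ _

/-- every subgroup of `ZMod n` is the kernel of a reduction -/
theorem subgroup_zmod {n : ℕ} [NeZero n] (H : AddSubgroup (ZMod n)) :
    ∃ (g : ℕ) (hg : g ∣ n), ∀ t, t ∈ H ↔ ZMod.castHom hg (ZMod g) t = 0 := by
  obtain ⟨a, ha⟩ := Int.subgroup_cyclic (H.comap (Int.castAddHom (ZMod n)))
  have key : ∀ z : ℤ, ((z : ZMod n) ∈ H) ↔ (a.natAbs : ℤ) ∣ z := by
    intro z
    rw [Int.natAbs_dvd]
    have h1 : ((z : ZMod n) ∈ H) ↔ z ∈ H.comap (Int.castAddHom (ZMod n)) := Iff.rfl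
    rw [h1, ha, AddSubgroup.mem_closure_singleton]
    constructor
    · rintro ⟨m, rfl⟩
      exact ⟨m, by rw [smul_eq_mul, mul_comm]⟩
    · rintro ⟨m, rfl⟩
      exact ⟨m, by rw [smul_eq_mul, mul_comm]⟩
  have hg : a.natAbs ∣ n := by
    have h1 : (((n : ℕ) : ℤ) : ZMod n) ∈ H := by
      rw [Int.cast_natCast, ZMod.natCast_self]
      exact H.zero_mem
    exact Int.natCast_dvd_natCast.1 ((key _).1 h1)
  refine ⟨a.natAbs, hg, fun t => ?_⟩
  have h2 : ((t.val : ℤ) : ZMod n) = t := by rw [Int.cast_natCast, ZMod.natCast_zmod_val]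
  have h3 : ZMod.castHom hg (ZMod a.natAbs) t = ((t.val : ℕ) : ZMod a.natAbs) := by
    conv_lhs => rw [← ZMod.natCast_zmod_val t]
    rw [map_natCast]
  rw [← h2, key, h2, h3, ZMod.natCast_eq_zero_iff, Int.natCast_dvd_natCast]

/-- the subgroup of the rotations of the cycle of `u` -/
noncomputable def rotGrp (u : X j) : AddSubgroup (ZMod (2 * j + 1)) where
  carrier := {t | ∃ i : ℕ, (TT ^ i) u = u ∧ sp u i = t}
  zero_mem' := ⟨0, rfl, rfl⟩
  add_mem' := by
    rintro s t ⟨i, h1, h2⟩ ⟨l, h3, h4⟩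
    refine ⟨i + l, ?_, ?_⟩
    · rw [add_comm, pow_add, Equiv.Perm.mul_apply, h1, h3]
    · rw [sp_add, h1, h2, h4]
  neg_mem' := by
    rintro t ⟨i, h1, h2⟩
    have key : ∀ c : ℕ, (TT ^ (i * c)) u = u ∧ sp u (i * c) = (c : ZMod (2 * j + 1)) * t := by
      intro c
      induction c with
      | zero => exact ⟨by rw [mul_zero]; rfl, by rw [mul_zero, sp_zero, Nat.cast_zero, zero_mul]⟩
      | succ c ih =>
        refine ⟨?_, ?_⟩
        · rw [Nat.mul_succ, pow_add, Equiv.Perm.mul_apply, h1, ih.1]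
        · rw [Nat.mul_succ, sp_add, ih.1, ih.2, h2]
          push_cast
          ring
    refine ⟨i * (2 * j), (key _).1, ?_⟩
    rw [(key _).2]
    have h0 : ((2 * j + 1 : ℕ) : ZMod (2 * j + 1)) = 0 := ZMod.natCast_self _
    push_cast at h0 ⊢
    linear_combination t * h0

theorem mem_rotGrp {u : X j} {t : ZMod (2 * j + 1)} :
    t ∈ rotGrp u ↔ ∃ i : ℕ, (TT ^ i) u = u ∧ sp u i = t := Iff.rfl

/-- the cycles of `T` -/
abbrev Cyc (k : ℕ) : Type := Quotient (Equiv.Perm.SameCycle.setoid (TT : Equiv.Perm (X k)))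

/-- the cycle of a word -/
noncomputable def cyc (w : X k) : Cyc k := Quotient.mk _ w

theorem cyc_eq {w w' : X k} : cyc w = cyc w' ↔ (TT : Equiv.Perm (X k)).SameCycle w w' :=
  ⟨fun h => Quotient.exact h, fun h => Quotient.sound h⟩

/-! ### the pairs `()R`, `R()` -/

theorem lf_cons {n : ℕ} [NeZero n] (a : ZMod n → ℕ) : ∃ l : List ℕ, lf a = a 0 :: l ∧
    ∀ b : ZMod n → ℕ, (∀ x, x ≠ 0 → b x = a x) → lf b = b 0 :: l := by
  obtain ⟨q, hq⟩ : ∃ q, n = q + 1 := ⟨n - 1, by have := NeZero.pos n; omega⟩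
  have key : ∀ c : ZMod n → ℕ, lf c = c 0 :: (List.range q).map (fun i : ℕ => c ((i + 1 : ℕ) : ZMod n)) := by
    intro c
    have h1 : List.range n = 0 :: (List.range q).map Nat.succ := by
      rw [hq, List.range_succ_eq_map]
    unfold lf
    rw [h1, List.map_cons, List.map_map, Nat.cast_zero]
    rfl
  refine ⟨_, key a, fun b hb => ?_⟩
  rw [key b]
  congr 1
  apply List.map_congr_left
  intro i hi
  apply hb
  intro h0
  rw [List.mem_range] at hi
  have h1 := congrArg ZMod.val h0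
  rw [ZMod.val_natCast_of_lt (by omega), ZMod.val_zero] at h1
  omega

theorem lf_snoc {n : ℕ} [NeZero n] (a : ZMod n → ℕ) : ∃ l : List ℕ, l.length + 1 = n ∧
    lf a = l ++ [a (-1)] ∧
    ∀ b : ZMod n → ℕ, (∀ x, x ≠ -1 → b x = a x) → lf b = l ++ [b (-1)] := by
  obtain ⟨q, hq⟩ : ∃ q, n = q + 1 := ⟨n - 1, by have := NeZero.pos n; omega⟩
  have hq1 : ((q : ℕ) : ZMod n) = -1 := by
    have h0 : ((q + 1 : ℕ) : ZMod n) = 0 := by rw [← hq]; exact ZMod.natCast_self _
    push_cast at h0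
    linear_combination h0
  have key : ∀ c : ZMod n → ℕ, lf c = (List.range q).map (fun i : ℕ => c ((i : ℕ) : ZMod n)) ++ [c (-1)] := by
    intro c
    have h1 : List.range n = List.range q ++ [q] := by rw [hq, List.range_succ]
    unfold lf
    rw [h1, List.map_append, List.map_cons, List.map_nil, hq1]
  refine ⟨_, by rw [List.length_map, List.length_range, hq], key a, fun b hb => ?_⟩
  rw [key b]
  congr 1
  apply List.map_congr_left
  intro i hi
  apply hb
  intro h0
  rw [List.mem_range] at hi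
  rw [← hq1] at h0
  have h1 := congrArg ZMod.val h0
  rw [ZMod.val_natCast_of_lt (by omega), ZMod.val_natCast_of_lt (by omega)] at h1
  omega

/-- one more bead in the first gap -/
theorem ins_front (u : X j) (f : ZMod (2 * j + 1) → ℕ) :
    ins u.1 (lf (fun x => f x + if x = 0 then 1 else 0)) = .nil △ ins u.1 (lf f) := by
  obtain ⟨l, h1, h2⟩ := lf_cons f
  have h3 := h2 (fun x => f x + if x = 0 then 1 else 0) (fun x hx => by simp [hx])
  rw [h3, h1]
  simp only [if_true]
  exact ins_succ u.1 (f 0) l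

theorem ud_snoc (x : ℕ) : ud (x + 1) = ud x ++ [true, false] := by
  induction x with
  | zero => rfl
  | succ x ih =>
    change true :: false :: ud (x + 1) = true :: false :: (ud x ++ [true, false])
    rw [ih]

/-- one more bead in the last gap -/
theorem ins_back (u : X j) (f : ZMod (2 * j + 1) → ℕ) :
    ins u.1 (lf (fun x => f x + if x = -1 then 1 else 0)) = app (ins u.1 (lf f)) (.nil △ .nil) := by
  obtain ⟨l, h0, h1, h2⟩ := lf_snoc f
  have h3 := h2 (fun x => f x + if x = -1 then 1 else 0) (fun x hx => by simp [hx])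
  simp only [if_true] at h3
  apply wd_ext
  have hlen : (sl u.1).length = 2 * j + 1 := sl_len u
  obtain ⟨s, b, hsb⟩ : ∃ s b, sl u.1 = s ++ [b] := by
    refine ⟨(sl u.1).dropLast, (sl u.1).getLast (by intro h; rw [h] at hlen; simp at hlen), ?_⟩
    exact (List.dropLast_append_getLast _).symm
  have hs : s.length = l.length := by
    have := congrArg List.length hsb
    rw [hlen, List.length_append, List.length_singleton] at this
    omega
  have hc : ∀ x : ℕ, sl (ins u.1 (l ++ [x])) = CL b s l ++ (b :: ud (x + pk01 b false)) := by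
    intro x
    rw [sl_ins u.1 (l ++ [x]) (by rw [List.length_append, List.length_singleton, X_num, h0]), hsb,
      CL_append _ _ _ _ _ hs]
    simp [CL]
  have e1 := hc (f (-1))
  have e2 := hc (f (-1) + 1)
  rw [h3, h1]
  have e3 : sl (ins u.1 (l ++ [f (-1) + 1])) = sl (ins u.1 (l ++ [f (-1)])) ++ [true, false] := by
    rw [e1, e2, show f (-1) + 1 + pk01 b false = f (-1) + pk01 b false + 1 by ring, ud_snoc]
    simp
  unfold sl at e3
  rw [List.cons_append, List.cons.injEq] at e3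
  rw [e3.2, wd_app]
  rfl

/-- the cycles `p`, `q` contain `()R` and `R()`, with `R = C(u, f)`, in one order or the other -/
def StarHop (u0 : X j) (m : ℕ) (p q : Cyc k) : Prop :=
  ∃ (i : ℕ) (f : ZMod (2 * j + 1) → ℕ), ∑ x, f x + 1 = m ∧ ∃ w w' : X k,
    w.1 = .nil △ ins ((TT ^ i) u0).1 (lf f) ∧ w'.1 = app (ins ((TT ^ i) u0).1 (lf f)) (.nil △ .nil) ∧
    ((cyc w = p ∧ cyc w' = q) ∨ (cyc w = q ∧ cyc w' = p))

theorem star_hop_aux (hj : 1 ≤ j) (u0 : X j) (f : ZMod (2 * j + 1) → ℕ) (x : ZMod (2 * j + 1))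
    (h1 : j + pkn u0.1 + ∑ z, (f z + if z = x then 1 else 0) = k)
    (h2 : j + pkn u0.1 + ∑ z, (f z + if z = x + 1 then 1 else 0) = k) :
    ∃ (i : ℕ) (F : ZMod (2 * j + 1) → ℕ), ∑ z, F z = ∑ z, f z ∧ ∃ w w' : X k,
      w.1 = .nil △ ins ((TT ^ i) u0).1 (lf F) ∧
      w'.1 = app (ins ((TT ^ i) u0).1 (lf F)) (.nil △ .nil) ∧
      cyc w = cyc (phi u0 (fun z => f z + if z = x + 1 then 1 else 0) h2) ∧
      cyc w' = cyc (phi u0 (fun z => f z + if z = x then 1 else 0) h1) := by
  obtain ⟨i, hi⟩ := exists_sp hj u0 (x + 1)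
  refine ⟨i, fun z => f (z + (x + 1)), sum_shift f (x + 1),
    (TT ^ i) (phi u0 (fun z => f z + if z = x + 1 then 1 else 0) h2),
    (TT ^ i) (phi u0 (fun z => f z + if z = x then 1 else 0) h1), ?_, ?_, ?_, ?_⟩
  · rw [pow_phi]
    change ins ((TT ^ i) u0).1 (lf _) = _
    rw [← ins_front]
    congr 2
    funext z
    simp only [hi, add_eq_right]
  · rw [pow_phi]
    change ins ((TT ^ i) u0).1 (lf _) = _
    rw [← ins_back]
    congr 2
    funext z
    simp only [hi]
    have : z + (x + 1) = x ↔ z = -1 := by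
      constructor
      · intro h; linear_combination h
      · rintro rfl; ring
    simp only [this]
  · exact (cyc_eq.2 ⟨(i : ℤ), by rw [zpow_natCast]⟩).symm
  · exact (cyc_eq.2 ⟨(i : ℤ), by rw [zpow_natCast]⟩).symm

open Pool.OddHop in
theorem star_hop (hj : 1 ≤ j) (u0 : X j) {m : ℕ} (a a' : Ms (2 * j + 1) m)
    (h : j + pkn u0.1 + ∑ x, a.1 x = k) (h' : j + pkn u0.1 + ∑ x, a'.1 x = k)
    (hop : Hop a.1 a'.1) : StarHop u0 m (cyc (phi u0 a.1 h)) (cyc (phi u0 a'.1 h')) := by
  obtain ⟨x, y, hxy, hz⟩ := hop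
  have hne : ∀ t : ZMod (2 * j + 1), t + 1 ≠ t := by
    intro t ht
    have h0 : (1 : ZMod (2 * j + 1)) = 0 := by simpa using ht
    have h1 := congrArg ZMod.val h0
    have : Fact (1 < 2 * j + 1) := ⟨by omega⟩
    rw [ZMod.val_one, ZMod.val_zero] at h1
    omega
  have hxy' : x ≠ y := by
    rcases hxy with rfl | rfl
    · exact (hne x).symm
    · exact hne y
  let f : ZMod (2 * j + 1) → ℕ := fun z => a.1 z - if z = x then 1 else 0
  have ha : a.1 = fun z => f z + if z = x then 1 else 0 := by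
    funext z
    have := hz z
    simp only [f, eq_comm (a := z)]
    by_cases h1 : x = z
    · subst h1
      simp only [if_true, if_neg hxy'.symm] at this ⊢
      omega
    · simp only [if_neg h1]
      omega
  have ha' : a'.1 = fun z => f z + if z = y then 1 else 0 := by
    funext z
    have := hz z
    simp only [f, eq_comm (a := z)]
    by_cases h1 : x = z
    · subst h1
      simp only [if_true, if_neg hxy'.symm] at this ⊢
      omega
    · by_cases h2 : y = z
      · subst h2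
        simp only [if_true, if_neg hxy'] at this ⊢
        omega
      · simp only [if_neg h1, if_neg h2] at this ⊢
        omega
  have hsum : ∑ z, f z + 1 = m := by
    have h1 := a.2
    rw [ha, sum_add_distrib, sum_ite_eq' univ x (fun _ => 1), if_pos (mem_univ _)] at h1
    exact h1
  rcases hxy with rfl | rfl
  · have e1 : j + pkn u0.1 + ∑ z, (f z + if z = x then 1 else 0) = k := by
      rw [← ha] at *; exact h
    have e2 : j + pkn u0.1 + ∑ z, (f z + if z = x + 1 then 1 else 0) = k := by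
      have := h'
      rw [ha'] at this
      exact this
    obtain ⟨i, F, hF, w, w', h1, h2, h3, h4⟩ := star_hop_aux hj u0 f x e1 e2
    refine ⟨i, F, by rw [hF, hsum], w, w', h1, h2, Or.inr ⟨?_, ?_⟩⟩
    · rw [h3]
      congr 1
      exact phi_congr rfl ha'.symm _ _
    · rw [h4]
      congr 1
      exact phi_congr rfl ha.symm _ _
  · have e1 : j + pkn u0.1 + ∑ z, (f z + if z = y then 1 else 0) = k := by
      have := h'
      rw [ha'] at this
      exact this
    have e2 : j + pkn u0.1 + ∑ z, (f z + if z = y + 1 then 1 else 0) = k := by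
      have := h
      rw [ha] at this
      exact this
    obtain ⟨i, F, hF, w, w', h1, h2, h3, h4⟩ := star_hop_aux hj u0 f y e1 e2
    refine ⟨i, F, by rw [hF, hsum], w, w', h1, h2, Or.inl ⟨?_, ?_⟩⟩
    · rw [h3]
      congr 1
      exact phi_congr rfl ha.symm _ _
    · rw [h4]
      congr 1
      exact phi_congr rfl ha'.symm _ _

open Pool.OddHop in
/-- **The family of `u₀` and `m`.** -/
theorem family (hj : 1 ≤ j) (u0 : X j) (m : ℕ) (h : j + pkn u0.1 + m = k) :
    ∃ (g : ℕ) (hg : g ∣ 2 * j + 1) (F : Quotient (msSetoid m hg) → Cyc k),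
      Function.Injective F ∧
      (∀ a : Ms (2 * j + 1) m, F (Quotient.mk _ a) =
        cyc (phi u0 a.1 (by rw [a.2]; exact h))) ∧
      (∀ q q', HopQ hg q q' → StarHop u0 m (F q) (F q')) ∧
      (∀ (i : ℕ) (e : List ℕ), e.length = 2 * j + 1 → e.sum = m → ∀ w : X k,
        w.1 = ins ((TT ^ i) u0).1 e → ∃ q, F q = cyc w) := by
  obtain ⟨g, hg, hH⟩ := subgroup_zmod (rotGrp u0)
  have key : ∀ a b : Ms (2 * j + 1) m, (msSetoid m hg) a b ↔
      cyc (phi u0 a.1 (by rw [a.2]; exact h)) = cyc (phi (k := k) u0 b.1 (by rw [b.2]; exact h)) := by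
    intro a b
    rw [cyc_eq, same_iff]
    change RelB hg a.1 b.1 ↔ _
    constructor
    · rintro ⟨t, ht, h1⟩
      have h2 : -t ∈ rotGrp u0 := (rotGrp u0).neg_mem ((hH t).2 ht)
      obtain ⟨i, h3, h4⟩ := mem_rotGrp.1 h2
      refine ⟨i, h3, ?_⟩
      funext x
      rw [h4, ← h1 (x + -t), neg_add_cancel_right]
    · rintro ⟨i, h3, h4⟩
      have h5 : sp u0 i ∈ rotGrp u0 := ⟨i, h3, rfl⟩
      refine ⟨-sp u0 i, (hH _).1 ((rotGrp u0).neg_mem h5), fun x => ?_⟩
      rw [h4]
      simp only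
      rw [neg_add_cancel_right]
  refine ⟨g, hg, Quotient.lift (fun a => cyc (phi u0 a.1 (by rw [a.2]; exact h)))
    (fun a b hab => (key a b).1 hab), ?_, ?_, ?_, ?_⟩
  · intro p q hpq
    obtain ⟨a, rfl⟩ := Quotient.exists_rep p
    obtain ⟨b, rfl⟩ := Quotient.exists_rep q
    exact Quotient.sound ((key a b).2 hpq)
  · intro a; rfl
  · rintro q q' ⟨a, a', rfl, rfl, hop⟩
    exact star_hop hj u0 a a' _ _ hop
  · intro i e he hs w hw
    -- go back to `u₀`
    obtain ⟨l, hl⟩ : ∃ l : ℕ, (TT ^ l) ((TT ^ i) u0) = u0 := by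
      have : (TT : Equiv.Perm (X j)).SameCycle ((TT ^ i) u0) u0 :=
        ⟨-(i : ℤ), by rw [zpow_neg, zpow_natCast]; simp⟩
      exact sameCycle_nat this
    obtain ⟨b, hb⟩ := exists_lf he
    have hb2 : ∑ x, b x = m := by rw [← lf_sum, ← hb, hs]
    have h1 : j + pkn ((TT ^ i) u0).1 + ∑ x, b x = k := by rw [pkn_pow, hb2]; exact h
    have h2 : w = phi ((TT ^ i) u0) b h1 := Subtype.ext (by rw [hw, hb]; rfl)
    refine ⟨Quotient.mk _ ⟨fun x => b (x + sp ((TT ^ i) u0) l), (sum_shift _ _).trans hb2⟩, ?_⟩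
    change cyc _ = cyc w
    rw [h2]
    refine (cyc_eq.2 ⟨(l : ℤ), ?_⟩).symm
    rw [zpow_natCast, pow_phi]
    exact phi_congr hl rfl _ _

end Pool.OddHC
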