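import Pool.Agent.Work.MP_8f87b2_h13.Drift2
import Pool.Agent.Work.MP_8f87b2_end.Inv2

/-!
# The drift lemma in the form of `Inv2`
-/

set_option autoImplicit false

namespace Pool.OddHC

variable {k : ℕ}

theorem indep1_all : Indep1 := fun u e he w hw q p => indep1 u e he w hw q p

theorem indep2_all : Indep2 := fun v e he u hu w hw q p => indep2 v e he u hu w hw q p

/-- **THE E-RULE**, without hypotheses -/
theorem HopC.edata' {p q : Cyc k} (h : HopC p q) :
    ∃ (j : ℕ) (r : X j) (f : ZMod (2 * j + 1) → ℕ), EData p q j r f ∧ Low r.1 :=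
  h.edata indep1_all indep2_all

end Pool.OddHC
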