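import Pool.Agent.Work.MP_8f87b2_h13.R3In
set_option autoImplicit false
set_option linter.all false

/-!
# MP_8f87b2_co: the number of parts `≥ 3`

`np3 M`: the number of parts at least `3`. Every word of a bare window has at least as many of them as `R` has parts; the words of a
triple over `[c]` and `U` have at most `max 1 (np3 U) + 1`. So content links with few large parts never meet bare windows of T-cycles
with many parts.
-/

namespace Pool.OddHC
open Finset Equiv BinaryTree Pool.Agent.Work.MP_8f87b2_co HM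
variable {k : ℕ} {F F' : Set (Cyc k)} {g g' : DG k} {q d c : ℕ} {R B S X U V : BinaryTree Unit}

/-- the number of parts `≥ 3` -/
def np3 (M : Multiset ℕ) : ℕ := M.countP (3 ≤ ·)

theorem np3_add (M N : Multiset ℕ) : np3 (M + N) = np3 M + np3 N := Multiset.countP_add _ _ _

theorem np3_zero : np3 0 = 0 := Multiset.countP_zero _

theorem np3_cons (a : ℕ) (M : Multiset ℕ) : np3 (a ::ₘ M) = np3 M + if 3 ≤ a then 1 else 0 :=
  Multiset.countP_cons _ _ _

theorem np3_one (a : ℕ) : np3 {a} = if 3 ≤ a then 1 else 0 := by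
  have := np3_cons a 0
  rw [np3_zero, zero_add] at this
  exact this

theorem np3_raise_ge (M : Multiset ℕ) : np3 M ≤ np3 (raise M) := by
  by_cases h : M = 0
  · subst h
    rw [np3_zero]
    omega
  · have h1 := Multiset.cons_erase (sup_mem h)
    have h2 := np3_cons M.sup (M.erase M.sup)
    rw [h1] at h2
    have h3 : np3 (raise M) = np3 (M.erase M.sup) + if 3 ≤ M.sup + 1 then 1 else 0 := np3_cons _ _
    rw [h2, h3]
    split_ifs <;> omega

theorem np3_raise_le (M : Multiset ℕ) : np3 (raise M) ≤ max 1 (np3 M) := by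
  by_cases h : M = 0
  · subst h
    rw [raise_zero, np3_one]
    split_ifs <;> omega
  · have h1 := Multiset.cons_erase (sup_mem h)
    have h2 := np3_cons M.sup (M.erase M.sup)
    rw [h1] at h2
    have h3 : np3 (raise M) = np3 (M.erase M.sup) + if 3 ≤ M.sup + 1 then 1 else 0 := np3_cons _ _
    by_cases h4 : 3 ≤ M.sup
    · rw [h2, h3, if_pos h4, if_pos (by omega)]
      omega
    · have h5 : np3 (M.erase M.sup) = 0 := by
        unfold np3
        rw [Multiset.countP_eq_zero]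
        intro x hx
        have := Multiset.le_sup (Multiset.mem_of_mem_erase hx)
        omega
      rw [h3, h5]
      split_ifs <;> omega

theorem np3_all {M : Multiset ℕ} (h : ∀ x ∈ M, 3 ≤ x) : np3 M = Multiset.card M := Multiset.countP_eq_card.2 h

/-- every word of the mirrored bare window -/
theorem np3_aw (g : A0D d R B S) {i : ℕ} (hi : i < 20) : Multiset.card (cont R) ≤ np3 (cont (aw R (pc (d + 1)) B S i)) := by
  have hR : np3 (cont R) = Multiset.card (cont R) := np3_all fun x hx => by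
    have := g.hv x hx
    omega
  have hBS : np3 (cont B) + np3 (cont S) = np3 (cont R) := by rw [← np3_add, g.eq]
  have r1 := np3_raise_ge (cont R)
  have r2 := np3_raise_ge (raise (cont R))
  have s1 := np3_raise_ge (cont S)
  have b1 := np3_raise_ge (cont B)
  rw [← hR]
  interval_cases i <;> simp only [aw, cont_app, cont_node, cont_nil, raise_zero, add_zero, zero_add, np3_add]
  · omega
  · omega
  · omega
  · have := np3_raise_ge (cont (pc (d + 1)) + ({1} + cont R))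
    simp only [np3_add] at this
    omega
  · omega
  · omega
  · omega
  · have := np3_raise_ge (cont R + {1})
    simp only [np3_add] at this
    omega
  · omega
  · omega
  · omega
  · omega
  · omega
  · have := np3_raise_ge (cont (pc (d + 1)) + ({1} + cont B))
    simp only [np3_add] at this
    omega
  · have := np3_raise_ge (cont S + ({1} + cont (pc (d + 1))))
    simp only [np3_add] at this
    omega
  · omega
  · omega
  · have := np3_raise_ge (cont B + raise (cont S))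
    simp only [np3_add] at this
    omega
  · omega
  · have := np3_raise_ge (raise (cont B) + cont S)
    simp only [np3_add] at this
    omega

theorem np3_mX (h : NodeM k q R B S) (w0 : OddHC.X k) {i : ℕ} (hi : i < 20) :
    Multiset.card (cont R) ≤ np3 (cont (mX R B S q w0 i).1) := by
  have := np3_aw h.a0d hi
  rw [cont_mir] at this
  rw [h.word' w0 hi]
  exact this

theorem np3_wX (h : NodeM k q R B S) (w0 : OddHC.X k) {i : ℕ} (hi : i < 20) :
    Multiset.card (cont R) ≤ np3 (cont (H1.wX R B S q w0 i).1) := by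
  rw [← cont_wX]
  exact np3_mX h w0 hi

/-- the words of a triple -/
theorem np3_tri {P Q Y : BinaryTree Unit} {m : ℕ} (h : IsTri P Q Y F g)
    (h1 : np3 (cont P) + np3 (raise (cont Q)) + np3 (cont Y) ≤ m) (h2 : np3 (cont Q) + np3 (raise (cont Y)) + np3 (cont P) ≤ m)
    (h3 : np3 (cont Y) + np3 (raise (cont P)) + np3 (cont Q) ≤ m) : ∀ w ∈ g.B, np3 (cont w.1) ≤ m := by
  have key : ∀ P Q Y : BinaryTree Unit, np3 (cont (w1 P Q Y)) = np3 (cont P) + np3 (raise (cont Q)) + np3 (cont Y) := by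
    intro P Q Y
    unfold w1
    rw [cont_app, cont_node, np3_add, np3_add]
    omega
  intro w hw
  rcases h.words w hw with e | ⟨_, e | e⟩ <;> rw [e, key]
  · exact h1
  · exact h2
  · exact h3

theorem np3_pc (n : ℕ) : np3 (cont (pc n)) ≤ 1 := by
  cases n with
  | zero =>
    rw [pc, cont_nil, np3_zero]
    omega
  | succ n =>
    rw [cont_pc, np3_one]
    split_ifs <;> omega

theorem np3_rpc (n : ℕ) : np3 (raise (cont (pc n))) ≤ 1 := by
  rw [raise_pc, np3_one]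
  split_ifs <;> omega

theorem np3_rnil : np3 (raise (cont BinaryTree.nil)) = 0 := by
  rw [cont_nil, raise_zero, np3_one]
  rfl

theorem np3_TyC (h : TyC c U F g) : ∀ w ∈ g.B, np3 (cont w.1) ≤ max 1 (np3 (cont U)) + 1 := by
  have h0 : np3 (cont BinaryTree.nil) = 0 := by rw [cont_nil, np3_zero]
  have h1 : np3 (cont (H1.ch c)) ≤ 1 := by
    rw [H1.ch_eq]
    exact np3_pc c
  have h2 : np3 (raise (cont (H1.ch c))) ≤ 1 := by
    rw [H1.ch_eq]
    exact np3_rpc c
  have h3 := np3_rnil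
  have h4 := np3_raise_le (cont U)
  exact np3_tri h (by rw [h0]; omega) (by rw [h0]; omega) (by rw [h3]; omega)

theorem np3_TyC' (h : TyC' c U F g) : ∀ w ∈ g.B, np3 (cont w.1) ≤ max 1 (np3 (cont U)) + 1 := by
  have h0 : np3 (cont BinaryTree.nil) = 0 := by rw [cont_nil, np3_zero]
  have h1 : np3 (cont (H1.ch c)) ≤ 1 := by
    rw [H1.ch_eq]
    exact np3_pc c
  have h2 : np3 (raise (cont (H1.ch c))) ≤ 1 := by
    rw [H1.ch_eq]
    exact np3_rpc c
  have h3 := np3_rnil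
  have h4 := np3_raise_le (cont U)
  exact np3_tri h (by rw [h0]; omega) (by rw [h3]; omega) (by rw [h0]; omega)

theorem contc_cyc13 (w : OddHC.X k) : contc (cyc w) = cont w.1 := rfl

/-- the number of large parts of the words against the T-cycles of the group -/
theorem TyA0.np3 (h : TyA0 F g) {m : ℕ} (hn : ∃ c ∈ F, m + 2 ≤ np3 (contc c)) :
    (∀ w ∈ g.B, m < OddHC.np3 (cont w.1)) ∧ ∀ p ∈ g.arcs, ∀ w ∈ innA p, m < OddHC.np3 (cont w.1) := by
  obtain ⟨c, hc, hm⟩ := hn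
  obtain ⟨q, R, B, S, w0, h1, hne, rfl, rfl⟩ := h
  have hR : m < Multiset.card (cont R) := by
    have hc' : c = cyc (mX R B S q w0 0) := hc
    rw [hc', contc_cyc13, h1.cont0 w0, np3_add, np3_all (fun x hx => by
      have := h1.part x hx
      omega), np3_one] at hm
    split_ifs at hm <;> omega
  refine ⟨?_, ?_⟩
  · intro w hw
    obtain ⟨i, hi, rfl⟩ := mem_gad20M.1 hw
    exact hR.trans_le (np3_mX h1 w0 hi)
  · have h' : TyA0 {cyc (mX R B S q w0 0)} (gad20M (mX R B S q w0)) := ⟨q, R, B, S, w0, h1, hne, rfl, rfl⟩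
    intro p hp w hw
    obtain ⟨n, e, hb, h2⟩ := h'.path p hp
    have hw' : w = TT p.1 := hw
    obtain ⟨i, hi, e1⟩ := mem_gad20M.1 hb
    rw [hw', TT_apply, cont_TF, ← e1]
    exact hR.trans_le (np3_mX h1 w0 hi)

theorem TyB0.np3 (h : TyB0 F g) {m : ℕ} (hn : ∃ c ∈ F, m + 2 ≤ np3 (contc c)) :
    (∀ w ∈ g.B, m < OddHC.np3 (cont w.1)) ∧ ∀ p ∈ g.arcs, ∀ w ∈ innA p, m < OddHC.np3 (cont w.1) := by
  obtain ⟨c, hc, hm⟩ := hn
  have h0 := h
  obtain ⟨q, R, B, S, w0, h1, hne, h12, h18, rfl, rfl⟩ := h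
  have hall : OddHC.np3 (cont R) = Multiset.card (cont R) := np3_all fun x hx => by
    have := h1.part x hx
    omega
  have hR : m < Multiset.card (cont R) := by
    rcases hc with rfl | rfl | rfl
    · rw [contc_cyc13, h1.cont0 w0, np3_add, hall, np3_one] at hm
      split_ifs at hm <;> omega
    · rw [contc_cyc13, h1.cont1 w0, np3_add, np3_add, np3_add, hall, np3_one, np3_one] at hm
      split_ifs at hm <;> omega
    · rw [contc_cyc13, h1.cont2 w0, np3_add, np3_add, np3_add, hall, np3_one, np3_one] at hm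
      split_ifs at hm <;> omega
  refine ⟨?_, ?_⟩
  · intro w hw
    obtain ⟨i, hi, h9, rfl⟩ := mem_gadSM.1 hw
    exact hR.trans_le (np3_mX h1 w0 hi)
  · intro p hp w hw
    obtain ⟨n, e, hb, h2⟩ := h0.path p hp
    have hw' : w = TT p.1 := hw
    obtain ⟨i, hi, h9, e1⟩ := mem_gadSM.1 hb
    rw [hw', TT_apply, cont_TF, ← e1]
    exact hR.trans_le (np3_mX h1 w0 hi)

theorem TyR3.np3 (h : TyR3 F g) {m : ℕ} (hn : ∃ c ∈ F, m + 2 ≤ np3 (contc c)) :
    (∀ w ∈ g.B, m < OddHC.np3 (cont w.1)) ∧ ∀ p ∈ g.arcs, ∀ w ∈ innA p, m < OddHC.np3 (cont w.1) := by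
  obtain ⟨c, hc, hm⟩ := hn
  have h0 := h
  obtain ⟨R, B, S, w0, h1, hne, h12, h18, rfl, rfl⟩ := h
  have hR : m < Multiset.card (cont R) := by
    have hc' : c = cyc (H1.wX R B S 0 w0 0) := hc
    rw [hc', contc_cyc13, ← cont_wX, h1.cont0 w0, np3_add, np3_all (fun x hx => by
      have := h1.part x hx
      omega), np3_one] at hm
    split_ifs at hm <;> omega
  refine ⟨?_, ?_⟩
  · intro w hw
    obtain ⟨i, hi, rfl⟩ := mem_gad20.1 hw
    exact hR.trans_le (np3_wX h1 w0 hi)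
  · intro p hp w hw
    obtain ⟨n, e, hb, h2⟩ := h0.path p hp
    have hw' : w = TT p.1 := hw
    obtain ⟨i, hi, e1⟩ := mem_gad20.1 hb
    rw [hw', TT_apply, cont_TF, ← e1]
    exact hR.trans_le (np3_wX h1 w0 hi)

theorem TyS3.np3 (h : TyS3 F g) {m : ℕ} (hn : ∃ c ∈ F, m + 2 ≤ np3 (contc c)) :
    (∀ w ∈ g.B, m < OddHC.np3 (cont w.1)) ∧ ∀ p ∈ g.arcs, ∀ w ∈ innA p, m < OddHC.np3 (cont w.1) := by
  obtain ⟨c, hc, hm⟩ := hn
  have h0 := h
  obtain ⟨R, B, S, w0, h1, hne, h12, h18, -, rfl, rfl⟩ := h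
  have hall : OddHC.np3 (cont R) = Multiset.card (cont R) := np3_all fun x hx => by
    have := h1.part x hx
    omega
  have hR : m < Multiset.card (cont R) := by
    rcases hc with rfl | rfl | rfl
    · rw [contc_cyc13, ← cont_wX, h1.cont0 w0, np3_add, hall, np3_one] at hm
      split_ifs at hm <;> omega
    · rw [contc_cyc13, ← cont_wX, h1.cont1 w0, np3_add, np3_add, np3_add, hall, np3_one] at hm
      split_ifs at hm <;> omega
    · rw [contc_cyc13, ← cont_wX, h1.cont2 w0, np3_add, np3_add, np3_add, hall, np3_one] at hm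
      split_ifs at hm <;> omega
  refine ⟨?_, ?_⟩
  · intro w hw
    obtain ⟨i, hi, h9, rfl⟩ := memR_gadS.1 hw
    exact hR.trans_le (np3_wX h1 w0 hi)
  · intro p hp w hw
    obtain ⟨n, e, hb, h2⟩ := h0.path p hp
    have hw' : w = TT p.1 := hw
    obtain ⟨i, hi, h9, e1⟩ := memR_gadS.1 hb
    rw [hw', TT_apply, cont_TF, ← e1]
    exact hR.trans_le (np3_wX h1 w0 hi)

/-- **Cr** (words and inner words) against a group all whose words have many large parts -/
theorem np3_disj_C (hU : np3 (cont U) ≤ 1) (h' : TyC c U F' g') {w : OddHC.X k} (hw : 2 < np3 (cont w.1)) : w ∉ g'.B := by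
  intro hw'
  have := np3_TyC h' w hw'
  omega

theorem np3_disj_C' (hU : np3 (cont U) ≤ 1) (h' : TyC' c U F' g') {w : OddHC.X k} (hw : 2 < np3 (cont w.1)) : w ∉ g'.B := by
  intro hw'
  have := np3_TyC' h' w hw'
  omega

/-- **A0 against content links with at most one large part**: words and inner words, if `z` has at least four parts `≥ 3` -/
theorem TyA0.np3_Cr (h : TyA0 F g) (hn : ∃ c ∈ F, 4 ≤ OddHC.np3 (contc c)) (hU : OddHC.np3 (cont U) ≤ 1) (h' : TyC c U F' g') :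
    (∀ w ∈ g.B, w ∉ g'.B) ∧ ∀ p ∈ g.arcs, ∀ w ∈ innA p, w ∉ g'.B :=
  ⟨fun w hw => np3_disj_C hU h' ((h.np3 hn).1 w hw), fun p hp w hw => np3_disj_C hU h' ((h.np3 hn).2 p hp w hw)⟩

theorem TyA0.np3_Cl (h : TyA0 F g) (hn : ∃ c ∈ F, 4 ≤ OddHC.np3 (contc c)) (hU : OddHC.np3 (cont U) ≤ 1) (h' : TyC' c U F' g') :
    (∀ w ∈ g.B, w ∉ g'.B) ∧ ∀ p ∈ g.arcs, ∀ w ∈ innA p, w ∉ g'.B :=
  ⟨fun w hw => np3_disj_C' hU h' ((h.np3 hn).1 w hw), fun p hp w hw => np3_disj_C' hU h' ((h.np3 hn).2 p hp w hw)⟩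

theorem TyB0.np3_Cr (h : TyB0 F g) (hn : ∃ c ∈ F, 4 ≤ OddHC.np3 (contc c)) (hU : OddHC.np3 (cont U) ≤ 1) (h' : TyC c U F' g') :
    (∀ w ∈ g.B, w ∉ g'.B) ∧ ∀ p ∈ g.arcs, ∀ w ∈ innA p, w ∉ g'.B :=
  ⟨fun w hw => np3_disj_C hU h' ((h.np3 hn).1 w hw), fun p hp w hw => np3_disj_C hU h' ((h.np3 hn).2 p hp w hw)⟩

theorem TyB0.np3_Cl (h : TyB0 F g) (hn : ∃ c ∈ F, 4 ≤ OddHC.np3 (contc c)) (hU : OddHC.np3 (cont U) ≤ 1) (h' : TyC' c U F' g') :
    (∀ w ∈ g.B, w ∉ g'.B) ∧ ∀ p ∈ g.arcs, ∀ w ∈ innA p, w ∉ g'.B :=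
  ⟨fun w hw => np3_disj_C' hU h' ((h.np3 hn).1 w hw), fun p hp w hw => np3_disj_C' hU h' ((h.np3 hn).2 p hp w hw)⟩

theorem TyR3.np3_Cr (h : TyR3 F g) (hn : ∃ c ∈ F, 4 ≤ OddHC.np3 (contc c)) (hU : OddHC.np3 (cont U) ≤ 1) (h' : TyC c U F' g') :
    (∀ w ∈ g.B, w ∉ g'.B) ∧ ∀ p ∈ g.arcs, ∀ w ∈ innA p, w ∉ g'.B :=
  ⟨fun w hw => np3_disj_C hU h' ((h.np3 hn).1 w hw), fun p hp w hw => np3_disj_C hU h' ((h.np3 hn).2 p hp w hw)⟩

theorem TyR3.np3_Cl (h : TyR3 F g) (hn : ∃ c ∈ F, 4 ≤ OddHC.np3 (contc c)) (hU : OddHC.np3 (cont U) ≤ 1) (h' : TyC' c U F' g') :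
    (∀ w ∈ g.B, w ∉ g'.B) ∧ ∀ p ∈ g.arcs, ∀ w ∈ innA p, w ∉ g'.B :=
  ⟨fun w hw => np3_disj_C' hU h' ((h.np3 hn).1 w hw), fun p hp w hw => np3_disj_C' hU h' ((h.np3 hn).2 p hp w hw)⟩

theorem TyS3.np3_Cr (h : TyS3 F g) (hn : ∃ c ∈ F, 4 ≤ OddHC.np3 (contc c)) (hU : OddHC.np3 (cont U) ≤ 1) (h' : TyC c U F' g') :
    (∀ w ∈ g.B, w ∉ g'.B) ∧ ∀ p ∈ g.arcs, ∀ w ∈ innA p, w ∉ g'.B :=
  ⟨fun w hw => np3_disj_C hU h' ((h.np3 hn).1 w hw), fun p hp w hw => np3_disj_C hU h' ((h.np3 hn).2 p hp w hw)⟩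

theorem TyS3.np3_Cl (h : TyS3 F g) (hn : ∃ c ∈ F, 4 ≤ OddHC.np3 (contc c)) (hU : OddHC.np3 (cont U) ≤ 1) (h' : TyC' c U F' g') :
    (∀ w ∈ g.B, w ∉ g'.B) ∧ ∀ p ∈ g.arcs, ∀ w ∈ innA p, w ∉ g'.B :=
  ⟨fun w hw => np3_disj_C' hU h' ((h.np3 hn).1 w hw), fun p hp w hw => np3_disj_C' hU h' ((h.np3 hn).2 p hp w hw)⟩

end Pool.OddHC
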