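import Pool.Agent.Work.MP_8f87b2_h13.A0Sh
import Pool.Agent.Work.MP_8f87b2_h27.Inn4
set_option autoImplicit false
set_option linter.all false

/-!
# MP_8f87b2_co: the left K links (host `()(U)`, new words `U()()`, `(())U`) against the mirrored bare windows A0, B0
-/

namespace Pool.OddHC
open Finset Equiv BinaryTree Pool.Agent.Work.MP_8f87b2_co HM
variable {k : ℕ} {F F' : Set (Cyc k)} {g g' : DG k} {d : ℕ} {R B S X U V : BinaryTree Unit}

theorem aw_Km (h : A0D d R B S) {i : ℕ} (hi : i < 20) (hU : U ≠ .nil) (e : aw R (pc (d + 1)) B S i = w1 (pc 1) U .nil) :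
    (d = 0 ∧ (U = R △ .nil ∨ U = B △ S ∨ (B = .nil ∧ U = app S (.nil △ .nil)))) ∨
      (d = 1 ∧ (U = .nil △ app R (.nil △ .nil) ∨ U = (R △ .nil) △ .nil ∨ U = .nil △ app B (S △ .nil) ∨
        U = (B △ S) △ .nil)) := by
  obtain ⟨⟨r, R1, R2, r', hr, hr', hr0, hr0'⟩, ⟨s, S1, S2, s', hs, hs', hs0, hs0'⟩, hB⟩ := h.dat
  have hr1 := lo_ne_nil hr0
  have hr1' := lo_ne_nil hr0'
  have hs1 := lo_ne_nil hs0
  have hs1' := lo_ne_nil hs0'
  have hr2 : r ≠ .nil △ .nil := lo_ne_pc hr0 (show 1 < d + 2 by omega)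
  have hr2' : r' ≠ .nil △ .nil := lo_ne_pc hr0' (show 1 < d + 2 by omega)
  have hs2 : s ≠ .nil △ .nil := lo_ne_pc hs0 (show 1 < d + 2 by omega)
  have hs2' : s' ≠ .nil △ .nil := lo_ne_pc hs0' (show 1 < d + 2 by omega)
  have hRn := h.R_ne
  have hSn := h.S_ne
  have hRl := h.hv.ne_lf
  have hSl := h.hvS.ne_lf
  have hBl := h.hvB.ne_lf
  have hp0 : pc 0 = .nil := rfl
  have hp1 : pc 1 = .nil △ .nil := rfl
  have hp : ∀ n, pc (n + 1) ≠ .nil := fun n => pc_ne (by omega)
  have hp1' : ∀ n, BinaryTree.nil ≠ pc (n + 1) := fun n => (hp n).symm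
  have ha : ∀ n (Y : BinaryTree Unit), app (pc (n + 1)) Y ≠ .nil := fun n Y => by rw [pc, app]; simp
  have hUc := comps_ne hU
  have happ : ∀ P Y : BinaryTree Unit, app P (.nil △ Y) ≠ .nil := fun P Y => app_ne' (by simp)
  have e0 := congrArg comps e
  have e1 := congrArg comps e
  have e2 := congrArg (fun t => (comps t).reverse) e
  rcases hB with hB | ⟨b, B1, B2, b', hBn, hb, hb', hb0, hb0'⟩
  · have hb : comps B = [] := by rw [hB]; rfl
    interval_cases i <;>
    simp [aw, comps_w1, comps_node, comps_app, comps_pc, comps, hr, hs, hb, hr1, hs1, hr2, hs2, hp, hp0, hp1', hp1, hRn, hSn, hRl, hSl, hBl, ha, hU, hU.symm, hUc, happ] at e1 <;>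
    simp [aw, comps_w1, comps_node, comps_app, comps_pc, comps, hr', hs', hb, hr1', hs1', hr2', hs2', hp, hp0, hp1', hp1, hRn, hSn, hRl, hSl, hBl, ha, hU, hU.symm, hUc, happ] at e2 <;>
    simp only [aw, comps_w1, comps_node, comps_app, comps_pc, comps, List.nil_append, List.cons_append, List.append_assoc] at e0
    · exact Or.inl ⟨pc_z e1.1, Or.inl e1.2.symm⟩
    · exact absurd e1.1 (app_ne' (by simp))
    · exact Or.inl ⟨pc_z e1.1, Or.inr (Or.inl e1.2.symm)⟩
  · have hb1 := lo_ne_nil hb0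
    have hb1' := lo_ne_nil hb0'
    have hb2 : b ≠ .nil △ .nil := lo_ne_pc hb0 (show 1 < d + 2 by omega)
    have hb2' : b' ≠ .nil △ .nil := lo_ne_pc hb0' (show 1 < d + 2 by omega)
    interval_cases i <;>
    simp [aw, comps_w1, comps_node, comps_app, comps_pc, comps, hr, hs, hb, hr1, hs1, hb1, hr2, hs2, hb2, hBn, hp, hp0, hp1', hp1, hRn, hSn, hRl, hSl, hBl, ha, hU, hU.symm, hUc, happ] at e1 <;>
    simp [aw, comps_w1, comps_node, comps_app, comps_pc, comps, hr', hs', hb', hr1', hs1', hb1', hr2', hs2', hb2', hBn, hp, hp0, hp1', hp1, hRn, hSn, hRl, hSl, hBl, ha, hU, hU.symm, hUc, happ] at e2 <;>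
    simp only [aw, comps_w1, comps_node, comps_app, comps_pc, comps, List.nil_append, List.cons_append, List.append_assoc] at e0
    · exact Or.inl ⟨pc_z e1.1, Or.inl e1.2.symm⟩
    · exact absurd e1.1 (app_ne' (by simp))
    · exact Or.inl ⟨pc_z e1.1, Or.inr (Or.inl e1.2.symm)⟩

theorem aw_Km1 (h : A0D d R B S) {i : ℕ} (hi : i < 20) (hU : U ≠ .nil) (e : aw R (pc (d + 1)) B S i = w1 U .nil (pc 1)) :
    (d = 0 ∧ (U = R △ .nil ∨ U = B △ S ∨ (B = .nil ∧ U = app S (.nil △ .nil)))) ∨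
      (d = 1 ∧ (U = .nil △ app R (.nil △ .nil) ∨ U = (R △ .nil) △ .nil ∨ U = .nil △ app B (S △ .nil) ∨
        U = (B △ S) △ .nil)) := by
  obtain ⟨⟨r, R1, R2, r', hr, hr', hr0, hr0'⟩, ⟨s, S1, S2, s', hs, hs', hs0, hs0'⟩, hB⟩ := h.dat
  have hr1 := lo_ne_nil hr0
  have hr1' := lo_ne_nil hr0'
  have hs1 := lo_ne_nil hs0
  have hs1' := lo_ne_nil hs0'
  have hr2 : r ≠ .nil △ .nil := lo_ne_pc hr0 (show 1 < d + 2 by omega)
  have hr2' : r' ≠ .nil △ .nil := lo_ne_pc hr0' (show 1 < d + 2 by omega)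
  have hs2 : s ≠ .nil △ .nil := lo_ne_pc hs0 (show 1 < d + 2 by omega)
  have hs2' : s' ≠ .nil △ .nil := lo_ne_pc hs0' (show 1 < d + 2 by omega)
  have hRn := h.R_ne
  have hSn := h.S_ne
  have hRl := h.hv.ne_lf
  have hSl := h.hvS.ne_lf
  have hBl := h.hvB.ne_lf
  have hp0 : pc 0 = .nil := rfl
  have hp1 : pc 1 = .nil △ .nil := rfl
  have hp : ∀ n, pc (n + 1) ≠ .nil := fun n => pc_ne (by omega)
  have hp1' : ∀ n, BinaryTree.nil ≠ pc (n + 1) := fun n => (hp n).symm
  have ha : ∀ n (Y : BinaryTree Unit), app (pc (n + 1)) Y ≠ .nil := fun n Y => by rw [pc, app]; simp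
  have hUc := comps_ne hU
  have happ : ∀ P Y : BinaryTree Unit, app P (.nil △ Y) ≠ .nil := fun P Y => app_ne' (by simp)
  have e0 := congrArg comps e
  have e1 := congrArg comps e
  have e2 := congrArg (fun t => (comps t).reverse) e
  rcases hB with hB | ⟨b, B1, B2, b', hBn, hb, hb', hb0, hb0'⟩
  · have hb : comps B = [] := by rw [hB]; rfl
    interval_cases i <;>
    simp [aw, comps_w1, comps_node, comps_app, comps_pc, comps, hr, hs, hb, hr1, hs1, hr2, hs2, hp, hp0, hp1', hp1, hRn, hSn, hRl, hSl, hBl, ha, hU, hU.symm, hUc, happ] at e1 <;>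
    simp [aw, comps_w1, comps_node, comps_app, comps_pc, comps, hr', hs', hb, hr1', hs1', hr2', hs2', hp, hp0, hp1', hp1, hRn, hSn, hRl, hSl, hBl, ha, hU, hU.symm, hUc, happ] at e2 <;>
    simp only [aw, comps_w1, comps_node, comps_app, comps_pc, comps, List.nil_append, List.cons_append, List.append_assoc] at e0
    · refine Or.inl ⟨pc_z e2.1, Or.inl (comps_inj ?_)⟩
      have e5 := congrArg List.reverse e2.2
      simpa [comps_node, comps] using e5.symm
    · refine Or.inl ⟨pc_z e2.1, Or.inr (Or.inr ⟨hB, comps_inj ?_⟩)⟩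
      have e5 := congrArg List.reverse e2.2
      simp at e5
      rw [comps_app, hs', ← e5]
      simp [comps_node, comps]
    · refine Or.inl ⟨pc_z e2.1, Or.inr (Or.inl (comps_inj ?_))⟩
      have e5 := congrArg List.reverse e2.2
      simp at e5
      rw [comps_node, hs', ← e5]
  · have hb1 := lo_ne_nil hb0
    have hb1' := lo_ne_nil hb0'
    have hb2 : b ≠ .nil △ .nil := lo_ne_pc hb0 (show 1 < d + 2 by omega)
    have hb2' : b' ≠ .nil △ .nil := lo_ne_pc hb0' (show 1 < d + 2 by omega)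
    interval_cases i <;>
    simp [aw, comps_w1, comps_node, comps_app, comps_pc, comps, hr, hs, hb, hr1, hs1, hb1, hr2, hs2, hb2, hBn, hp, hp0, hp1', hp1, hRn, hSn, hRl, hSl, hBl, ha, hU, hU.symm, hUc, happ] at e1 <;>
    simp [aw, comps_w1, comps_node, comps_app, comps_pc, comps, hr', hs', hb', hr1', hs1', hb1', hr2', hs2', hb2', hBn, hp, hp0, hp1', hp1, hRn, hSn, hRl, hSl, hBl, ha, hU, hU.symm, hUc, happ] at e2 <;>
    simp only [aw, comps_w1, comps_node, comps_app, comps_pc, comps, List.nil_append, List.cons_append, List.append_assoc] at e0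
    · refine Or.inl ⟨pc_z e2.1, Or.inl (comps_inj ?_)⟩
      have e5 := congrArg List.reverse e2.2
      simpa [comps_node, comps] using e5.symm
    · refine Or.inl ⟨pc_z e2.1, Or.inr (Or.inl (comps_inj ?_))⟩
      have e5 := congrArg List.reverse e2.2
      simp at e5
      rw [comps_node, hs', ← e5]

theorem aw_Km2 (h : A0D d R B S) {i : ℕ} (hi : i < 20) (hU : U ≠ .nil) (e : aw R (pc (d + 1)) B S i = w1 .nil (pc 1) U) :
    (d = 0 ∧ (U = R △ .nil ∨ U = B △ S ∨ (B = .nil ∧ U = app S (.nil △ .nil)))) ∨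
      (d = 1 ∧ (U = .nil △ app R (.nil △ .nil) ∨ U = (R △ .nil) △ .nil ∨ U = .nil △ app B (S △ .nil) ∨
        U = (B △ S) △ .nil)) := by
  obtain ⟨⟨r, R1, R2, r', hr, hr', hr0, hr0'⟩, ⟨s, S1, S2, s', hs, hs', hs0, hs0'⟩, hB⟩ := h.dat
  have hr1 := lo_ne_nil hr0
  have hr1' := lo_ne_nil hr0'
  have hs1 := lo_ne_nil hs0
  have hs1' := lo_ne_nil hs0'
  have hr2 : r ≠ .nil △ .nil := lo_ne_pc hr0 (show 1 < d + 2 by omega)
  have hr2' : r' ≠ .nil △ .nil := lo_ne_pc hr0' (show 1 < d + 2 by omega)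
  have hs2 : s ≠ .nil △ .nil := lo_ne_pc hs0 (show 1 < d + 2 by omega)
  have hs2' : s' ≠ .nil △ .nil := lo_ne_pc hs0' (show 1 < d + 2 by omega)
  have hRn := h.R_ne
  have hSn := h.S_ne
  have hRl := h.hv.ne_lf
  have hSl := h.hvS.ne_lf
  have hBl := h.hvB.ne_lf
  have hp0 : pc 0 = .nil := rfl
  have hp1 : pc 1 = .nil △ .nil := rfl
  have hp : ∀ n, pc (n + 1) ≠ .nil := fun n => pc_ne (by omega)
  have hp1' : ∀ n, BinaryTree.nil ≠ pc (n + 1) := fun n => (hp n).symm
  have ha : ∀ n (Y : BinaryTree Unit), app (pc (n + 1)) Y ≠ .nil := fun n Y => by rw [pc, app]; simp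
  have hUc := comps_ne hU
  have happ : ∀ P Y : BinaryTree Unit, app P (.nil △ Y) ≠ .nil := fun P Y => app_ne' (by simp)
  have e0 := congrArg comps e
  have e1 := congrArg comps e
  have e2 := congrArg (fun t => (comps t).reverse) e
  rcases hB with hB | ⟨b, B1, B2, b', hBn, hb, hb', hb0, hb0'⟩
  · have hb : comps B = [] := by rw [hB]; rfl
    interval_cases i <;>
    simp [aw, comps_w1, comps_node, comps_app, comps_pc, comps, hr, hs, hb, hr1, hs1, hr2, hs2, hp, hp0, hp1', hp1, hRn, hSn, hRl, hSl, hBl, ha, hU, hU.symm, hUc, happ] at e1 <;>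
    simp [aw, comps_w1, comps_node, comps_app, comps_pc, comps, hr', hs', hb, hr1', hs1', hr2', hs2', hp, hp0, hp1', hp1, hRn, hSn, hRl, hSl, hBl, ha, hU, hU.symm, hUc, happ] at e2 <;>
    simp only [aw, comps_w1, comps_node, comps_app, comps_pc, comps, List.nil_append, List.cons_append, List.append_assoc] at e0
    · refine Or.inr ⟨pc_o e1.1, Or.inl (comps_inj ?_)⟩
      injection e0 with _ e5
      rw [← e5, comps_node, comps_app]
      rfl
    · have e6 := pc_o e1.1
      exact Or.inl ⟨by omega, Or.inl (comps_inj (by rw [← e1.2]; rfl))⟩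
    · exfalso
      have e5 := congrArg (fun t => (comps t).length) e1.1
      simp [comps_app, comps_node, comps, hr] at e5
    · exact Or.inr ⟨pc_o e1.1, Or.inr (Or.inl (comps_inj (by rw [← e1.2]; rfl)))⟩
    · refine Or.inr ⟨pc_o e1.1, Or.inr (Or.inr (Or.inl (comps_inj ?_)))⟩
      injection e0 with _ e5
      rw [← e5, comps_node, comps_app]
      rfl
    · exfalso
      have e5 := congrArg (fun t => (comps t).length) e1.1
      simp [comps_app, comps_node, comps, comps_pc] at e5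
    · have e6 := pc_o e1.1
      refine Or.inl ⟨by omega, Or.inr (Or.inl (comps_inj ?_))⟩
      injection e0 with _ e5
      rw [← e5, comps_node]
    · exfalso
      have e5 := congrArg comps e1.1
      simp [comps_app, comps_node, comps, hb, hSn] at e5
    · exact Or.inr ⟨pc_o e1.1, Or.inr (Or.inr (Or.inr (comps_inj (by rw [← e1.2]; rfl))))⟩
  · have hb1 := lo_ne_nil hb0
    have hb1' := lo_ne_nil hb0'
    have hb2 : b ≠ .nil △ .nil := lo_ne_pc hb0 (show 1 < d + 2 by omega)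
    have hb2' : b' ≠ .nil △ .nil := lo_ne_pc hb0' (show 1 < d + 2 by omega)
    interval_cases i <;>
    simp [aw, comps_w1, comps_node, comps_app, comps_pc, comps, hr, hs, hb, hr1, hs1, hb1, hr2, hs2, hb2, hBn, hp, hp0, hp1', hp1, hRn, hSn, hRl, hSl, hBl, ha, hU, hU.symm, hUc, happ] at e1 <;>
    simp [aw, comps_w1, comps_node, comps_app, comps_pc, comps, hr', hs', hb', hr1', hs1', hb1', hr2', hs2', hb2', hBn, hp, hp0, hp1', hp1, hRn, hSn, hRl, hSl, hBl, ha, hU, hU.symm, hUc, happ] at e2 <;>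
    simp only [aw, comps_w1, comps_node, comps_app, comps_pc, comps, List.nil_append, List.cons_append, List.append_assoc] at e0
    · refine Or.inr ⟨pc_o e1.1, Or.inl (comps_inj ?_)⟩
      injection e0 with _ e5
      rw [← e5, comps_node, comps_app]
      rfl
    · have e6 := pc_o e1.1
      exact Or.inl ⟨by omega, Or.inl (comps_inj (by rw [← e1.2]; rfl))⟩
    · exfalso
      have e5 := congrArg (fun t => (comps t).length) e1.1
      simp [comps_app, comps_node, comps, hr] at e5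
    · exact Or.inr ⟨pc_o e1.1, Or.inr (Or.inl (comps_inj (by rw [← e1.2]; rfl)))⟩
    · refine Or.inr ⟨pc_o e1.1, Or.inr (Or.inr (Or.inl (comps_inj ?_)))⟩
      injection e0 with _ e5
      rw [← e5, comps_node, comps_app]
      rfl
    · exfalso
      have e5 := congrArg (fun t => (comps t).length) e1.1
      simp [comps_app, comps_node, comps, comps_pc] at e5
    · have e6 := pc_o e1.1
      refine Or.inl ⟨by omega, Or.inr (Or.inl (comps_inj ?_))⟩
      injection e0 with _ e5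
      rw [← e5, comps_node]
    · exfalso
      have e5 := congrArg comps e1.1
      simp [comps_app, comps_node, comps, hb, hSn] at e5
    · exact Or.inr ⟨pc_o e1.1, Or.inr (Or.inr (Or.inr (comps_inj (by rw [← e1.2]; rfl))))⟩

/-- the hosts `()(U)` of the left K links: `U = V(A())()^n`, `A ≠ e` -/
def KmSh (U : BinaryTree Unit) : Prop :=
  ∃ V A n, A ≠ .nil ∧ U = app V (app A (.nil △ .nil) △ lp n)

theorem lo_bead {d : ℕ} {A : BinaryTree Unit} (hA : A ≠ .nil) : lo d (app A (.nil △ .nil)) ≠ 0 := by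
  intro h0
  unfold lo at h0
  rw [Multiset.card_eq_zero, Multiset.filter_eq_nil] at h0
  have h1 : 1 ∈ raise (cont (app A (.nil △ .nil))) := by
    unfold raise
    apply Multiset.mem_cons_of_mem
    rw [cont_app, cont_node, cont_nil, raise_zero, add_zero, sup_add', Multiset.sup_singleton]
    have h2 : 1 ≤ (cont A).sup := by
      rw [← ht_eq]
      exact ht_pos hA
    rw [max_eq_left h2, Multiset.erase_add_left_pos _ (sup_mem (cont_ne hA))]
    exact Multiset.mem_add.2 (Or.inr (Multiset.mem_singleton_self _))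
  exact h0 1 h1 (by omega)

theorem lp_snoc13 (n : ℕ) : lp (n + 1) = app (lp n) (.nil △ .nil) := by
  induction n with
  | zero => rfl
  | succ n ih =>
    change .nil △ lp (n + 1) = .nil △ app (lp n) (.nil △ .nil)
    rw [← ih]

/-- the last components -/
theorem KmSh.snoc (h : KmSh U) : (∃ V, U = app V (.nil △ .nil) ∧ KmSh V) ∨
    ∃ V A, A ≠ .nil ∧ U = app V (app A (.nil △ .nil) △ .nil) := by
  obtain ⟨V, A, n, hA, rfl⟩ := h
  cases n with
  | zero => exact Or.inr ⟨V, A, hA, rfl⟩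
  | succ n =>
    left
    refine ⟨app V (app A (.nil △ .nil) △ lp n), ?_, V, A, n, hA, rfl⟩
    rw [lp_snoc13, app_assoc']
    rfl

theorem KmSh.ne (h : KmSh U) : U ≠ .nil := by
  obtain ⟨V, A, n, hA, rfl⟩ := h
  exact app_ne' (by simp)

theorem KmSh.not_hv (h : KmSh U) (h' : Hv d U) : False := by
  rcases h.snoc with ⟨V, e, -⟩ | ⟨V, A, hA, e⟩
  · exact h'.ne_snoc V e
  · have h1 := h'.ls h.ne
    rw [e, ls_app _ (by simp), ls_single] at h1
    exact lo_bead hA h1

theorem KmSh.not_app (h : KmSh U) {P Y : BinaryTree Unit} (hY : Hv d Y) (h0 : Y ≠ .nil) (e : U = app P Y) : False := by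
  rcases h.snoc with ⟨V, e1, -⟩ | ⟨V, A, hA, e1⟩
  · have h1 := congrArg OddHC.ls e
    rw [e1, ls_app _ (by simp), ls_single, ls_app _ h0] at h1
    exact hY.ls_ne h0 h1.symm
  · have h1 := congrArg OddHC.ls e
    rw [e1, ls_app _ (by simp), ls_single, ls_app _ h0] at h1
    have h2 := hY.ls h0
    rw [← h1] at h2
    exact lo_bead hA h2

/-- a single component `(A())` is not heavy inside -/
theorem KmSh.not_one (h : KmSh U) {Y : BinaryTree Unit} (hY : ∀ P, Y ≠ app P (.nil △ .nil)) (e : U = Y △ .nil) : False := by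
  rcases h.snoc with ⟨V, e1, hV⟩ | ⟨V, A, hA, e1⟩
  · rw [e1] at e
    exact hV.ne (app_snoc (Y := .nil) e).1
  · rw [e1] at e
    exact hY A (app_snoc (Y := .nil) e).2.symm

theorem KmSh.clean (h : KmSh U) (g : A0D d R B S) : ¬ ((d = 0 ∧ (U = R △ .nil ∨ U = B △ S ∨ (B = .nil ∧ U = app S (.nil △ .nil)))) ∨
      (d = 1 ∧ (U = .nil △ app R (.nil △ .nil) ∨ U = (R △ .nil) △ .nil ∨ U = .nil △ app B (S △ .nil) ∨
        U = (B △ S) △ .nil))) := by
  rintro (⟨-, e | e | ⟨-, e⟩⟩ | ⟨-, e | e | e | e⟩)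
  · exact h.not_one (fun P => g.hv.ne_snoc P) e
  · exact h.not_app (P := B △ .nil) g.hvS g.S_ne e
  · rcases h.snoc with ⟨V, e1, hV⟩ | ⟨V, A, hA, e1⟩
    · rw [e1] at e
      have e2 := (app_snoc e).1
      rw [e2] at hV
      exact hV.not_hv g.hvS
    · rw [e1] at e
      exact app_ne' (by simp) (app_snoc e).2
  · rcases h.snoc with ⟨V, e1, hV⟩ | ⟨V, A, hA, e1⟩
    · have e2 : app V (.nil △ .nil) = app (.nil △ R) (.nil △ .nil) := by rw [← e1, e]; rfl
      have e3 := (app_snoc e2).1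
      rw [e3] at hV
      exact hV.not_app (P := .nil △ .nil) g.hv g.R_ne rfl
    · have e2 : app V (app A (.nil △ .nil) △ .nil) = app (.nil △ R) (.nil △ .nil) := by rw [← e1, e]; rfl
      exact app_ne' (by simp) (app_snoc e2).2
  · refine h.not_one (fun P e1 => ?_) e
    have e2 : app P (.nil △ .nil) = app .nil (R △ .nil) := e1.symm
    exact g.R_ne (app_snoc e2).2.symm
  · rcases h.snoc with ⟨V, e1, hV⟩ | ⟨V, A, hA, e1⟩
    · have e2 : app V (.nil △ .nil) = app (.nil △ B) (S △ .nil) := by rw [← e1, e]; rfl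
      exact g.S_ne (app_snoc e2).2.symm
    · have e2 : app V (app A (.nil △ .nil) △ .nil) = app (.nil △ B) (S △ .nil) := by rw [← e1, e]; rfl
      exact g.hvS.ne_snoc A (app_snoc e2).2.symm
  · refine h.not_one (fun P e1 => ?_) e
    have h1 := congrArg OddHC.ls e1
    rw [ls_app _ (by simp), ls_single, ls_node _ g.S_ne] at h1
    exact g.hvS.ls_ne g.S_ne h1

theorem aw_KmSh (g : A0D d R B S) (h : KmSh U) {i : ℕ} (hi : i < 20) :
    aw R (pc (d + 1)) B S i ≠ w1 (pc 1) U .nil ∧ aw R (pc (d + 1)) B S i ≠ w1 U .nil (pc 1) ∧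
    aw R (pc (d + 1)) B S i ≠ w1 .nil (pc 1) U :=
  ⟨fun e => h.clean g (aw_Km g hi h.ne e), fun e => h.clean g (aw_Km1 g hi h.ne e),
    fun e => h.clean g (aw_Km2 g hi h.ne e)⟩

/-- **disjointness A0 - Km** -/
theorem TyA0.disj_Km (h : TyA0 F g) (hU : KmSh U) (h' : TyK' U F' g') : ∀ w ∈ g.B, w ∉ g'.B := by
  obtain ⟨q, R, B, S, w0, h1, hne, rfl, rfl⟩ := h
  intro w hw hw'
  obtain ⟨i, hi, rfl⟩ := mem_gad20M.1 hw
  obtain ⟨k1, k2, k3⟩ := aw_KmSh h1.a0d hU hi
  rcases IsTri.words h' _ hw' with e1 | ⟨_, e1 | e1⟩ <;> rw [h1.word' w0 hi] at e1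
  · exact k1 e1
  · exact k2 e1
  · exact k3 e1

/-- **disjointness B0 - Km** -/
theorem TyB0.disj_Km (h : TyB0 F g) (hU : KmSh U) (h' : TyK' U F' g') : ∀ w ∈ g.B, w ∉ g'.B := by
  intro w hw hw'
  obtain ⟨q, R, B, S, w0, i, h1, hi, h9, rfl, -⟩ := h.words w hw
  obtain ⟨k1, k2, k3⟩ := aw_KmSh h1.a0d hU hi
  rcases IsTri.words h' _ hw' with e1 | ⟨_, e1 | e1⟩ <;> rw [h1.word' w0 hi] at e1
  · exact k1 e1
  · exact k2 e1
  · exact k3 e1

end Pool.OddHC
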