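import Pool.Agent.Work.MP_8f87b2_h13.R3E
import Pool.Agent.Work.MP_8f87b2_h13.A0Km
set_option autoImplicit false
set_option linter.all false

/-!
# MP_8f87b2_co: the left K links (host `()(U)`, new words `U()()`, `(())U`) against the RIGHT windows R3, S3 (`c = 3`)
-/

namespace Pool.OddHC
open Finset Equiv BinaryTree Pool.Agent.Work.MP_8f87b2_co HM
variable {k : ℕ} {F F' : Set (Cyc k)} {g g' : DG k} {q : ℕ} {R B S X U V : BinaryTree Unit}

theorem W_Km (h : A0D 0 R B S) {i : ℕ} (hi : i < 20) (hU : U ≠ .nil)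
    (e : H1.W R (pc 1) B S i = w1 (pc 1) U .nil) :
    U = .nil △ R ∨ U = S △ B ∨ U = app R (.nil △ .nil) := by
  obtain ⟨⟨r, R1, R2, r', hr, hr', hr0, hr0'⟩, ⟨s, S1, S2, s', hs, hs', hs0, hs0'⟩, hB⟩ := h.dat
  have hr1 := lo_ne_nil hr0
  have hr1' := lo_ne_nil hr0'
  have hs1 := lo_ne_nil hs0
  have hs1' := lo_ne_nil hs0'
  have hr2 : r ≠ .nil △ .nil := lo_ne_pc hr0 (show 1 < 0 + 2 by omega)
  have hr2' : r' ≠ .nil △ .nil := lo_ne_pc hr0' (show 1 < 0 + 2 by omega)
  have hs2 : s ≠ .nil △ .nil := lo_ne_pc hs0 (show 1 < 0 + 2 by omega)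
  have hs2' : s' ≠ .nil △ .nil := lo_ne_pc hs0' (show 1 < 0 + 2 by omega)
  have hRn := h.R_ne
  have hSn := h.S_ne
  have hRl := h.hv.ne_lf
  have hSl := h.hvS.ne_lf
  have hBl := h.hvB.ne_lf
  have hp0 : pc 0 = .nil := rfl
  have hp1 : pc 1 = .nil △ .nil := rfl
  have hp2 : pc 2 = (.nil △ .nil) △ .nil := rfl
  have hp3 : pc 3 = ((.nil △ .nil) △ .nil) △ .nil := rfl
  have hUc := comps_ne hU
  have happ : ∀ P A Y : BinaryTree Unit, app P (A △ Y) ≠ .nil := fun P A Y => app_ne' (by simp)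
  have e0 := congrArg comps e
  have e1 := congrArg comps e
  have e2 := congrArg (fun t => (comps t).reverse) e
  rcases hB with hB | ⟨b, B1, B2, b', hBn, hb, hb', hb0, hb0'⟩
  · have hb : comps B = [] := by rw [hB]; rfl
    interval_cases i <;>
    simp [H1.W, comps_w1, comps_node, comps_app, comps_pc, comps, hr, hs, hb, hr1, hs1, hr2, hs2, hp0, hp1, hp2, hp3, hRn, hSn, hRl, hSl, hBl, hU, hU.symm, hUc, happ] at e1 <;>
    simp [H1.W, comps_w1, comps_node, comps_app, comps_pc, comps, hr', hs', hb, hr1', hs1', hr2', hs2', hp0, hp1, hp2, hp3, hRn, hSn, hRl, hSl, hBl, hU, hU.symm, hUc, happ] at e2 <;>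
    simp only [H1.W, comps_w1, comps_node, comps_app, comps_pc, comps, List.nil_append, List.cons_append, List.append_assoc] at e0
    · exact Or.inl e1.symm
    · exact Or.inr (Or.inl e1.symm)
  · have hb1 := lo_ne_nil hb0
    have hb1' := lo_ne_nil hb0'
    have hb2 : b ≠ .nil △ .nil := lo_ne_pc hb0 (show 1 < 0 + 2 by omega)
    have hb2' : b' ≠ .nil △ .nil := lo_ne_pc hb0' (show 1 < 0 + 2 by omega)
    interval_cases i <;>
    simp [H1.W, comps_w1, comps_node, comps_app, comps_pc, comps, hr, hs, hb, hr1, hs1, hb1, hr2, hs2, hb2, hBn, hp0, hp1, hp2, hp3, hRn, hSn, hRl, hSl, hBl, hU, hU.symm, hUc, happ] at e1 <;>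
    simp [H1.W, comps_w1, comps_node, comps_app, comps_pc, comps, hr', hs', hb', hr1', hs1', hb1', hr2', hs2', hb2', hBn, hp0, hp1, hp2, hp3, hRn, hSn, hRl, hSl, hBl, hU, hU.symm, hUc, happ] at e2 <;>
    simp only [H1.W, comps_w1, comps_node, comps_app, comps_pc, comps, List.nil_append, List.cons_append, List.append_assoc] at e0
    · exact Or.inl e1.symm
    · exact Or.inr (Or.inl e1.symm)

theorem W_Km1 (h : A0D 0 R B S) {i : ℕ} (hi : i < 20) (hU : U ≠ .nil)
    (e : H1.W R (pc 1) B S i = w1 U .nil (pc 1)) :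
    U = .nil △ R ∨ U = S △ B ∨ U = app R (.nil △ .nil) := by
  obtain ⟨⟨r, R1, R2, r', hr, hr', hr0, hr0'⟩, ⟨s, S1, S2, s', hs, hs', hs0, hs0'⟩, hB⟩ := h.dat
  have hr1 := lo_ne_nil hr0
  have hr1' := lo_ne_nil hr0'
  have hs1 := lo_ne_nil hs0
  have hs1' := lo_ne_nil hs0'
  have hr2 : r ≠ .nil △ .nil := lo_ne_pc hr0 (show 1 < 0 + 2 by omega)
  have hr2' : r' ≠ .nil △ .nil := lo_ne_pc hr0' (show 1 < 0 + 2 by omega)
  have hs2 : s ≠ .nil △ .nil := lo_ne_pc hs0 (show 1 < 0 + 2 by omega)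
  have hs2' : s' ≠ .nil △ .nil := lo_ne_pc hs0' (show 1 < 0 + 2 by omega)
  have hRn := h.R_ne
  have hSn := h.S_ne
  have hRl := h.hv.ne_lf
  have hSl := h.hvS.ne_lf
  have hBl := h.hvB.ne_lf
  have hp0 : pc 0 = .nil := rfl
  have hp1 : pc 1 = .nil △ .nil := rfl
  have hp2 : pc 2 = (.nil △ .nil) △ .nil := rfl
  have hp3 : pc 3 = ((.nil △ .nil) △ .nil) △ .nil := rfl
  have hUc := comps_ne hU
  have happ : ∀ P A Y : BinaryTree Unit, app P (A △ Y) ≠ .nil := fun P A Y => app_ne' (by simp)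
  have e0 := congrArg comps e
  have e1 := congrArg comps e
  have e2 := congrArg (fun t => (comps t).reverse) e
  rcases hB with hB | ⟨b, B1, B2, b', hBn, hb, hb', hb0, hb0'⟩
  · have hb : comps B = [] := by rw [hB]; rfl
    interval_cases i <;>
    simp [H1.W, comps_w1, comps_node, comps_app, comps_pc, comps, hr, hs, hb, hr1, hs1, hr2, hs2, hp0, hp1, hp2, hp3, hRn, hSn, hRl, hSl, hBl, hU, hU.symm, hUc, happ] at e1 <;>
    simp [H1.W, comps_w1, comps_node, comps_app, comps_pc, comps, hr', hs', hb, hr1', hs1', hr2', hs2', hp0, hp1, hp2, hp3, hRn, hSn, hRl, hSl, hBl, hU, hU.symm, hUc, happ] at e2 <;>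
    simp only [H1.W, comps_w1, comps_node, comps_app, comps_pc, comps, List.nil_append, List.cons_append, List.append_assoc] at e0
    · refine Or.inr (Or.inr (comps_inj ?_))
      have e5 := congrArg List.reverse e2
      simp at e5
      rw [comps_app, hr', ← e5]
      simp [comps_node, comps]
    · refine Or.inl (comps_inj ?_)
      have e5 := congrArg List.reverse e2
      simp at e5
      rw [comps_node, hr', ← e5]
    · refine Or.inr (Or.inl (comps_inj ?_))
      have e5 := congrArg List.reverse e2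
      simp at e5
      rw [comps_node, hb, ← e5]
  · have hb1 := lo_ne_nil hb0
    have hb1' := lo_ne_nil hb0'
    have hb2 : b ≠ .nil △ .nil := lo_ne_pc hb0 (show 1 < 0 + 2 by omega)
    have hb2' : b' ≠ .nil △ .nil := lo_ne_pc hb0' (show 1 < 0 + 2 by omega)
    interval_cases i <;>
    simp [H1.W, comps_w1, comps_node, comps_app, comps_pc, comps, hr, hs, hb, hr1, hs1, hb1, hr2, hs2, hb2, hBn, hp0, hp1, hp2, hp3, hRn, hSn, hRl, hSl, hBl, hU, hU.symm, hUc, happ] at e1 <;>
    simp [H1.W, comps_w1, comps_node, comps_app, comps_pc, comps, hr', hs', hb', hr1', hs1', hb1', hr2', hs2', hb2', hBn, hp0, hp1, hp2, hp3, hRn, hSn, hRl, hSl, hBl, hU, hU.symm, hUc, happ] at e2 <;>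
    simp only [H1.W, comps_w1, comps_node, comps_app, comps_pc, comps, List.nil_append, List.cons_append, List.append_assoc] at e0
    · refine Or.inr (Or.inr (comps_inj ?_))
      have e5 := congrArg List.reverse e2
      simp at e5
      rw [comps_app, hr', ← e5]
      simp [comps_node, comps]
    · refine Or.inl (comps_inj ?_)
      have e5 := congrArg List.reverse e2
      simp at e5
      rw [comps_node, hr', ← e5]
    · refine Or.inr (Or.inl (comps_inj ?_))
      have e5 := congrArg List.reverse e2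
      simp at e5
      rw [comps_node, hb', ← e5]

theorem W_Km2 (h : A0D 0 R B S) {i : ℕ} (hi : i < 20) (hU : U ≠ .nil)
    (e : H1.W R (pc 1) B S i = w1 .nil (pc 1) U) :
    U = .nil △ R ∨ U = S △ B ∨ U = app R (.nil △ .nil) := by
  obtain ⟨⟨r, R1, R2, r', hr, hr', hr0, hr0'⟩, ⟨s, S1, S2, s', hs, hs', hs0, hs0'⟩, hB⟩ := h.dat
  have hr1 := lo_ne_nil hr0
  have hr1' := lo_ne_nil hr0'
  have hs1 := lo_ne_nil hs0
  have hs1' := lo_ne_nil hs0'
  have hr2 : r ≠ .nil △ .nil := lo_ne_pc hr0 (show 1 < 0 + 2 by omega)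
  have hr2' : r' ≠ .nil △ .nil := lo_ne_pc hr0' (show 1 < 0 + 2 by omega)
  have hs2 : s ≠ .nil △ .nil := lo_ne_pc hs0 (show 1 < 0 + 2 by omega)
  have hs2' : s' ≠ .nil △ .nil := lo_ne_pc hs0' (show 1 < 0 + 2 by omega)
  have hRn := h.R_ne
  have hSn := h.S_ne
  have hRl := h.hv.ne_lf
  have hSl := h.hvS.ne_lf
  have hBl := h.hvB.ne_lf
  have hp0 : pc 0 = .nil := rfl
  have hp1 : pc 1 = .nil △ .nil := rfl
  have hp2 : pc 2 = (.nil △ .nil) △ .nil := rfl
  have hp3 : pc 3 = ((.nil △ .nil) △ .nil) △ .nil := rfl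
  have hUc := comps_ne hU
  have happ : ∀ P A Y : BinaryTree Unit, app P (A △ Y) ≠ .nil := fun P A Y => app_ne' (by simp)
  have e0 := congrArg comps e
  have e1 := congrArg comps e
  have e2 := congrArg (fun t => (comps t).reverse) e
  rcases hB with hB | ⟨b, B1, B2, b', hBn, hb, hb', hb0, hb0'⟩
  · have hb : comps B = [] := by rw [hB]; rfl
    interval_cases i <;>
    simp [H1.W, comps_w1, comps_node, comps_app, comps_pc, comps, hr, hs, hb, hr1, hs1, hr2, hs2, hp0, hp1, hp2, hp3, hRn, hSn, hRl, hSl, hBl, hU, hU.symm, hUc, happ] at e1 <;>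
    simp [H1.W, comps_w1, comps_node, comps_app, comps_pc, comps, hr', hs', hb, hr1', hs1', hr2', hs2', hp0, hp1, hp2, hp3, hRn, hSn, hRl, hSl, hBl, hU, hU.symm, hUc, happ] at e2 <;>
    simp only [H1.W, comps_w1, comps_node, comps_app, comps_pc, comps, List.nil_append, List.cons_append, List.append_assoc] at e0
    · exfalso
      simp [app] at e1
    · refine Or.inl (comps_inj ?_)
      injection e0 with _ e5
      rw [← e5, comps_node]
    · refine Or.inr (Or.inl (comps_inj ?_))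
      injection e0 with _ e5
      rw [← e5, comps_node]
    · exfalso
      have e5 := congrArg (fun t => (comps t).length) e1.1
      simp [comps_app, comps_node, comps, hs] at e5
  · have hb1 := lo_ne_nil hb0
    have hb1' := lo_ne_nil hb0'
    have hb2 : b ≠ .nil △ .nil := lo_ne_pc hb0 (show 1 < 0 + 2 by omega)
    have hb2' : b' ≠ .nil △ .nil := lo_ne_pc hb0' (show 1 < 0 + 2 by omega)
    interval_cases i <;>
    simp [H1.W, comps_w1, comps_node, comps_app, comps_pc, comps, hr, hs, hb, hr1, hs1, hb1, hr2, hs2, hb2, hBn, hp0, hp1, hp2, hp3, hRn, hSn, hRl, hSl, hBl, hU, hU.symm, hUc, happ] at e1 <;>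
    simp [H1.W, comps_w1, comps_node, comps_app, comps_pc, comps, hr', hs', hb', hr1', hs1', hb1', hr2', hs2', hb2', hBn, hp0, hp1, hp2, hp3, hRn, hSn, hRl, hSl, hBl, hU, hU.symm, hUc, happ] at e2 <;>
    simp only [H1.W, comps_w1, comps_node, comps_app, comps_pc, comps, List.nil_append, List.cons_append, List.append_assoc] at e0
    · exfalso
      simp [app] at e1
    · refine Or.inl (comps_inj ?_)
      injection e0 with _ e5
      rw [← e5, comps_node]
    · exfalso
      simp [app] at e1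
    · refine Or.inr (Or.inl (comps_inj ?_))
      injection e0 with _ e5
      rw [← e5, comps_node]
    · exfalso
      have e5 := congrArg (fun t => (comps t).length) e1.1
      simp [comps_app, comps_node, comps, hs] at e5

theorem KmSh.cleanR (h : KmSh U) (g : A0D 0 R B S) : ¬ (U = .nil △ R ∨ U = S △ B ∨ U = app R (.nil △ .nil)) := by
  rintro (e | e | e)
  · exact h.not_app (P := .nil △ .nil) g.hv g.R_ne e
  · by_cases hB : B = .nil
    · subst hB
      exact h.not_one (fun P => g.hvS.ne_snoc P) e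
    · exact h.not_app (P := S △ .nil) g.hvB hB e
  · rcases h.snoc with ⟨V, e1, hV⟩ | ⟨V, A, hA, e1⟩
    · rw [e1] at e
      have e2 := (app_snoc e).1
      rw [e2] at hV
      exact hV.not_hv g.hv
    · rw [e1] at e
      exact app_ne' (by simp) (app_snoc e).2

theorem W_KmSh (g : A0D 0 R B S) (h : KmSh U) {i : ℕ} (hi : i < 20) :
    H1.W R (pc 1) B S i ≠ w1 (pc 1) U .nil ∧ H1.W R (pc 1) B S i ≠ w1 U .nil (pc 1) ∧
    H1.W R (pc 1) B S i ≠ w1 .nil (pc 1) U :=
  ⟨fun e => h.cleanR g (W_Km g hi h.ne e), fun e => h.cleanR g (W_Km1 g hi h.ne e),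
    fun e => h.cleanR g (W_Km2 g hi h.ne e)⟩

/-- **disjointness R3 - Km** -/
theorem TyR3.disj_Km (h : TyR3 F g) (hU : KmSh U) (h' : TyK' U F' g') : ∀ w ∈ g.B, w ∉ g'.B := by
  intro w hw hw'
  obtain ⟨R, B, S, w0, i, h1, -, hc, hi, rfl, -⟩ := h.words w hw
  obtain ⟨k1, k2, k3⟩ := W_KmSh h1.a0d3 hU hi
  rcases IsTri.words h' _ hw' with e1 | ⟨_, e1 | e1⟩ <;> rw [h1.rW w0 hi] at e1
  · exact k1 e1
  · exact k2 e1
  · exact k3 e1

/-- **disjointness S3 - Km** -/
theorem TyS3.disj_Km (h : TyS3 F g) (hU : KmSh U) (h' : TyK' U F' g') : ∀ w ∈ g.B, w ∉ g'.B := by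
  intro w hw hw'
  obtain ⟨R, B, S, w0, i, h1, hc, hi, -, rfl, -⟩ := h.words w hw
  obtain ⟨k1, k2, k3⟩ := W_KmSh h1.a0d3 hU hi
  rcases IsTri.words h' _ hw' with e1 | ⟨_, e1 | e1⟩ <;> rw [h1.rW w0 hi] at e1
  · exact k1 e1
  · exact k2 e1
  · exact k3 e1

end Pool.OddHC
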