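import Pool.Agent.Work.MP_8f87b2_h13.R3DnB
import Pool.Agent.Work.MP_8f87b2_h13.R3Km
set_option autoImplicit false
set_option linter.all false

/-!
# MP_8f87b2_co: the RIGHT windows of the bead free T-cycles, every smallest part `c = q + 3` (at least twice)

`TyRq q F g`: unmerged; `TySq q F g`: merged with the E pair of the words 1, 11 and 2. `TyR3.toRq`, `TyS3.toSq`: the case `q = 0`.
-/

namespace Pool.OddHC
open Finset Equiv BinaryTree Pool.Agent.Work.MP_8f87b2_co HM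
variable {k : ℕ} {F F' : Set (Cyc k)} {g g' : DG k} {q q' c : ℕ} {R B S X U V : BinaryTree Unit}

/-- TYPE Rq: the right window of a bead free T-cycle -/
def TyRq (q : ℕ) (F : Set (Cyc k)) (g : DG k) : Prop :=
  ∃ (R B S : BinaryTree Unit) (w0 : OddHC.X k), NodeM k q R B S ∧
    H1.wX R B S q w0 0 ≠ H1.wX R B S q w0 10 ∧
    F = {cyc (H1.wX R B S q w0 0)} ∧ g = gad20 (H1.wX R B S q w0)

/-- TYPE Sq: the right window of a bead free T-cycle merged with an E pair -/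
def TySq (q : ℕ) (F : Set (Cyc k)) (g : DG k) : Prop :=
  ∃ (R B S : BinaryTree Unit) (w0 : OddHC.X k), NodeM k q R B S ∧
    H1.wX R B S q w0 0 ≠ H1.wX R B S q w0 10 ∧
    ¬ TT.SameCycle (H1.wX R B S q w0 1) (H1.wX R B S q w0 2) ∧
    (B = .nil → ¬ TT.SameCycle (H1.wX R B S q w0 1) (H1.wX R B S q w0 18) ∧
      ¬ TT.SameCycle (H1.wX R B S q w0 2) (H1.wX R B S q w0 18)) ∧
    F = {cyc (H1.wX R B S q w0 0), cyc (H1.wX R B S q w0 1), cyc (H1.wX R B S q w0 2)} ∧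
    g = gadS (H1.wX R B S q w0)

theorem TyR3.toRq (h : TyR3 F g) : TyRq 0 F g := by
  obtain ⟨R, B, S, w0, h1, h2, _, _, h3, h4⟩ := h
  exact ⟨R, B, S, w0, h1, h2, h3, h4⟩

theorem TyS3.toSq (h : TyS3 F g) : TySq 0 F g := by
  obtain ⟨R, B, S, w0, h1, h2, h3, h4, _, h5, h6⟩ := h
  exact ⟨R, B, S, w0, h1, h2, h3, h4, h5, h6⟩

/-! ### TyRq -/

theorem TyRq.hF (h : TyRq q F g) : ∀ w, w ∈ g.F ↔ cyc w ∈ F := by
  obtain ⟨R, B, S, w0, h1, hne, rfl, rfl⟩ := h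
  intro w
  change TT.SameCycle _ _ ↔ cyc w = _
  rw [← cyc_eq]
  exact ⟨fun e => e.symm, fun e => e.symm⟩

theorem TyRq.new (h : TyRq q F g) : ∀ c ∈ F, ∃ u ∈ g.B, cyc u = c := by
  obtain ⟨R, B, S, w0, h1, hne, rfl, rfl⟩ := h
  rintro c rfl
  exact ⟨_, mem_gad20.2 ⟨0, by norm_num, rfl⟩, rfl⟩

theorem TyRq.old (h : TyRq q F g) : ∃ u ∈ g.B, cyc u ∉ F := by
  obtain ⟨R, B, S, w0, h1, hne, rfl, rfl⟩ := h
  refine ⟨_, mem_gad20.2 ⟨1, by norm_num, rfl⟩, ?_⟩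
  intro e
  have h2 := h1.rrank w0 1 (by norm_num) (by norm_num) (by norm_num)
  have h3 : cyc (H1.wX R B S q w0 1) = cyc (H1.wX R B S q w0 0) := e
  exact h2.ne (congrArg contc h3)

theorem TyRq.abs (h : TyRq q F g) : g.Abs := by
  obtain ⟨R, B, S, w0, h1, hne, rfl, rfl⟩ := h
  exact h1.rabs w0 hne

/-- rank: every old word is `Lower` than the new T-cycle -/
theorem TyRq.rank (h : TyRq q F g) : ∀ w ∈ g.B, cyc w ∈ F ∨ ∀ c ∈ F, H1.Lower (contc (cyc w)) (contc c) := by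
  obtain ⟨R, B, S, w0, h1, hne, rfl, rfl⟩ := h
  intro w hw
  obtain ⟨i, hi, rfl⟩ := mem_gad20.1 hw
  by_cases h0 : i = 0
  · left; rw [h0]; rfl
  · by_cases h10 : i = 10
    · left
      rw [h10]
      change cyc _ = cyc _
      exact cyc_eq.2 (h1.rsame10 w0).symm
    · right
      rintro c rfl
      exact h1.rrank w0 i hi h0 h10

theorem TyRq.path (h : TyRq q F g) : ∀ a ∈ g.arcs, ∃ n : ℕ, (TT ^ (n + 1)) a.1 = a.2 ∧ a.1 ∈ g.B ∧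
    ∀ i < n, (TT ^ (i + 1)) a.1 ∈ innA a := by
  obtain ⟨R, B, S, w0, h1, hne, rfl, rfl⟩ := h
  intro p hp
  have key : ∀ i j, (i, j) ∈ [(0, 10), (1, 11), (3, 12), (6, 15), (8, 14), (9, 17)] → i < 20 →
      p = (H1.wX R B S q w0 i, H1.wX R B S q w0 j) →
      ∃ n : ℕ, (TT ^ (n + 1)) p.1 = p.2 ∧ p.1 ∈ (gad20 (H1.wX R B S q w0)).B ∧
        ∀ i < n, (TT ^ (i + 1)) p.1 ∈ innA p := by
    rintro i j hij hj rfl
    refine ⟨1, ?_, mem_gad20.2 ⟨i, hj, rfl⟩, ?_⟩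
    · rw [pow_succ, pow_one, Perm.mul_apply]
      exact h1.rlink w0 hij
    · intro n hn
      obtain rfl : n = 0 := by omega
      rw [pow_one]
      rfl
  have hp' : p = (H1.wX R B S q w0 0, H1.wX R B S q w0 10) ∨
      p = (H1.wX R B S q w0 1, H1.wX R B S q w0 11) ∨
      p = (H1.wX R B S q w0 3, H1.wX R B S q w0 12) ∨
      p = (H1.wX R B S q w0 6, H1.wX R B S q w0 15) ∨
      p = (H1.wX R B S q w0 8, H1.wX R B S q w0 14) ∨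
      p = (H1.wX R B S q w0 9, H1.wX R B S q w0 17) := hp
  rcases hp' with e | e | e | e | e | e
  · exact key 0 10 (by simp) (by norm_num) e
  · exact key 1 11 (by simp) (by norm_num) e
  · exact key 3 12 (by simp) (by norm_num) e
  · exact key 6 15 (by simp) (by norm_num) e
  · exact key 8 14 (by simp) (by norm_num) e
  · exact key 9 17 (by simp) (by norm_num) e

theorem TyRq.words (h : TyRq q F g) : ∀ w ∈ g.B, ∃ (R B S : BinaryTree Unit) (w0 : OddHC.X k) (i : ℕ),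
    NodeM k q R B S ∧ i < 20 ∧ w = H1.wX R B S q w0 i ∧
      cyc (H1.wX R B S q w0 0) ∈ F := by
  obtain ⟨R, B, S, w0, h1, hne, rfl, rfl⟩ := h
  intro w hw
  obtain ⟨i, hi, rfl⟩ := mem_gad20.1 hw
  exact ⟨R, B, S, w0, i, h1, hi, rfl, rfl⟩

/-- **disjointness Rq - Rq** -/
theorem TyRq.dis (h : TyRq q F g) (h' : TyRq q' F' g') (hM : q < q' → M2 F) (hM' : q' < q → M2 F')
    (hd : ∀ c ∈ F, c ∉ F') : ∀ w ∈ g.B, w ∉ g'.B := by
  intro w hw hw'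
  obtain ⟨R, B, S, w0, i, h1, hi, rfl, hm⟩ := h.words w hw
  obtain ⟨R', B', S', w0', j, h1', hj, e, hm'⟩ := h'.words _ hw'
  have := h1.rdis h1' (fun g => (hM g).memr h1 hm) (fun g => (hM' g).memr h1' hm') w0 w0' hi hj e.symm
  exact hd _ hm (this ▸ hm')

/-! ### TySq -/

theorem TySq.hF (h : TySq q F g) : ∀ w, w ∈ g.F ↔ cyc w ∈ F := by
  obtain ⟨R, B, S, w0, h1, hne, h12, h18, rfl, rfl⟩ := h
  intro w
  change (TT.SameCycle _ _ ∨ TT.SameCycle _ _ ∨ TT.SameCycle _ _) ↔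
    (cyc w = _ ∨ cyc w = _ ∨ cyc w = _)
  rw [← cyc_eq, ← cyc_eq, ← cyc_eq]
  constructor
  · rintro (e | e | e)
    · exact Or.inl e.symm
    · exact Or.inr (Or.inl e.symm)
    · exact Or.inr (Or.inr e.symm)
  · rintro (e | e | e)
    · exact Or.inl e.symm
    · exact Or.inr (Or.inl e.symm)
    · exact Or.inr (Or.inr e.symm)

theorem TySq.new (h : TySq q F g) : ∀ c ∈ F, ∃ u ∈ g.B, cyc u = c := by
  obtain ⟨R, B, S, w0, h1, hne, h12, h18, rfl, rfl⟩ := h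
  rintro c (rfl | rfl | rfl)
  · exact ⟨_, memR_gadS.2 ⟨0, by norm_num, by norm_num, rfl⟩, rfl⟩
  · exact ⟨_, memR_gadS.2 ⟨1, by norm_num, by norm_num, rfl⟩, rfl⟩
  · exact ⟨_, memR_gadS.2 ⟨2, by norm_num, by norm_num, rfl⟩, rfl⟩

theorem TySq.old (h : TySq q F g) : ∃ u ∈ g.B, cyc u ∉ F := by
  obtain ⟨R, B, S, w0, h1, hne, h12, h18, rfl, rfl⟩ := h
  refine ⟨_, memR_gadS.2 ⟨3, by norm_num, by norm_num, rfl⟩, ?_⟩
  have h3 := holdR h1 w0 h18 3 (by norm_num) (by norm_num) (by norm_num) (by norm_num)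
    (by norm_num) (by norm_num)
  rintro (e | e | e)
  · exact h3.1 (cyc_eq.1 e).symm
  · exact h3.2.1 (cyc_eq.1 e).symm
  · exact h3.2.2 (cyc_eq.1 e).symm

theorem TySq.abs (h : TySq q F g) : g.Abs := by
  obtain ⟨R, B, S, w0, h1, hne, h12, h18, rfl, rfl⟩ := h
  have e := h1.dat.num
  have es := h1.size
  apply gadS_abs (R := R) (Q := H1.ch (q + 1)) (B := B) (S := S)
    (by rw [H1.ch_num]; omega) (by rw [H1.ch_num]; omega)
    (fun i hi _ => by rw [H1.wX_eq h1.dat h1.size w0 hi, H1.W_w20 _ _ _ _ i hi])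
    (fun i hi _ j hj _ e => h1.rinj w0 hne i hi j hj e)
    (h1.rsame10 w0) (h1.rsame11 w0) (fun e => h1.h01 w0 (same_mX.2 e)) (fun e => h1.h02 w0 (same_mX.2 e)) h12
  intro i hi i0 i1 i2 i9 i10 i11
  exact holdR h1 w0 h18 i hi i0 i1 i2 i10 i11

/-- all T-cycles of the group have the same height -/
theorem TySq.htg (h : TySq q F g) : ∀ c ∈ F, ∀ d ∈ F, htc c = htc d := by
  obtain ⟨R, B, S, w0, h1, hne, h12, h18, rfl, rfl⟩ := h
  have key : ∀ c ∈ ({cyc (H1.wX R B S q w0 0), cyc (H1.wX R B S q w0 1), cyc (H1.wX R B S q w0 2)} :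
      Set (Cyc k)), htc c = ht R := by
    rintro c (rfl | rfl | rfl)
    · rw [htc_cyc, ← ht_wX, h1.ht012 w0 (Or.inl rfl)]
    · rw [htc_cyc, ← ht_wX, h1.ht012 w0 (Or.inr (Or.inl rfl))]
    · rw [htc_cyc, ← ht_wX, h1.ht012 w0 (Or.inr (Or.inr rfl))]
  intro c hc d hd
  rw [key c hc, key d hd]

/-- rank: every old word is strictly higher, or one of the words 4, 5, 13, 16, 18 and `Lower` than the bare T-cycle -/
theorem TySq.rank (h : TySq q F g) : ∀ w ∈ g.B, cyc w ∈ F ∨ (∀ c ∈ F, htc c < htc (cyc w)) ∨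
    ∃ (R B S : BinaryTree Unit) (w0 : OddHC.X k) (i : ℕ), NodeM k q R B S ∧
      cyc (H1.wX R B S q w0 0) ∈ F ∧ (i = 4 ∨ i = 5 ∨ i = 13 ∨ i = 16 ∨ i = 18) ∧
      w = H1.wX R B S q w0 i ∧ H1.Lower (contc (cyc w)) (contc (cyc (H1.wX R B S q w0 0))) := by
  have hg := h.htg
  obtain ⟨R, B, S, w0, h1, hne, h12, h18, rfl, rfl⟩ := h
  intro w hw
  obtain ⟨i, hi, i9, rfl⟩ := memR_gadS.1 hw
  by_cases i0 : i = 0
  · left; rw [i0]; exact Or.inl rfl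
  by_cases i1 : i = 1
  · left; rw [i1]; exact Or.inr (Or.inl rfl)
  by_cases i2 : i = 2
  · left; rw [i2]; exact Or.inr (Or.inr rfl)
  by_cases i10 : i = 10
  · left; rw [i10]; exact Or.inl (cyc_eq.2 (h1.rsame10 w0).symm)
  by_cases i11 : i = 11
  · left; rw [i11]; exact Or.inr (Or.inl (cyc_eq.2 (h1.rsame11 w0).symm))
  by_cases hi2 : i = 4 ∨ i = 5 ∨ i = 13 ∨ i = 16 ∨ i = 18
  · right; right
    exact ⟨R, B, S, w0, i, h1, Or.inl rfl, hi2, rfl, h1.rrank w0 i hi i0 i10⟩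
  · right; left
    intro c hc
    have h2 := h1.htB w0 i hi (by omega)
    have h3 := hg c hc (cyc (H1.wX R B S q w0 0)) (Or.inl rfl)
    rw [h3, htc_cyc, htc_cyc, ← ht_wX, ← ht_wX, h1.ht012 w0 (Or.inl rfl)]
    exact h2

theorem TySq.path (h : TySq q F g) : ∀ a ∈ g.arcs, ∃ n : ℕ, (TT ^ (n + 1)) a.1 = a.2 ∧ a.1 ∈ g.B ∧
    ∀ i < n, (TT ^ (i + 1)) a.1 ∈ innA a := by
  obtain ⟨R, B, S, w0, h1, hne, h12, h18, rfl, rfl⟩ := h
  intro p hp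
  have key : ∀ i j, (i, j) ∈ [(0, 10), (1, 11), (3, 12), (6, 15), (8, 14), (9, 17)] → i < 20 →
      i ≠ 9 → p = (H1.wX R B S q w0 i, H1.wX R B S q w0 j) →
      ∃ n : ℕ, (TT ^ (n + 1)) p.1 = p.2 ∧ p.1 ∈ (gadS (H1.wX R B S q w0)).B ∧
        ∀ i < n, (TT ^ (i + 1)) p.1 ∈ innA p := by
    rintro i j hij hj h9 rfl
    refine ⟨1, ?_, memR_gadS.2 ⟨i, hj, h9, rfl⟩, ?_⟩
    · rw [pow_succ, pow_one, Perm.mul_apply]
      exact h1.rlink w0 hij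
    · intro n hn
      obtain rfl : n = 0 := by omega
      rw [pow_one]
      rfl
  have hp' : p = (H1.wX R B S q w0 3, H1.wX R B S q w0 12) ∨
      p = (H1.wX R B S q w0 6, H1.wX R B S q w0 15) ∨
      p = (H1.wX R B S q w0 8, H1.wX R B S q w0 14) := hp
  rcases hp' with e | e | e
  · exact key 3 12 (by simp) (by norm_num) (by norm_num) e
  · exact key 6 15 (by simp) (by norm_num) (by norm_num) e
  · exact key 8 14 (by simp) (by norm_num) (by norm_num) e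

/-- every word of an S3 gadget is a word of a right window -/
theorem TySq.words (h : TySq q F g) : ∀ w ∈ g.B, ∃ (R B S : BinaryTree Unit) (w0 : OddHC.X k) (i : ℕ),
    NodeM k q R B S ∧ i < 20 ∧ i ≠ 9 ∧ w = H1.wX R B S q w0 i ∧
      cyc (H1.wX R B S q w0 0) ∈ F := by
  obtain ⟨R, B, S, w0, h1, hne, h12, h18, rfl, rfl⟩ := h
  intro w hw
  obtain ⟨i, hi, h9, rfl⟩ := memR_gadS.1 hw
  exact ⟨R, B, S, w0, i, h1, hi, h9, rfl, Or.inl rfl⟩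

/-- **disjointness Sq - Sq** -/
theorem TySq.dis (h : TySq q F g) (h' : TySq q' F' g') (hM : q < q' → M2 F) (hM' : q' < q → M2 F')
    (hd : ∀ c ∈ F, c ∉ F') : ∀ w ∈ g.B, w ∉ g'.B := by
  intro w hw hw'
  obtain ⟨R, B, S, w0, i, h1, hi, h9, rfl, hm⟩ := h.words w hw
  obtain ⟨R', B', S', w0', j, h1', hj, h9', e, hm'⟩ := h'.words _ hw'
  have := h1.rdis h1' (fun g => (hM g).memr h1 hm) (fun g => (hM' g).memr h1' hm') w0 w0' hi hj e.symm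
  exact hd _ hm (this ▸ hm')

/-- **disjointness Rq - Sq** -/
theorem TySq.disR3 (h : TySq q F g) (h' : TyRq q' F' g') (hM : q < q' → M2 F) (hM' : q' < q → M2 F')
    (hd : ∀ c ∈ F, c ∉ F') : ∀ w ∈ g.B, w ∉ g'.B := by
  intro w hw hw'
  obtain ⟨R, B, S, w0, i, h1, hi, h9, rfl, hm⟩ := h.words w hw
  obtain ⟨R', B', S', w0', j, h1', hj, e, hm'⟩ := h'.words _ hw'
  have := h1.rdis h1' (fun g => (hM g).memr h1 hm) (fun g => (hM' g).memr h1' hm') w0 w0' hi hj e.symm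
  exact hd _ hm (this ▸ hm')

/-- the inner words of the arcs of the two types: `T` of the words 0, 1, 3, 6, 8, 9 -/
theorem TyRq.inn (h : TyRq q F g) : ∀ a ∈ g.arcs, ∃ (R B S : BinaryTree Unit) (w0 : OddHC.X k) (i : ℕ),
    NodeM k q R B S ∧ i ∈ [0, 1, 3, 6, 8, 9] ∧ a.1 = H1.wX R B S q w0 i ∧
      cyc (H1.wX R B S q w0 0) ∈ F := by
  obtain ⟨R, B, S, w0, h1, hne, rfl, rfl⟩ := h
  intro p hp
  have hp' : p = (H1.wX R B S q w0 0, H1.wX R B S q w0 10) ∨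
      p = (H1.wX R B S q w0 1, H1.wX R B S q w0 11) ∨
      p = (H1.wX R B S q w0 3, H1.wX R B S q w0 12) ∨
      p = (H1.wX R B S q w0 6, H1.wX R B S q w0 15) ∨
      p = (H1.wX R B S q w0 8, H1.wX R B S q w0 14) ∨
      p = (H1.wX R B S q w0 9, H1.wX R B S q w0 17) := hp
  rcases hp' with rfl | rfl | rfl | rfl | rfl | rfl
  · exact ⟨R, B, S, w0, 0, h1, by simp, rfl, rfl⟩
  · exact ⟨R, B, S, w0, 1, h1, by simp, rfl, rfl⟩
  · exact ⟨R, B, S, w0, 3, h1, by simp, rfl, rfl⟩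
  · exact ⟨R, B, S, w0, 6, h1, by simp, rfl, rfl⟩
  · exact ⟨R, B, S, w0, 8, h1, by simp, rfl, rfl⟩
  · exact ⟨R, B, S, w0, 9, h1, by simp, rfl, rfl⟩

theorem TySq.inn (h : TySq q F g) : ∀ a ∈ g.arcs, ∃ (R B S : BinaryTree Unit) (w0 : OddHC.X k) (i : ℕ),
    NodeM k q R B S ∧ i ∈ [3, 6, 8] ∧ a.1 = H1.wX R B S q w0 i ∧
      cyc (H1.wX R B S q w0 0) ∈ F := by
  obtain ⟨R, B, S, w0, h1, hne, h12, h18, rfl, rfl⟩ := h
  intro p hp
  have hp' : p = (H1.wX R B S q w0 3, H1.wX R B S q w0 12) ∨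
      p = (H1.wX R B S q w0 6, H1.wX R B S q w0 15) ∨
      p = (H1.wX R B S q w0 8, H1.wX R B S q w0 14) := hp
  rcases hp' with rfl | rfl | rfl
  · exact ⟨R, B, S, w0, 3, h1, by simp, rfl, Or.inl rfl⟩
  · exact ⟨R, B, S, w0, 6, h1, by simp, rfl, Or.inl rfl⟩
  · exact ⟨R, B, S, w0, 8, h1, by simp, rfl, Or.inl rfl⟩


/-! ### Rows -/

theorem TyRq.inn0 (h : TyRq q F g) : ∀ p ∈ g.arcs, ∀ w ∈ innA p, ∃ (R B S : BinaryTree Unit) (w0 : OddHC.X k) (i : ℕ),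
    NodeM k q R B S ∧ i ∈ [0, 1, 3, 6, 8, 9] ∧ w = TT (H1.wX R B S q w0 i) ∧ cyc (H1.wX R B S q w0 0) ∈ F := by
  intro p hp w hw
  obtain ⟨R, B, S, w0, i, h1, hi, e, hm⟩ := h.inn p hp
  refine ⟨R, B, S, w0, i, h1, hi, ?_, hm⟩
  have hw' : w = TT p.1 := hw
  rw [hw', e]

theorem TySq.inn0 (h : TySq q F g) : ∀ p ∈ g.arcs, ∀ w ∈ innA p, ∃ (R B S : BinaryTree Unit) (w0 : OddHC.X k) (i : ℕ),
    NodeM k q R B S ∧ i ∈ [3, 6, 8] ∧ w = TT (H1.wX R B S q w0 i) ∧ cyc (H1.wX R B S q w0 0) ∈ F := by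
  intro p hp w hw
  obtain ⟨R, B, S, w0, i, h1, hi, e, hm⟩ := h.inn p hp
  refine ⟨R, B, S, w0, i, h1, hi, ?_, hm⟩
  have hw' : w = TT p.1 := hw
  rw [hw', e]

theorem TyRq.innP (h : TyRq q F g) : ∀ p ∈ g.arcs, ∀ w ∈ innA p, H1.InnP (q + 3) w.1 ∧ (cyc w ∈ F ∨ H1.Sml (q + 3) w.1) := by
  intro p hp w hw
  obtain ⟨R, B, S, w0, i, h1, hi, rfl, hm⟩ := h.inn0 p hp w hw
  refine ⟨(h1.inn w0 hi).1, ?_⟩
  by_cases h0 : i = 0
  · subst h0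
    left
    have e1 : cyc (TT (H1.wX R B S q w0 0)) = cyc (H1.wX R B S q w0 0) := cyc_eq.2 ⟨-1, by simp⟩
    rw [e1]
    exact hm
  · refine Or.inr (h1.sml w0 ?_).1
    simp only [List.mem_cons, List.not_mem_nil, or_false] at hi ⊢
    omega

theorem TySq.innP (h : TySq q F g) : ∀ p ∈ g.arcs, ∀ w ∈ innA p, H1.InnP (q + 3) w.1 ∧ H1.Sml (q + 3) w.1 := by
  intro p hp w hw
  obtain ⟨R, B, S, w0, i, h1, hi, rfl, hm⟩ := h.inn0 p hp w hw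
  refine ⟨(h1.inn w0 (mem_S3_R3 hi)).1, (h1.sml w0 ?_).1⟩
  simp only [List.mem_cons, List.not_mem_nil, or_false] at hi ⊢
  omega

/-- every word is a word of a right window -/
theorem TySq.words' (h : TySq q F g) : ∀ w ∈ g.B, ∃ (R B S : BinaryTree Unit) (w0 : OddHC.X k) (i : ℕ),
    NodeM k q R B S ∧ i < 20 ∧ w = H1.wX R B S q w0 i ∧ cyc (H1.wX R B S q w0 0) ∈ F := by
  intro w hw
  obtain ⟨R, B, S, w0, i, h1, hi, -, e, hm⟩ := h.words w hw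
  exact ⟨R, B, S, w0, i, h1, hi, e, hm⟩

/-- **L** -/
theorem TyRq.disj_L (h : TyRq q F g) (h' : TyL F' g') : ∀ w ∈ g.B, w ∉ g'.B := by
  obtain ⟨R', e, h2, h3, h4, h5, ht⟩ := h'
  have hX := ht2_ne (ht_ins_ge R' e h2)
  intro w hw hw'
  obtain ⟨R, B, S, w0, i, h1, hi, rfl, -⟩ := h.words w hw
  obtain ⟨k1, k2, k3⟩ := h1.rL hX h4 h5 w0 hi
  rcases ht.words _ hw' with e1 | ⟨_, e1 | e1⟩
  · exact k1 e1
  · exact k2 e1
  · exact k3 e1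

theorem TySq.disj_L (h : TySq q F g) (h' : TyL F' g') : ∀ w ∈ g.B, w ∉ g'.B := by
  obtain ⟨R', e, h2, h3, h4, h5, ht⟩ := h'
  have hX := ht2_ne (ht_ins_ge R' e h2)
  intro w hw hw'
  obtain ⟨R, B, S, w0, i, h1, hi, rfl, -⟩ := h.words' w hw
  obtain ⟨k1, k2, k3⟩ := h1.rL hX h4 h5 w0 hi
  rcases ht.words _ hw' with e1 | ⟨_, e1 | e1⟩
  · exact k1 e1
  · exact k2 e1
  · exact k3 e1

theorem TyRq.inner_L (h : TyRq q F g) (h' : TyL F' g') : ∀ p ∈ g.arcs, ∀ w ∈ innA p, w ∉ g'.B :=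
  fun p hp w hw => (h.innP p hp w hw).1.not_L h'

theorem TyRq.inner_K (h : TyRq q F g) (h' : TyK U F' g') : ∀ p ∈ g.arcs, ∀ w ∈ innA p, w ∉ g'.B :=
  fun p hp w hw => (h.innP p hp w hw).1.not_K h'

theorem TyRq.inner_K' (h : TyRq q F g) (h' : TyK' U F' g') : ∀ p ∈ g.arcs, ∀ w ∈ innA p, w ∉ g'.B :=
  fun p hp w hw => (h.innP p hp w hw).1.not_K' h'

theorem TySq.inner_L (h : TySq q F g) (h' : TyL F' g') : ∀ p ∈ g.arcs, ∀ w ∈ innA p, w ∉ g'.B :=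
  fun p hp w hw => (h.innP p hp w hw).1.not_L h'

theorem TySq.inner_K (h : TySq q F g) (h' : TyK U F' g') : ∀ p ∈ g.arcs, ∀ w ∈ innA p, w ∉ g'.B :=
  fun p hp w hw => (h.innP p hp w hw).1.not_K h'

theorem TySq.inner_K' (h : TySq q F g) (h' : TyK' U F' g') : ∀ p ∈ g.arcs, ∀ w ∈ innA p, w ∉ g'.B :=
  fun p hp w hw => (h.innP p hp w hw).1.not_K' h'

/-! ### K and Km, `q ≥ 1` -/

/-- the exact list of the right windows against `K`: `U = (R), S(B)`, `()S` if `B = e` (`q = 0`); `()R(), ((R)), (S)B(), (S(B))`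
(`q = 1`) -/
theorem HM.NodeM.rK (h : NodeM k q R B S) (w0 : OddHC.X k) {i : ℕ} (hi : i < 20) (hU : U ≠ .nil)
    (e : (H1.wX R B S q w0 i).1 = w1 .nil U (pc 1) ∨ (H1.wX R B S q w0 i).1 = w1 U (pc 1) .nil ∨
      (H1.wX R B S q w0 i).1 = w1 (pc 1) .nil U) :
    (q = 0 ∧ (U = R △ .nil ∨ U = app S (B △ .nil) ∨ (B = .nil ∧ U = .nil △ S))) ∨
      (q = 1 ∧ (U = .nil △ app R (.nil △ .nil) ∨ U = (R △ .nil) △ .nil ∨ U = S △ app B (.nil △ .nil) ∨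
        U = app S (B △ .nil) △ .nil)) := by
  have h0 : Tsq.mir (pc 1) = pc 1 := mir_pc 1
  have key : (q = 0 ∧ (Tsq.mir U = Tsq.mir R △ .nil ∨ Tsq.mir U = Tsq.mir B △ Tsq.mir S ∨
        (Tsq.mir B = .nil ∧ Tsq.mir U = app (Tsq.mir S) (.nil △ .nil)))) ∨
      (q = 1 ∧ (Tsq.mir U = .nil △ app (Tsq.mir R) (.nil △ .nil) ∨ Tsq.mir U = (Tsq.mir R △ .nil) △ .nil ∨
        Tsq.mir U = .nil △ app (Tsq.mir B) (Tsq.mir S △ .nil) ∨ Tsq.mir U = (Tsq.mir B △ Tsq.mir S) △ .nil)) := by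
    rw [h.rword w0 hi] at e
    rcases e with e | e | e <;> have e1 := eq_mirR e <;> rw [mirR_w1, h0] at e1
    · exact aw_Km h.a0d hi (mir_ne hU) e1
    · exact aw_Km2 h.a0d hi (mir_ne hU) e1
    · exact aw_Km1 h.a0d hi (mir_ne hU) e1
  rcases key with ⟨hq, h1 | h1 | ⟨hB, h1⟩⟩ | ⟨hq, h1 | h1 | h1 | h1⟩ <;> have h2 := eq_mirR h1 <;>
    simp only [Tsq.mir_app, Tsq.mir_node, Tsq.mir_mir, mirR_nil, app_assoc', app] at h2
  · exact Or.inl ⟨hq, Or.inl h2⟩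
  · exact Or.inl ⟨hq, Or.inr (Or.inl h2)⟩
  · exact Or.inl ⟨hq, Or.inr (Or.inr ⟨eq_mirR hB, h2⟩)⟩
  · exact Or.inr ⟨hq, Or.inl h2⟩
  · exact Or.inr ⟨hq, Or.inr (Or.inl h2)⟩
  · exact Or.inr ⟨hq, Or.inr (Or.inr (Or.inl h2))⟩
  · exact Or.inr ⟨hq, Or.inr (Or.inr (Or.inr h2))⟩

/-- the exact list of the right windows against `Km` -/
theorem HM.NodeM.rKm (h : NodeM k q R B S) (w0 : OddHC.X k) {i : ℕ} (hi : i < 20) (hU : U ≠ .nil)
    (e : (H1.wX R B S q w0 i).1 = w1 (pc 1) U .nil ∨ (H1.wX R B S q w0 i).1 = w1 U .nil (pc 1) ∨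
      (H1.wX R B S q w0 i).1 = w1 .nil (pc 1) U) :
    (q = 0 ∧ (U = .nil △ R ∨ U = S △ B ∨ U = app R (.nil △ .nil))) ∨
      (q = 1 ∧ (U = (.nil △ R) △ .nil ∨ U = .nil △ (R △ .nil) ∨ U = (S △ B) △ .nil ∨
        U = .nil △ app S (B △ .nil))) := by
  have h0 : Tsq.mir (pc 1) = pc 1 := mir_pc 1
  have key : (q = 0 ∧ (Tsq.mir U = app (Tsq.mir R) (.nil △ .nil) ∨ Tsq.mir U = app (Tsq.mir B) (Tsq.mir S △ .nil) ∨
        Tsq.mir U = .nil △ Tsq.mir R)) ∨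
      (q = 1 ∧ (Tsq.mir U = app (Tsq.mir R) (.nil △ .nil) △ .nil ∨ Tsq.mir U = Tsq.mir R △ (.nil △ .nil) ∨
        Tsq.mir U = app (Tsq.mir B) (Tsq.mir S △ .nil) △ .nil ∨ Tsq.mir U = Tsq.mir B △ app (Tsq.mir S) (.nil △ .nil))) := by
    rw [h.rword w0 hi] at e
    rcases e with e | e | e <;> have e1 := eq_mirR e <;> rw [mirR_w1, h0] at e1
    · exact aw_K h.a0d hi (mir_ne hU) e1
    · exact aw_K2 h.a0d hi (mir_ne hU) e1
    · exact aw_K1 h.a0d hi (mir_ne hU) e1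
  rcases key with ⟨hq, h1 | h1 | h1⟩ | ⟨hq, h1 | h1 | h1 | h1⟩ <;> have h2 := eq_mirR h1 <;>
    simp only [Tsq.mir_app, Tsq.mir_node, Tsq.mir_mir, mirR_nil, app_assoc', app, app_nil'] at h2
  · exact Or.inl ⟨hq, Or.inl h2⟩
  · exact Or.inl ⟨hq, Or.inr (Or.inl h2)⟩
  · exact Or.inl ⟨hq, Or.inr (Or.inr h2)⟩
  · exact Or.inr ⟨hq, Or.inl h2⟩
  · exact Or.inr ⟨hq, Or.inr (Or.inl h2)⟩
  · exact Or.inr ⟨hq, Or.inr (Or.inr (Or.inl h2))⟩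
  · exact Or.inr ⟨hq, Or.inr (Or.inr (Or.inr h2))⟩

end Pool.OddHC
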