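import Pool.Agent.Work.MP_8f87b2_h13.TyR3
set_option autoImplicit false
set_option linter.all false

/-!
# MP_8f87b2_co: the E-triples against the RIGHT windows R3, S3 (`c = 3`)
-/

namespace Pool.OddHC
open Finset Equiv BinaryTree Pool.Agent.Work.MP_8f87b2_co HM
variable {k : ℕ} {F F' : Set (Cyc k)} {g g' : DG k} {q : ℕ} {R B S X : BinaryTree Unit}

/-- the data `A0D` for the unmirrored words -/
theorem HM.NodeM.a0d3 (h : NodeM k q R B S) : A0D q R B S where
  hv := fun x hx => h.part x hx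
  memw := h.memw
  top := h.top
  eq := h.eq
  hS := h.dat.htS

theorem mirR_w1 (P Q R : BinaryTree Unit) : Tsq.mir (w1 P Q R) = w1 (Tsq.mir R) (Tsq.mir Q) (Tsq.mir P) := by
  unfold w1
  rw [Tsq.mir_app, Tsq.mir_node, app_assoc']
  rfl

theorem mirR_nil : Tsq.mir BinaryTree.nil = BinaryTree.nil := rfl

theorem eq_mirR {X Y : BinaryTree Unit} (h : Tsq.mir X = Y) : X = Tsq.mir Y := by
  rw [← h, Tsq.mir_mir]

/-- `3` is a part of the contents which occur -/
theorem low_r (g : A0D 0 R B S) (hc : ClR B S) :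
    ¬ LowX (app (pc 1) (.nil △ S)) ∨ B ≠ .nil := by
  by_cases hB : B = .nil
  · left
    intro h
    have h3 : 3 ∈ cont S := by
      have := mem3R g
      rw [← g.eq, hB, cont_nil, zero_add] at this
      exact this
    apply hc.1
    apply St3.of_fs g.S_ne g.hvS
    have f2 : Fnb (fs S) S := by
      have := fnb_app (Q := .nil) g.hvS g.S_ne
      rwa [app_nil'] at this
    refine h.not ?_ (f2.bead.bead)
    rw [cont_app, cont_node]
    exact Multiset.mem_add.2 (Or.inr (Multiset.mem_add.2 (Or.inr h3)))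
  · exact Or.inr hB

theorem low_r0 (g : A0D 0 R B S) (hc : ClR B S) :
    ¬ LowX ((.nil △ R) △ .nil) ∧ ¬ LowX (.nil △ (R △ .nil)) ∧ ¬ LowX ((R △ .nil) △ .nil) ∧
    ¬ LowX (S △ app B (.nil △ .nil)) ∧ ¬ LowX ((S △ B) △ .nil) ∧
    ¬ LowX (.nil △ app S (B △ .nil)) ∧ ¬ LowX (app S (B △ .nil) △ .nil) := by
  have hR := g.top
  have hS : 0 + 3 < ht S := by rw [g.hS]; exact hR
  have hR3 : 3 ≠ (cont R).sup := by rw [← ht_eq]; omega
  have hS3 : 3 ≠ (cont S).sup := by rw [← ht_eq]; omega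
  have m1 : 3 ∈ raise (cont R) := mem_raise (mem3R g) hR3
  have hBS : 3 ∈ cont B ∨ 3 ∈ cont S := by
    have := mem3R g
    rw [← g.eq, Multiset.mem_add] at this
    exact this
  have m2 : 3 ∈ raise (cont S) + cont B := by
    rw [Multiset.mem_add]
    exact hBS.symm.imp_left fun h => mem_raise h hS3
  have m3 : 3 ∈ cont S + raise (cont B) := by
    rw [Multiset.mem_add]
    by_cases h3 : 3 ∈ cont S
    · exact Or.inl h3
    · right
      have hB3 : 3 ∈ cont B := hBS.resolve_right h3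
      have hB0 : cont B ≠ 0 := by
        intro h
        rw [h] at hB3
        exact absurd hB3 (Multiset.notMem_zero _)
      by_cases hs : 3 = (cont B).sup
      · have h5 : 3 ∈ (cont B).erase (cont B).sup := by
          have h6 : (cont B).erase (cont B).sup ≠ 0 := by
            intro h0
            have h7 : cont B = {3} := by
              rw [← Multiset.cons_erase (sup_mem hB0), h0, ← hs]
              rfl
            exact hc.2 ⟨eq_pc_of_cont h7, h3⟩
          obtain ⟨x, hx⟩ := Multiset.exists_mem_of_ne_zero h6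
          have h8 := g.hvB x (Multiset.mem_of_mem_erase hx)
          have h9 := Multiset.le_sup (Multiset.mem_of_mem_erase hx)
          rw [← hs] at h9
          have : x = 3 := by omega
          rwa [this] at hx
        unfold raise
        exact Multiset.mem_cons_of_mem h5
      · exact mem_raise hB3 hs
  have n2 : app S (B △ .nil) ≠ .nil := app_ne' (by simp)
  refine ⟨?_, ?_, ?_, ?_, ?_, ?_, ?_⟩
  · intro h
    have := h.not (by
      rw [cont_node, cont_nil, add_zero, cont_node, cont_nil, raise_zero]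
      refine mem_raise (Multiset.mem_add.2 (Or.inr (mem3R g))) ?_
      rw [sup_add', ← ht_eq]
      rw [Multiset.sup_singleton]
      omega) (Fnb.node (by simp))
    rw [ht_node] at this
    omega
  · intro h
    have := h.not (by
      rw [cont_node, cont_node]
      exact Multiset.mem_add.2 (Or.inr (Multiset.mem_add.2 (Or.inl m1)))) (Fnb.node g.R_ne).bead
    omega
  · intro h
    have := h.not (by
      rw [cont_node, cont_nil, add_zero, cont_node, cont_nil, add_zero]
      refine mem_raise m1 ?_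
      rw [sup_raise, ← ht_eq]
      omega) (Fnb.node (by simp))
    rw [ht_node] at this
    omega
  · intro h
    have := h.not (by
      rw [cont_node, cont_app, ← add_assoc]
      exact Multiset.mem_add.2 (Or.inl m2)) (Fnb.node g.S_ne)
    omega
  · intro h
    have := h.not (by
      rw [cont_node, cont_nil, add_zero, cont_node]
      refine mem_raise m2 ?_
      rw [sup_add', sup_raise, ← ht_eq, ← ht_eq]
      omega) (Fnb.node (by simp))
    rw [ht_node] at this
    omega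
  · intro h
    apply hc.1
    apply St3.of_fs g.S_ne g.hvS
    refine h.not ?_ (fnb_app g.hvS g.S_ne).bead
    rw [cont_node, cont_app, cont_node, cont_nil, add_zero]
    exact Multiset.mem_add.2 (Or.inr m3)
  · intro h
    have := h.not (by
      rw [cont_node, cont_nil, add_zero, cont_app, cont_node, cont_nil, add_zero]
      refine mem_raise m3 ?_
      rw [sup_add', sup_raise, ← ht_eq, ← ht_eq]
      omega) (Fnb.node n2)
    rw [ht_app] at this
    omega

/-- the words of an E-triple in a right window: only `X = R()()` (words 1, 2, 3) and `X = ()R()` (word 2) -/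
theorem HM.NodeM.rlow (h : NodeM k 0 R B S) (hc : ClR B S) (hX : X ≠ .nil) (hl : LowX X) (w0 : OddHC.X k) {i : ℕ}
    (hi : i < 20)
    (e : (H1.wX R B S 0 w0 i).1 = w1 .nil X .nil ∨ (H1.wX R B S 0 w0 i).1 = w1 X .nil .nil ∨
      (H1.wX R B S 0 w0 i).1 = w1 .nil .nil X) :
    ((i = 1 ∨ i = 2 ∨ i = 3) ∧ X = app R (.nil △ pc 1)) ∨ (i = 2 ∧ X = .nil △ app R (.nil △ .nil)) := by
  have hX' : Tsq.mir X ≠ .nil := mir_ne hX
  have e' : aw (Tsq.mir R) (pc (0 + 1)) (Tsq.mir B) (Tsq.mir S) i = w1 .nil (Tsq.mir X) .nil ∨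
      aw (Tsq.mir R) (pc (0 + 1)) (Tsq.mir B) (Tsq.mir S) i = w1 .nil .nil (Tsq.mir X) ∨
      aw (Tsq.mir R) (pc (0 + 1)) (Tsq.mir B) (Tsq.mir S) i = w1 (Tsq.mir X) .nil .nil := by
    rw [h.rword w0 hi] at e
    rcases e with e | e | e
    · left
      have := eq_mirR e
      rwa [mirR_w1] at this
    · right; left
      have := eq_mirR e
      rwa [mirR_w1] at this
    · right; right
      have := eq_mirR e
      rwa [mirR_w1] at this
  have key := (show _ ∨ _ ∨ _ from by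
    rcases e' with e | e | e
    · exact aw_E h.a0d hi hX' e
    · exact aw_E2 h.a0d hi hX' e
    · exact aw_E1 h.a0d hi hX' e)
  have h0 : Tsq.mir (pc 1) = pc 1 := mir_pc 1
  rcases key with ⟨hi', h1⟩ | ⟨hB, hi', h1⟩ | ⟨-, h1⟩
  · left
    refine ⟨hi', ?_⟩
    have := eq_mirR h1
    rw [Tsq.mir_app, Tsq.mir_node, Tsq.mir_mir, h0, app_assoc'] at this
    exact this
  · have h2 := eq_mirR h1
    rw [Tsq.mir_app, Tsq.mir_node, Tsq.mir_mir, h0, app_assoc'] at h2
    have hB' : B = .nil := by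
      have := eq_mirR hB
      exact this
    exfalso
    rcases low_r h.a0d3 hc with h3 | h3
    · apply h3
      have h4 : app (pc 1) (.nil △ S) = X := h2.symm
      rw [h4]
      exact hl
    · exact h3 hB'
  · obtain ⟨l1, l2, l3, l4, l5, l6, l7⟩ := low_r0 h.a0d3 hc
    rcases h1 with ⟨hi', h1⟩ | ⟨hi', h1⟩ | ⟨hi', h1⟩ | ⟨hi', h1⟩ | ⟨hi', h1⟩ | ⟨hi', h1⟩ | ⟨hi', h1⟩ | ⟨hi', h1⟩ <;>
    have h2 := eq_mirR h1 <;>
    simp only [Tsq.mir_app, Tsq.mir_node, Tsq.mir_mir, mirR_nil, app_assoc', app] at h2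
    · exact Or.inr ⟨hi', h2⟩
    · rw [h2] at hl; exact absurd hl l1
    · rw [h2] at hl; exact absurd hl l2
    · rw [h2] at hl; exact absurd hl l3
    · rw [h2] at hl; exact absurd hl l4
    · rw [h2] at hl; exact absurd hl l5
    · rw [h2] at hl; exact absurd hl l6
    · rw [h2] at hl; exact absurd hl l7

theorem low_rR (g : A0D 0 R B S) (hR : ¬ St3 R) : ¬ LowX (app R (.nil △ pc 1)) ∧
    ¬ LowX (.nil △ app R (.nil △ .nil)) := by
  refine ⟨?_, (low_R g hR).2⟩
  intro h
  apply hR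
  apply St3.of_fs g.R_ne g.hv
  refine h.not ?_ (fnb_app g.hv g.R_ne)
  rw [cont_app]
  exact Multiset.mem_add.2 (Or.inl (mem3R g))

/-- **disjointness R3 - E**: the only conflicts are `X = R()()` (words 1, 2, 3) and `X = ()R()` (word 2) -/
theorem TyR3.disj_Ex (h : TyR3 F g) (h' : TyE F' g')
    (hx : ∀ (R B S : BinaryTree Unit) (w0 : OddHC.X k), NodeM k 0 R B S → F = {cyc (H1.wX R B S 0 w0 0)} →
      (cyc (H1.wX R B S 0 w0 1) ∉ F' ∧ cyc (H1.wX R B S 0 w0 2) ∉ F') ∨
      (¬ IsTri .nil (app R (.nil △ pc 1)) .nil F' g' ∧ ¬ IsTri .nil (.nil △ app R (.nil △ .nil)) .nil F' g')) :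
    ∀ w ∈ g.B, w ∉ g'.B := by
  obtain ⟨R, B, S, w0, h1, hne, hR, hc, rfl, rfl⟩ := h
  obtain ⟨X, hX, ht, hl⟩ := h'.low
  intro w hw hw'
  obtain ⟨i, hi, rfl⟩ := mem_gad20.1 hw
  have e : (H1.wX R B S 0 w0 i).1 = w1 .nil X .nil ∨ (H1.wX R B S 0 w0 i).1 = w1 X .nil .nil ∨
      (H1.wX R B S 0 w0 i).1 = w1 .nil .nil X := by
    rcases ht.words _ hw' with e1 | ⟨_, e1 | e1⟩
    · exact Or.inl e1
    · exact Or.inr (Or.inl e1)
    · exact Or.inr (Or.inr e1)
  have ht' := ht
  obtain ⟨b, c, hb, hc', rfl⟩ := tri_F ht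
  rcases h1.rlow hc hX hl w0 hi e with ⟨_, h2⟩ | ⟨_, h2⟩
  · -- `X = R()()` : the word `X()` is word 1
    have e1 : b = H1.wX R B S 0 w0 1 := by
      apply Subtype.ext
      rw [hb, h1.rW w0 (by norm_num), h2]
      simp only [w1, H1.W, app_assoc', app, app_nil', pc]
    rcases hx R B S w0 h1 rfl with ⟨h3, -⟩ | ⟨h3, -⟩
    · exact h3 (Or.inl (by rw [← e1]))
    · apply h3
      rw [← h2]
      exact ht'
  · -- `X = ()R()` : the word `X()` is word 2
    have e1 : b = H1.wX R B S 0 w0 2 := by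
      apply Subtype.ext
      rw [hb, h1.rW w0 (by norm_num), h2]
      simp only [w1, H1.W, app_assoc', app, app_nil', pc]
    rcases hx R B S w0 h1 rfl with ⟨-, h3⟩ | ⟨-, h3⟩
    · exact h3 (Or.inl (by rw [← e1]))
    · apply h3
      rw [← h2]
      exact ht'

/-- **disjointness R3 (`R` does not start with `[3]`) - E** -/
theorem TyR3c.disj_E (h : TyR3c F g) (h' : TyE F' g') : ∀ w ∈ g.B, w ∉ g'.B := by
  obtain ⟨R, B, S, w0, h1, hne, hR, hc, rfl, rfl⟩ := h
  obtain ⟨X, hX, ht, hl⟩ := h'.low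
  intro w hw hw'
  obtain ⟨i, hi, rfl⟩ := mem_gad20.1 hw
  have e : (H1.wX R B S 0 w0 i).1 = w1 .nil X .nil ∨ (H1.wX R B S 0 w0 i).1 = w1 X .nil .nil ∨
      (H1.wX R B S 0 w0 i).1 = w1 .nil .nil X := by
    rcases ht.words _ hw' with e1 | ⟨_, e1 | e1⟩
    · exact Or.inl e1
    · exact Or.inr (Or.inl e1)
    · exact Or.inr (Or.inr e1)
  have hlow := low_rR h1.a0d3 hR
  rcases h1.rlow hc hX hl w0 hi e with ⟨_, h2⟩ | ⟨_, h2⟩
  · have hl' : LowX X := hl
    rw [h2] at hl'
    exact hlow.1 hl'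
  · have hl' : LowX X := hl
    rw [h2] at hl'
    exact hlow.2 hl'

/-- **disjointness S3 - E** -/
theorem TyS3.disj_E (h : TyS3 F g) (h' : TyE F' g') (hd : ∀ c ∈ F, c ∉ F') : ∀ w ∈ g.B, w ∉ g'.B := by
  obtain ⟨R, B, S, w0, h1, hne, h12, h18, hc, rfl, rfl⟩ := h
  obtain ⟨X, hX, ht, hl⟩ := h'.low
  intro w hw hw'
  obtain ⟨i, hi, h9, rfl⟩ := memR_gadS.1 hw
  have e : (H1.wX R B S 0 w0 i).1 = w1 .nil X .nil ∨ (H1.wX R B S 0 w0 i).1 = w1 X .nil .nil ∨
      (H1.wX R B S 0 w0 i).1 = w1 .nil .nil X := by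
    rcases ht.words _ hw' with e1 | ⟨_, e1 | e1⟩
    · exact Or.inl e1
    · exact Or.inr (Or.inl e1)
    · exact Or.inr (Or.inr e1)
  obtain ⟨b, c, hb, hc', rfl⟩ := tri_F ht
  rcases h1.rlow hc hX hl w0 hi e with ⟨_, h2⟩ | ⟨_, h2⟩
  · -- `X = R()()` : the word `X()` is word 1
    have e1 : b = H1.wX R B S 0 w0 1 := by
      apply Subtype.ext
      rw [hb, h1.rW w0 (by norm_num), h2]
      simp only [w1, H1.W, app_assoc', app, app_nil', pc]
    exact hd (cyc (H1.wX R B S 0 w0 1)) (Or.inr (Or.inl rfl)) (Or.inl (by rw [← e1]))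
  · -- `X = ()R()` : the word `X()` is word 2
    have e1 : b = H1.wX R B S 0 w0 2 := by
      apply Subtype.ext
      rw [hb, h1.rW w0 (by norm_num), h2]
      simp only [w1, H1.W, app_assoc', app, app_nil', pc]
    exact hd (cyc (H1.wX R B S 0 w0 2)) (Or.inr (Or.inr rfl)) (Or.inl (by rw [← e1]))

/-! ### L -/

theorem mirR_fb (X : BinaryTree Unit) : H1.fb (Tsq.mir X) = H1.lastB X := by
  induction X with
  | nil => rfl
  | node u A B _ ih =>
    cases u
    change H1.fb (Tsq.mir (A △ B)) = H1.lastB (A △ B)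
    rw [Tsq.mir_node]
    cases B with
    | nil =>
      cases A with
      | nil => rfl
      | node u C D =>
        have h1 : Tsq.mir (BinaryTree.node u C D) ≠ .nil := mir_ne (by simp)
        change H1.isNil (Tsq.mir (BinaryTree.node u C D)) = H1.isNil (BinaryTree.node u C D)
        cases h2 : Tsq.mir (BinaryTree.node u C D) with
        | nil => exact absurd h2 h1
        | node _ _ _ => rfl
    | node u C D =>
      have h1 : Tsq.mir (BinaryTree.node u C D) ≠ .nil := mir_ne (by simp)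
      rw [H1.lastB_cons (by simp), ← ih]
      cases h2 : Tsq.mir (BinaryTree.node u C D) with
      | nil => exact absurd h2 h1
      | node _ _ _ => rfl

theorem mirR_lastB (X : BinaryTree Unit) : H1.lastB (Tsq.mir X) = H1.fb X := by
  rw [← mirR_fb, Tsq.mir_mir]

/-- the words of an L-triple in a right window -/
theorem HM.NodeM.rL (h : NodeM k q R B S) (hX : X ≠ .nil) (h1 : H1.fb X = false) (h2 : H1.lastB X = false)
    (w0 : OddHC.X k) {i : ℕ} (hi : i < 20) : (H1.wX R B S q w0 i).1 ≠ w1 (lp 1) X (lp 1) ∧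
      (H1.wX R B S q w0 i).1 ≠ w1 X (lp 1) (lp 1) ∧ (H1.wX R B S q w0 i).1 ≠ w1 (lp 1) (lp 1) X := by
  have h0 : Tsq.mir (lp 1) = lp 1 := rfl
  refine ⟨fun e => ?_, fun e => ?_, fun e => ?_⟩ <;> rw [h.rword w0 hi] at e <;>
    have e1 := eq_mirR e <;> rw [mirR_w1, h0] at e1
  · exact aw_L h.a0d hi (mir_ne hX) e1
  · exact aw_L2 h.a0d hi (mir_ne hX) (by rw [mirR_fb]; exact h2) e1
  · exact aw_L1 h.a0d hi (mir_ne hX) (by rw [mirR_lastB]; exact h1) e1

/-- **disjointness R3 - L** -/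
theorem TyR3.disj_L (h : TyR3 F g) (h' : TyL F' g') : ∀ w ∈ g.B, w ∉ g'.B := by
  obtain ⟨R', e, h2, h3, h4, h5, ht⟩ := h'
  have hX := ht2_ne (ht_ins_ge R' e h2)
  intro w hw hw'
  obtain ⟨R, B, S, w0, i, h1, -, -, hi, rfl, -⟩ := h.words w hw
  obtain ⟨k1, k2, k3⟩ := h1.rL hX h4 h5 w0 hi
  rcases ht.words _ hw' with e1 | ⟨_, e1 | e1⟩
  · exact k1 e1
  · exact k2 e1
  · exact k3 e1

/-- **disjointness S3 - L** -/
theorem TyS3.disj_L (h : TyS3 F g) (h' : TyL F' g') : ∀ w ∈ g.B, w ∉ g'.B := by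
  obtain ⟨R', e, h2, h3, h4, h5, ht⟩ := h'
  have hX := ht2_ne (ht_ins_ge R' e h2)
  intro w hw hw'
  obtain ⟨R, B, S, w0, i, h1, -, hi, -, rfl, -⟩ := h.words w hw
  obtain ⟨k1, k2, k3⟩ := h1.rL hX h4 h5 w0 hi
  rcases ht.words _ hw' with e1 | ⟨_, e1 | e1⟩
  · exact k1 e1
  · exact k2 e1
  · exact k3 e1

end Pool.OddHC
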