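import Pool.Agent.Work.MP_8f87b2_h13.A0Low
set_option autoImplicit false
set_option linter.all false

/-!
# MP_8f87b2_co: the DOWN links (right, host `(U)[2]`, new words `U[3]`, `[2]()U`) against A0, B0
-/

namespace Pool.OddHC
open Finset Equiv BinaryTree Pool.Agent.Work.MP_8f87b2_co HM
variable {k : ℕ} {F F' : Set (Cyc k)} {g g' : DG k} {d : ℕ} {R B S X U V : BinaryTree Unit}

theorem mem_comps {A : BinaryTree Unit} (h : A ∈ comps U) {x : ℕ} (hx : x ∈ raise (cont A)) : x ∈ cont U := by
  induction U with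
  | nil => exact absurd h (by simp [comps])
  | node _ C D _ ih =>
    change x ∈ cont (C △ D)
    rw [cont_node]
    rcases List.mem_cons.1 h with h1 | h1
    · rw [← h1]
      exact Multiset.mem_add.2 (Or.inl hx)
    · exact Multiset.mem_add.2 (Or.inr (ih h1))

theorem count_comps_nil : (comps U).count .nil ≤ (cont U).count 1 := by
  induction U with
  | nil => exact Nat.le_refl _
  | node _ C D _ ih =>
    change (C :: comps D).count .nil ≤ (cont (C △ D)).count 1
    rw [cont_node, Multiset.count_add, List.count_cons]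
    by_cases h : C = .nil
    · subst h
      rw [cont_nil, raise_zero, Multiset.count_singleton_self]
      simp
      omega
    · have h2 : (C == BinaryTree.nil) = false := by simpa using h
      rw [h2]
      simp
      omega

theorem aw_D (h : A0D d R B S) {i : ℕ} (hi : i < 20) (hU : U ≠ .nil) (hU2 : ∀ x ∈ cont U, x ≠ 2 ∧ x ≠ 3) (hU1 : (cont U).count 1 ≤ 1) (e : aw R (pc (d + 1)) B S i = w1 .nil U (pc 2)) :
    (d = 1 ∧ (U = app R (.nil △ .nil) ∨ U = app B (S △ .nil))) ∨
      (d = 2 ∧ (U = app R (.nil △ .nil) △ .nil ∨ U = R △ (.nil △ .nil) ∨ U = app B (S △ .nil) △ .nil ∨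
        U = B △ app S (.nil △ .nil))) := by
  obtain ⟨⟨r, R1, R2, r', hr, hr', hr0, hr0'⟩, ⟨s, S1, S2, s', hs, hs', hs0, hs0'⟩, hB⟩ := h.dat
  have hr1 := lo_ne_nil hr0
  have hr1' := lo_ne_nil hr0'
  have hs1 := lo_ne_nil hs0
  have hs1' := lo_ne_nil hs0'
  have hr2 : r ≠ .nil △ .nil := lo_ne_pc hr0 (show 1 < d + 2 by omega)
  have hr2' : r' ≠ .nil △ .nil := lo_ne_pc hr0' (show 1 < d + 2 by omega)
  have hs2 : s ≠ .nil △ .nil := lo_ne_pc hs0 (show 1 < d + 2 by omega)
  have hs2' : s' ≠ .nil △ .nil := lo_ne_pc hs0' (show 1 < d + 2 by omega)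
  have hRn := h.R_ne
  have hSn := h.S_ne
  have hRl := h.hv.ne_lf
  have hSl := h.hvS.ne_lf
  have hBl := h.hvB.ne_lf
  have hp0 : pc 0 = .nil := rfl
  have hp1 : pc 1 = .nil △ .nil := rfl
  have hp : ∀ n, pc (n + 1) ≠ .nil := fun n => pc_ne (by omega)
  have hp1' : ∀ n, BinaryTree.nil ≠ pc (n + 1) := fun n => (hp n).symm
  have ha : ∀ n (Y : BinaryTree Unit), app (pc (n + 1)) Y ≠ .nil := fun n Y => by rw [pc, app]; simp
  have hUc := comps_ne hU
  have happ : ∀ P Y : BinaryTree Unit, app P (.nil △ Y) ≠ .nil := fun P Y => app_ne' (by simp)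
  have hp2 : pc 2 = (.nil △ .nil) △ .nil := rfl
  have hSt : d + 3 < ht S := by rw [h.hS]; exact h.top
  have hS2 : S ≠ (.nil △ .nil) △ .nil := by
    intro e
    rw [e] at hSt
    change d + 3 < 2 at hSt
    omega
  have hR2 : R ≠ (.nil △ .nil) △ .nil := h.R_pc 2
  have hfS : ∀ Y, app S Y ≠ .nil △ .nil := by
    intro Y e
    have e1 := congrArg OddHC.fs e
    rw [fs_app hSn] at e1
    exact h.hvS.fs_ne hSn e1
  have hfS2 : ∀ Y, app S Y ≠ (.nil △ .nil) △ .nil := by
    intro Y e
    have e1 := congrArg OddHC.fs e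
    rw [fs_app hSn] at e1
    exact lo_ne_pc (h.hvS.fs hSn) (show 1 < d + 2 by omega) e1
  have e0 := congrArg comps e
  have e1 := congrArg comps e
  have e2 := congrArg (fun t => (comps t).reverse) e
  rcases hB with hB | ⟨b, B1, B2, b', hBn, hb, hb', hb0, hb0'⟩
  · have hb : comps B = [] := by rw [hB]; rfl
    interval_cases i <;>
    simp [aw, comps_w1, comps_node, comps_app, comps_pc, comps, hr, hs, hb, hr1, hs1, hr2, hs2, hp, hp0, hp1', hp1, hRn, hSn, hRl, hSl, hBl, ha, hU, hU.symm, hUc, happ, hp2, hS2, hR2, hfS, hfS2] at e1 <;>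
    simp [aw, comps_w1, comps_node, comps_app, comps_pc, comps, hr', hs', hb, hr1', hs1', hr2', hs2', hp, hp0, hp1', hp1, hRn, hSn, hRl, hSl, hBl, ha, hU, hU.symm, hUc, happ, hp2, hS2, hR2, hfS, hfS2] at e2 <;>
    simp only [aw, comps_w1, comps_node, comps_app, comps_pc, comps, List.nil_append, List.cons_append, List.append_assoc] at e0
    · exact Or.inl ⟨pc_o e1.2, Or.inl e1.1.symm⟩
    · exfalso
      have hd0 := pc_o e1.2
      have h3 : d + 3 ∈ cont R := h.memw.resolve_right fun g => absurd g.1 (by omega)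
      rw [← h.eq, hB, cont_nil, zero_add, e1.1, show d + 3 = 3 by omega] at h3
      exact (hU2 3 h3).2 rfl
    · exact Or.inl ⟨pc_o e1.2, Or.inr e1.1.symm⟩
  · have hb1 := lo_ne_nil hb0
    have hb1' := lo_ne_nil hb0'
    have hb2 : b ≠ .nil △ .nil := lo_ne_pc hb0 (show 1 < d + 2 by omega)
    have hb2' : b' ≠ .nil △ .nil := lo_ne_pc hb0' (show 1 < d + 2 by omega)
    interval_cases i <;>
    simp [aw, comps_w1, comps_node, comps_app, comps_pc, comps, hr, hs, hb, hr1, hs1, hb1, hr2, hs2, hb2, hBn, hp, hp0, hp1', hp1, hRn, hSn, hRl, hSl, hBl, ha, hU, hU.symm, hUc, happ, hp2, hS2, hR2, hfS, hfS2] at e1 <;>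
    simp [aw, comps_w1, comps_node, comps_app, comps_pc, comps, hr', hs', hb', hr1', hs1', hb1', hr2', hs2', hb2', hBn, hp, hp0, hp1', hp1, hRn, hSn, hRl, hSl, hBl, ha, hU, hU.symm, hUc, happ, hp2, hS2, hR2, hfS, hfS2] at e2 <;>
    simp only [aw, comps_w1, comps_node, comps_app, comps_pc, comps, List.nil_append, List.cons_append, List.append_assoc] at e0
    · exact Or.inl ⟨pc_o e1.2, Or.inl e1.1.symm⟩
    · exact Or.inl ⟨pc_o e1.2, Or.inr e1.1.symm⟩

/-- `pc n = pc m` -/
theorem pc_inj {n m : ℕ} (h : pc n = pc m) : n = m := by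
  have h1 := congrArg BinaryTree.numNodes h
  rwa [pc_num, pc_num] at h1

theorem aw_D1 (h : A0D d R B S) {i : ℕ} (hi : i < 20) (hU : U ≠ .nil) (hU2 : ∀ x ∈ cont U, x ≠ 2 ∧ x ≠ 3) (hU1 : (cont U).count 1 ≤ 1) (e : aw R (pc (d + 1)) B S i = w1 U (pc 2) .nil) :
    (d = 1 ∧ (U = app R (.nil △ .nil) ∨ U = app B (S △ .nil))) ∨
      (d = 2 ∧ (U = app R (.nil △ .nil) △ .nil ∨ U = R △ (.nil △ .nil) ∨ U = app B (S △ .nil) △ .nil ∨
        U = B △ app S (.nil △ .nil))) := by
  obtain ⟨⟨r, R1, R2, r', hr, hr', hr0, hr0'⟩, ⟨s, S1, S2, s', hs, hs', hs0, hs0'⟩, hB⟩ := h.dat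
  have hr1 := lo_ne_nil hr0
  have hr1' := lo_ne_nil hr0'
  have hs1 := lo_ne_nil hs0
  have hs1' := lo_ne_nil hs0'
  have hr2 : r ≠ .nil △ .nil := lo_ne_pc hr0 (show 1 < d + 2 by omega)
  have hr2' : r' ≠ .nil △ .nil := lo_ne_pc hr0' (show 1 < d + 2 by omega)
  have hs2 : s ≠ .nil △ .nil := lo_ne_pc hs0 (show 1 < d + 2 by omega)
  have hs2' : s' ≠ .nil △ .nil := lo_ne_pc hs0' (show 1 < d + 2 by omega)
  have hRn := h.R_ne
  have hSn := h.S_ne
  have hRl := h.hv.ne_lf
  have hSl := h.hvS.ne_lf
  have hBl := h.hvB.ne_lf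
  have hp0 : pc 0 = .nil := rfl
  have hp1 : pc 1 = .nil △ .nil := rfl
  have hp : ∀ n, pc (n + 1) ≠ .nil := fun n => pc_ne (by omega)
  have hp1' : ∀ n, BinaryTree.nil ≠ pc (n + 1) := fun n => (hp n).symm
  have ha : ∀ n (Y : BinaryTree Unit), app (pc (n + 1)) Y ≠ .nil := fun n Y => by rw [pc, app]; simp
  have hUc := comps_ne hU
  have happ : ∀ P Y : BinaryTree Unit, app P (.nil △ Y) ≠ .nil := fun P Y => app_ne' (by simp)
  have hp2 : pc 2 = (.nil △ .nil) △ .nil := rfl
  have hSt : d + 3 < ht S := by rw [h.hS]; exact h.top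
  have hS2 : S ≠ (.nil △ .nil) △ .nil := by
    intro e
    rw [e] at hSt
    change d + 3 < 2 at hSt
    omega
  have hR2 : R ≠ (.nil △ .nil) △ .nil := h.R_pc 2
  have hfS : ∀ Y, app S Y ≠ .nil △ .nil := by
    intro Y e
    have e1 := congrArg OddHC.fs e
    rw [fs_app hSn] at e1
    exact h.hvS.fs_ne hSn e1
  have hfS2 : ∀ Y, app S Y ≠ (.nil △ .nil) △ .nil := by
    intro Y e
    have e1 := congrArg OddHC.fs e
    rw [fs_app hSn] at e1
    exact lo_ne_pc (h.hvS.fs hSn) (show 1 < d + 2 by omega) e1
  have e0 := congrArg comps e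
  have e1 := congrArg comps e
  have e2 := congrArg (fun t => (comps t).reverse) e
  rcases hB with hB | ⟨b, B1, B2, b', hBn, hb, hb', hb0, hb0'⟩
  · have hb : comps B = [] := by rw [hB]; rfl
    interval_cases i <;>
    simp [aw, comps_w1, comps_node, comps_app, comps_pc, comps, hr, hs, hb, hr1, hs1, hr2, hs2, hp, hp0, hp1', hp1, hRn, hSn, hRl, hSl, hBl, ha, hU, hU.symm, hUc, happ, hp2, hS2, hR2, hfS, hfS2] at e1 <;>
    simp [aw, comps_w1, comps_node, comps_app, comps_pc, comps, hr', hs', hb, hr1', hs1', hr2', hs2', hp, hp0, hp1', hp1, hRn, hSn, hRl, hSl, hBl, ha, hU, hU.symm, hUc, happ, hp2, hS2, hR2, hfS, hfS2] at e2 <;>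
    simp only [aw, comps_w1, comps_node, comps_app, comps_pc, comps, List.nil_append, List.cons_append, List.append_assoc] at e0
    · have hd0 : d = 0 := by
        by_contra hne
        exact lo_ne_pc hr0' (show 2 < d + 2 by omega) e2.1
      have e6 : comps U = (pc (d + 1) △ .nil) :: R2 := by
        have e5 : ((pc (d + 1) △ .nil) :: R2) ++ [r'] = comps U ++ [pc 2] := by
          rw [← e0]
          simp [hr']
        exact (snoc_inj e5).1.symm
      exfalso
      exact (hU2 3 (mem_comps (A := pc (d + 1) △ .nil) (by rw [e6]; simp) (by rw [hd0, ← pc_succ, raise_pc]; simp))).2 rfl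
    · have hd0 : d = 0 := by
        by_contra hne
        exact lo_ne_pc hr0' (show 2 < d + 2 by omega) e2.1
      have e6 : comps U = .nil :: pc d :: .nil :: R2 := by
        have e5 : (.nil :: pc d :: .nil :: R2) ++ [r'] = comps U ++ [pc 2] := by
          rw [← e0]
          simp [hr']
        exact (snoc_inj e5).1.symm
      exfalso
      have h7 := count_comps_nil (U := U)
      rw [e6, hd0] at h7
      simp [List.count_cons] at h7
      omega
    · have hd : d + 1 = 2 := pc_inj e2.1
      have e6 : comps U = comps R ++ [.nil] := by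
        have e5 : (comps R ++ [.nil]) ++ [pc (d + 1)] = comps U ++ [pc 2] := by
          rw [← e0]
          simp [hb]
        exact (snoc_inj e5).1.symm
      have e7 : U = app R (.nil △ .nil) := by
        apply comps_inj
        rw [e6]
        simp [comps_app, comps_node, comps, comps_pc]
      exact Or.inl ⟨by omega, Or.inl e7⟩
    · have hd : d = 2 := pc_inj e2.1
      have e6 : comps U = [app R (.nil △ .nil)] := by
        have e5 : ([app R (.nil △ .nil)]) ++ [pc d] = comps U ++ [pc 2] := by
          rw [← e0]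
          simp [hb]
        exact (snoc_inj e5).1.symm
      have e7 : U = app R (.nil △ .nil) △ .nil := by
        apply comps_inj
        rw [e6]
        simp [comps_app, comps_node, comps, comps_pc]
      exact Or.inr ⟨hd, Or.inl e7⟩
    · have hd : d = 2 := pc_inj e2.1
      have e6 : comps U = [R, .nil] := by
        have e5 : ([R, .nil]) ++ [pc d] = comps U ++ [pc 2] := by
          rw [← e0]
          simp [hb]
        exact (snoc_inj e5).1.symm
      have e7 : U = R △ (.nil △ .nil) := by
        apply comps_inj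
        rw [e6]
        simp [comps_app, comps_node, comps, comps_pc]
      exact Or.inr ⟨hd, Or.inr (Or.inl e7)⟩
    · exfalso
      have hd0 : d = 0 := by have := pc_o e2.1; omega
      have e6 : comps U = comps S := by
        have e5 : comps S ++ [pc (d + 2)] = comps U ++ [pc 2] := by
          rw [← e0]
          simp [hb]
          rfl
        exact (snoc_inj e5).1.symm
      have e7 := comps_inj e6
      have h3 : d + 3 ∈ cont R := h.memw.resolve_right fun g => absurd g.1 (by omega)
      rw [← h.eq, hB, cont_nil, zero_add, ← e7, show d + 3 = 3 by omega] at h3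
      exact (hU2 3 h3).2 rfl
    · have hd0 : d = 0 := by
        by_contra hne
        exact lo_ne_pc hs0' (show 2 < d + 2 by omega) e2.1
      have e6 : comps U = app (pc (d + 1)) (.nil △ B) :: S2 := by
        have e5 : (app (pc (d + 1)) (.nil △ B) :: S2) ++ [s'] = comps U ++ [pc 2] := by
          rw [← e0]
          simp [hs']
        exact (snoc_inj e5).1.symm
      exfalso
      exact (hU2 2 (mem_comps (A := app (pc (d + 1)) (.nil △ B)) (by rw [e6]; simp) (by rw [hd0, hB, cont_app, cont_pc, cont_node, cont_nil, raise_zero]; decide))).1 rfl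
    · have hd : d + 1 = 2 := pc_inj e2.1
      have e6 : comps U = comps B ++ [S] := by
        have e5 : (comps B ++ [S]) ++ [pc (d + 1)] = comps U ++ [pc 2] := by
          rw [← e0]
          simp [hb]
        exact (snoc_inj e5).1.symm
      have e7 : U = app B (S △ .nil) := by
        apply comps_inj
        rw [e6]
        simp [comps_app, comps_node, comps, comps_pc]
      exact Or.inl ⟨by omega, Or.inr e7⟩
    · have hd0 : d = 0 := by
        by_contra hne
        exact lo_ne_pc hs0' (show 2 < d + 2 by omega) e2.1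
      have e6 : comps U = pc (d + 1) :: B :: S2 := by
        have e5 : (pc (d + 1) :: B :: S2) ++ [s'] = comps U ++ [pc 2] := by
          rw [← e0]
          simp [hs']
        exact (snoc_inj e5).1.symm
      exfalso
      exact (hU2 2 (mem_comps (A := pc (d + 1)) (by rw [e6]; simp) (by rw [hd0, raise_pc]; simp))).1 rfl
    · have hd : d = 2 := pc_inj e2.1
      have e6 : comps U = [app B (S △ .nil)] := by
        have e5 : ([app B (S △ .nil)]) ++ [pc d] = comps U ++ [pc 2] := by
          rw [← e0]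
          simp [hb]
        exact (snoc_inj e5).1.symm
      have e7 : U = app B (S △ .nil) △ .nil := by
        apply comps_inj
        rw [e6]
        simp [comps_app, comps_node, comps, comps_pc]
      exact Or.inr ⟨hd, Or.inr (Or.inr (Or.inl e7))⟩
    · have hd : d = 2 := pc_inj e2.1
      have e6 : comps U = B :: (comps S ++ [.nil]) := by
        have e5 : (B :: (comps S ++ [.nil])) ++ [pc d] = comps U ++ [pc 2] := by
          rw [← e0]
          simp [hb]
        exact (snoc_inj e5).1.symm
      have e7 : U = B △ app S (.nil △ .nil) := by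
        apply comps_inj
        rw [e6]
        simp [comps_app, comps_node, comps, comps_pc]
      exact Or.inr ⟨hd, Or.inr (Or.inr (Or.inr e7))⟩
  · have hb1 := lo_ne_nil hb0
    have hb1' := lo_ne_nil hb0'
    have hb2 : b ≠ .nil △ .nil := lo_ne_pc hb0 (show 1 < d + 2 by omega)
    have hb2' : b' ≠ .nil △ .nil := lo_ne_pc hb0' (show 1 < d + 2 by omega)
    interval_cases i <;>
    simp [aw, comps_w1, comps_node, comps_app, comps_pc, comps, hr, hs, hb, hr1, hs1, hb1, hr2, hs2, hb2, hBn, hp, hp0, hp1', hp1, hRn, hSn, hRl, hSl, hBl, ha, hU, hU.symm, hUc, happ, hp2, hS2, hR2, hfS, hfS2] at e1 <;>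
    simp [aw, comps_w1, comps_node, comps_app, comps_pc, comps, hr', hs', hb', hr1', hs1', hb1', hr2', hs2', hb2', hBn, hp, hp0, hp1', hp1, hRn, hSn, hRl, hSl, hBl, ha, hU, hU.symm, hUc, happ, hp2, hS2, hR2, hfS, hfS2] at e2 <;>
    simp only [aw, comps_w1, comps_node, comps_app, comps_pc, comps, List.nil_append, List.cons_append, List.append_assoc] at e0
    · have hd0 : d = 0 := by
        by_contra hne
        exact lo_ne_pc hr0' (show 2 < d + 2 by omega) e2.1
      have e6 : comps U = (pc (d + 1) △ .nil) :: R2 := by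
        have e5 : ((pc (d + 1) △ .nil) :: R2) ++ [r'] = comps U ++ [pc 2] := by
          rw [← e0]
          simp [hr']
        exact (snoc_inj e5).1.symm
      exfalso
      exact (hU2 3 (mem_comps (A := pc (d + 1) △ .nil) (by rw [e6]; simp) (by rw [hd0, ← pc_succ, raise_pc]; simp))).2 rfl
    · have hd0 : d = 0 := by
        by_contra hne
        exact lo_ne_pc hr0' (show 2 < d + 2 by omega) e2.1
      have e6 : comps U = .nil :: pc d :: .nil :: R2 := by
        have e5 : (.nil :: pc d :: .nil :: R2) ++ [r'] = comps U ++ [pc 2] := by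
          rw [← e0]
          simp [hr']
        exact (snoc_inj e5).1.symm
      exfalso
      have h7 := count_comps_nil (U := U)
      rw [e6, hd0] at h7
      simp [List.count_cons] at h7
      omega
    · have hd : d + 1 = 2 := pc_inj e2.1
      have e6 : comps U = comps R ++ [.nil] := by
        have e5 : (comps R ++ [.nil]) ++ [pc (d + 1)] = comps U ++ [pc 2] := by
          rw [← e0]
          simp [hb]
        exact (snoc_inj e5).1.symm
      have e7 : U = app R (.nil △ .nil) := by
        apply comps_inj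
        rw [e6]
        simp [comps_app, comps_node, comps, comps_pc]
      exact Or.inl ⟨by omega, Or.inl e7⟩
    · have hd : d = 2 := pc_inj e2.1
      have e6 : comps U = [app R (.nil △ .nil)] := by
        have e5 : ([app R (.nil △ .nil)]) ++ [pc d] = comps U ++ [pc 2] := by
          rw [← e0]
          simp [hb]
        exact (snoc_inj e5).1.symm
      have e7 : U = app R (.nil △ .nil) △ .nil := by
        apply comps_inj
        rw [e6]
        simp [comps_app, comps_node, comps, comps_pc]
      exact Or.inr ⟨hd, Or.inl e7⟩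
    · have hd : d = 2 := pc_inj e2.1
      have e6 : comps U = [R, .nil] := by
        have e5 : ([R, .nil]) ++ [pc d] = comps U ++ [pc 2] := by
          rw [← e0]
          simp [hb]
        exact (snoc_inj e5).1.symm
      have e7 : U = R △ (.nil △ .nil) := by
        apply comps_inj
        rw [e6]
        simp [comps_app, comps_node, comps, comps_pc]
      exact Or.inr ⟨hd, Or.inr (Or.inl e7)⟩
    · have hd0 : d = 0 := by
        by_contra hne
        exact lo_ne_pc hb0' (show 2 < d + 2 by omega) e2.1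
      have e6 : comps U = comps S ++ (pc (d + 1) △ .nil) :: B2 := by
        have e5 : (comps S ++ (pc (d + 1) △ .nil) :: B2) ++ [b'] = comps U ++ [pc 2] := by
          rw [← e0]
          simp [hb']
        exact (snoc_inj e5).1.symm
      exfalso
      exact (hU2 3 (mem_comps (A := pc (d + 1) △ .nil) (by rw [e6]; simp) (by rw [hd0, ← pc_succ, raise_pc]; simp))).2 rfl
    · have hd0 : d = 0 := by
        by_contra hne
        exact lo_ne_pc hb0' (show 2 < d + 2 by omega) e2.1
      have e6 : comps U = comps S ++ .nil :: pc d :: .nil :: B2 := by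
        have e5 : (comps S ++ .nil :: pc d :: .nil :: B2) ++ [b'] = comps U ++ [pc 2] := by
          rw [← e0]
          simp [hb']
        exact (snoc_inj e5).1.symm
      exfalso
      have h7 := count_comps_nil (U := U)
      rw [e6, hd0] at h7
      simp [List.count_cons] at h7
      omega
    · have hd0 : d = 0 := by
        by_contra hne
        exact lo_ne_pc hs0' (show 2 < d + 2 by omega) e2.1
      have e6 : comps U = app (pc (d + 1)) (.nil △ B) :: S2 := by
        have e5 : (app (pc (d + 1)) (.nil △ B) :: S2) ++ [s'] = comps U ++ [pc 2] := by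
          rw [← e0]
          simp [hs']
        exact (snoc_inj e5).1.symm
      exfalso
      have h7 := cont_comps U
      rw [e6, List.map_cons, List.sum_cons, hd0, cont_app, cont_pc, cont_node, cont_nil, raise_zero,
        ← add_assoc] at h7
      have h8 : 1 < (cont B).sup := by
        have h9 := h.hvB _ (sup_mem (cont_ne hBn))
        omega
      have h9 : raise ({0 + 1} + {1} + cont B) = ({0 + 1} + {1}) + raise (cont B) := by
        apply raise_add (c := 3)
        · intro x hx
          simp at hx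
          omega
        · intro x hx
          have := h.hvB x hx
          omega
        · exact cont_ne hBn
      rw [h9] at h7
      rw [h7] at hU1
      simp [Multiset.count_add] at hU1
    · have hd : d + 1 = 2 := pc_inj e2.1
      have e6 : comps U = comps B ++ [S] := by
        have e5 : (comps B ++ [S]) ++ [pc (d + 1)] = comps U ++ [pc 2] := by
          rw [← e0]
          simp [hb]
        exact (snoc_inj e5).1.symm
      have e7 : U = app B (S △ .nil) := by
        apply comps_inj
        rw [e6]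
        simp [comps_app, comps_node, comps, comps_pc]
      exact Or.inl ⟨by omega, Or.inr e7⟩
    · have hd0 : d = 0 := by
        by_contra hne
        exact lo_ne_pc hs0' (show 2 < d + 2 by omega) e2.1
      have e6 : comps U = pc (d + 1) :: B :: S2 := by
        have e5 : (pc (d + 1) :: B :: S2) ++ [s'] = comps U ++ [pc 2] := by
          rw [← e0]
          simp [hs']
        exact (snoc_inj e5).1.symm
      exfalso
      exact (hU2 2 (mem_comps (A := pc (d + 1)) (by rw [e6]; simp) (by rw [hd0, raise_pc]; simp))).1 rfl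
    · have hd : d = 2 := pc_inj e2.1
      have e6 : comps U = [app B (S △ .nil)] := by
        have e5 : ([app B (S △ .nil)]) ++ [pc d] = comps U ++ [pc 2] := by
          rw [← e0]
          simp [hb]
        exact (snoc_inj e5).1.symm
      have e7 : U = app B (S △ .nil) △ .nil := by
        apply comps_inj
        rw [e6]
        simp [comps_app, comps_node, comps, comps_pc]
      exact Or.inr ⟨hd, Or.inr (Or.inr (Or.inl e7))⟩
    · have hd : d = 2 := pc_inj e2.1
      have e6 : comps U = B :: (comps S ++ [.nil]) := by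
        have e5 : (B :: (comps S ++ [.nil])) ++ [pc d] = comps U ++ [pc 2] := by
          rw [← e0]
          simp [hb]
        exact (snoc_inj e5).1.symm
      have e7 : U = B △ app S (.nil △ .nil) := by
        apply comps_inj
        rw [e6]
        simp [comps_app, comps_node, comps, comps_pc]
      exact Or.inr ⟨hd, Or.inr (Or.inr (Or.inr e7))⟩

theorem aw_D2 (h : A0D d R B S) {i : ℕ} (hi : i < 20) (hU : U ≠ .nil) (hU2 : ∀ x ∈ cont U, x ≠ 2 ∧ x ≠ 3) (hU1 : (cont U).count 1 ≤ 1) (e : aw R (pc (d + 1)) B S i = w1 (pc 2) .nil U) :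
    (d = 1 ∧ (U = app R (.nil △ .nil) ∨ U = app B (S △ .nil))) ∨
      (d = 2 ∧ (U = app R (.nil △ .nil) △ .nil ∨ U = R △ (.nil △ .nil) ∨ U = app B (S △ .nil) △ .nil ∨
        U = B △ app S (.nil △ .nil))) := by
  obtain ⟨⟨r, R1, R2, r', hr, hr', hr0, hr0'⟩, ⟨s, S1, S2, s', hs, hs', hs0, hs0'⟩, hB⟩ := h.dat
  have hr1 := lo_ne_nil hr0
  have hr1' := lo_ne_nil hr0'
  have hs1 := lo_ne_nil hs0
  have hs1' := lo_ne_nil hs0'
  have hr2 : r ≠ .nil △ .nil := lo_ne_pc hr0 (show 1 < d + 2 by omega)
  have hr2' : r' ≠ .nil △ .nil := lo_ne_pc hr0' (show 1 < d + 2 by omega)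
  have hs2 : s ≠ .nil △ .nil := lo_ne_pc hs0 (show 1 < d + 2 by omega)
  have hs2' : s' ≠ .nil △ .nil := lo_ne_pc hs0' (show 1 < d + 2 by omega)
  have hRn := h.R_ne
  have hSn := h.S_ne
  have hRl := h.hv.ne_lf
  have hSl := h.hvS.ne_lf
  have hBl := h.hvB.ne_lf
  have hp0 : pc 0 = .nil := rfl
  have hp1 : pc 1 = .nil △ .nil := rfl
  have hp : ∀ n, pc (n + 1) ≠ .nil := fun n => pc_ne (by omega)
  have hp1' : ∀ n, BinaryTree.nil ≠ pc (n + 1) := fun n => (hp n).symm
  have ha : ∀ n (Y : BinaryTree Unit), app (pc (n + 1)) Y ≠ .nil := fun n Y => by rw [pc, app]; simp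
  have hUc := comps_ne hU
  have happ : ∀ P Y : BinaryTree Unit, app P (.nil △ Y) ≠ .nil := fun P Y => app_ne' (by simp)
  have hp2 : pc 2 = (.nil △ .nil) △ .nil := rfl
  have hSt : d + 3 < ht S := by rw [h.hS]; exact h.top
  have hS2 : S ≠ (.nil △ .nil) △ .nil := by
    intro e
    rw [e] at hSt
    change d + 3 < 2 at hSt
    omega
  have hR2 : R ≠ (.nil △ .nil) △ .nil := h.R_pc 2
  have hfS : ∀ Y, app S Y ≠ .nil △ .nil := by
    intro Y e
    have e1 := congrArg OddHC.fs e
    rw [fs_app hSn] at e1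
    exact h.hvS.fs_ne hSn e1
  have hfS2 : ∀ Y, app S Y ≠ (.nil △ .nil) △ .nil := by
    intro Y e
    have e1 := congrArg OddHC.fs e
    rw [fs_app hSn] at e1
    exact lo_ne_pc (h.hvS.fs hSn) (show 1 < d + 2 by omega) e1
  have e0 := congrArg comps e
  have e1 := congrArg comps e
  have e2 := congrArg (fun t => (comps t).reverse) e
  rcases hB with hB | ⟨b, B1, B2, b', hBn, hb, hb', hb0, hb0'⟩
  · have hb : comps B = [] := by rw [hB]; rfl
    interval_cases i <;>
    simp [aw, comps_w1, comps_node, comps_app, comps_pc, comps, hr, hs, hb, hr1, hs1, hr2, hs2, hp, hp0, hp1', hp1, hRn, hSn, hRl, hSl, hBl, ha, hU, hU.symm, hUc, happ, hp2, hS2, hR2, hfS, hfS2] at e1 <;>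
    simp [aw, comps_w1, comps_node, comps_app, comps_pc, comps, hr', hs', hb, hr1', hs1', hr2', hs2', hp, hp0, hp1', hp1, hRn, hSn, hRl, hSl, hBl, ha, hU, hU.symm, hUc, happ, hp2, hS2, hR2, hfS, hfS2] at e2 <;>
    simp only [aw, comps_w1, comps_node, comps_app, comps_pc, comps, List.nil_append, List.cons_append, List.append_assoc] at e0
    · have e6 : comps U = comps R ++ [.nil] := by
        have e4 := congrArg (fun l => l.tail.tail) e0
        exact e4.symm
      have e7 : U = app R (.nil △ .nil) := by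
        apply comps_inj
        rw [e6]
        simp [comps_app, comps_node, comps]
      exact Or.inl ⟨pc_o e1.1, Or.inl e7⟩
    · have e6 : comps U = comps B ++ [S] := by
        have e4 := congrArg (fun l => l.tail.tail) e0
        exact e4.symm
      have e7 : U = app B (S △ .nil) := by
        apply comps_inj
        rw [e6]
        simp [comps_app, comps_node, comps]
      exact Or.inl ⟨pc_o e1.1, Or.inr e7⟩
    · exfalso
      have e6 : comps U = comps S := by
        have e4 := congrArg (fun l => l.tail.tail) e0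
        exact e4.symm
      have e7 := comps_inj e6
      have hd0 := pc_o e1.1
      have h3 : d + 3 ∈ cont R := h.memw.resolve_right fun g => absurd g.1 (by omega)
      rw [← h.eq, hB, cont_nil, zero_add, ← e7, show d + 3 = 3 by omega] at h3
      exact (hU2 3 h3).2 rfl
  · have hb1 := lo_ne_nil hb0
    have hb1' := lo_ne_nil hb0'
    have hb2 : b ≠ .nil △ .nil := lo_ne_pc hb0 (show 1 < d + 2 by omega)
    have hb2' : b' ≠ .nil △ .nil := lo_ne_pc hb0' (show 1 < d + 2 by omega)
    interval_cases i <;>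
    simp [aw, comps_w1, comps_node, comps_app, comps_pc, comps, hr, hs, hb, hr1, hs1, hb1, hr2, hs2, hb2, hBn, hp, hp0, hp1', hp1, hRn, hSn, hRl, hSl, hBl, ha, hU, hU.symm, hUc, happ, hp2, hS2, hR2, hfS, hfS2] at e1 <;>
    simp [aw, comps_w1, comps_node, comps_app, comps_pc, comps, hr', hs', hb', hr1', hs1', hb1', hr2', hs2', hb2', hBn, hp, hp0, hp1', hp1, hRn, hSn, hRl, hSl, hBl, ha, hU, hU.symm, hUc, happ, hp2, hS2, hR2, hfS, hfS2] at e2 <;>
    simp only [aw, comps_w1, comps_node, comps_app, comps_pc, comps, List.nil_append, List.cons_append, List.append_assoc] at e0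
    · have e6 : comps U = comps R ++ [.nil] := by
        have e4 := congrArg (fun l => l.tail.tail) e0
        exact e4.symm
      have e7 : U = app R (.nil △ .nil) := by
        apply comps_inj
        rw [e6]
        simp [comps_app, comps_node, comps]
      exact Or.inl ⟨pc_o e1.1, Or.inl e7⟩
    · have e6 : comps U = comps B ++ [S] := by
        have e4 := congrArg (fun l => l.tail.tail) e0
        exact e4.symm
      have e7 : U = app B (S △ .nil) := by
        apply comps_inj
        rw [e6]
        simp [comps_app, comps_node, comps]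
      exact Or.inl ⟨pc_o e1.1, Or.inr e7⟩

/-- the inside `U` of a DOWN link: `U = V()[n+1]`, or `U = V[n+1]` with `n + 1` the smallest part; no part `2`, `3`, at
most one bead -/
structure DnSh (U : BinaryTree Unit) : Prop where
  sh : EndSh U
  p23 : ∀ x ∈ cont U, x ≠ 2 ∧ x ≠ 3
  one : (cont U).count 1 ≤ 1

theorem EndSh.ne (h : EndSh U) : U ≠ .nil := KSh.ne (Or.inr (Or.inr (Or.inr h)))

theorem DnSh.clean (h : DnSh U) (g : A0D d R B S) : ¬ ((d = 1 ∧ (U = app R (.nil △ .nil) ∨ U = app B (S △ .nil))) ∨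
      (d = 2 ∧ (U = app R (.nil △ .nil) △ .nil ∨ U = R △ (.nil △ .nil) ∨ U = app B (S △ .nil) △ .nil ∨
        U = B △ app S (.nil △ .nil)))) := by
  rintro (⟨-, e | e⟩ | ⟨-, e | e | e | e⟩)
  · exact h.sh.ne_bead _ e
  · exact h.sh.ne_BS g e
  · exact h.sh.ne_pR g.R_ne e
  · exact h.sh.ne_bead (R △ .nil) e
  · exact h.sh.ne_pBS g e
  · exact h.sh.ne_bead (B △ S) e

theorem aw_Dn (g : A0D d R B S) (h : DnSh U) {i : ℕ} (hi : i < 20) :
    aw R (pc (d + 1)) B S i ≠ w1 .nil U (pc 2) ∧ aw R (pc (d + 1)) B S i ≠ w1 U (pc 2) .nil ∧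
    aw R (pc (d + 1)) B S i ≠ w1 (pc 2) .nil U :=
  ⟨fun e => h.clean g (aw_D g hi h.sh.ne h.p23 h.one e), fun e => h.clean g (aw_D1 g hi h.sh.ne h.p23 h.one e),
    fun e => h.clean g (aw_D2 g hi h.sh.ne h.p23 h.one e)⟩

/-- **disjointness A0 - DOWN (right)** -/
theorem TyA0.disj_Dn (h : TyA0 F g) (hU : DnSh U) (h' : TyC 2 U F' g') : ∀ w ∈ g.B, w ∉ g'.B := by
  obtain ⟨q, R, B, S, w0, h1, hne, rfl, rfl⟩ := h
  intro w hw hw'
  obtain ⟨i, hi, rfl⟩ := mem_gad20M.1 hw
  obtain ⟨k1, k2, k3⟩ := aw_Dn h1.a0d hU hi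
  have h2 : IsTri .nil U (pc 2) F' g' := by
    have := h'
    unfold TyC at this
    rwa [H1.ch_eq] at this
  rcases h2.words _ hw' with e1 | ⟨_, e1 | e1⟩ <;> rw [h1.word' w0 hi] at e1
  · exact k1 e1
  · exact k2 e1
  · exact k3 e1

/-- **disjointness B0 - DOWN (right)** -/
theorem TyB0.disj_Dn (h : TyB0 F g) (hU : DnSh U) (h' : TyC 2 U F' g') : ∀ w ∈ g.B, w ∉ g'.B := by
  intro w hw hw'
  obtain ⟨q, R, B, S, w0, i, h1, hi, h9, rfl, -⟩ := h.words w hw
  obtain ⟨k1, k2, k3⟩ := aw_Dn h1.a0d hU hi
  have h2 : IsTri .nil U (pc 2) F' g' := by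
    have := h'
    unfold TyC at this
    rwa [H1.ch_eq] at this
  rcases h2.words _ hw' with e1 | ⟨_, e1 | e1⟩ <;> rw [h1.word' w0 hi] at e1
  · exact k1 e1
  · exact k2 e1
  · exact k3 e1

end Pool.OddHC
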