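import Pool.Agent.Work.MP_8f87b2_h13.RqI
import Pool.Agent.Work.MP_8f87b2_h76.FyW
set_option autoImplicit false
set_option linter.all false

/-!
# MP_8f87b2_co: the right windows (every `q`) against the bare content links `TyFz` and against DOWN over bare words
-/

namespace Pool.OddHC
open Finset Equiv BinaryTree Pool.Agent.Work.MP_8f87b2_co HM
variable {k : ℕ} {F F' : Set (Cyc k)} {g g' : DG k} {q q' c d : ℕ} {R B S X U V : BinaryTree Unit}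

/-- DOWN over a bare word with a part `3` never meets a right window with `q ≥ 1` -/
theorem HM.NodeM.rq_DnB (h : NodeM k q R B S) (hq : 1 ≤ q) (hU : DnB U) (h3 : 3 ∈ cont U) (h' : TyC 2 U F' g')
    (w0 : OddHC.X k) {i : ℕ} (hi : i < 20) : H1.wX R B S q w0 i ∉ g'.B := by
  intro hw
  have g := h.a0d3
  have h2 : IsTri .nil U (pc (1 + 1)) F' g' := by
    have := h'
    unfold TyC at this
    rwa [H1.ch_eq] at this
  have e : (H1.wX R B S q w0 i).1 = w1 .nil U (pc (1 + 1)) ∨ (H1.wX R B S q w0 i).1 = w1 U (pc (1 + 1)) .nil ∨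
      (H1.wX R B S q w0 i).1 = w1 (pc (1 + 1)) .nil U := by
    rcases h2.words _ hw with e1 | ⟨_, e1 | e1⟩
    · exact Or.inl e1
    · exact Or.inr (Or.inl e1)
    · exact Or.inr (Or.inr e1)
  have hRq : ∀ x ∈ cont R, 4 ≤ x := fun x hx => by have := h.part x hx; omega
  have hBq : ∀ x ∈ cont B, 4 ≤ x := fun x hx => hRq x (by rw [← g.eq]; exact Multiset.mem_add.2 (Or.inl hx))
  have hSq : ∀ x ∈ cont S, 4 ≤ x := fun x hx => hRq x (by rw [← g.eq]; exact Multiset.mem_add.2 (Or.inr hx))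
  have hr : ∀ M : Multiset ℕ, (∀ x ∈ M, 4 ≤ x) → M ≠ 0 → ∀ x ∈ raise M, 4 ≤ x := by
    intro M hM h0 x hx
    unfold raise at hx
    rcases Multiset.mem_cons.1 hx with rfl | hx
    · obtain ⟨y, hy⟩ := Multiset.exists_mem_of_ne_zero h0
      have := hM y hy
      have := Multiset.le_sup hy
      omega
    · exact hM x (Multiset.mem_of_mem_erase hx)
  have n1 : 1 ∉ cont U := fun h1 => by have := hU.hv 1 h1; omega
  have s1 : ∀ P : BinaryTree Unit, P ≠ .nil → (∀ x ∈ cont P, 4 ≤ x) → ∀ x ∈ cont (P △ .nil), 4 ≤ x := by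
    intro P h0 h1 x hx
    rw [cont_node, cont_nil, add_zero] at hx
    exact hr _ h1 (cont_ne h0) x hx
  have bad : ∀ {P : BinaryTree Unit}, U = P → 1 ∈ cont P ∨ (∀ x ∈ cont P, 4 ≤ x) → False := by
    rintro P rfl (h1 | h1)
    · exact n1 h1
    · have := h1 3 h3; omega
  have hSB : 1 ∈ cont (app S (B △ .nil)) ∨ ∀ x ∈ cont (app S (B △ .nil)), 4 ≤ x := by
    by_cases hB : B = .nil
    · left
      rw [hB, cont_app, cont_node, cont_nil, raise_zero]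
      simp
    · right
      intro x hx
      rw [cont_app, cont_node, cont_nil, add_zero, Multiset.mem_add] at hx
      rcases hx with hx | hx
      · exact hSq x hx
      · exact hr _ hBq (cont_ne hB) x hx
  rcases h.rC w0 hi le_rfl hq hU.ne e with ⟨hq1, e1 | e1⟩ | ⟨hq1, e1 | e1 | e1 | e1⟩
  · exact bad e1 (Or.inr (s1 _ g.R_ne hRq))
  · exact bad e1 hSB
  · exact bad e1 (Or.inl (by rw [cont_node, cont_nil, raise_zero]; simp))
  · exact bad e1 (Or.inr (s1 _ (by simp) (s1 _ g.R_ne hRq)))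
  · exact bad e1 (Or.inl (by rw [cont_node, cont_app, cont_node, cont_nil, raise_zero]; simp))
  · refine bad e1 ?_
    rcases hSB with h1 | h1
    · left
      rw [cont_node, cont_nil, add_zero]
      refine mem_raise h1 ?_
      rw [cont_app, sup_add']
      obtain ⟨y, hy⟩ := Multiset.exists_mem_of_ne_zero (cont_ne g.S_ne)
      have := hSq y hy
      have := Multiset.le_sup hy
      omega
    · exact Or.inr (s1 _ (app_ne' (by simp)) h1)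

/-- the slot of a window against the bare content links: the smallest part `q + 3` occurs again in `R`, or `R` is not prime, or
`q + 4` is not a part -/
def SlC (q : ℕ) (R : BinaryTree Unit) : Prop :=
  q + 3 ∈ cont R ∨ (∀ A, R ≠ A △ .nil) ∨ (q + 4 ∉ cont R ∧ 2 ≤ Multiset.card (cont R))

/-- **W row**, `q ≥ 1` -/
theorem TyRq.disj_Cb (h : TyRq q F g) (hq : 1 ≤ q) (hs : ∀ R B S, NodeM k q R B S → (∀ c ∈ F, contc c = cont R + {q + 3}) →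
    SlC q R) (hc : 2 ≤ c) (hp : ∀ x ∈ cont U, c + 1 ≤ x) (hm : c + 1 ∈ cont U) (h' : TyC c U F' g')
    (hd : ∀ c ∈ F, c ∉ F') : ∀ w ∈ g.B, w ∉ g'.B := by
  obtain ⟨R, B, S, w0, h1, hne, rfl, rfl⟩ := h
  intro w hw hw'
  obtain ⟨i, hi, rfl⟩ := mem_gad20.1 hw
  refine hd _ rfl (h1.rq_Cb hq hc hp hm (hs R B S h1 ?_) h' w0 hi hw')
  rintro c rfl
  change cont (H1.wX R B S q w0 0).1 = _
  rw [h1.rW' w0 (by norm_num), H1.cont_all h1.dat (by norm_num)]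
  rfl

/-- **W row**, `q ≥ 1` -/
theorem TySq.disj_Cb (h : TySq q F g) (hq : 1 ≤ q) (hs : ∀ R B S (w0 : OddHC.X k), NodeM k q R B S →
    cyc (H1.wX R B S q w0 0) ∈ F → SlC q R) (hc : 2 ≤ c) (hp : ∀ x ∈ cont U, c + 1 ≤ x) (hm : c + 1 ∈ cont U)
    (h' : TyC c U F' g') (hd : ∀ c ∈ F, c ∉ F') : ∀ w ∈ g.B, w ∉ g'.B := by
  intro w hw hw'
  obtain ⟨R, B, S, w0, i, h1, hi, rfl, hF⟩ := h.words' w hw
  exact hd _ hF (h1.rq_Cb hq hc hp hm (hs R B S w0 h1 hF) h' w0 hi hw')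

/-- **I row**, `q ≥ 1` -/
theorem TyRq.inner_Cb (h : TyRq q F g) (hq : 1 ≤ q) (hc : 2 ≤ c) (hp : ∀ x ∈ cont U, c + 1 ≤ x) (hm : c + 1 ∈ cont U)
    (h' : TyC c U F' g') (hd : ∀ c ∈ F, c ∉ F') : ∀ p ∈ g.arcs, ∀ w ∈ innA p, w ∉ g'.B := by
  intro p hp0 w hw hw'
  obtain ⟨R, B, S, w0, i, h1, hi, rfl, hF⟩ := h.inn0 p hp0 w hw
  exact hd _ hF (h1.inn_Cb hq hc hp hm h' w0 hi hw')

/-- **I row**, `q ≥ 1` -/
theorem TySq.inner_Cb (h : TySq q F g) (hq : 1 ≤ q) (hc : 2 ≤ c) (hp : ∀ x ∈ cont U, c + 1 ≤ x) (hm : c + 1 ∈ cont U)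
    (h' : TyC c U F' g') (hd : ∀ c ∈ F, c ∉ F') : ∀ p ∈ g.arcs, ∀ w ∈ innA p, w ∉ g'.B := by
  intro p hp0 w hw hw'
  obtain ⟨R, B, S, w0, i, h1, hi, rfl, hF⟩ := h.inn0 p hp0 w hw
  exact hd _ hF (h1.inn_Cb hq hc hp hm h' w0 (mem_S3_R3 hi) hw')

/-! ### TyFz -/

theorem TyRq.disj_Fz (h : TyRq q F g) (hq : 1 ≤ q) (hs : ∀ R B S, NodeM k q R B S → (∀ c ∈ F, contc c = cont R + {q + 3}) →
    SlC q R) (h' : TyFz F' g') (hd : ∀ c ∈ F, c ∉ F') : ∀ w ∈ g.B, w ∉ g'.B := by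
  obtain ⟨c, U, hU, h2⟩ := h'
  exact h.disj_Cb hq hs (by have := hU.c3; omega) hU.part hU.mem h2 hd

theorem TySq.disj_Fz (h : TySq q F g) (hq : 1 ≤ q) (hs : ∀ R B S (w0 : OddHC.X k), NodeM k q R B S →
    cyc (H1.wX R B S q w0 0) ∈ F → SlC q R) (h' : TyFz F' g') (hd : ∀ c ∈ F, c ∉ F') : ∀ w ∈ g.B, w ∉ g'.B := by
  obtain ⟨c, U, hU, h2⟩ := h'
  exact h.disj_Cb hq hs (by have := hU.c3; omega) hU.part hU.mem h2 hd

theorem TyRq.inner_Fz (h : TyRq q F g) (hq : 1 ≤ q) (h' : TyFz F' g') (hd : ∀ c ∈ F, c ∉ F') :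
    ∀ p ∈ g.arcs, ∀ w ∈ innA p, w ∉ g'.B := by
  obtain ⟨c, U, hU, h2⟩ := h'
  exact h.inner_Cb hq (by have := hU.c3; omega) hU.part hU.mem h2 hd

theorem TySq.inner_Fz (h : TySq q F g) (hq : 1 ≤ q) (h' : TyFz F' g') (hd : ∀ c ∈ F, c ∉ F') :
    ∀ p ∈ g.arcs, ∀ w ∈ innA p, w ∉ g'.B := by
  obtain ⟨c, U, hU, h2⟩ := h'
  exact h.inner_Cb hq (by have := hU.c3; omega) hU.part hU.mem h2 hd

/-! ### DOWN over a bare word with a part `3` -/

theorem TyRq.disj_DnB (h : TyRq q F g) (hq : 1 ≤ q) (hU : DnB U) (h3 : 3 ∈ cont U) (h' : TyC 2 U F' g') :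
    ∀ w ∈ g.B, w ∉ g'.B := by
  obtain ⟨R, B, S, w0, h1, hne, rfl, rfl⟩ := h
  intro w hw hw'
  obtain ⟨i, hi, rfl⟩ := mem_gad20.1 hw
  exact (h1.rq_DnB hq hU h3 h' w0 hi) hw'

theorem TySq.disj_DnB (h : TySq q F g) (hq : 1 ≤ q) (hU : DnB U) (h3 : 3 ∈ cont U) (h' : TyC 2 U F' g') :
    ∀ w ∈ g.B, w ∉ g'.B := by
  intro w hw hw'
  obtain ⟨R, B, S, w0, i, h1, hi, rfl, hF⟩ := h.words' w hw
  exact h1.rq_DnB hq hU h3 h' w0 hi hw'

/-- **I rows against DOWN**, any `U` -/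
theorem TyRq.inner_D2 (h : TyRq q F g) (hq : 1 ≤ q) (h' : TyC 2 U F' g') : ∀ p ∈ g.arcs, ∀ w ∈ innA p, w ∉ g'.B := by
  intro p hp0 w hw
  obtain ⟨R, B, S, w0, i, h1, hi, rfl, hF⟩ := h.inn0 p hp0 w hw
  exact h1.inn_C w0 hi (by omega) (by omega) h'

theorem TySq.inner_D2 (h : TySq q F g) (hq : 1 ≤ q) (h' : TyC 2 U F' g') : ∀ p ∈ g.arcs, ∀ w ∈ innA p, w ∉ g'.B := by
  intro p hp0 w hw
  obtain ⟨R, B, S, w0, i, h1, hi, rfl, hF⟩ := h.inn0 p hp0 w hw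
  exact h1.inn_C w0 (mem_S3_R3 hi) (by omega) (by omega) h'

/-- **W rows against DOWN** (`DnSh`), `q ≥ 2` -/
theorem TyRq.disj_Dn2 (h : TyRq q F g) (hq : 2 ≤ q) (hU : DnSh U) (h' : TyC 2 U F' g') : ∀ w ∈ g.B, w ∉ g'.B := by
  intro w hw
  obtain ⟨R, B, S, w0, i, h1, hi, rfl, hF⟩ := h.words w hw
  exact h1.rq_Dn (by omega) hU (by omega) h' w0 hi

theorem TySq.disj_Dn2 (h : TySq q F g) (hq : 2 ≤ q) (hU : DnSh U) (h' : TyC 2 U F' g') : ∀ w ∈ g.B, w ∉ g'.B := by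
  intro w hw
  obtain ⟨R, B, S, w0, i, h1, hi, rfl, hF⟩ := h.words' w hw
  exact h1.rq_Dn (by omega) hU (by omega) h' w0 hi

end Pool.OddHC
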