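import Pool.Agent.Work.MP_8f87b2_h13.R3D
import Pool.Agent.Work.MP_8f87b2_h58.InA0
set_option autoImplicit false
set_option linter.all false

/-!
# MP_8f87b2_co: the inner words of the RIGHT windows R3, S3 (`c = 3`) against L, K, K', DOWN
-/

namespace Pool.OddHC
open Finset Equiv BinaryTree Pool.Agent.Work.MP_8f87b2_co HM H1
variable {k : ℕ} {F F' : Set (Cyc k)} {g g' : DG k} {q : ℕ} {R B S X U V : BinaryTree Unit}

/-- the inner words of R3 -/
theorem TyR3.inn0 (h : TyR3 F g) : ∀ p ∈ g.arcs, ∀ w ∈ innA p, ∃ (R B S : BinaryTree Unit) (w0 : OddHC.X k) (i : ℕ),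
    NodeM k 0 R B S ∧ i ∈ [0, 1, 3, 6, 8, 9] ∧ w = TT (wX R B S 0 w0 i) ∧ cyc (wX R B S 0 w0 0) ∈ F := by
  intro p hp w hw
  obtain ⟨R, B, S, w0, i, h1, -, -, hi, e, hm⟩ := h.inn p hp
  refine ⟨R, B, S, w0, i, h1, hi, ?_, hm⟩
  have hw' : w = TT p.1 := hw
  rw [hw', e]

/-- the inner words of S3 -/
theorem TyS3.inn0 (h : TyS3 F g) : ∀ p ∈ g.arcs, ∀ w ∈ innA p, ∃ (R B S : BinaryTree Unit) (w0 : OddHC.X k) (i : ℕ),
    NodeM k 0 R B S ∧ i ∈ [3, 6, 8] ∧ w = TT (wX R B S 0 w0 i) ∧ cyc (wX R B S 0 w0 0) ∈ F := by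
  intro p hp w hw
  obtain ⟨R, B, S, w0, i, h1, -, hi, e, hm⟩ := h.inn p hp
  refine ⟨R, B, S, w0, i, h1, hi, ?_, hm⟩
  have hw' : w = TT p.1 := hw
  rw [hw', e]

theorem mem_S3_R3 {i : ℕ} (hi : i ∈ [3, 6, 8]) : i ∈ [0, 1, 3, 6, 8, 9] := by
  simp only [List.mem_cons, List.not_mem_nil, or_false] at hi ⊢
  omega

theorem TyR3.inn13 (h : TyR3 F g) : ∀ p ∈ g.arcs, ∀ w ∈ innA p, InnP 3 w.1 ∧ (cyc w ∈ F ∨ Sml 3 w.1) := by
  intro p hp w hw
  obtain ⟨R, B, S, w0, i, h1, hi, rfl, hm⟩ := h.inn0 p hp w hw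
  refine ⟨(h1.inn w0 hi).1, ?_⟩
  by_cases h0 : i = 0
  · subst h0
    left
    have e1 : cyc (TT (wX R B S 0 w0 0)) = cyc (wX R B S 0 w0 0) := cyc_eq.2 ⟨-1, by simp⟩
    rw [e1]
    exact hm
  · refine Or.inr (h1.sml w0 ?_).1
    simp only [List.mem_cons, List.not_mem_nil, or_false] at hi ⊢
    omega

theorem TyS3.inn13 (h : TyS3 F g) : ∀ p ∈ g.arcs, ∀ w ∈ innA p, InnP 3 w.1 ∧ Sml 3 w.1 := by
  intro p hp w hw
  obtain ⟨R, B, S, w0, i, h1, hi, rfl, hm⟩ := h.inn0 p hp w hw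
  refine ⟨(h1.inn w0 (mem_S3_R3 hi)).1, (h1.sml w0 ?_).1⟩
  simp only [List.mem_cons, List.not_mem_nil, or_false] at hi ⊢
  omega

/-- **L** -/
theorem TyR3.inner_L (h : TyR3 F g) (h' : TyL F' g') : ∀ p ∈ g.arcs, ∀ w ∈ innA p, w ∉ g'.B :=
  fun p hp w hw => (h.inn13 p hp w hw).1.not_L h'

/-- **K**, any `S` -/
theorem TyR3.inner_K (h : TyR3 F g) (h' : TyK S F' g') : ∀ p ∈ g.arcs, ∀ w ∈ innA p, w ∉ g'.B :=
  fun p hp w hw => (h.inn13 p hp w hw).1.not_K h'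

/-- **K'**, any `S` -/
theorem TyR3.inner_K' (h : TyR3 F g) (h' : TyK' S F' g') : ∀ p ∈ g.arcs, ∀ w ∈ innA p, w ∉ g'.B :=
  fun p hp w hw => (h.inn13 p hp w hw).1.not_K' h'

/-- **L** -/
theorem TyS3.inner_L (h : TyS3 F g) (h' : TyL F' g') : ∀ p ∈ g.arcs, ∀ w ∈ innA p, w ∉ g'.B :=
  fun p hp w hw => (h.inn13 p hp w hw).1.not_L h'

/-- **K**, any `S` -/
theorem TyS3.inner_K (h : TyS3 F g) (h' : TyK S F' g') : ∀ p ∈ g.arcs, ∀ w ∈ innA p, w ∉ g'.B :=
  fun p hp w hw => (h.inn13 p hp w hw).1.not_K h'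

/-- **K'**, any `S` -/
theorem TyS3.inner_K' (h : TyS3 F g) (h' : TyK' S F' g') : ∀ p ∈ g.arcs, ∀ w ∈ innA p, w ∉ g'.B :=
  fun p hp w hw => (h.inn13 p hp w hw).1.not_K' h'

/-! ### DOWN -/

theorem DnSh.vb (h : DnSh U) : vb 0 U := by
  have one : ∀ x ∈ cont U, x = 1 ∨ 4 ≤ x := by
    intro x hx
    have h1 := h.p23 x hx
    have h2 := cont_pos U x hx
    omega
  rcases h.sh with ⟨V, n, hn, e⟩ | ⟨V, n, hn, e, h2⟩
  · have hV : ∀ x ∈ cont V, 3 ≤ x := by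
      intro x hx
      have h3 : x ∈ cont U := by
        rw [e, cont_app]
        exact Multiset.mem_add.2 (Or.inl hx)
      rcases one x h3 with rfl | h4
      · exfalso
        have h5 := h.one
        rw [e, cont_app, cont_node, cont_nil, raise_zero, Multiset.count_add, Multiset.count_add,
          Multiset.count_singleton_self] at h5
        have h6 := Multiset.count_pos.2 hx
        omega
      · omega
    rw [e]
    exact vb_app ((nb_hv (hv_of_cont hV)).vb 0) (vb_app (P := .nil △ .nil) (Q := pc (n + 1)) (vb_lp 1)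
      (by rw [← ch_eq]; exact (nb_ch _).vb 0))
  · have hV : ∀ x ∈ cont U, 3 ≤ x := by
      intro x hx
      have h3 := h2 x hx
      rcases one x hx with rfl | h4
      · omega
      · omega
    exact (nb_hv (hv_of_cont hV)).vb 0

/-- an inner word is no word of a DOWN triple -/
theorem HM.NodeM.inn_Dn (h : NodeM k 0 R B S) (w0 : OddHC.X k) {i : ℕ} (hi : i ∈ [0, 1, 3, 6, 8, 9]) (hU : DnSh U)
    (h' : TyC 2 U F' g') : TT (wX R B S 0 w0 i) ∉ g'.B := by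
  have hin := (h.inn w0 hi).1
  have g3 := hin.g3
  intro hw
  rcases IsTri.words h' _ hw with e1 | ⟨_, e1 | e1⟩
  · have h1 : (TT (wX R B S 0 w0 i)).1 = app (U △ .nil) (ch 2) := e1
    have h2 := stop_ch hin (by omega) h1
    omega
  · have h1 : (TT (wX R B S 0 w0 i)).1 = app U (ch 3) := e1
    obtain ⟨c1, -, -⟩ := h.winn w0 hi (Or.inl rfl)
    have hc : cont (W R (ch (0 + 1)) B S i) = cont U + {3} := by
      rw [← c1, h1, cont_app]
      rfl
    by_cases h0 : i = 0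
    · subst h0
      have h3 := h.mem
      rw [W, ch_eq, cont_app] at hc
      change cont R + cont (pc 3) = _ at hc
      rw [cont_pc] at hc
      have h4 : cont R = cont U := add_right_cancel hc
      rw [h4] at h3
      exact (hU.p23 _ h3).2 rfl
    · rcases (h.sml w0 (i := i) (by
        simp only [List.mem_cons, List.not_mem_nil, or_false] at hi ⊢
        omega)).1 with ⟨p, hp, h2, h3⟩ | hb
      · have hp2 : p = 2 := by omega
        subst hp2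
        rw [h1, cont_app, Multiset.mem_add] at hp
        rcases hp with hp | hp
        · exact (hU.p23 _ hp).1 rfl
        · rw [ch_cont 2, Multiset.mem_singleton] at hp
          omega
      · rw [h1] at hb
        exact (vb_mono (vb_app hU.vb ((nb_ch 3).vb 0)) (show 0 ≤ 1 by omega)).not_hb hb
  · have h1 : (TT (wX R B S 0 w0 i)).1 = app (ch 2) (.nil △ U) := e1
    have h2 := start_ch hin (by omega) h1
    omega

/-- **DOWN** -/
theorem TyR3.inner_Dn (h : TyR3 F g) (hU : DnSh U) (h' : TyC 2 U F' g') : ∀ p ∈ g.arcs, ∀ w ∈ innA p, w ∉ g'.B := by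
  intro p hp w hw
  obtain ⟨R, B, S, w0, i, h1, hi, rfl, hm⟩ := h.inn0 p hp w hw
  exact h1.inn_Dn w0 hi hU h'

/-- **DOWN** -/
theorem TyS3.inner_Dn (h : TyS3 F g) (hU : DnSh U) (h' : TyC 2 U F' g') : ∀ p ∈ g.arcs, ∀ w ∈ innA p, w ∉ g'.B := by
  intro p hp w hw
  obtain ⟨R, B, S, w0, i, h1, hi, rfl, hm⟩ := h.inn0 p hp w hw
  exact h1.inn_Dn w0 (mem_S3_R3 hi) hU h'

end Pool.OddHC
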