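import Pool.Agent.Work.MP_8f87b2_h13.A0E
import Pool.Agent.Work.MP_8f87b2_h60.TyB0
set_option autoImplicit false
set_option linter.all false
namespace Pool.OddHC
open Finset Equiv BinaryTree Pool.Agent.Work.MP_8f87b2_co HM
variable {k : ℕ} {F F' : Set (Cyc k)} {g g' : DG k} {d : ℕ} {R B S X U V : BinaryTree Unit}

theorem cont_comps (t : BinaryTree Unit) :
    cont t = ((comps t).map fun A => raise (cont A)).sum := by
  induction t with
  | nil => rw [cont_nil]; rfl
  | node _ A B _ ih =>
    change cont (A △ B) = _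
    rw [cont_node, comps_node, List.map_cons, List.sum_cons, ih]

/-- `U = V()[n+1]`, or `U = V[n+1]` with `n + 1` the smallest part -/
def EndSh (U : BinaryTree Unit) : Prop :=
  (∃ V n, 1 ≤ n ∧ U = app V (.nil △ pc (n + 1))) ∨
  (∃ V n, 1 ≤ n ∧ U = app V (pc (n + 1)) ∧ ∀ x ∈ cont U, n + 1 ≤ x)

theorem EndSh.last (h : EndSh U) : ∃ L n, 1 ≤ n ∧ comps U = L ++ [pc n] := by
  rcases h with ⟨V, n, hn, rfl⟩ | ⟨V, n, hn, rfl, -⟩
  · exact ⟨comps V ++ [.nil], n, hn, by simp [comps_app, comps_node, comps_pc]⟩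
  · exact ⟨comps V, n, hn, by simp [comps_app, comps_pc]⟩

theorem EndSh.ne_bead (h : EndSh U) (P : BinaryTree Unit) : U ≠ app P (.nil △ .nil) := by
  rintro rfl
  obtain ⟨L, n, hn, e⟩ := h.last
  rw [comps_app, comps_node] at e
  exact pc_ne hn (snoc_inj e).2.symm

/-- `S` is not a single soliton, if `B = e` -/
theorem A0D.S_pc (h : A0D d R B S) (hB : B = .nil) (n : ℕ) : S ≠ pc n := by
  intro e
  have h1 := h.eq
  rw [hB, cont_nil, zero_add] at h1
  have h2 := h.cardR
  rw [← h1, e] at h2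
  cases n with
  | zero =>
    rw [pc, cont_nil, Multiset.card_zero] at h2
    omega
  | succ n =>
    rw [cont_pc, Multiset.card_singleton] at h2
    omega

theorem A0D.R_pc (h : A0D d R B S) (n : ℕ) : R ≠ pc n := by
  intro e
  have h2 := h.cardR
  rw [e] at h2
  cases n with
  | zero =>
    rw [pc, cont_nil, Multiset.card_zero] at h2
    omega
  | succ n =>
    rw [cont_pc, Multiset.card_singleton] at h2
    omega

/-- heavy words have no bead -/
theorem Hv.ne_snoc (h : Hv d X) (P : BinaryTree Unit) : X ≠ OddHC.app P (.nil △ .nil) := by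
  intro e
  have h0 : X ≠ .nil := by
    rw [e]
    exact app_ne' (by simp)
  have h1 := h.ls_ne h0
  rw [e, ls_app _ (by simp), ls_single] at h1
  exact h1 rfl

theorem EndSh.ne_BS (h : EndSh U) (g : A0D d R B S) : U ≠ app B (S △ .nil) := by
  intro e
  rcases h with ⟨V, n, hn, e1⟩ | ⟨V, n, hn, e1, h2⟩
  · have e2 : app B (S △ .nil) = app (app V (.nil △ .nil)) (pc n △ .nil) := by
      rw [← e, e1, app_assoc']
      rfl
    obtain ⟨e3, -⟩ := app_snoc e2
    exact g.hvB.ne_snoc V e3
  · have e2 : app B (S △ .nil) = app V (pc n △ .nil) := by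
      rw [← e, e1]
      rfl
    obtain ⟨e3, e4⟩ := app_snoc e2
    have hSt : ht S = n := by
      rw [e4, ht_eq]
      obtain ⟨n, rfl⟩ : ∃ n', n = n' + 1 := ⟨n - 1, by omega⟩
      rw [cont_pc, Multiset.sup_singleton]
    by_cases hB : B = .nil
    · exact g.S_pc hB n e4
    · obtain ⟨x, hx⟩ := Multiset.exists_mem_of_ne_zero (cont_ne hB)
      have h5 := h2 x (by
        rw [e, cont_app]
        exact Multiset.mem_add.2 (Or.inl hx))
      have h6 : x ≤ (cont R).sup := Multiset.le_sup (by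
        rw [← g.eq]
        exact Multiset.mem_add.2 (Or.inl hx))
      rw [← ht_eq, ← g.hS, hSt] at h6
      omega

theorem EndSh.ne_pBS (h : EndSh U) (g : A0D d R B S) : U ≠ app B (S △ .nil) △ .nil := by
  intro e
  have key : ∀ n V, app B (S △ .nil) △ .nil = app V (pc n △ .nil) → False := by
    intro n V e2
    obtain ⟨e3, e4⟩ := app_snoc (X := .nil) (Y := V) (A := app B (S △ .nil)) (A' := pc n) e2
    cases n with
    | zero => exact app_ne' (by simp) e4
    | succ n =>
      have e5 := congrArg comps e4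
      rw [comps_app, comps_node, comps_pc] at e5
      have e6 : comps B ++ [S] = [] ++ [pc n] := e5
      have e7 := snoc_inj e6
      exact g.S_pc (comps_inj (e7.1.trans rfl)) n e7.2
  rcases h with ⟨V, n, hn, e1⟩ | ⟨V, n, hn, e1, h2⟩
  · refine key n (app V (.nil △ .nil)) ?_
    rw [← e, e1, app_assoc']
    rfl
  · refine key n V ?_
    rw [← e, e1]
    rfl

theorem EndSh.ne_pR (h : EndSh U) (hR : R ≠ .nil) : U ≠ app R (.nil △ .nil) △ .nil := by
  intro e
  obtain ⟨L, n, hn, e1⟩ := h.last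
  rw [e, comps_node] at e1
  have e2 : [] ++ [app R (.nil △ .nil)] = L ++ [pc n] := e1
  have e3 := (snoc_inj e2).2
  obtain ⟨n, rfl⟩ : ∃ n', n = n' + 1 := ⟨n - 1, by omega⟩
  have e4 := congrArg comps e3
  rw [comps_app, comps_node, comps_pc] at e4
  have e6 : comps R ++ [.nil] = [] ++ [pc n] := e4
  exact hR (comps_inj ((snoc_inj e6).1.trans rfl))

theorem EndSh.ne_nR (h : EndSh U) (g : A0D d R B S) : U ≠ .nil △ R := by
  intro e
  rcases h with ⟨V, n, hn, e1⟩ | ⟨V, n, hn, e1, h2⟩
  · cases V with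
    | nil =>
      have e2 : R = pc (n + 1) := by
        have : BinaryTree.nil △ R = .nil △ pc (n + 1) := by rw [← e, e1]; rfl
        injection this
      exact g.R_pc _ e2
    | node _ A C =>
      have e2 : R = app (app C (.nil △ .nil)) (pc n △ .nil) := by
        have : BinaryTree.nil △ R = A △ app C (.nil △ pc (n + 1)) := by rw [← e, e1]; rfl
        injection this with _ _ h3
        rw [h3, app_assoc']
        rfl
      obtain ⟨R2, r', hr, h0⟩ := g.hv.snoc g.R_ne
      have e3 : Hv d (app C (.nil △ .nil)) := by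
        intro x hx
        apply g.hv x
        rw [e2, cont_app]
        exact Multiset.mem_add.2 (Or.inl hx)
      exact e3.ne_snoc C rfl
  · have h3 : 1 ∈ cont U := by
      rw [e, cont_node, cont_nil, raise_zero]
      exact Multiset.mem_add.2 (Or.inl (Multiset.mem_singleton_self _))
    have := h2 1 h3
    omega

/-- the hosts of the `K` links: `V()()`, `V()(A)()` (`A` a pile of nested pairs), `V(A())()` (`A ≠ e`), `V()[n+1]`,
`V[n+1]` (`n + 1` the smallest part, `n ≥ 1`) -/
def KSh (U : BinaryTree Unit) : Prop := (∃ V, U = app V (.nil △ (.nil △ .nil))) ∨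
  (∃ V n, U = app V (.nil △ (pc n △ (.nil △ .nil)))) ∨
  (∃ V A, A ≠ .nil ∧ U = app V (app A (.nil △ .nil) △ (.nil △ .nil))) ∨ EndSh U

/-- the conflicts -/
def KBad (d : ℕ) (R B S U : BinaryTree Unit) : Prop :=
  (d = 0 ∧ (U = app R (.nil △ .nil) ∨ U = app B (S △ .nil) ∨ U = .nil △ R)) ∨
      (d = 1 ∧ (U = app R (.nil △ .nil) △ .nil ∨ U = R △ (.nil △ .nil) ∨ U = app B (S △ .nil) △ .nil ∨
        U = B △ app S (.nil △ .nil)))

/-- words with a bead at the end -/
theorem bead_clean (g : A0D d R B S) {W : BinaryTree Unit} (hU : U = app W (.nil △ .nil)) (hW : W ≠ .nil)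
    (h1 : W ≠ R) (h2 : W ≠ R △ .nil) (h3 : W ≠ B △ S) : ¬ KBad d R B S U := by
  have one : ∀ A : BinaryTree Unit, app W (.nil △ .nil) ≠ A △ .nil := by
    intro A e
    have e1 := congrArg nc e
    rw [nc_app, nc_node, nc_node, nc_nil] at e1
    have := nc_pos hW
    omega
  rw [hU]
  rintro (⟨-, e | e | e⟩ | ⟨-, e | e | e | e⟩)
  · exact h1 (app_snoc e).1
  · exact g.S_ne (app_snoc e).2.symm
  · have e1 : ls (.nil △ R) = .nil := by
      rw [← e, ls_app _ (by simp)]
      rfl
    rw [ls_node _ g.R_ne] at e1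
    exact g.hv.ls_ne g.R_ne e1
  · exact one _ e
  · have e1 : app W (.nil △ .nil) = app (R △ .nil) (.nil △ .nil) := e
    exact h2 (app_snoc e1).1
  · exact one _ e
  · have e1 : app W (.nil △ .nil) = app (B △ S) (.nil △ .nil) := e
    exact h3 (app_snoc e1).1

theorem KSh.clean (h : KSh U) (g : A0D d R B S) : ¬ KBad d R B S U := by
  rcases h with ⟨V, hU⟩ | ⟨V, n, hU⟩ | ⟨V, A, hA, hU⟩ | h
  · refine bead_clean g (W := app V (.nil △ .nil)) ?_ (app_ne' (by simp)) ?_ ?_ ?_
    · rw [hU, app_assoc']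
      rfl
    · exact fun e => g.hv.ne_snoc V e.symm
    · intro e
      have e1 : app V (.nil △ .nil) = app .nil (R △ .nil) := e
      exact g.R_ne (app_snoc e1).2.symm
    · intro e
      have e1 := congrArg ls e
      rw [ls_app _ (by simp), ls_single, ls_node _ g.S_ne] at e1
      exact g.hvS.ls_ne g.S_ne e1.symm
  · have eW : app V (.nil △ (pc n △ .nil)) = app (app V (.nil △ .nil)) (pc n △ .nil) := by
      rw [app_assoc']
      rfl
    refine bead_clean g (W := app V (.nil △ (pc n △ .nil))) ?_ (app_ne' (by simp)) ?_ ?_ ?_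
    · rw [hU, app_assoc']
      rfl
    · intro e
      have h1 : Hv d (app V (.nil △ .nil)) := by
        intro x hx
        apply g.hv x
        rw [← e, eW, cont_app]
        exact Multiset.mem_add.2 (Or.inl hx)
      exact h1.ne_snoc V rfl
    · intro e
      have e1 : app (app V (.nil △ .nil)) (pc n △ .nil) = app .nil (R △ .nil) := by
        rw [← eW, e]
        rfl
      exact app_ne' (by simp) (app_snoc e1).1
    · intro e
      -- `B = e`, `V = e`, `S = [n+1]`, or `S` has a bead
      cases V with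
      | nil =>
        have e1 : BinaryTree.nil △ (pc n △ .nil) = B △ S := e
        injection e1 with _ e2 e3
        exact g.S_pc e2.symm (n + 1) e3.symm
      | node _ A C =>
        have e1 : A △ app C (.nil △ (pc n △ .nil)) = B △ S := e
        injection e1 with _ e2 e3
        have e4 : S = app (app C (.nil △ .nil)) (pc n △ .nil) := by
          rw [← e3, app_assoc']
          rfl
        have h1 : Hv d (app C (.nil △ .nil)) := by
          intro x hx
          apply g.hvS x
          rw [e4, cont_app]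
          exact Multiset.mem_add.2 (Or.inl hx)
        exact h1.ne_snoc C rfl
  · have hlo : ∀ d, lo d (app A (.nil △ .nil)) ≠ 0 := by
      intro d h0
      unfold lo at h0
      rw [Multiset.card_eq_zero, Multiset.filter_eq_nil] at h0
      have h1 : 1 ∈ raise (cont (app A (.nil △ .nil))) := by
        unfold raise
        apply Multiset.mem_cons_of_mem
        rw [cont_app, cont_node, cont_nil, raise_zero, add_zero, sup_add', Multiset.sup_singleton]
        have h2 : 1 ≤ (cont A).sup := by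
          rw [← ht_eq]
          exact ht_pos hA
        rw [max_eq_left h2, Multiset.erase_add_left_pos _ (sup_mem (cont_ne hA))]
        exact Multiset.mem_add.2 (Or.inr (Multiset.mem_singleton_self _))
      exact h0 1 h1 (by omega)
    refine bead_clean g (W := app V (app A (.nil △ .nil) △ .nil)) ?_ (app_ne' (by simp)) ?_ ?_ ?_
    · rw [hU, app_assoc']
      rfl
    · intro e
      have h1 := g.hv.ls g.R_ne
      rw [← e, ls_app _ (by simp), ls_single] at h1
      exact hlo d h1
    · intro e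
      have e1 : app V (app A (.nil △ .nil) △ .nil) = app .nil (R △ .nil) := e
      exact g.hv.ne_snoc A (app_snoc e1).2.symm
    · intro e
      have e1 := congrArg ls e
      rw [ls_app _ (by simp), ls_single, ls_node _ g.S_ne] at e1
      have h1 := g.hvS.ls g.S_ne
      rw [← e1] at h1
      exact hlo d h1
  · rintro (⟨-, e | e | e⟩ | ⟨-, e | e | e | e⟩)
    · exact h.ne_bead _ e
    · exact h.ne_BS g e
    · exact h.ne_nR g e
    · exact h.ne_pR g.R_ne e
    · exact h.ne_bead (R △ .nil) e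
    · exact h.ne_pBS g e
    · exact h.ne_bead (B △ S) e

theorem KSh.ne (h : KSh U) : U ≠ .nil := by
  rcases h with ⟨V, rfl⟩ | ⟨V, n, rfl⟩ | ⟨V, A, hA, rfl⟩ | h
  · exact app_ne' (by simp)
  · exact app_ne' (by simp)
  · exact app_ne' (by simp)
  · obtain ⟨L, n, hn, e⟩ := h.last
    rintro rfl
    have := congrArg List.length e
    simp [comps] at this

theorem aw_KSh (g : A0D d R B S) (h : KSh U) {i : ℕ} (hi : i < 20) :
    aw R (pc (d + 1)) B S i ≠ w1 .nil U (pc 1) ∧ aw R (pc (d + 1)) B S i ≠ w1 U (pc 1) .nil ∧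
    aw R (pc (d + 1)) B S i ≠ w1 (pc 1) .nil U :=
  ⟨fun e => h.clean g (aw_K g hi h.ne e), fun e => h.clean g (aw_K1 g hi h.ne e),
    fun e => h.clean g (aw_K2 g hi h.ne e)⟩

/-- **disjointness A0 - K** -/
theorem TyA0.disj_K (h : TyA0 F g) (hU : KSh U) (h' : TyK U F' g') : ∀ w ∈ g.B, w ∉ g'.B := by
  obtain ⟨q, R, B, S, w0, h1, hne, rfl, rfl⟩ := h
  intro w hw hw'
  obtain ⟨i, hi, rfl⟩ := mem_gad20M.1 hw
  obtain ⟨k1, k2, k3⟩ := aw_KSh h1.a0d hU hi
  rcases IsTri.words h' _ hw' with e1 | ⟨_, e1 | e1⟩ <;> rw [h1.word' w0 hi] at e1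
  · exact k1 e1
  · exact k2 e1
  · exact k3 e1

theorem TyB0.disj_K (h : TyB0 F g) (hU : KSh U) (h' : TyK U F' g') : ∀ w ∈ g.B, w ∉ g'.B := by
  intro w hw hw'
  obtain ⟨q, R, B, S, w0, i, h1, hi, h9, rfl, -⟩ := h.words w hw
  obtain ⟨k1, k2, k3⟩ := aw_KSh h1.a0d hU hi
  rcases IsTri.words h' _ hw' with e1 | ⟨_, e1 | e1⟩ <;> rw [h1.word' w0 hi] at e1
  · exact k1 e1
  · exact k2 e1
  · exact k3 e1

/-- **disjointness B0 - L** -/
theorem TyB0.disj_L (h : TyB0 F g) (h' : TyL F' g') : ∀ w ∈ g.B, w ∉ g'.B := by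
  intro w hw hw'
  obtain ⟨q, R, B, S, w0, i, h1, hi, h9, rfl, -⟩ := h.words w hw
  obtain ⟨R', e, h2, h3, h4, h5, ht⟩ := h'
  have hX := ht2_ne (ht_ins_ge R' e h2)
  rcases ht.words _ hw' with e1 | ⟨_, e1 | e1⟩ <;> rw [h1.word' w0 hi] at e1
  · exact aw_L h1.a0d hi hX e1
  · exact aw_L1 h1.a0d hi hX h5 e1
  · exact aw_L2 h1.a0d hi hX h4 e1

end Pool.OddHC
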