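import Pool.Agent.Work.MP_8f87b2_h13.RqC
set_option autoImplicit false
set_option linter.all false

/-!
# MP_8f87b2_co: the inner words of the right windows with smallest part `q + 3 ≥ 4` against the content links
-/

namespace Pool.OddHC
open Finset Equiv BinaryTree Pool.Agent.Work.MP_8f87b2_co HM
variable {k : ℕ} {F F' : Set (Cyc k)} {g g' : DG k} {q q' c d : ℕ} {R B S X U V : BinaryTree Unit}

/-- the content of an inner word -/
theorem HM.NodeM.cont_inn (h : NodeM k q R B S) (w0 : OddHC.X k) {i : ℕ} (hi : i ∈ [0, 1, 3, 6, 8, 9]) :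
    cont (TT (H1.wX R B S q w0 i)).1 = cont (H1.wX R B S q w0 i).1 :=
  (cont_same ⟨-1, by simp⟩)

/-- **right content links**, `c ≤ q + 1`, any `U` -/
theorem HM.NodeM.inn_C (h : NodeM k q R B S) (w0 : OddHC.X k) {i : ℕ} (hi : i ∈ [0, 1, 3, 6, 8, 9]) (hc : 1 ≤ c)
    (hcq : c ≤ q + 1) (h' : TyC c U F' g') : TT (H1.wX R B S q w0 i) ∉ g'.B := by
  have hin := (h.inn w0 hi).1
  intro hw
  rcases IsTri.words h' _ hw with e1 | ⟨_, e1 | e1⟩
  · have h1 : (TT (H1.wX R B S q w0 i)).1 = app (U △ .nil) (H1.ch c) := e1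
    have h2 := H1.stop_ch hin hc h1
    omega
  · have h1 : (TT (H1.wX R B S q w0 i)).1 = app U (H1.ch (c + 1)) := e1
    have h2 := H1.stop_ch hin (by omega) h1
    omega
  · have h1 : (TT (H1.wX R B S q w0 i)).1 = app (H1.ch c) (.nil △ U) := e1
    have h2 := H1.start_ch hin hc h1
    omega

/-- **left content links**, `c ≤ q + 1`, any `U` -/
theorem HM.NodeM.inn_C' (h : NodeM k q R B S) (w0 : OddHC.X k) {i : ℕ} (hi : i ∈ [0, 1, 3, 6, 8, 9]) (hc : 1 ≤ c)
    (hcq : c ≤ q + 1) (h' : TyC' c U F' g') : TT (H1.wX R B S q w0 i) ∉ g'.B := by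
  have hin := (h.inn w0 hi).1
  intro hw
  rcases IsTri.words h' _ hw with e1 | ⟨_, e1 | e1⟩
  · have h1 : (TT (H1.wX R B S q w0 i)).1 = app (H1.ch c) (U △ .nil) := e1
    have h2 := H1.start_ch hin hc h1
    omega
  · have h1 : (TT (H1.wX R B S q w0 i)).1 = app U (.nil △ H1.ch c) := e1
    have h3 : (TT (H1.wX R B S q w0 i)).1 = app (app U (.nil △ .nil)) (H1.ch c) := by
      rw [h1, app_assoc']
      rfl
    have h2 := H1.stop_ch hin hc h3
    omega
  · have h1 : (TT (H1.wX R B S q w0 i)).1 = app (H1.ch (c + 1)) U := e1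
    have h2 := H1.start_ch hin (by omega) h1
    omega

/-- the inner words of a window with a unique smallest part -/
theorem inn_uniq (h : NodeM k q R B S) (h4 : ∀ x ∈ cont R, q + 4 ≤ x) (ht4 : q + 4 < ht R) (w0 : OddHC.X k) {i : ℕ}
    (hi : i ∈ [0, 1, 3, 6, 8, 9]) : H1.InnP (q + 4) (TT (H1.wX R B S q w0 i)).1 := by
  obtain ⟨a, b, h1⟩ := H1.hg_FMT (g := q + 4) (by omega) (H1.hg_of_cont (by omega) h4) (by rw [H1.ht_eq]; exact ht4)
  have hi' : i < 20 := by
    simp only [List.mem_cons, List.not_mem_nil, or_false] at hi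
    omega
  obtain ⟨u, v, h2⟩ := H1.FMT_W (q := q) (B := B) (S := S) h1 (by
    rw [H1.ht_eq]; exact h.top.le) i hi
  rw [← H1.wX_eq h.dat h.size w0 hi'] at h2
  obtain ⟨h3, h5⟩ := h2.inner
  exact ⟨by omega, h3, h5⟩

/-- **bare content links**, every `c`, any multiplicity of the smallest part: an inner word on the link is on the T-cycle of the
window -/
theorem HM.NodeM.inn_Cb (h : NodeM k q R B S) (hq : 1 ≤ q) (hc : 2 ≤ c) (hp : ∀ x ∈ cont U, c + 1 ≤ x)
    (hm : c + 1 ∈ cont U) (h' : TyC c U F' g') (w0 : OddHC.X k) {i : ℕ} (hi : i ∈ [0, 1, 3, 6, 8, 9])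
    (hw : TT (H1.wX R B S q w0 i) ∈ g'.B) : cyc (H1.wX R B S q w0 0) ∈ F' := by
  rcases Nat.lt_or_ge (q + 1) c with hcq | hcq
  swap
  · exact absurd hw (h.inn_C w0 hi (by omega) hcq h')
  have hin := (h.inn w0 hi).1
  have hi' : i < 20 := by
    simp only [List.mem_cons, List.not_mem_nil, or_false] at hi
    omega
  have hcn := h.cont_inn w0 hi
  have hT : cyc (TT (H1.wX R B S q w0 i)) = cyc (H1.wX R B S q w0 i) := cyc_eq.2 ⟨-1, by simp⟩
  have c0 : i = 0 → cont (H1.wX R B S q w0 i).1 = cont R + {q + 3} := by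
    rintro rfl
    rw [h.rW' w0 (by norm_num), H1.cont_all h.dat (by norm_num)]
    rfl
  have h10 : i ≠ 10 := by
    simp only [List.mem_cons, List.not_mem_nil, or_false] at hi
    omega
  have hq3 : q + 3 ∈ cont R + {q + 3} := Multiset.mem_add.2 (Or.inr (Multiset.mem_singleton_self _))
  have hpr : ∀ x ∈ raise (cont U), c + 1 ≤ x := by
    intro x hx
    unfold raise at hx
    rcases Multiset.mem_cons.1 hx with rfl | hx
    · have := Multiset.le_sup hm
      omega
    · exact hp x (Multiset.mem_of_mem_erase hx)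
  have hch : ∀ n, cont (H1.ch (n + 1)) = {n + 1} := fun n => H1.ch_cont n
  obtain ⟨c, rfl⟩ : ∃ c', c = c' + 1 := ⟨c - 1, by omega⟩
  rcases IsTri.words h' _ hw with e1 | ⟨hF, e1 | e1⟩
  · exfalso
    have h1 : (TT (H1.wX R B S q w0 i)).1 = app (U △ .nil) (H1.ch (c + 1)) := e1
    have h2 := H1.stop_ch hin (by omega) h1
    have h3 : cont (TT (H1.wX R B S q w0 i)).1 = raise (cont U) + {c + 1} := by
      rw [h1, cont_app, hch, cont_node, cont_nil, add_zero]
    rw [hcn] at h3
    by_cases h0 : i = 0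
    · rw [c0 h0] at h3
      have h5 := hq3
      rw [h3, Multiset.mem_add, Multiset.mem_singleton] at h5
      have hcc : c = q + 2 := by
        rcases h5 with h5 | h5
        · have := hpr _ h5; omega
        · omega
      subst hcc
      have hR : cont R = raise (cont U) := add_right_cancel h3
      have h4 : ∀ x ∈ cont R, q + 4 ≤ x := by
        intro x hx
        rw [hR] at hx
        have := hpr x hx
        omega
      have ht4 : q + 4 < ht R := by
        rw [ht_eq, hR, sup_raise]
        have := Multiset.le_sup hm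
        omega
      have h6 := H1.stop_ch (inn_uniq h h4 ht4 w0 hi) (by omega) h1
      omega
    · rcases h.low w0 hi' h0 h10 with h5 | h5 <;> rw [h3, Multiset.mem_add, Multiset.mem_singleton] at h5 <;>
        rcases h5 with h5 | h5
      · have := hpr _ h5; omega
      · omega
      · have := hpr _ h5; omega
      · omega
  · have h1 : (TT (H1.wX R B S q w0 i)).1 = app U (H1.ch (c + 1 + 1)) := e1
    have h3 : cont (TT (H1.wX R B S q w0 i)).1 = cont U + {c + 1 + 1} := by
      rw [h1, cont_app, hch]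
    rw [hcn] at h3
    by_cases h0 : i = 0
    · subst h0
      rw [← hT]
      exact hF
    · exfalso
      rcases h.low w0 hi' h0 h10 with h5 | h5 <;> rw [h3, Multiset.mem_add, Multiset.mem_singleton] at h5 <;>
        rcases h5 with h5 | h5
      · have := hp _ h5; omega
      · omega
      · have := hp _ h5; omega
      · omega
  · exfalso
    have h1 : (TT (H1.wX R B S q w0 i)).1 = app (H1.ch (c + 1)) (.nil △ U) := e1
    have h2 := H1.start_ch hin (by omega) h1
    have h3 : cont (TT (H1.wX R B S q w0 i)).1 = {c + 1} + ({1} + cont U) := by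
      rw [h1, cont_app, hch, cont_node, cont_nil, raise_zero]
    rw [hcn] at h3
    by_cases h0 : i = 0
    · rw [c0 h0] at h3
      have h5 : 1 ∈ cont R + {q + 3} := by rw [h3]; simp
      rw [Multiset.mem_add, Multiset.mem_singleton] at h5
      rcases h5 with h5 | h5
      · have := h.part _ h5; omega
      · omega
    · rcases h.low w0 hi' h0 h10 with h5 | h5 <;> rw [h3, Multiset.mem_add, Multiset.mem_add, Multiset.mem_singleton,
        Multiset.mem_singleton] at h5 <;> rcases h5 with h5 | h5 | h5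
      · omega
      · omega
      · have := hp _ h5; omega
      · omega
      · omega
      · have := hp _ h5; omega

end Pool.OddHC
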