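import Pool.Agent.Work.MP_8f87b2_h13.A0Low
import Pool.Agent.Work.MP_8f87b2_h6.GadS
set_option autoImplicit false
set_option linter.all false

/-!
# MP_8f87b2_co: the RIGHT windows of the bead free T-cycles with smallest part `3` (at least twice)

`TyR3 F g`: the twenty words `wX R B S 0 w0 i` of the right window, `F = {cyc w0}`.
`TyS3 F g`: the right window merged with the E pair of its words 1, 11 and 2: `F = {cyc w0, cyc w1, cyc w2}`,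
the 19 words `≠ 9`, arcs `3 > 12, 6 > 15, 8 > 14`.
These are the mirror images of `TyA0` and `TyB0`. `ClR`: clean phase against the E-triples.
-/

namespace Pool.OddHC
open Finset Equiv BinaryTree Pool.Agent.Work.MP_8f87b2_co HM
variable {k : ℕ} {F F' : Set (Cyc k)} {g g' : DG k} {q : ℕ} {R B S : BinaryTree Unit}

/-- clean phase of a right window against the E-triples -/
def ClR (B S : BinaryTree Unit) : Prop := ¬ St3 S ∧ ¬ (B = pc 3 ∧ 3 ∉ cont S)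

/-- TYPE R3: the right window of a bead free T-cycle, `c = 3` -/
def TyR3 (F : Set (Cyc k)) (g : DG k) : Prop :=
  ∃ (R B S : BinaryTree Unit) (w0 : X k), NodeM k 0 R B S ∧
    H1.wX R B S 0 w0 0 ≠ H1.wX R B S 0 w0 10 ∧ R ≠ .nil ∧ ClR B S ∧
    F = {cyc (H1.wX R B S 0 w0 0)} ∧ g = gad20 (H1.wX R B S 0 w0)

/-- TYPE R3 whose `R` does not start with `[3]` -/
def TyR3c (F : Set (Cyc k)) (g : DG k) : Prop :=
  ∃ (R B S : BinaryTree Unit) (w0 : X k), NodeM k 0 R B S ∧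
    H1.wX R B S 0 w0 0 ≠ H1.wX R B S 0 w0 10 ∧ ¬ St3 R ∧ ClR B S ∧
    F = {cyc (H1.wX R B S 0 w0 0)} ∧ g = gad20 (H1.wX R B S 0 w0)

theorem TyR3c.toR3 (h : TyR3c F g) : TyR3 F g := by
  obtain ⟨R, B, S, w0, h1, h2, _, h3, h4, h5⟩ := h
  exact ⟨R, B, S, w0, h1, h2, h1.ne, h3, h4, h5⟩

/-- TYPE S3: the right window of a bead free T-cycle, `c = 3`, merged with an E pair -/
def TyS3 (F : Set (Cyc k)) (g : DG k) : Prop :=
  ∃ (R B S : BinaryTree Unit) (w0 : X k), NodeM k 0 R B S ∧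
    H1.wX R B S 0 w0 0 ≠ H1.wX R B S 0 w0 10 ∧
    ¬ TT.SameCycle (H1.wX R B S 0 w0 1) (H1.wX R B S 0 w0 2) ∧
    (B = .nil → ¬ TT.SameCycle (H1.wX R B S 0 w0 1) (H1.wX R B S 0 w0 18) ∧
      ¬ TT.SameCycle (H1.wX R B S 0 w0 2) (H1.wX R B S 0 w0 18)) ∧ ClR B S ∧
    F = {cyc (H1.wX R B S 0 w0 0), cyc (H1.wX R B S 0 w0 1), cyc (H1.wX R B S 0 w0 2)} ∧
    g = gadS (H1.wX R B S 0 w0)

namespace HM

/-- the words: mirror images of `aw` -/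
theorem NodeM.rword (h : NodeM k q R B S) (w0 : X k) {i : ℕ} (hi : i < 20) :
    (H1.wX R B S q w0 i).1 = Tsq.mir (aw (Tsq.mir R) (pc (q + 1)) (Tsq.mir B) (Tsq.mir S) i) := by
  rw [← h.word' w0 hi]
  exact (Tsq.mir_mir _).symm

theorem NodeM.rW (h : NodeM k q R B S) (w0 : X k) {i : ℕ} (hi : i < 20) :
    (H1.wX R B S q w0 i).1 = H1.W R (pc (q + 1)) B S i := by
  rw [H1.wX_eq h.dat h.size w0 hi, H1.ch_eq]

theorem mir_mX (R B S : BinaryTree Unit) (q : ℕ) (w0 : X k) (i : ℕ) :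
    Tsq.mirX (mX R B S q w0 i) = H1.wX R B S q w0 i := mirX_mirX _

theorem mX_inj {R' B' S' : BinaryTree Unit} {q' : ℕ} {w0 w0' : X k} {i j : ℕ}
    (e : H1.wX R B S q w0 i = H1.wX R' B' S' q' w0' j) : mX R B S q w0 i = mX R' B' S' q' w0' j :=
  congrArg Tsq.mirX e

theorem wX_of_mX {R' B' S' : BinaryTree Unit} {q' : ℕ} {w0 w0' : X k} {i j : ℕ}
    (e : mX R B S q w0 i = mX R' B' S' q' w0' j) : H1.wX R B S q w0 i = H1.wX R' B' S' q' w0' j := by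
  rw [← mir_mX, ← mir_mX R', e]

theorem same_mX {R' B' S' : BinaryTree Unit} {q' : ℕ} {w0 w0' : X k} {i j : ℕ} :
    (TT : Perm (X k)).SameCycle (mX R B S q w0 i) (mX R' B' S' q' w0' j) ↔
      (TT : Perm (X k)).SameCycle (H1.wX R B S q w0 i) (H1.wX R' B' S' q' w0' j) := by
  constructor
  · intro h
    have := same_mir h
    rwa [mir_mX, mir_mX] at this
  · exact same_mir

theorem cont_wX (R B S : BinaryTree Unit) (q : ℕ) (w0 : X k) (i : ℕ) :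
    cont (mX R B S q w0 i).1 = cont (H1.wX R B S q w0 i).1 := cont_mir _

theorem ht_wX (R B S : BinaryTree Unit) (q : ℕ) (w0 : X k) (i : ℕ) :
    ht (mX R B S q w0 i).1 = ht (H1.wX R B S q w0 i).1 := ht_mir _

theorem NodeM.rlink (h : NodeM k q R B S) (w0 : X k) {i j : ℕ}
    (hij : (i, j) ∈ [(0, 10), (1, 11), (3, 12), (6, 15), (8, 14), (9, 17)]) :
    TT (TT (H1.wX R B S q w0 i)) = H1.wX R B S q w0 j := H1.wX_link h.dat h.size w0 hij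

theorem NodeM.rsame10 (h : NodeM k q R B S) (w0 : X k) :
    TT.SameCycle (H1.wX R B S q w0 0) (H1.wX R B S q w0 10) := same_mX.1 (h.same10 w0)

theorem NodeM.rsame11 (h : NodeM k q R B S) (w0 : X k) :
    TT.SameCycle (H1.wX R B S q w0 1) (H1.wX R B S q w0 11) := same_mX.1 (h.same11 w0)

theorem NodeM.rrank (h : NodeM k q R B S) (w0 : X k) : ∀ i < 20, i ≠ 0 → i ≠ 10 →
    H1.Lower (cont (H1.wX R B S q w0 i).1) (cont (H1.wX R B S q w0 0).1) := by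
  intro i hi h0 h10
  rw [← cont_wX, ← cont_wX]
  exact h.rank w0 i hi h0 h10

theorem NodeM.rhold (h : NodeM k q R B S) (w0 : X k) : ∀ i < 20, i ≠ 0 → i ≠ 10 →
    ¬ TT.SameCycle (H1.wX R B S q w0 0) (H1.wX R B S q w0 i) := by
  intro i hi h0 h10 hs
  exact h.hold w0 i hi h0 h10 (same_mX.2 hs)

theorem NodeM.rinj (h : NodeM k q R B S) (w0 : X k) (hne : H1.wX R B S q w0 0 ≠ H1.wX R B S q w0 10) :
    ∀ i < 20, ∀ j < 20, H1.wX R B S q w0 i = H1.wX R B S q w0 j → i = j :=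
  fun i hi j hj e => h.inj w0 (fun e => hne (wX_of_mX e)) i hi j hj (mX_inj e)

theorem NodeM.rdisj (h : NodeM k q R B S) {q' : ℕ} {R' B' S' : BinaryTree Unit}
    (h' : NodeM k q' R' B' S') (hm : q < q' → q + 3 ∈ cont R) (hm' : q' < q → q' + 3 ∈ cont R')
    (w0 : X k) {i j : ℕ} (hi : i < 20) (hj : j < 20)
    (e : H1.wX R B S q w0 i = H1.wX R' B' S' q' w0 j) :
    TT.SameCycle (H1.wX R B S q w0 0) (H1.wX R' B' S' q' w0 0) :=
  same_mX.1 (h.disj' h' hm hm' w0 hi hj (mX_inj e))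

theorem NodeM.rabs (h : NodeM k q R B S) (w0 : X k) (hne : H1.wX R B S q w0 0 ≠ H1.wX R B S q w0 10) :
    (gad20 (H1.wX R B S q w0)).Abs := by
  apply H1.wX_abs h.dat h.size w0
  intro i hi j hj e
  apply h.rinj w0 hne i hi j hj
  apply Subtype.ext
  rw [H1.wX_eq h.dat h.size w0 hi, H1.wX_eq h.dat h.size w0 hj, e]

end HM

/-! ### TyR3 -/

theorem TyR3.hF (h : TyR3 F g) : ∀ w, w ∈ g.F ↔ cyc w ∈ F := by
  obtain ⟨R, B, S, w0, h1, hne, hR, hc, rfl, rfl⟩ := h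
  intro w
  change TT.SameCycle _ _ ↔ cyc w = _
  rw [← cyc_eq]
  exact ⟨fun e => e.symm, fun e => e.symm⟩

theorem TyR3.new (h : TyR3 F g) : ∀ c ∈ F, ∃ u ∈ g.B, cyc u = c := by
  obtain ⟨R, B, S, w0, h1, hne, hR, hc, rfl, rfl⟩ := h
  rintro c rfl
  exact ⟨_, mem_gad20.2 ⟨0, by norm_num, rfl⟩, rfl⟩

theorem TyR3.old (h : TyR3 F g) : ∃ u ∈ g.B, cyc u ∉ F := by
  obtain ⟨R, B, S, w0, h1, hne, hR, hc, rfl, rfl⟩ := h
  refine ⟨_, mem_gad20.2 ⟨1, by norm_num, rfl⟩, ?_⟩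
  intro e
  have h2 := h1.rrank w0 1 (by norm_num) (by norm_num) (by norm_num)
  have h3 : cyc (H1.wX R B S 0 w0 1) = cyc (H1.wX R B S 0 w0 0) := e
  exact h2.ne (congrArg contc h3)

theorem TyR3.abs (h : TyR3 F g) : g.Abs := by
  obtain ⟨R, B, S, w0, h1, hne, hR, hc, rfl, rfl⟩ := h
  exact h1.rabs w0 hne

/-- rank: every old word is `Lower` than the new T-cycle -/
theorem TyR3.rank (h : TyR3 F g) : ∀ w ∈ g.B, cyc w ∈ F ∨ ∀ c ∈ F, H1.Lower (contc (cyc w)) (contc c) := by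
  obtain ⟨R, B, S, w0, h1, hne, hR, hc, rfl, rfl⟩ := h
  intro w hw
  obtain ⟨i, hi, rfl⟩ := mem_gad20.1 hw
  by_cases h0 : i = 0
  · left; rw [h0]; rfl
  · by_cases h10 : i = 10
    · left
      rw [h10]
      change cyc _ = cyc _
      exact cyc_eq.2 (h1.rsame10 w0).symm
    · right
      rintro c rfl
      exact h1.rrank w0 i hi h0 h10

theorem TyR3.path (h : TyR3 F g) : ∀ a ∈ g.arcs, ∃ n : ℕ, (TT ^ (n + 1)) a.1 = a.2 ∧ a.1 ∈ g.B ∧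
    ∀ i < n, (TT ^ (i + 1)) a.1 ∈ innA a := by
  obtain ⟨R, B, S, w0, h1, hne, hR, hc, rfl, rfl⟩ := h
  intro p hp
  have key : ∀ i j, (i, j) ∈ [(0, 10), (1, 11), (3, 12), (6, 15), (8, 14), (9, 17)] → i < 20 →
      p = (H1.wX R B S 0 w0 i, H1.wX R B S 0 w0 j) →
      ∃ n : ℕ, (TT ^ (n + 1)) p.1 = p.2 ∧ p.1 ∈ (gad20 (H1.wX R B S 0 w0)).B ∧
        ∀ i < n, (TT ^ (i + 1)) p.1 ∈ innA p := by
    rintro i j hij hj rfl
    refine ⟨1, ?_, mem_gad20.2 ⟨i, hj, rfl⟩, ?_⟩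
    · rw [pow_succ, pow_one, Perm.mul_apply]
      exact h1.rlink w0 hij
    · intro n hn
      obtain rfl : n = 0 := by omega
      rw [pow_one]
      rfl
  have hp' : p = (H1.wX R B S 0 w0 0, H1.wX R B S 0 w0 10) ∨
      p = (H1.wX R B S 0 w0 1, H1.wX R B S 0 w0 11) ∨
      p = (H1.wX R B S 0 w0 3, H1.wX R B S 0 w0 12) ∨
      p = (H1.wX R B S 0 w0 6, H1.wX R B S 0 w0 15) ∨
      p = (H1.wX R B S 0 w0 8, H1.wX R B S 0 w0 14) ∨
      p = (H1.wX R B S 0 w0 9, H1.wX R B S 0 w0 17) := hp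
  rcases hp' with e | e | e | e | e | e
  · exact key 0 10 (by simp) (by norm_num) e
  · exact key 1 11 (by simp) (by norm_num) e
  · exact key 3 12 (by simp) (by norm_num) e
  · exact key 6 15 (by simp) (by norm_num) e
  · exact key 8 14 (by simp) (by norm_num) e
  · exact key 9 17 (by simp) (by norm_num) e

theorem TyR3.words (h : TyR3 F g) : ∀ w ∈ g.B, ∃ (R B S : BinaryTree Unit) (w0 : X k) (i : ℕ),
    NodeM k 0 R B S ∧ R ≠ .nil ∧ ClR B S ∧ i < 20 ∧ w = H1.wX R B S 0 w0 i ∧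
      cyc (H1.wX R B S 0 w0 0) ∈ F := by
  obtain ⟨R, B, S, w0, h1, hne, hR, hc, rfl, rfl⟩ := h
  intro w hw
  obtain ⟨i, hi, rfl⟩ := mem_gad20.1 hw
  exact ⟨R, B, S, w0, i, h1, hR, hc, hi, rfl, rfl⟩

/-- words of two right windows -/
theorem HM.NodeM.rdis {q' : ℕ} {R' B' S' : BinaryTree Unit} (h1 : NodeM k q R B S) (h1' : NodeM k q' R' B' S')
    (hm : q < q' → q + 3 ∈ cont R) (hm' : q' < q → q' + 3 ∈ cont R') (w0 w0' : X k) {i j : ℕ} (hi : i < 20) (hj : j < 20) (e : H1.wX R' B' S' q' w0' j = H1.wX R B S q w0 i) :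
    cyc (H1.wX R B S q w0 0) = cyc (H1.wX R' B' S' q' w0' 0) := by
  have e0 : H1.wX R' B' S' q' w0' j = H1.wX R' B' S' q' w0 j := by
    apply Subtype.ext
    rw [h1'.rW w0' hj, h1'.rW w0 hj]
  have e00 : H1.wX R' B' S' q' w0' 0 = H1.wX R' B' S' q' w0 0 := by
    apply Subtype.ext
    rw [h1'.rW w0' (by norm_num), h1'.rW w0 (by norm_num)]
  rw [e0] at e
  rw [e00]
  exact cyc_eq.2 (h1.rdisj h1' hm hm' w0 hi hj e.symm)

theorem M2.memr (h2 : M2 F) (h : NodeM k q R B S) {w0 : X k}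
    (hc : cyc (H1.wX R B S q w0 0) ∈ F) : q + 3 ∈ cont R := by
  have e : contc (cyc (H1.wX R B S q w0 0)) = cont R + {q + 3} := by
    change cont (H1.wX R B S q w0 0).1 = _
    rw [← cont_wX]
    exact h.cont0 w0
  have h3 := h2 _ hc (q + 3) (by
    rw [e]
    exact Multiset.mem_add.2 (Or.inr (Multiset.mem_singleton_self _))) (by
    intro y hy
    rw [e, Multiset.mem_add, Multiset.mem_singleton] at hy
    exact hy.elim (h.part y) (fun g => g.ge))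
  rw [e, Multiset.count_add, Multiset.count_singleton_self] at h3
  exact Multiset.count_pos.1 (by omega)

/-- **disjointness R3 - R3** -/
theorem TyR3.dis (h : TyR3 F g) (h' : TyR3 F' g') (hd : ∀ c ∈ F, c ∉ F') :
    ∀ w ∈ g.B, w ∉ g'.B := by
  intro w hw hw'
  obtain ⟨R, B, S, w0, i, h1, -, -, hi, rfl, hm⟩ := h.words w hw
  obtain ⟨R', B', S', w0', j, h1', -, -, hj, e, hm'⟩ := h'.words _ hw'
  have := h1.rdis h1' (fun g => absurd g (lt_irrefl _)) (fun g => absurd g (lt_irrefl _)) w0 w0' hi hj e.symm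
  exact hd _ hm (this ▸ hm')

/-! ### TyS3 -/

theorem memR_gadS {w : ℕ → X k} {x : X k} : x ∈ (gadS w).B ↔ ∃ i < 20, i ≠ 9 ∧ w i = x := by
  classical
  change x ∈ ((range 20).erase 9).image w ↔ _
  rw [Finset.mem_image]
  constructor
  · rintro ⟨i, hi, rfl⟩
    rw [Finset.mem_erase, Finset.mem_range] at hi
    exact ⟨i, hi.2, hi.1, rfl⟩
  · rintro ⟨i, hi, h9, rfl⟩
    exact ⟨i, Finset.mem_erase.2 ⟨h9, Finset.mem_range.2 hi⟩, rfl⟩

theorem TyS3.hF (h : TyS3 F g) : ∀ w, w ∈ g.F ↔ cyc w ∈ F := by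
  obtain ⟨R, B, S, w0, h1, hne, h12, h18, hc, rfl, rfl⟩ := h
  intro w
  change (TT.SameCycle _ _ ∨ TT.SameCycle _ _ ∨ TT.SameCycle _ _) ↔
    (cyc w = _ ∨ cyc w = _ ∨ cyc w = _)
  rw [← cyc_eq, ← cyc_eq, ← cyc_eq]
  constructor
  · rintro (e | e | e)
    · exact Or.inl e.symm
    · exact Or.inr (Or.inl e.symm)
    · exact Or.inr (Or.inr e.symm)
  · rintro (e | e | e)
    · exact Or.inl e.symm
    · exact Or.inr (Or.inl e.symm)
    · exact Or.inr (Or.inr e.symm)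

theorem TyS3.new (h : TyS3 F g) : ∀ c ∈ F, ∃ u ∈ g.B, cyc u = c := by
  obtain ⟨R, B, S, w0, h1, hne, h12, h18, hc, rfl, rfl⟩ := h
  rintro c (rfl | rfl | rfl)
  · exact ⟨_, memR_gadS.2 ⟨0, by norm_num, by norm_num, rfl⟩, rfl⟩
  · exact ⟨_, memR_gadS.2 ⟨1, by norm_num, by norm_num, rfl⟩, rfl⟩
  · exact ⟨_, memR_gadS.2 ⟨2, by norm_num, by norm_num, rfl⟩, rfl⟩

/-- the T-cycles of the other words are old -/
theorem holdR (h1 : NodeM k q R B S) (w0 : X k)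
    (h18 : B = .nil → ¬ TT.SameCycle (H1.wX R B S q w0 1) (H1.wX R B S q w0 18) ∧
      ¬ TT.SameCycle (H1.wX R B S q w0 2) (H1.wX R B S q w0 18)) :
    ∀ i < 20, i ≠ 0 → i ≠ 1 → i ≠ 2 → i ≠ 10 → i ≠ 11 →
      ¬ TT.SameCycle (H1.wX R B S q w0 0) (H1.wX R B S q w0 i) ∧
      ¬ TT.SameCycle (H1.wX R B S q w0 1) (H1.wX R B S q w0 i) ∧
      ¬ TT.SameCycle (H1.wX R B S q w0 2) (H1.wX R B S q w0 i) := by
  intro i hi i0 i1 i2 i10 i11
  have h18' : B = .nil → ¬ TT.SameCycle (mX R B S q w0 1) (mX R B S q w0 18) ∧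
      ¬ TT.SameCycle (mX R B S q w0 2) (mX R B S q w0 18) := fun hB =>
    ⟨fun e => (h18 hB).1 (same_mX.1 e), fun e => (h18 hB).2 (same_mX.1 e)⟩
  obtain ⟨a, b, c⟩ := holdB h1 w0 h18' i hi i0 i1 i2 i10 i11
  exact ⟨fun e => a (same_mX.2 e), fun e => b (same_mX.2 e), fun e => c (same_mX.2 e)⟩

theorem TyS3.old (h : TyS3 F g) : ∃ u ∈ g.B, cyc u ∉ F := by
  obtain ⟨R, B, S, w0, h1, hne, h12, h18, hc, rfl, rfl⟩ := h
  refine ⟨_, memR_gadS.2 ⟨3, by norm_num, by norm_num, rfl⟩, ?_⟩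
  have h3 := holdR h1 w0 h18 3 (by norm_num) (by norm_num) (by norm_num) (by norm_num)
    (by norm_num) (by norm_num)
  rintro (e | e | e)
  · exact h3.1 (cyc_eq.1 e).symm
  · exact h3.2.1 (cyc_eq.1 e).symm
  · exact h3.2.2 (cyc_eq.1 e).symm

theorem TyS3.abs (h : TyS3 F g) : g.Abs := by
  obtain ⟨R, B, S, w0, h1, hne, h12, h18, hc, rfl, rfl⟩ := h
  have e := h1.dat.num
  have es := h1.size
  apply gadS_abs (R := R) (Q := H1.ch (0 + 1)) (B := B) (S := S)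
    (by rw [H1.ch_num]; omega) (by rw [H1.ch_num]; omega)
    (fun i hi _ => by rw [H1.wX_eq h1.dat h1.size w0 hi, H1.W_w20 _ _ _ _ i hi])
    (fun i hi _ j hj _ e => h1.rinj w0 hne i hi j hj e)
    (h1.rsame10 w0) (h1.rsame11 w0) (fun e => h1.h01 w0 (same_mX.2 e)) (fun e => h1.h02 w0 (same_mX.2 e)) h12
  intro i hi i0 i1 i2 i9 i10 i11
  exact holdR h1 w0 h18 i hi i0 i1 i2 i10 i11

/-- all T-cycles of the group have the same height -/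
theorem TyS3.htg (h : TyS3 F g) : ∀ c ∈ F, ∀ d ∈ F, htc c = htc d := by
  obtain ⟨R, B, S, w0, h1, hne, h12, h18, hc, rfl, rfl⟩ := h
  have key : ∀ c ∈ ({cyc (H1.wX R B S 0 w0 0), cyc (H1.wX R B S 0 w0 1), cyc (H1.wX R B S 0 w0 2)} :
      Set (Cyc k)), htc c = ht R := by
    rintro c (rfl | rfl | rfl)
    · rw [htc_cyc, ← ht_wX, h1.ht012 w0 (Or.inl rfl)]
    · rw [htc_cyc, ← ht_wX, h1.ht012 w0 (Or.inr (Or.inl rfl))]
    · rw [htc_cyc, ← ht_wX, h1.ht012 w0 (Or.inr (Or.inr rfl))]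
  intro c hc d hd
  rw [key c hc, key d hd]

/-- rank: every old word is strictly higher, or one of the words 4, 5, 13, 16, 18 and `Lower` than the bare T-cycle -/
theorem TyS3.rank (h : TyS3 F g) : ∀ w ∈ g.B, cyc w ∈ F ∨ (∀ c ∈ F, htc c < htc (cyc w)) ∨
    ∃ (R B S : BinaryTree Unit) (w0 : X k) (i : ℕ), NodeM k 0 R B S ∧
      cyc (H1.wX R B S 0 w0 0) ∈ F ∧ (i = 4 ∨ i = 5 ∨ i = 13 ∨ i = 16 ∨ i = 18) ∧
      w = H1.wX R B S 0 w0 i ∧ H1.Lower (contc (cyc w)) (contc (cyc (H1.wX R B S 0 w0 0))) := by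
  have hg := h.htg
  obtain ⟨R, B, S, w0, h1, hne, h12, h18, hc, rfl, rfl⟩ := h
  intro w hw
  obtain ⟨i, hi, i9, rfl⟩ := memR_gadS.1 hw
  by_cases i0 : i = 0
  · left; rw [i0]; exact Or.inl rfl
  by_cases i1 : i = 1
  · left; rw [i1]; exact Or.inr (Or.inl rfl)
  by_cases i2 : i = 2
  · left; rw [i2]; exact Or.inr (Or.inr rfl)
  by_cases i10 : i = 10
  · left; rw [i10]; exact Or.inl (cyc_eq.2 (h1.rsame10 w0).symm)
  by_cases i11 : i = 11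
  · left; rw [i11]; exact Or.inr (Or.inl (cyc_eq.2 (h1.rsame11 w0).symm))
  by_cases hi2 : i = 4 ∨ i = 5 ∨ i = 13 ∨ i = 16 ∨ i = 18
  · right; right
    exact ⟨R, B, S, w0, i, h1, Or.inl rfl, hi2, rfl, h1.rrank w0 i hi i0 i10⟩
  · right; left
    intro c hc
    have h2 := h1.htB w0 i hi (by omega)
    have h3 := hg c hc (cyc (H1.wX R B S 0 w0 0)) (Or.inl rfl)
    rw [h3, htc_cyc, htc_cyc, ← ht_wX, ← ht_wX, h1.ht012 w0 (Or.inl rfl)]
    exact h2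

theorem TyS3.path (h : TyS3 F g) : ∀ a ∈ g.arcs, ∃ n : ℕ, (TT ^ (n + 1)) a.1 = a.2 ∧ a.1 ∈ g.B ∧
    ∀ i < n, (TT ^ (i + 1)) a.1 ∈ innA a := by
  obtain ⟨R, B, S, w0, h1, hne, h12, h18, hc, rfl, rfl⟩ := h
  intro p hp
  have key : ∀ i j, (i, j) ∈ [(0, 10), (1, 11), (3, 12), (6, 15), (8, 14), (9, 17)] → i < 20 →
      i ≠ 9 → p = (H1.wX R B S 0 w0 i, H1.wX R B S 0 w0 j) →
      ∃ n : ℕ, (TT ^ (n + 1)) p.1 = p.2 ∧ p.1 ∈ (gadS (H1.wX R B S 0 w0)).B ∧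
        ∀ i < n, (TT ^ (i + 1)) p.1 ∈ innA p := by
    rintro i j hij hj h9 rfl
    refine ⟨1, ?_, memR_gadS.2 ⟨i, hj, h9, rfl⟩, ?_⟩
    · rw [pow_succ, pow_one, Perm.mul_apply]
      exact h1.rlink w0 hij
    · intro n hn
      obtain rfl : n = 0 := by omega
      rw [pow_one]
      rfl
  have hp' : p = (H1.wX R B S 0 w0 3, H1.wX R B S 0 w0 12) ∨
      p = (H1.wX R B S 0 w0 6, H1.wX R B S 0 w0 15) ∨
      p = (H1.wX R B S 0 w0 8, H1.wX R B S 0 w0 14) := hp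
  rcases hp' with e | e | e
  · exact key 3 12 (by simp) (by norm_num) (by norm_num) e
  · exact key 6 15 (by simp) (by norm_num) (by norm_num) e
  · exact key 8 14 (by simp) (by norm_num) (by norm_num) e

/-- every word of an S3 gadget is a word of a right window -/
theorem TyS3.words (h : TyS3 F g) : ∀ w ∈ g.B, ∃ (R B S : BinaryTree Unit) (w0 : X k) (i : ℕ),
    NodeM k 0 R B S ∧ ClR B S ∧ i < 20 ∧ i ≠ 9 ∧ w = H1.wX R B S 0 w0 i ∧
      cyc (H1.wX R B S 0 w0 0) ∈ F := by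
  obtain ⟨R, B, S, w0, h1, hne, h12, h18, hc, rfl, rfl⟩ := h
  intro w hw
  obtain ⟨i, hi, h9, rfl⟩ := memR_gadS.1 hw
  exact ⟨R, B, S, w0, i, h1, hc, hi, h9, rfl, Or.inl rfl⟩

/-- **disjointness S3 - S3** -/
theorem TyS3.dis (h : TyS3 F g) (h' : TyS3 F' g') (hd : ∀ c ∈ F, c ∉ F') :
    ∀ w ∈ g.B, w ∉ g'.B := by
  intro w hw hw'
  obtain ⟨R, B, S, w0, i, h1, -, hi, h9, rfl, hm⟩ := h.words w hw
  obtain ⟨R', B', S', w0', j, h1', -, hj, h9', e, hm'⟩ := h'.words _ hw'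
  have := h1.rdis h1' (fun g => absurd g (lt_irrefl _)) (fun g => absurd g (lt_irrefl _)) w0 w0' hi hj e.symm
  exact hd _ hm (this ▸ hm')

/-- **disjointness R3 - S3** -/
theorem TyS3.disR3 (h : TyS3 F g) (h' : TyR3 F' g') (hd : ∀ c ∈ F, c ∉ F') :
    ∀ w ∈ g.B, w ∉ g'.B := by
  intro w hw hw'
  obtain ⟨R, B, S, w0, i, h1, -, hi, h9, rfl, hm⟩ := h.words w hw
  obtain ⟨R', B', S', w0', j, h1', -, -, hj, e, hm'⟩ := h'.words _ hw'
  have := h1.rdis h1' (fun g => absurd g (lt_irrefl _)) (fun g => absurd g (lt_irrefl _)) w0 w0' hi hj e.symm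
  exact hd _ hm (this ▸ hm')

/-- the inner words of the arcs of the two types: `T` of the words 0, 1, 3, 6, 8, 9 -/
theorem TyR3.inn (h : TyR3 F g) : ∀ a ∈ g.arcs, ∃ (R B S : BinaryTree Unit) (w0 : X k) (i : ℕ),
    NodeM k 0 R B S ∧ R ≠ .nil ∧ ClR B S ∧ i ∈ [0, 1, 3, 6, 8, 9] ∧ a.1 = H1.wX R B S 0 w0 i ∧
      cyc (H1.wX R B S 0 w0 0) ∈ F := by
  obtain ⟨R, B, S, w0, h1, hne, hR, hc, rfl, rfl⟩ := h
  intro p hp
  have hp' : p = (H1.wX R B S 0 w0 0, H1.wX R B S 0 w0 10) ∨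
      p = (H1.wX R B S 0 w0 1, H1.wX R B S 0 w0 11) ∨
      p = (H1.wX R B S 0 w0 3, H1.wX R B S 0 w0 12) ∨
      p = (H1.wX R B S 0 w0 6, H1.wX R B S 0 w0 15) ∨
      p = (H1.wX R B S 0 w0 8, H1.wX R B S 0 w0 14) ∨
      p = (H1.wX R B S 0 w0 9, H1.wX R B S 0 w0 17) := hp
  rcases hp' with rfl | rfl | rfl | rfl | rfl | rfl
  · exact ⟨R, B, S, w0, 0, h1, hR, hc, by simp, rfl, rfl⟩
  · exact ⟨R, B, S, w0, 1, h1, hR, hc, by simp, rfl, rfl⟩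
  · exact ⟨R, B, S, w0, 3, h1, hR, hc, by simp, rfl, rfl⟩
  · exact ⟨R, B, S, w0, 6, h1, hR, hc, by simp, rfl, rfl⟩
  · exact ⟨R, B, S, w0, 8, h1, hR, hc, by simp, rfl, rfl⟩
  · exact ⟨R, B, S, w0, 9, h1, hR, hc, by simp, rfl, rfl⟩

theorem TyS3.inn (h : TyS3 F g) : ∀ a ∈ g.arcs, ∃ (R B S : BinaryTree Unit) (w0 : X k) (i : ℕ),
    NodeM k 0 R B S ∧ ClR B S ∧ i ∈ [3, 6, 8] ∧ a.1 = H1.wX R B S 0 w0 i ∧
      cyc (H1.wX R B S 0 w0 0) ∈ F := by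
  obtain ⟨R, B, S, w0, h1, hne, h12, h18, hc, rfl, rfl⟩ := h
  intro p hp
  have hp' : p = (H1.wX R B S 0 w0 3, H1.wX R B S 0 w0 12) ∨
      p = (H1.wX R B S 0 w0 6, H1.wX R B S 0 w0 15) ∨
      p = (H1.wX R B S 0 w0 8, H1.wX R B S 0 w0 14) := hp
  rcases hp' with rfl | rfl | rfl
  · exact ⟨R, B, S, w0, 3, h1, hc, by simp, rfl, Or.inl rfl⟩
  · exact ⟨R, B, S, w0, 6, h1, hc, by simp, rfl, Or.inl rfl⟩
  · exact ⟨R, B, S, w0, 8, h1, hc, by simp, rfl, Or.inl rfl⟩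

end Pool.OddHC
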