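import Pool.Agent.Work.MP_8f87b2_h13.R3Dn3
set_option autoImplicit false
set_option linter.all false

/-!
# MP_8f87b2_co: the DOWN links (host `(U)[2]`, new words `U[3]`, `[2]()U`) over ANY bare `U` (all parts at least `3`) against the RIGHT windows R3, S3 (`c = 3`)
-/

namespace Pool.OddHC
open Finset Equiv BinaryTree Pool.Agent.Work.MP_8f87b2_co HM
variable {k : ℕ} {F F' : Set (Cyc k)} {g g' : DG k} {q : ℕ} {R B S X U V : BinaryTree Unit}

theorem W_DB (h : A0D 0 R B S) {i : ℕ} (hi : i < 20) (hU : U ≠ .nil) (hU2 : ∀ x ∈ cont U, 3 ≤ x)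
    (e : H1.W R (pc 1) B S i = w1 .nil U (pc 2)) :
    U = R := by
  obtain ⟨⟨r, R1, R2, r', hr, hr', hr0, hr0'⟩, ⟨s, S1, S2, s', hs, hs', hs0, hs0'⟩, hB⟩ := h.dat
  have hr1 := lo_ne_nil hr0
  have hr1' := lo_ne_nil hr0'
  have hs1 := lo_ne_nil hs0
  have hs1' := lo_ne_nil hs0'
  have hr2 : r ≠ .nil △ .nil := lo_ne_pc hr0 (show 1 < 0 + 2 by omega)
  have hr2' : r' ≠ .nil △ .nil := lo_ne_pc hr0' (show 1 < 0 + 2 by omega)
  have hs2 : s ≠ .nil △ .nil := lo_ne_pc hs0 (show 1 < 0 + 2 by omega)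
  have hs2' : s' ≠ .nil △ .nil := lo_ne_pc hs0' (show 1 < 0 + 2 by omega)
  have hRn := h.R_ne
  have hSn := h.S_ne
  have hRl := h.hv.ne_lf
  have hSl := h.hvS.ne_lf
  have hBl := h.hvB.ne_lf
  have hp0 : pc 0 = .nil := rfl
  have hp1 : pc 1 = .nil △ .nil := rfl
  have hp2 : pc 2 = (.nil △ .nil) △ .nil := rfl
  have hp3 : pc 3 = ((.nil △ .nil) △ .nil) △ .nil := rfl
  have hUc := comps_ne hU
  have happ : ∀ P A Y : BinaryTree Unit, app P (A △ Y) ≠ .nil := fun P A Y => app_ne' (by simp)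
  have bad1 : ∀ A, A ∈ comps U → 1 ∈ raise (cont A) → False := fun A h1 h2 => by have := hU2 1 (mem_comps h1 h2); omega
  have bad2 : ∀ A, A ∈ comps U → 2 ∈ raise (cont A) → False := fun A h1 h2 => by have := hU2 2 (mem_comps h1 h2); omega
  have p1 : 2 ∈ raise (cont (BinaryTree.nil △ BinaryTree.nil : BinaryTree Unit)) := by
    change 2 ∈ raise (cont (pc 1)); rw [raise_pc]; exact Multiset.mem_singleton_self _
  have p0 : 1 ∈ raise (cont (BinaryTree.nil : BinaryTree Unit)) := by
    rw [cont_nil, raise_zero]; exact Multiset.mem_singleton_self _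
  have e0 := congrArg comps e
  have e1 := congrArg comps e
  have e2 := congrArg (fun t => (comps t).reverse) e
  rcases hB with hB | ⟨b, B1, B2, b', hBn, hb, hb', hb0, hb0'⟩
  · have hb : comps B = [] := by rw [hB]; rfl
    interval_cases i <;>
    simp [H1.W, comps_w1, comps_node, comps_app, comps_pc, comps, hr, hs, hb, hr1, hs1, hr2, hs2, hp0, hp1, hp2, hp3, hRn, hSn, hRl, hSl, hBl, hU, hU.symm, hUc, happ] at e1 <;>
    simp [H1.W, comps_w1, comps_node, comps_app, comps_pc, comps, hr', hs', hb, hr1', hs1', hr2', hs2', hp0, hp1, hp2, hp3, hRn, hSn, hRl, hSl, hBl, hU, hU.symm, hUc, happ] at e2 <;>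
    simp only [H1.W, comps_w1, comps_node, comps_app, comps_pc, comps, List.nil_append, List.cons_append, List.append_assoc] at e0
    · exact e1.symm
    · exfalso
      have e7 := congrArg (fun t => (comps t).length) e2.1
      simp [comps_app, comps_node, comps] at e7
  · have hb1 := lo_ne_nil hb0
    have hb1' := lo_ne_nil hb0'
    have hb2 : b ≠ .nil △ .nil := lo_ne_pc hb0 (show 1 < 0 + 2 by omega)
    have hb2' : b' ≠ .nil △ .nil := lo_ne_pc hb0' (show 1 < 0 + 2 by omega)
    interval_cases i <;>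
    simp [H1.W, comps_w1, comps_node, comps_app, comps_pc, comps, hr, hs, hb, hr1, hs1, hb1, hr2, hs2, hb2, hBn, hp0, hp1, hp2, hp3, hRn, hSn, hRl, hSl, hBl, hU, hU.symm, hUc, happ] at e1 <;>
    simp [H1.W, comps_w1, comps_node, comps_app, comps_pc, comps, hr', hs', hb', hr1', hs1', hb1', hr2', hs2', hb2', hBn, hp0, hp1, hp2, hp3, hRn, hSn, hRl, hSl, hBl, hU, hU.symm, hUc, happ] at e2 <;>
    simp only [H1.W, comps_w1, comps_node, comps_app, comps_pc, comps, List.nil_append, List.cons_append, List.append_assoc] at e0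
    · exact e1.symm
    · exfalso
      have e7 := congrArg (fun t => (comps t).length) e2.1
      simp [comps_app, comps_node, comps] at e7

theorem W_DB1 (h : A0D 0 R B S) {i : ℕ} (hi : i < 20) (hU : U ≠ .nil) (hU2 : ∀ x ∈ cont U, 3 ≤ x)
    (e : H1.W R (pc 1) B S i = w1 U (pc 2) .nil) :
    U = R ∨ app U (pc 3) = H1.W R (pc 1) B S 10 := by
  obtain ⟨⟨r, R1, R2, r', hr, hr', hr0, hr0'⟩, ⟨s, S1, S2, s', hs, hs', hs0, hs0'⟩, hB⟩ := h.dat
  have hr1 := lo_ne_nil hr0
  have hr1' := lo_ne_nil hr0'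
  have hs1 := lo_ne_nil hs0
  have hs1' := lo_ne_nil hs0'
  have hr2 : r ≠ .nil △ .nil := lo_ne_pc hr0 (show 1 < 0 + 2 by omega)
  have hr2' : r' ≠ .nil △ .nil := lo_ne_pc hr0' (show 1 < 0 + 2 by omega)
  have hs2 : s ≠ .nil △ .nil := lo_ne_pc hs0 (show 1 < 0 + 2 by omega)
  have hs2' : s' ≠ .nil △ .nil := lo_ne_pc hs0' (show 1 < 0 + 2 by omega)
  have hRn := h.R_ne
  have hSn := h.S_ne
  have hRl := h.hv.ne_lf
  have hSl := h.hvS.ne_lf
  have hBl := h.hvB.ne_lf
  have hp0 : pc 0 = .nil := rfl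
  have hp1 : pc 1 = .nil △ .nil := rfl
  have hp2 : pc 2 = (.nil △ .nil) △ .nil := rfl
  have hp3 : pc 3 = ((.nil △ .nil) △ .nil) △ .nil := rfl
  have hUc := comps_ne hU
  have happ : ∀ P A Y : BinaryTree Unit, app P (A △ Y) ≠ .nil := fun P A Y => app_ne' (by simp)
  have bad1 : ∀ A, A ∈ comps U → 1 ∈ raise (cont A) → False := fun A h1 h2 => by have := hU2 1 (mem_comps h1 h2); omega
  have bad2 : ∀ A, A ∈ comps U → 2 ∈ raise (cont A) → False := fun A h1 h2 => by have := hU2 2 (mem_comps h1 h2); omega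
  have p1 : 2 ∈ raise (cont (BinaryTree.nil △ BinaryTree.nil : BinaryTree Unit)) := by
    change 2 ∈ raise (cont (pc 1)); rw [raise_pc]; exact Multiset.mem_singleton_self _
  have p0 : 1 ∈ raise (cont (BinaryTree.nil : BinaryTree Unit)) := by
    rw [cont_nil, raise_zero]; exact Multiset.mem_singleton_self _
  have e0 := congrArg comps e
  have e1 := congrArg comps e
  have e2 := congrArg (fun t => (comps t).reverse) e
  rcases hB with hB | ⟨b, B1, B2, b', hBn, hb, hb', hb0, hb0'⟩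
  · have hb : comps B = [] := by rw [hB]; rfl
    interval_cases i <;>
    simp [H1.W, comps_w1, comps_node, comps_app, comps_pc, comps, hr, hs, hb, hr1, hs1, hr2, hs2, hp0, hp1, hp2, hp3, hRn, hSn, hRl, hSl, hBl, hU, hU.symm, hUc, happ] at e1 <;>
    simp [H1.W, comps_w1, comps_node, comps_app, comps_pc, comps, hr', hs', hb, hr1', hs1', hr2', hs2', hp0, hp1, hp2, hp3, hRn, hSn, hRl, hSl, hBl, hU, hU.symm, hUc, happ] at e2 <;>
    simp only [H1.W, comps_w1, comps_node, comps_app, comps_pc, comps, List.nil_append, List.cons_append, List.append_assoc] at e0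
    · left
      apply comps_inj
      have e6 : comps R ++ [pc 2] = comps U ++ [pc 2] := e0
      exact (snoc_inj e6).1.symm
    · exfalso
      refine bad2 (app (.nil △ .nil) (.nil △ .nil)) (by rw [← List.mem_reverse, ← e2.2]; simp) ?_
      have : raise (cont (app (.nil △ .nil) (.nil △ .nil))) = {2} + {1} := by decide
      rw [this]
      exact Multiset.mem_add.2 (Or.inl (Multiset.mem_singleton_self _))
    · exfalso
      exact bad2 (BinaryTree.nil △ BinaryTree.nil : BinaryTree Unit) (by rw [← List.mem_reverse, ← e2.2]; simp) p1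
    · exact absurd e2.1 (h.R_pc 2)
    · right
      change app U (pc 3) = H1.W R (pc 1) B S 10
      rw [e, w1]
      rfl
    · exfalso
      exact bad1 (BinaryTree.nil : BinaryTree Unit) (by rw [← List.mem_reverse, ← e2.2]; simp) p0
    · exfalso
      have e7 := congrArg (fun t => (comps t).length) e2.1
      simp [comps_app, comps_node, comps] at e7
    · exact absurd e2.1 (h.S_pc hB 2)
    · rw [hB] at e2; exact absurd e2.1 (by simp)
  · have hb1 := lo_ne_nil hb0
    have hb1' := lo_ne_nil hb0'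
    have hb2 : b ≠ .nil △ .nil := lo_ne_pc hb0 (show 1 < 0 + 2 by omega)
    have hb2' : b' ≠ .nil △ .nil := lo_ne_pc hb0' (show 1 < 0 + 2 by omega)
    interval_cases i <;>
    simp [H1.W, comps_w1, comps_node, comps_app, comps_pc, comps, hr, hs, hb, hr1, hs1, hb1, hr2, hs2, hb2, hBn, hp0, hp1, hp2, hp3, hRn, hSn, hRl, hSl, hBl, hU, hU.symm, hUc, happ] at e1 <;>
    simp [H1.W, comps_w1, comps_node, comps_app, comps_pc, comps, hr', hs', hb', hr1', hs1', hb1', hr2', hs2', hb2', hBn, hp0, hp1, hp2, hp3, hRn, hSn, hRl, hSl, hBl, hU, hU.symm, hUc, happ] at e2 <;>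
    simp only [H1.W, comps_w1, comps_node, comps_app, comps_pc, comps, List.nil_append, List.cons_append, List.append_assoc] at e0
    · left
      apply comps_inj
      have e6 : comps R ++ [pc 2] = comps U ++ [pc 2] := e0
      exact (snoc_inj e6).1.symm
    · exfalso
      refine bad2 (app (.nil △ .nil) (.nil △ .nil)) (by rw [← List.mem_reverse, ← e2.2]; simp) ?_
      have : raise (cont (app (.nil △ .nil) (.nil △ .nil))) = {2} + {1} := by decide
      rw [this]
      exact Multiset.mem_add.2 (Or.inl (Multiset.mem_singleton_self _))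
    · exfalso
      exact bad2 (BinaryTree.nil △ BinaryTree.nil : BinaryTree Unit) (by rw [← List.mem_reverse, ← e2.2]; simp) p1
    · exact absurd e2.1 (h.R_pc 2)
    · right
      change app U (pc 3) = H1.W R (pc 1) B S 10
      rw [e, w1]
      rfl
    · exfalso
      exact bad1 (BinaryTree.nil : BinaryTree Unit) (by rw [← List.mem_reverse, ← e2.2]; simp) p0
    · exfalso
      have e7 := congrArg (fun t => (comps t).length) e2.1
      simp [comps_app, comps_node, comps] at e7
    · exfalso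
      refine bad1 (app (.nil △ .nil) (.nil △ S)) (by rw [← List.mem_reverse, ← e2.2]; simp) ?_
      have e8 : cont (app (.nil △ .nil) (.nil △ S)) = {1} + ({1} + cont S) := by
        rw [cont_app, cont_node, cont_nil, raise_zero, add_zero, cont_node, cont_nil, raise_zero]
      rw [e8]
      refine mem_raise (by simp) ?_
      rw [sup_add', sup_add', ← ht_eq]
      have := h.hS; have := h.top; omega
    · exfalso
      exact bad2 (BinaryTree.nil △ BinaryTree.nil : BinaryTree Unit) (by rw [← List.mem_reverse, ← e2.2]; simp) p1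
    · exfalso
      have := h.hvB 2 (by rw [e2.1]; change 2 ∈ cont (pc 2); rw [cont_pc]; exact Multiset.mem_singleton_self _)
      omega

theorem W_DB2 (h : A0D 0 R B S) {i : ℕ} (hi : i < 20) (hU : U ≠ .nil) (hU2 : ∀ x ∈ cont U, 3 ≤ x)
    (e : H1.W R (pc 1) B S i = w1 (pc 2) .nil U) :
    U = R := by
  obtain ⟨⟨r, R1, R2, r', hr, hr', hr0, hr0'⟩, ⟨s, S1, S2, s', hs, hs', hs0, hs0'⟩, hB⟩ := h.dat
  have hr1 := lo_ne_nil hr0
  have hr1' := lo_ne_nil hr0'
  have hs1 := lo_ne_nil hs0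
  have hs1' := lo_ne_nil hs0'
  have hr2 : r ≠ .nil △ .nil := lo_ne_pc hr0 (show 1 < 0 + 2 by omega)
  have hr2' : r' ≠ .nil △ .nil := lo_ne_pc hr0' (show 1 < 0 + 2 by omega)
  have hs2 : s ≠ .nil △ .nil := lo_ne_pc hs0 (show 1 < 0 + 2 by omega)
  have hs2' : s' ≠ .nil △ .nil := lo_ne_pc hs0' (show 1 < 0 + 2 by omega)
  have hRn := h.R_ne
  have hSn := h.S_ne
  have hRl := h.hv.ne_lf
  have hSl := h.hvS.ne_lf
  have hBl := h.hvB.ne_lf
  have hp0 : pc 0 = .nil := rfl
  have hp1 : pc 1 = .nil △ .nil := rfl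
  have hp2 : pc 2 = (.nil △ .nil) △ .nil := rfl
  have hp3 : pc 3 = ((.nil △ .nil) △ .nil) △ .nil := rfl
  have hUc := comps_ne hU
  have happ : ∀ P A Y : BinaryTree Unit, app P (A △ Y) ≠ .nil := fun P A Y => app_ne' (by simp)
  have bad1 : ∀ A, A ∈ comps U → 1 ∈ raise (cont A) → False := fun A h1 h2 => by have := hU2 1 (mem_comps h1 h2); omega
  have bad2 : ∀ A, A ∈ comps U → 2 ∈ raise (cont A) → False := fun A h1 h2 => by have := hU2 2 (mem_comps h1 h2); omega
  have p1 : 2 ∈ raise (cont (BinaryTree.nil △ BinaryTree.nil : BinaryTree Unit)) := by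
    change 2 ∈ raise (cont (pc 1)); rw [raise_pc]; exact Multiset.mem_singleton_self _
  have p0 : 1 ∈ raise (cont (BinaryTree.nil : BinaryTree Unit)) := by
    rw [cont_nil, raise_zero]; exact Multiset.mem_singleton_self _
  have e0 := congrArg comps e
  have e1 := congrArg comps e
  have e2 := congrArg (fun t => (comps t).reverse) e
  rcases hB with hB | ⟨b, B1, B2, b', hBn, hb, hb', hb0, hb0'⟩
  · have hb : comps B = [] := by rw [hB]; rfl
    interval_cases i <;>
    simp [H1.W, comps_w1, comps_node, comps_app, comps_pc, comps, hr, hs, hb, hr1, hs1, hr2, hs2, hp0, hp1, hp2, hp3, hRn, hSn, hRl, hSl, hBl, hU, hU.symm, hUc, happ] at e1 <;>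
    simp [H1.W, comps_w1, comps_node, comps_app, comps_pc, comps, hr', hs', hb, hr1', hs1', hr2', hs2', hp0, hp1, hp2, hp3, hRn, hSn, hRl, hSl, hBl, hU, hU.symm, hUc, happ] at e2 <;>
    simp only [H1.W, comps_w1, comps_node, comps_app, comps_pc, comps, List.nil_append, List.cons_append, List.append_assoc] at e0
    · apply comps_inj
      injection e0 with _ e6
      injection e6 with _ e7
      exact e7.symm
  · have hb1 := lo_ne_nil hb0
    have hb1' := lo_ne_nil hb0'
    have hb2 : b ≠ .nil △ .nil := lo_ne_pc hb0 (show 1 < 0 + 2 by omega)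
    have hb2' : b' ≠ .nil △ .nil := lo_ne_pc hb0' (show 1 < 0 + 2 by omega)
    interval_cases i <;>
    simp [H1.W, comps_w1, comps_node, comps_app, comps_pc, comps, hr, hs, hb, hr1, hs1, hb1, hr2, hs2, hb2, hBn, hp0, hp1, hp2, hp3, hRn, hSn, hRl, hSl, hBl, hU, hU.symm, hUc, happ] at e1 <;>
    simp [H1.W, comps_w1, comps_node, comps_app, comps_pc, comps, hr', hs', hb', hr1', hs1', hb1', hr2', hs2', hb2', hBn, hp0, hp1, hp2, hp3, hRn, hSn, hRl, hSl, hBl, hU, hU.symm, hUc, happ] at e2 <;>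
    simp only [H1.W, comps_w1, comps_node, comps_app, comps_pc, comps, List.nil_append, List.cons_append, List.append_assoc] at e0
    · apply comps_inj
      injection e0 with _ e6
      injection e6 with _ e7
      exact e7.symm

/-- `U` is bare -/
structure DnB (U : BinaryTree Unit) : Prop where
  ne : U ≠ .nil
  hv : ∀ x ∈ cont U, 3 ≤ x

theorem DnSh3.toB (h : DnSh3 U) : DnB U := ⟨h.ne, h.cont.1⟩

theorem W_DnB (g : A0D 0 R B S) (h : DnB U) {i : ℕ} (hi : i < 20)
    (e : H1.W R (pc 1) B S i = w1 .nil U (pc 2) ∨ H1.W R (pc 1) B S i = w1 U (pc 2) .nil ∨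
    H1.W R (pc 1) B S i = w1 (pc 2) .nil U) : U = R ∨ app U (pc 3) = H1.W R (pc 1) B S 10 := by
  rcases e with e | e | e
  · exact Or.inl (W_DB g hi h.ne h.hv e)
  · exact W_DB1 g hi h.ne h.hv e
  · exact Or.inl (W_DB2 g hi h.ne h.hv e)

theorem HM.NodeM.rDnB (h : NodeM k 0 R B S) (w0 : OddHC.X k) (hU : DnB U) (h' : TyC 2 U F' g') {i : ℕ} (hi : i < 20)
    (hw : H1.wX R B S 0 w0 i ∈ g'.B) : cyc (H1.wX R B S 0 w0 0) ∈ F' := by
  have h2 : IsTri .nil U (pc 2) F' g' := by
    have := h'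
    unfold TyC at this
    rwa [H1.ch_eq] at this
  have e := W_DnB h.a0d3 hU hi (by
    rw [← h.rW w0 hi]
    rcases h2.words _ hw with e1 | ⟨_, e1 | e1⟩
    · exact Or.inl e1
    · exact Or.inr (Or.inl e1)
    · exact Or.inr (Or.inr e1))
  obtain ⟨b, c, hb, hc', rfl⟩ := tri_F h2
  left
  rcases e with e | e
  · have e1 : H1.wX R B S 0 w0 0 = b := by
      apply Subtype.ext
      rw [hb, h.rW w0 (by norm_num), e]
      rfl
    rw [e1]
  · have e1 : H1.wX R B S 0 w0 10 = b := by
      apply Subtype.ext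
      rw [hb, h.rW w0 (by norm_num), ← e]
      rfl
    rw [← e1]
    exact cyc_eq.2 (h.rsame10 w0)

/-- **disjointness R3 - DOWN over a bare word** -/
theorem TyR3.disj_DnB (h : TyR3 F g) (hU : DnB U) (h' : TyC 2 U F' g') (hd : ∀ c ∈ F, c ∉ F') :
    ∀ w ∈ g.B, w ∉ g'.B := by
  intro w hw hw'
  obtain ⟨R, B, S, w0, i, h1, -, hc, hi, rfl, hm⟩ := h.words w hw
  exact hd _ hm (h1.rDnB w0 hU h' hi hw')

/-- **disjointness S3 - DOWN over a bare word** -/
theorem TyS3.disj_DnB (h : TyS3 F g) (hU : DnB U) (h' : TyC 2 U F' g') (hd : ∀ c ∈ F, c ∉ F') :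
    ∀ w ∈ g.B, w ∉ g'.B := by
  intro w hw hw'
  obtain ⟨R, B, S, w0, i, h1, hc, hi, -, rfl, hm⟩ := h.words w hw
  exact hd _ hm (h1.rDnB w0 hU h' hi hw')

/-- an inner word on a DOWN triple over a bare word is `T` of word 0 -/
theorem HM.NodeM.inn_DnB (h : NodeM k 0 R B S) (w0 : OddHC.X k) {i : ℕ} (hi : i ∈ [0, 1, 3, 6, 8, 9]) (hU : DnB U)
    (h' : TyC 2 U F' g') (hw : TT (H1.wX R B S 0 w0 i) ∈ g'.B) : i = 0 ∧ cyc (TT (H1.wX R B S 0 w0 i)) ∈ F' := by
  have hin := (h.inn w0 hi).1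
  have g3 := hin.g3
  rcases IsTri.words h' _ hw with e1 | ⟨hF, e1 | e1⟩
  · have h1 : (TT (H1.wX R B S 0 w0 i)).1 = app (U △ .nil) (H1.ch 2) := e1
    have h2 := H1.stop_ch hin (by omega) h1
    omega
  · have h1 : (TT (H1.wX R B S 0 w0 i)).1 = app U (H1.ch 3) := e1
    obtain ⟨c1, -, -⟩ := h.winn w0 hi (Or.inl rfl)
    have hc : cont (H1.W R (H1.ch (0 + 1)) B S i) = cont U + {3} := by
      rw [← c1, h1, cont_app]
      rfl
    refine ⟨?_, hF⟩
    by_contra h0
    have hno : ∀ x, x ∈ cont (H1.W R (H1.ch (0 + 1)) B S i) → 3 ≤ x := by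
      intro x hx
      rw [hc, Multiset.mem_add, Multiset.mem_singleton] at hx
      rcases hx with hx | hx
      · exact hU.hv x hx
      · omega
    have hR3 : 1 < ht R := by have := h.top; omega
    have hc1 : cont (H1.ch 1) = {1} := rfl
    have key : 1 ∈ cont (H1.W R (H1.ch (0 + 1)) B S i) ∨ 2 ∈ cont (H1.W R (H1.ch (0 + 1)) B S i) := by
      simp only [List.mem_cons, List.not_mem_nil, or_false] at hi
      rcases hi with rfl | rfl | rfl | rfl | rfl | rfl
      · exact absurd rfl h0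
      · left
        simp only [H1.W, cont_app, cont_node, cont_nil, raise_zero]
        simp
      · left
        simp only [H1.W, cont_app, cont_node, cont_nil, raise_zero, add_zero]
        refine mem_raise (by simp) ?_
        rw [sup_add', ← ht_eq]
        omega
      · right
        simp only [H1.W, cont_app, cont_node, cont_nil, raise_zero, add_zero, zero_add, hc1]
        rw [raise_single]
        simp
      · left
        simp only [H1.W, cont_app, cont_node, cont_nil, raise_zero]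
        simp
      · left
        simp only [H1.W, cont_app, cont_node, cont_nil, raise_zero, add_zero, zero_add, hc1]
        simp
    rcases key with h5 | h5
    · have := hno 1 h5
      omega
    · have := hno 2 h5
      omega
  · have h1 : (TT (H1.wX R B S 0 w0 i)).1 = app (H1.ch 2) (.nil △ U) := e1
    have h2 := H1.start_ch hin (by omega) h1
    omega

/-- **inner words of R3 against DOWN over a bare word** -/
theorem TyR3.inner_DnB (h : TyR3 F g) (hU : DnB U) (h' : TyC 2 U F' g') (hd : ∀ c ∈ F, c ∉ F') :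
    ∀ p ∈ g.arcs, ∀ w ∈ innA p, w ∉ g'.B := by
  intro p hp w hw hw'
  obtain ⟨R, B, S, w0, i, h1, hi, rfl, hm⟩ := h.inn0 p hp w hw
  obtain ⟨rfl, h2⟩ := h1.inn_DnB w0 hi hU h' hw'
  have e1 : cyc (TT (H1.wX R B S 0 w0 0)) = cyc (H1.wX R B S 0 w0 0) := cyc_eq.2 ⟨-1, by simp⟩
  rw [e1] at h2
  exact hd _ hm h2

/-- **inner words of S3 against DOWN over a bare word** -/
theorem TyS3.inner_DnB (h : TyS3 F g) (hU : DnB U) (h' : TyC 2 U F' g') :
    ∀ p ∈ g.arcs, ∀ w ∈ innA p, w ∉ g'.B := by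
  intro p hp w hw hw'
  obtain ⟨R, B, S, w0, i, h1, hi, rfl, hm⟩ := h.inn0 p hp w hw
  obtain ⟨rfl, h2⟩ := h1.inn_DnB w0 (mem_S3_R3 hi) hU h' hw'
  simp at hi

end Pool.OddHC
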