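import Pool.Agent.Work.MP_8f87b2_h13.R3In
import Pool.Agent.Work.MP_8f87b2_h27.Ed
set_option autoImplicit false
set_option linter.all false

/-!
# MP_8f87b2_co: the deep E-triples against the RIGHT windows R3, S3 (`c = 3`), words and inner words

`W_23`: every word of a right window with `c = 3` has a part `2` or a part `3`.
-/

namespace Pool.OddHC
open Finset Equiv BinaryTree Pool.Agent.Work.MP_8f87b2_co HM
variable {k : ℕ} {F F' : Set (Cyc k)} {g g' : DG k} {q : ℕ} {R B S X U V : BinaryTree Unit}

/-- `3` is a part of `S` or of `raise B` -/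
theorem ClR.mem3 (hc : ClR B S) (g : A0D 0 R B S) : 3 ∈ cont S ∨ 3 ∈ raise (cont B) := by
  by_cases h3 : 3 ∈ cont S
  · exact Or.inl h3
  · right
    have hB3 : 3 ∈ cont B := by
      have := mem3R g
      rw [← g.eq, Multiset.mem_add] at this
      exact this.resolve_right h3
    have hB0 : cont B ≠ 0 := by
      intro h
      rw [h] at hB3
      exact absurd hB3 (Multiset.notMem_zero _)
    by_cases hs : 3 = (cont B).sup
    · have h5 : 3 ∈ (cont B).erase (cont B).sup := by
        have h6 : (cont B).erase (cont B).sup ≠ 0 := by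
          intro h0
          have h7 : cont B = {3} := by
            rw [← Multiset.cons_erase (sup_mem hB0), h0, ← hs]
            rfl
          exact hc.2 ⟨eq_pc_of_cont h7, h3⟩
        obtain ⟨x, hx⟩ := Multiset.exists_mem_of_ne_zero h6
        have h8 := g.hvB x (Multiset.mem_of_mem_erase hx)
        have h9 := Multiset.le_sup (Multiset.mem_of_mem_erase hx)
        rw [← hs] at h9
        have : x = 3 := by omega
        rwa [this] at hx
      unfold raise
      exact Multiset.mem_cons_of_mem h5
    · exact mem_raise hB3 hs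

/-- every word has a part `2` or a part `3` -/
theorem W_23 (g : A0D 0 R B S) (hc : ClR B S) {i : ℕ} (hi : i < 20) :
    2 ∈ cont (H1.W R (pc 1) B S i) ∨ 3 ∈ cont (H1.W R (pc 1) B S i) := by
  have hR := g.top
  have hS : 0 + 3 < ht S := by rw [g.hS]; exact hR
  have hR3 : 3 ≠ (cont R).sup := by rw [← ht_eq]; omega
  have hS3 : 3 ≠ (cont S).sup := by rw [← ht_eq]; omega
  have m0 := mem3R g
  have m1 : 3 ∈ raise (cont R) := mem_raise (mem3R g) hR3
  have hBS : 3 ∈ cont B ∨ 3 ∈ cont S := by
    have := mem3R g
    rw [← g.eq, Multiset.mem_add] at this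
    exact this
  have m2 : 3 ∈ raise (cont S) ∨ 3 ∈ cont B := hBS.symm.imp_left fun h => mem_raise h hS3
  have m3 := hc.mem3 g
  have c1 : cont (pc 1) = {1} := cont_pc 0
  have sR : (cont R).sup = ht R := (ht_eq R).symm
  have sS : (cont S).sup = ht S := (ht_eq S).symm
  have q2 : raise ({1} : Multiset ℕ) = {2} := raise_single 1
  have q3 : raise ({2} : Multiset ℕ) = {3} := raise_single 2
  interval_cases i <;> simp only [H1.W, cont_app, cont_node, cont_nil, raise_zero, add_zero, zero_add, c1, q2, q3]
  · right; simp
  · right; simp [m0]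
  · right; simp [m0]
  · right
    refine mem_raise (Multiset.mem_add.2 (Or.inl m0)) ?_
    rw [sup_add', sR]
    omega
  · right; simp [m0]
  · right; simp [m0]
  · left; simp
  · right
    refine Multiset.mem_add.2 (Or.inr (mem_raise (Multiset.mem_add.2 (Or.inr m0)) ?_))
    rw [sup_add', sR, Multiset.sup_singleton]
    omega
  · right; simp [m1]
  · right
    refine Multiset.mem_add.2 (Or.inl (mem_raise m1 ?_))
    rw [sup_raise, sR]
    omega
  · right; simp
  · right
    rcases hBS with h | h <;> simp [h]
  · right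
    rcases m2 with h | h <;> simp [h]
  · right
    rcases hBS with h | h
    · rcases m3 with h' | h'
      · simp [h']
      · refine Multiset.mem_add.2 (Or.inr ?_)
        unfold raise at h' ⊢
        rw [Multiset.mem_cons] at h' ⊢
        by_cases hs : 3 = (cont B).sup
        · have h1 : (cont B + ({1} + {1})).sup = 3 := by
            rw [sup_add', sup_add', Multiset.sup_singleton, ← hs]
            rfl
          rw [h1]
          right
          have h2 : 3 ∈ (cont B).erase 3 := by
            rcases h' with h' | h'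
            · omega
            · rwa [← hs] at h'
          rw [Multiset.erase_add_left_pos _ h]
          exact Multiset.mem_add.2 (Or.inl h2)
        · right
          rw [Multiset.mem_erase_of_ne]
          · exact Multiset.mem_add.2 (Or.inl h)
          · rw [sup_add', sup_add', Multiset.sup_singleton]
            intro h1
            rcases le_or_gt (cont B).sup 1 with h2 | h2
            · rw [max_eq_right (by simpa using h2)] at h1
              simp at h1
            · rw [max_eq_left (by simp; omega)] at h1
              exact hs h1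
    · simp [h]
  · right
    rcases m2 with h | h
    · rcases hBS with h2 | h2
      · simp [h2]
      · refine Multiset.mem_add.2 (Or.inl (mem_raise ?_ ?_))
        · simp [h2]
        · rw [sup_add', sup_add', sS, Multiset.sup_singleton]
          omega
    · simp [h]
  · left; simp
  · left; simp
  · right
    refine Multiset.mem_add.2 (Or.inr (mem_raise ?_ ?_))
    · rcases m2 with h | h <;> simp [h]
    · rw [sup_add', sup_raise, sS]
      omega
  · right
    rcases m3 with h | h <;> simp [h]
  · right
    refine Multiset.mem_add.2 (Or.inl (mem_raise ?_ ?_))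
    · rcases m3 with h | h <;> simp [h]
    · rw [sup_add', sup_raise, sS]
      omega

theorem HM.NodeM.r23 (h : NodeM k 0 R B S) (hc : ClR B S) (w0 : OddHC.X k) {i : ℕ} (hi : i < 20) :
    1 ≤ (cont (H1.wX R B S 0 w0 i).1).count 2 ∨ 1 ≤ (cont (H1.wX R B S 0 w0 i).1).count 3 := by
  rw [h.rW w0 hi]
  rcases W_23 h.a0d3 hc hi with h1 | h1
  · exact Or.inl (Multiset.count_pos.2 h1)
  · exact Or.inr (Multiset.count_pos.2 h1)

/-- **disjointness R3 - Ed** -/
theorem TyR3.disj_Ed (h : TyR3 F g) (h' : TyEd F' g') : ∀ w ∈ g.B, w ∉ g'.B := by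
  intro w hw
  obtain ⟨R, B, S, w0, i, h1, -, hc, hi, rfl, -⟩ := h.words w hw
  exact h'.not_mem (h1.r23 hc w0 hi)

/-- **disjointness S3 - Ed** -/
theorem TyS3.disj_Ed (h : TyS3 F g) (h' : TyEd F' g') : ∀ w ∈ g.B, w ∉ g'.B := by
  intro w hw
  obtain ⟨R, B, S, w0, i, h1, hc, hi, -, rfl, -⟩ := h.words w hw
  exact h'.not_mem (h1.r23 hc w0 hi)

/-- **inner words of R3 against Ed** -/
theorem TyR3.inner_Ed (h : TyR3 F g) (h' : TyEd F' g') : ∀ p ∈ g.arcs, ∀ w ∈ innA p, w ∉ g'.B := by
  intro p hp w hw
  obtain ⟨R, B, S, w0, i, h1, -, hc, hi, e, -⟩ := h.inn p hp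
  have hw' : w = TT p.1 := hw
  have hi' : i < 20 := by
    simp only [List.mem_cons, List.not_mem_nil, or_false] at hi
    omega
  apply h'.not_mem
  rw [hw', e, TT_apply, cont_TF]
  exact h1.r23 hc w0 hi'

/-- **inner words of S3 against Ed** -/
theorem TyS3.inner_Ed (h : TyS3 F g) (h' : TyEd F' g') : ∀ p ∈ g.arcs, ∀ w ∈ innA p, w ∉ g'.B := by
  intro p hp w hw
  obtain ⟨R, B, S, w0, i, h1, hc, hi, e, -⟩ := h.inn p hp
  have hw' : w = TT p.1 := hw
  have hi' : i < 20 := by
    simp only [List.mem_cons, List.not_mem_nil, or_false] at hi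
    omega
  apply h'.not_mem
  rw [hw', e, TT_apply, cont_TF]
  exact h1.r23 hc w0 hi'

end Pool.OddHC
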