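import Pool.Agent.Work.MP_8f87b2_h13.A0Dn
import Pool.Agent.Work.MP_8f87b2_h27.Inn4
set_option autoImplicit false
set_option linter.all false

/-!
# MP_8f87b2_co: the left content links (host `[c](U)`, new words `[c+1]U`, `U()[c]`) against the mirrored bare windows with smallest
part `d + 3 ≥ c + 1`
-/

namespace Pool.OddHC
open Finset Equiv BinaryTree Pool.Agent.Work.MP_8f87b2_co HM
variable {k : ℕ} {F F' : Set (Cyc k)} {g g' : DG k} {c d : ℕ} {R B S X U V : BinaryTree Unit}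

theorem app_pcn {P A Y : BinaryTree Unit} (h : P ≠ .nil) : app P (A △ Y) ≠ pc c := by
  intro e
  have e1 := congrArg (fun t => (comps t).length) e
  simp only [comps_app, comps_node, List.length_append, List.length_cons] at e1
  have h1 : 1 ≤ (comps P).length := by
    cases P with
    | nil => exact absurd rfl h
    | node u l r => rw [show BinaryTree.node u l r = l △ r from rfl, comps_node]; simp
  cases c with
  | zero => simp [pc, comps] at e1
  | succ c => simp [comps_pc] at e1; omega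

theorem Hv.ne_pc (h : Hv d X) (hc : 1 ≤ c ∧ c < d + 3) : X ≠ pc c := by
  rintro rfl
  obtain ⟨c, rfl⟩ : ∃ c', c = c' + 1 := ⟨c - 1, by omega⟩
  have := h (c + 1) (by rw [cont_pc]; exact Multiset.mem_singleton_self _)
  omega

theorem appBS_pc (h : A0D d R B S) (hc : c < d + 3) : app B (S △ .nil) ≠ pc c := by
  by_cases hB : B = .nil
  · rw [hB]
    intro e
    cases c with
    | zero => cases e
    | succ c =>
      have e1 : S = pc c := by
        injection e with _ e1 _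
      cases c with
      | zero => exact h.S_ne e1
      | succ c => exact h.hvS.ne_pc (c := c + 1) (by omega) e1
  · exact app_pcn hB

theorem aw_C (h : A0D d R B S) {i : ℕ} (hi : i < 20) (hc : 1 ≤ c) (hcd : c ≤ d + 1) (hU : U ≠ .nil) (e : aw R (pc (d + 1)) B S i = w1 (pc (c + 1)) U .nil) :
    (c = d + 1 ∧ U = R) ∨ (c = d ∧ (U = R △ .nil ∨ U = B △ S)) ∨
      (c + 1 = d ∧ (U = .nil △ app R (.nil △ .nil) ∨ U = (R △ .nil) △ .nil ∨ U = .nil △ app B (S △ .nil) ∨
        U = (B △ S) △ .nil)) := by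
  obtain ⟨⟨r, R1, R2, r', hr, hr', hr0, hr0'⟩, ⟨s, S1, S2, s', hs, hs', hs0, hs0'⟩, hB⟩ := h.dat
  have hr1 := lo_ne_nil hr0
  have hr1' := lo_ne_nil hr0'
  have hs1 := lo_ne_nil hs0
  have hs1' := lo_ne_nil hs0'
  have hr2 : r ≠ .nil △ .nil := lo_ne_pc hr0 (show 1 < d + 2 by omega)
  have hr2' : r' ≠ .nil △ .nil := lo_ne_pc hr0' (show 1 < d + 2 by omega)
  have hs2 : s ≠ .nil △ .nil := lo_ne_pc hs0 (show 1 < d + 2 by omega)
  have hs2' : s' ≠ .nil △ .nil := lo_ne_pc hs0' (show 1 < d + 2 by omega)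
  have hRn := h.R_ne
  have hSn := h.S_ne
  have hRl := h.hv.ne_lf
  have hSl := h.hvS.ne_lf
  have hBl := h.hvB.ne_lf
  have hp0 : pc 0 = .nil := rfl
  have hp1 : pc 1 = .nil △ .nil := rfl
  have hp : ∀ n, pc (n + 1) ≠ .nil := fun n => pc_ne (by omega)
  have hp1' : ∀ n, BinaryTree.nil ≠ pc (n + 1) := fun n => (hp n).symm
  have ha : ∀ n (Y : BinaryTree Unit), app (pc (n + 1)) Y ≠ .nil := fun n Y => by rw [pc, app]; simp
  have hUc := comps_ne hU
  have happ : ∀ P Y : BinaryTree Unit, app P (.nil △ Y) ≠ .nil := fun P Y => app_ne' (by simp)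
  have hrc : r ≠ pc c := lo_ne_pc hr0 (by omega)
  have hrc' : r' ≠ pc c := lo_ne_pc hr0' (by omega)
  have hsc : s ≠ pc c := lo_ne_pc hs0 (by omega)
  have hsc' : s' ≠ pc c := lo_ne_pc hs0' (by omega)
  have hc0 : pc c ≠ .nil := pc_ne (by omega)
  have hc0' : BinaryTree.nil ≠ pc c := hc0.symm
  have hx1 : app R (.nil △ .nil) ≠ pc c := app_pcn h.R_ne
  have hx2 : ∀ Y, app (pc (d + 1)) (.nil △ Y) ≠ pc c := fun Y => app_pcn (hp d)
  have hx3 : app B (S △ .nil) ≠ pc c := appBS_pc h (by omega)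
  have hx4 : pc (d + 1) △ .nil ≠ pc c := fun e => by
    have e' : pc (d + 2) = pc c := e
    have := pc_inj e'
    omega
  have hx5 : R ≠ pc c := h.hv.ne_pc (by omega)
  have hx6 : S ≠ pc c := h.hvS.ne_pc (by omega)
  have hx7 : B ≠ pc c := h.hvB.ne_pc (by omega)
  have e0 := congrArg comps e
  have e1 := congrArg comps e
  have e2 := congrArg (fun t => (comps t).reverse) e
  rcases hB with hB | ⟨b, B1, B2, b', hBn, hb, hb', hb0, hb0'⟩
  · have hb : comps B = [] := by rw [hB]; rfl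
    interval_cases i <;>
    simp [aw, comps_w1, comps_node, comps_app, comps_pc, comps, hr, hs, hb, hr1, hs1, hr2, hs2, hp, hp0, hp1', hp1, hRn, hSn, hRl, hSl, hBl, ha, hU, hU.symm, hUc, happ, hrc, hrc', hsc, hsc', hc0, hc0', hx1, hx2, hx3, hx4, hx5, hx6, hx7] at e1 <;>
    simp [aw, comps_w1, comps_node, comps_app, comps_pc, comps, hr', hs', hb, hr1', hs1', hr2', hs2', hp, hp0, hp1', hp1, hRn, hSn, hRl, hSl, hBl, ha, hU, hU.symm, hUc, happ, hrc, hrc', hsc, hsc', hc0, hc0', hx1, hx2, hx3, hx4, hx5, hx6, hx7] at e2 <;>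
    simp only [aw, comps_w1, comps_node, comps_app, comps_pc, comps, List.nil_append, List.cons_append, List.append_assoc] at e0
    · exact Or.inl ⟨by have := pc_inj e1.1; omega, e1.2.symm⟩
    · exact Or.inr (Or.inl ⟨by have := pc_inj e1.1; omega, Or.inl e1.2.symm⟩)
    · exact Or.inr (Or.inl ⟨by have := pc_inj e1.1; omega, Or.inr e1.2.symm⟩)
  · have hb1 := lo_ne_nil hb0
    have hb1' := lo_ne_nil hb0'
    have hb2 : b ≠ .nil △ .nil := lo_ne_pc hb0 (show 1 < d + 2 by omega)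
    have hb2' : b' ≠ .nil △ .nil := lo_ne_pc hb0' (show 1 < d + 2 by omega)
    have hbc : b ≠ pc c := lo_ne_pc hb0 (by omega)
    have hbc' : b' ≠ pc c := lo_ne_pc hb0' (by omega)
    interval_cases i <;>
    simp [aw, comps_w1, comps_node, comps_app, comps_pc, comps, hr, hs, hb, hr1, hs1, hb1, hr2, hs2, hb2, hBn, hp, hp0, hp1', hp1, hRn, hSn, hRl, hSl, hBl, ha, hU, hU.symm, hUc, happ, hbc, hbc', hrc, hrc', hsc, hsc', hc0, hc0', hx1, hx2, hx3, hx4, hx5, hx6, hx7] at e1 <;>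
    simp [aw, comps_w1, comps_node, comps_app, comps_pc, comps, hr', hs', hb', hr1', hs1', hb1', hr2', hs2', hb2', hBn, hp, hp0, hp1', hp1, hRn, hSn, hRl, hSl, hBl, ha, hU, hU.symm, hUc, happ, hbc, hbc', hrc, hrc', hsc, hsc', hc0, hc0', hx1, hx2, hx3, hx4, hx5, hx6, hx7] at e2 <;>
    simp only [aw, comps_w1, comps_node, comps_app, comps_pc, comps, List.nil_append, List.cons_append, List.append_assoc] at e0
    · exact Or.inl ⟨by have := pc_inj e1.1; omega, e1.2.symm⟩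
    · exact Or.inr (Or.inl ⟨by have := pc_inj e1.1; omega, Or.inl e1.2.symm⟩)
    · exact Or.inr (Or.inl ⟨by have := pc_inj e1.1; omega, Or.inr e1.2.symm⟩)

theorem aw_C1 (h : A0D d R B S) {i : ℕ} (hi : i < 20) (hc : 1 ≤ c) (hcd : c ≤ d + 1) (hU : U ≠ .nil) (e : aw R (pc (d + 1)) B S i = w1 U .nil (pc (c + 1))) :
    (c = d + 1 ∧ U = R) ∨ (c = d ∧ (U = R △ .nil ∨ U = B △ S)) ∨
      (c + 1 = d ∧ (U = .nil △ app R (.nil △ .nil) ∨ U = (R △ .nil) △ .nil ∨ U = .nil △ app B (S △ .nil) ∨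
        U = (B △ S) △ .nil)) := by
  obtain ⟨⟨r, R1, R2, r', hr, hr', hr0, hr0'⟩, ⟨s, S1, S2, s', hs, hs', hs0, hs0'⟩, hB⟩ := h.dat
  have hr1 := lo_ne_nil hr0
  have hr1' := lo_ne_nil hr0'
  have hs1 := lo_ne_nil hs0
  have hs1' := lo_ne_nil hs0'
  have hr2 : r ≠ .nil △ .nil := lo_ne_pc hr0 (show 1 < d + 2 by omega)
  have hr2' : r' ≠ .nil △ .nil := lo_ne_pc hr0' (show 1 < d + 2 by omega)
  have hs2 : s ≠ .nil △ .nil := lo_ne_pc hs0 (show 1 < d + 2 by omega)
  have hs2' : s' ≠ .nil △ .nil := lo_ne_pc hs0' (show 1 < d + 2 by omega)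
  have hRn := h.R_ne
  have hSn := h.S_ne
  have hRl := h.hv.ne_lf
  have hSl := h.hvS.ne_lf
  have hBl := h.hvB.ne_lf
  have hp0 : pc 0 = .nil := rfl
  have hp1 : pc 1 = .nil △ .nil := rfl
  have hp : ∀ n, pc (n + 1) ≠ .nil := fun n => pc_ne (by omega)
  have hp1' : ∀ n, BinaryTree.nil ≠ pc (n + 1) := fun n => (hp n).symm
  have ha : ∀ n (Y : BinaryTree Unit), app (pc (n + 1)) Y ≠ .nil := fun n Y => by rw [pc, app]; simp
  have hUc := comps_ne hU
  have happ : ∀ P Y : BinaryTree Unit, app P (.nil △ Y) ≠ .nil := fun P Y => app_ne' (by simp)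
  have hrc : r ≠ pc c := lo_ne_pc hr0 (by omega)
  have hrc' : r' ≠ pc c := lo_ne_pc hr0' (by omega)
  have hsc : s ≠ pc c := lo_ne_pc hs0 (by omega)
  have hsc' : s' ≠ pc c := lo_ne_pc hs0' (by omega)
  have hc0 : pc c ≠ .nil := pc_ne (by omega)
  have hc0' : BinaryTree.nil ≠ pc c := hc0.symm
  have hx1 : app R (.nil △ .nil) ≠ pc c := app_pcn h.R_ne
  have hx2 : ∀ Y, app (pc (d + 1)) (.nil △ Y) ≠ pc c := fun Y => app_pcn (hp d)
  have hx3 : app B (S △ .nil) ≠ pc c := appBS_pc h (by omega)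
  have hx4 : pc (d + 1) △ .nil ≠ pc c := fun e => by
    have e' : pc (d + 2) = pc c := e
    have := pc_inj e'
    omega
  have hx5 : R ≠ pc c := h.hv.ne_pc (by omega)
  have hx6 : S ≠ pc c := h.hvS.ne_pc (by omega)
  have hx7 : B ≠ pc c := h.hvB.ne_pc (by omega)
  have e0 := congrArg comps e
  have e1 := congrArg comps e
  have e2 := congrArg (fun t => (comps t).reverse) e
  rcases hB with hB | ⟨b, B1, B2, b', hBn, hb, hb', hb0, hb0'⟩
  · have hb : comps B = [] := by rw [hB]; rfl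
    interval_cases i <;>
    simp [aw, comps_w1, comps_node, comps_app, comps_pc, comps, hr, hs, hb, hr1, hs1, hr2, hs2, hp, hp0, hp1', hp1, hRn, hSn, hRl, hSl, hBl, ha, hU, hU.symm, hUc, happ, hrc, hrc', hsc, hsc', hc0, hc0', hx1, hx2, hx3, hx4, hx5, hx6, hx7] at e1 <;>
    simp [aw, comps_w1, comps_node, comps_app, comps_pc, comps, hr', hs', hb, hr1', hs1', hr2', hs2', hp, hp0, hp1', hp1, hRn, hSn, hRl, hSl, hBl, ha, hU, hU.symm, hUc, happ, hrc, hrc', hsc, hsc', hc0, hc0', hx1, hx2, hx3, hx4, hx5, hx6, hx7] at e2 <;>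
    simp only [aw, comps_w1, comps_node, comps_app, comps_pc, comps, List.nil_append, List.cons_append, List.append_assoc] at e0
    · refine Or.inl ⟨by have := pc_inj e2.1; omega, comps_inj ?_⟩
      have e5 := congrArg List.reverse e2.2
      simp at e5
      rw [hr', ← e5]
    · refine Or.inr (Or.inl ⟨by have := pc_inj e2.1; omega, Or.inl (comps_inj ?_)⟩)
      have e5 := congrArg List.reverse e2.2
      simpa [comps_node, comps] using e5.symm
    · refine Or.inr (Or.inl ⟨by have := pc_inj e2.1; omega, Or.inr (comps_inj ?_)⟩)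
      have e5 := congrArg List.reverse e2.2
      simp at e5
      rw [comps_node, hs', ← e5]
  · have hb1 := lo_ne_nil hb0
    have hb1' := lo_ne_nil hb0'
    have hb2 : b ≠ .nil △ .nil := lo_ne_pc hb0 (show 1 < d + 2 by omega)
    have hb2' : b' ≠ .nil △ .nil := lo_ne_pc hb0' (show 1 < d + 2 by omega)
    have hbc : b ≠ pc c := lo_ne_pc hb0 (by omega)
    have hbc' : b' ≠ pc c := lo_ne_pc hb0' (by omega)
    interval_cases i <;>
    simp [aw, comps_w1, comps_node, comps_app, comps_pc, comps, hr, hs, hb, hr1, hs1, hb1, hr2, hs2, hb2, hBn, hp, hp0, hp1', hp1, hRn, hSn, hRl, hSl, hBl, ha, hU, hU.symm, hUc, happ, hbc, hbc', hrc, hrc', hsc, hsc', hc0, hc0', hx1, hx2, hx3, hx4, hx5, hx6, hx7] at e1 <;>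
    simp [aw, comps_w1, comps_node, comps_app, comps_pc, comps, hr', hs', hb', hr1', hs1', hb1', hr2', hs2', hb2', hBn, hp, hp0, hp1', hp1, hRn, hSn, hRl, hSl, hBl, ha, hU, hU.symm, hUc, happ, hbc, hbc', hrc, hrc', hsc, hsc', hc0, hc0', hx1, hx2, hx3, hx4, hx5, hx6, hx7] at e2 <;>
    simp only [aw, comps_w1, comps_node, comps_app, comps_pc, comps, List.nil_append, List.cons_append, List.append_assoc] at e0
    · refine Or.inl ⟨by have := pc_inj e2.1; omega, comps_inj ?_⟩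
      have e5 := congrArg List.reverse e2.2
      simp at e5
      rw [hr', ← e5]
    · refine Or.inr (Or.inl ⟨by have := pc_inj e2.1; omega, Or.inl (comps_inj ?_)⟩)
      have e5 := congrArg List.reverse e2.2
      simpa [comps_node, comps] using e5.symm
    · refine Or.inr (Or.inl ⟨by have := pc_inj e2.1; omega, Or.inr (comps_inj ?_)⟩)
      have e5 := congrArg List.reverse e2.2
      simp at e5
      rw [comps_node, hs', ← e5]

theorem aw_C2 (h : A0D d R B S) {i : ℕ} (hi : i < 20) (hc : 1 ≤ c) (hcd : c ≤ d) (hU : U ≠ .nil) (e : aw R (pc (d + 1)) B S i = w1 .nil (pc (c + 1)) U) :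
    (c = d + 1 ∧ U = R) ∨ (c = d ∧ (U = R △ .nil ∨ U = B △ S)) ∨
      (c + 1 = d ∧ (U = .nil △ app R (.nil △ .nil) ∨ U = (R △ .nil) △ .nil ∨ U = .nil △ app B (S △ .nil) ∨
        U = (B △ S) △ .nil)) := by
  obtain ⟨⟨r, R1, R2, r', hr, hr', hr0, hr0'⟩, ⟨s, S1, S2, s', hs, hs', hs0, hs0'⟩, hB⟩ := h.dat
  have hr1 := lo_ne_nil hr0
  have hr1' := lo_ne_nil hr0'
  have hs1 := lo_ne_nil hs0
  have hs1' := lo_ne_nil hs0'
  have hr2 : r ≠ .nil △ .nil := lo_ne_pc hr0 (show 1 < d + 2 by omega)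
  have hr2' : r' ≠ .nil △ .nil := lo_ne_pc hr0' (show 1 < d + 2 by omega)
  have hs2 : s ≠ .nil △ .nil := lo_ne_pc hs0 (show 1 < d + 2 by omega)
  have hs2' : s' ≠ .nil △ .nil := lo_ne_pc hs0' (show 1 < d + 2 by omega)
  have hRn := h.R_ne
  have hSn := h.S_ne
  have hRl := h.hv.ne_lf
  have hSl := h.hvS.ne_lf
  have hBl := h.hvB.ne_lf
  have hp0 : pc 0 = .nil := rfl
  have hp1 : pc 1 = .nil △ .nil := rfl
  have hp : ∀ n, pc (n + 1) ≠ .nil := fun n => pc_ne (by omega)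
  have hp1' : ∀ n, BinaryTree.nil ≠ pc (n + 1) := fun n => (hp n).symm
  have ha : ∀ n (Y : BinaryTree Unit), app (pc (n + 1)) Y ≠ .nil := fun n Y => by rw [pc, app]; simp
  have hUc := comps_ne hU
  have happ : ∀ P Y : BinaryTree Unit, app P (.nil △ Y) ≠ .nil := fun P Y => app_ne' (by simp)
  have hrc : r ≠ pc (c + 1) := lo_ne_pc hr0 (by omega)
  have hrc' : r' ≠ pc (c + 1) := lo_ne_pc hr0' (by omega)
  have hsc : s ≠ pc (c + 1) := lo_ne_pc hs0 (by omega)
  have hsc' : s' ≠ pc (c + 1) := lo_ne_pc hs0' (by omega)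
  have hc0 : pc (c + 1) ≠ .nil := pc_ne (by omega)
  have hc0' : BinaryTree.nil ≠ pc (c + 1) := hc0.symm
  have hx1 : app R (.nil △ .nil) ≠ pc (c + 1) := app_pcn h.R_ne
  have hx2 : ∀ Y, app (pc (d + 1)) (.nil △ Y) ≠ pc (c + 1) := fun Y => app_pcn (hp d)
  have hx3 : app B (S △ .nil) ≠ pc (c + 1) := appBS_pc h (by omega)
  have hx4 : pc (d + 1) △ .nil ≠ pc (c + 1) := fun e => by
    have e' : pc (d + 2) = pc (c + 1) := e
    have := pc_inj e'
    omega
  have hx5 : R ≠ pc (c + 1) := h.hv.ne_pc (by omega)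
  have hx6 : S ≠ pc (c + 1) := h.hvS.ne_pc (by omega)
  have hx7 : B ≠ pc (c + 1) := h.hvB.ne_pc (by omega)
  have e0 := congrArg comps e
  have e1 := congrArg comps e
  have e2 := congrArg (fun t => (comps t).reverse) e
  rcases hB with hB | ⟨b, B1, B2, b', hBn, hb, hb', hb0, hb0'⟩
  · have hb : comps B = [] := by rw [hB]; rfl
    interval_cases i <;>
    simp [aw, comps_w1, comps_node, comps_app, comps_pc, comps, hr, hs, hb, hr1, hs1, hr2, hs2, hp, hp0, hp1', hp1, hRn, hSn, hRl, hSl, hBl, ha, hU, hU.symm, hUc, happ, hrc, hrc', hsc, hsc', hc0, hc0', hx1, hx2, hx3, hx4, hx5, hx6, hx7] at e1 <;>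
    simp [aw, comps_w1, comps_node, comps_app, comps_pc, comps, hr', hs', hb, hr1', hs1', hr2', hs2', hp, hp0, hp1', hp1, hRn, hSn, hRl, hSl, hBl, ha, hU, hU.symm, hUc, happ, hrc, hrc', hsc, hsc', hc0, hc0', hx1, hx2, hx3, hx4, hx5, hx6, hx7] at e2 <;>
    simp only [aw, comps_w1, comps_node, comps_app, comps_pc, comps, List.nil_append, List.cons_append, List.append_assoc] at e0
    · refine Or.inr (Or.inr ⟨by have := pc_inj e1.1; omega, Or.inl (comps_inj ?_)⟩)
      injection e0 with _ e5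
      rw [← e5, comps_node, comps_app]
      rfl
    · exact Or.inr (Or.inl ⟨by have := pc_inj e1.1; omega, Or.inl (comps_inj (by rw [← e1.2]; rfl))⟩)
    · exact Or.inr (Or.inr ⟨by have := pc_inj e1.1; omega, Or.inr (Or.inl (comps_inj (by rw [← e1.2]; rfl)))⟩)
    · refine Or.inr (Or.inr ⟨by have := pc_inj e1.1; omega, Or.inr (Or.inr (Or.inl (comps_inj ?_)))⟩)
      injection e0 with _ e5
      rw [← e5, comps_node, comps_app]
      rfl
    · refine Or.inr (Or.inl ⟨by have := pc_inj e1.1; omega, Or.inr (comps_inj ?_)⟩)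
      injection e0 with _ e5
      rw [← e5, comps_node]
    · exact Or.inr (Or.inr ⟨by have := pc_inj e1.1; omega, Or.inr (Or.inr (Or.inr (comps_inj (by rw [← e1.2]; rfl))))⟩)
  · have hb1 := lo_ne_nil hb0
    have hb1' := lo_ne_nil hb0'
    have hb2 : b ≠ .nil △ .nil := lo_ne_pc hb0 (show 1 < d + 2 by omega)
    have hb2' : b' ≠ .nil △ .nil := lo_ne_pc hb0' (show 1 < d + 2 by omega)
    have hbc : b ≠ pc (c + 1) := lo_ne_pc hb0 (by omega)
    have hbc' : b' ≠ pc (c + 1) := lo_ne_pc hb0' (by omega)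
    interval_cases i <;>
    simp [aw, comps_w1, comps_node, comps_app, comps_pc, comps, hr, hs, hb, hr1, hs1, hb1, hr2, hs2, hb2, hBn, hp, hp0, hp1', hp1, hRn, hSn, hRl, hSl, hBl, ha, hU, hU.symm, hUc, happ, hbc, hbc', hrc, hrc', hsc, hsc', hc0, hc0', hx1, hx2, hx3, hx4, hx5, hx6, hx7] at e1 <;>
    simp [aw, comps_w1, comps_node, comps_app, comps_pc, comps, hr', hs', hb', hr1', hs1', hb1', hr2', hs2', hb2', hBn, hp, hp0, hp1', hp1, hRn, hSn, hRl, hSl, hBl, ha, hU, hU.symm, hUc, happ, hbc, hbc', hrc, hrc', hsc, hsc', hc0, hc0', hx1, hx2, hx3, hx4, hx5, hx6, hx7] at e2 <;>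
    simp only [aw, comps_w1, comps_node, comps_app, comps_pc, comps, List.nil_append, List.cons_append, List.append_assoc] at e0
    · refine Or.inr (Or.inr ⟨by have := pc_inj e1.1; omega, Or.inl (comps_inj ?_)⟩)
      injection e0 with _ e5
      rw [← e5, comps_node, comps_app]
      rfl
    · exact Or.inr (Or.inl ⟨by have := pc_inj e1.1; omega, Or.inl (comps_inj (by rw [← e1.2]; rfl))⟩)
    · exact Or.inr (Or.inr ⟨by have := pc_inj e1.1; omega, Or.inr (Or.inl (comps_inj (by rw [← e1.2]; rfl)))⟩)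
    · refine Or.inr (Or.inr ⟨by have := pc_inj e1.1; omega, Or.inr (Or.inr (Or.inl (comps_inj ?_)))⟩)
      injection e0 with _ e5
      rw [← e5, comps_node, comps_app]
      rfl
    · refine Or.inr (Or.inl ⟨by have := pc_inj e1.1; omega, Or.inr (comps_inj ?_)⟩)
      injection e0 with _ e5
      rw [← e5, comps_node]
    · exact Or.inr (Or.inr ⟨by have := pc_inj e1.1; omega, Or.inr (Or.inr (Or.inr (comps_inj (by rw [← e1.2]; rfl))))⟩)

end Pool.OddHC
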