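import Pool.Agent.Work.MP_8f87b2_h13.RqK
import Pool.Agent.Work.MP_8f87b2_h13.A0Cl
import Pool.Agent.Work.MP_8f87b2_h63.WCont
set_option autoImplicit false
set_option linter.all false

/-!
# MP_8f87b2_co: the right windows with smallest part `q + 3 ≥ 4` against the right content links `TyC c U`

`NodeM.rC`: the exact list for `2 ≤ c ≤ q + 1`. DOWN (`c = 2`), bare `U` (all `c`).
-/

namespace Pool.OddHC
open Finset Equiv BinaryTree Pool.Agent.Work.MP_8f87b2_co HM
variable {k : ℕ} {F F' : Set (Cyc k)} {g g' : DG k} {q q' c d : ℕ} {R B S X U V : BinaryTree Unit}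

theorem mirR_pc (n : ℕ) : Tsq.mir (pc n) = pc n := mir_pc n

/-- host and third word, `c + 1 ≤ q + 2` -/
theorem HM.NodeM.rC1 (h : NodeM k q R B S) (w0 : OddHC.X k) {i : ℕ} (hi : i < 20) (hc : 1 ≤ c) (hcq : c ≤ q + 1)
    (hU : U ≠ .nil)
    (e : (H1.wX R B S q w0 i).1 = w1 .nil U (pc (c + 1)) ∨ (H1.wX R B S q w0 i).1 = w1 (pc (c + 1)) .nil U) :
    (c = q + 1 ∧ U = R) ∨ (c = q ∧ (U = R △ .nil ∨ U = app S (B △ .nil))) ∨
      (c + 1 = q ∧ (U = .nil △ app R (.nil △ .nil) ∨ U = (R △ .nil) △ .nil ∨ U = S △ app B (.nil △ .nil) ∨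
        U = app S (B △ .nil) △ .nil)) := by
  have key : (c = q + 1 ∧ Tsq.mir U = Tsq.mir R) ∨ (c = q ∧ (Tsq.mir U = Tsq.mir R △ .nil ∨
      Tsq.mir U = Tsq.mir B △ Tsq.mir S)) ∨
      (c + 1 = q ∧ (Tsq.mir U = .nil △ app (Tsq.mir R) (.nil △ .nil) ∨ Tsq.mir U = (Tsq.mir R △ .nil) △ .nil ∨
        Tsq.mir U = .nil △ app (Tsq.mir B) (Tsq.mir S △ .nil) ∨ Tsq.mir U = (Tsq.mir B △ Tsq.mir S) △ .nil)) := by
    rw [h.rword w0 hi] at e
    rcases e with e | e <;> have e1 := eq_mirR e <;> rw [mirR_w1, mirR_pc] at e1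
    · exact aw_C h.a0d hi hc hcq (mir_ne hU) e1
    · exact aw_C1 h.a0d hi hc hcq (mir_ne hU) e1
  rcases key with ⟨hq, h1⟩ | ⟨hq, h1 | h1⟩ | ⟨hq, h1 | h1 | h1 | h1⟩ <;> have h2 := eq_mirR h1 <;>
    simp only [Tsq.mir_app, Tsq.mir_node, Tsq.mir_mir, mirR_nil, app_assoc', app] at h2
  · exact Or.inl ⟨hq, h2⟩
  · exact Or.inr (Or.inl ⟨hq, Or.inl h2⟩)
  · exact Or.inr (Or.inl ⟨hq, Or.inr h2⟩)
  · exact Or.inr (Or.inr ⟨hq, Or.inl h2⟩)
  · exact Or.inr (Or.inr ⟨hq, Or.inr (Or.inl h2)⟩)
  · exact Or.inr (Or.inr ⟨hq, Or.inr (Or.inr (Or.inl h2))⟩)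
  · exact Or.inr (Or.inr ⟨hq, Or.inr (Or.inr (Or.inr h2))⟩)

/-- the exact list of the right windows against `TyC (c + 1) U`, `c ≤ q` -/
theorem HM.NodeM.rC (h : NodeM k q R B S) (w0 : OddHC.X k) {i : ℕ} (hi : i < 20) (hc : 1 ≤ c) (hcq : c ≤ q)
    (hU : U ≠ .nil)
    (e : (H1.wX R B S q w0 i).1 = w1 .nil U (pc (c + 1)) ∨ (H1.wX R B S q w0 i).1 = w1 U (pc (c + 1)) .nil ∨
      (H1.wX R B S q w0 i).1 = w1 (pc (c + 1)) .nil U) :
    (c = q ∧ (U = R △ .nil ∨ U = app S (B △ .nil))) ∨
      (c + 1 = q ∧ (U = .nil △ app R (.nil △ .nil) ∨ U = (R △ .nil) △ .nil ∨ U = S △ app B (.nil △ .nil) ∨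
        U = app S (B △ .nil) △ .nil)) := by
  rcases e with e | e | e
  · rcases h.rC1 w0 hi hc (by omega) hU (Or.inl e) with ⟨h1, -⟩ | h1
    · omega
    · exact h1
  · rw [h.rword w0 hi] at e
    have e1 := eq_mirR e
    rw [mirR_w1, mirR_pc] at e1
    rcases aw_C2 h.a0d hi hc hcq (mir_ne hU) e1 with ⟨h0, -⟩ | ⟨hq, h1 | h1⟩ | ⟨hq, h1 | h1 | h1 | h1⟩
    · omega
    all_goals
      have h2 := eq_mirR h1
      simp only [Tsq.mir_app, Tsq.mir_node, Tsq.mir_mir, mirR_nil, app_assoc', app] at h2
    · exact Or.inl ⟨hq, Or.inl h2⟩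
    · exact Or.inl ⟨hq, Or.inr h2⟩
    · exact Or.inr ⟨hq, Or.inl h2⟩
    · exact Or.inr ⟨hq, Or.inr (Or.inl h2)⟩
    · exact Or.inr ⟨hq, Or.inr (Or.inr (Or.inl h2))⟩
    · exact Or.inr ⟨hq, Or.inr (Or.inr (Or.inr h2))⟩
  · rcases h.rC1 w0 hi hc (by omega) hU (Or.inr e) with ⟨h1, -⟩ | h1
    · omega
    · exact h1

/-- a word which is not on the new T-cycle has a part `q + 1` or `q + 2` -/
theorem low_dat (h : H1.Dat q R B S) {i : ℕ} (hi : i < 20) (h0 : i ≠ 0) (h10 : i ≠ 10) :
    q + 1 ∈ cont (H1.W R (H1.ch (q + 1)) B S i) ∨ q + 2 ∈ cont (H1.W R (H1.ch (q + 1)) B S i) := by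
  rw [H1.cont_all h hi]
  interval_cases i <;> simp only [H1.wcn] <;> (try split_ifs) <;> first
    | exact absurd rfl h0
    | exact absurd rfl h10
    | (simp [Multiset.mem_add])

theorem HM.NodeM.rW' (h : NodeM k q R B S) (w0 : OddHC.X k) {i : ℕ} (hi : i < 20) :
    (H1.wX R B S q w0 i).1 = H1.W R (H1.ch (q + 1)) B S i := H1.wX_eq h.dat h.size w0 hi

theorem HM.NodeM.low (h : NodeM k q R B S) (w0 : OddHC.X k) {i : ℕ} (hi : i < 20) (h0 : i ≠ 0) (h10 : i ≠ 10) :
    q + 1 ∈ cont (H1.wX R B S q w0 i).1 ∨ q + 2 ∈ cont (H1.wX R B S q w0 i).1 := by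
  rw [h.rW' w0 hi]
  exact low_dat h.dat hi h0 h10

/-- **DOWN**, `q ≥ 1` -/
theorem HM.NodeM.rq_Dn (h : NodeM k q R B S) (hq : 1 ≤ q) (hU : DnSh U)
    (hs : q = 1 → ∀ n, B = pc n → ∃ x ∈ cont S, x ≤ n) (h' : TyC 2 U F' g') (w0 : OddHC.X k) {i : ℕ} (hi : i < 20) :
    H1.wX R B S q w0 i ∉ g'.B := by
  intro hw
  have g := h.a0d3
  have h2 : IsTri .nil U (pc (1 + 1)) F' g' := by
    have := h'
    unfold TyC at this
    rwa [H1.ch_eq] at this
  have e : (H1.wX R B S q w0 i).1 = w1 .nil U (pc (1 + 1)) ∨ (H1.wX R B S q w0 i).1 = w1 U (pc (1 + 1)) .nil ∨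
      (H1.wX R B S q w0 i).1 = w1 (pc (1 + 1)) .nil U := by
    rcases h2.words _ hw with e1 | ⟨_, e1 | e1⟩
    · exact Or.inl e1
    · exact Or.inr (Or.inl e1)
    · exact Or.inr (Or.inr e1)
  rcases h.rC w0 hi le_rfl hq hU.sh.ne e with ⟨hq1, e1 | e1⟩ | ⟨hq1, e1 | e1 | e1 | e1⟩
  · obtain ⟨L, n, hn, e2⟩ := hU.sh.last
    rw [e1, comps_node] at e2
    have e3 : [] ++ [R] = L ++ [pc n] := e2
    exact g.R_pc n (snoc_inj e3).2
  · rcases hU.sh with ⟨V, n, hn, e2⟩ | ⟨V, n, hn, e2, h3⟩
    · have e3 : app S (B △ .nil) = app (app V (.nil △ .nil)) (pc n △ .nil) := by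
        rw [← e1, e2, app_assoc']
        rfl
      exact g.hvS.ne_snoc V (app_snoc e3).1
    · have e3 : app S (B △ .nil) = app V (pc n △ .nil) := by
        rw [← e1, e2]
        rfl
      obtain ⟨x, hx, hxn⟩ := hs hq1.symm n (app_snoc e3).2
      have := h3 x (by
        rw [e1, cont_app]
        exact Multiset.mem_add.2 (Or.inl hx))
      omega
  · exact hU.sh.ne_bead (.nil △ R) e1
  · obtain ⟨L, n, hn, e2⟩ := hU.sh.last
    rw [e1, comps_node] at e2
    have e3 : [] ++ [R △ .nil] = L ++ [pc n] := e2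
    obtain ⟨n, rfl⟩ : ∃ n', n = n' + 1 := ⟨n - 1, by omega⟩
    have e4 : R △ .nil = pc n △ .nil := (snoc_inj e3).2
    injection e4 with _ e5 _
    exact g.R_pc n e5
  · exact hU.sh.ne_bead (S △ B) e1
  · obtain ⟨L, n, hn, e2⟩ := hU.sh.last
    rw [e1, comps_node] at e2
    have e3 : [] ++ [app S (B △ .nil)] = L ++ [pc n] := e2
    obtain ⟨n, rfl⟩ : ∃ n', n = n' + 1 := ⟨n - 1, by omega⟩
    have e4 : app S (B △ .nil) = app .nil (pc n △ .nil) := (snoc_inj e3).2
    exact g.S_ne (app_snoc e4).1

/-- **bare content links** `TyC c U`, all parts of `U` are `≥ c + 1`, `c + 1` is a part of `U`: a common word is on the T-cycle of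
the window -/
theorem HM.NodeM.rq_Cb (h : NodeM k q R B S) (hq : 1 ≤ q) (hc : 2 ≤ c) (hp : ∀ x ∈ cont U, c + 1 ≤ x)
    (hm : c + 1 ∈ cont U)
    (hs : q + 3 ∈ cont R ∨ (∀ A, R ≠ A △ .nil) ∨ (q + 4 ∉ cont R ∧ 2 ≤ Multiset.card (cont R))) (h' : TyC c U F' g') (w0 : OddHC.X k) {i : ℕ}
    (hi : i < 20) (hw : H1.wX R B S q w0 i ∈ g'.B) : cyc (H1.wX R B S q w0 0) ∈ F' := by
  have g := h.a0d3
  have hU : U ≠ .nil := by
    rintro rfl
    exact absurd hm (Multiset.notMem_zero _)
  obtain ⟨c, rfl⟩ : ∃ c', c = c' + 1 := ⟨c - 1, by omega⟩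
  have h2 : IsTri .nil U (pc (c + 1)) F' g' := by
    have := h'
    unfold TyC at this
    rwa [H1.ch_eq] at this
  have hRq : ∀ x ∈ cont R, q + 3 ≤ x := fun x hx => h.part x hx
  have hBq : ∀ x ∈ cont B, q + 3 ≤ x := fun x hx => hRq x (by rw [← g.eq]; exact Multiset.mem_add.2 (Or.inl hx))
  have hSq : ∀ x ∈ cont S, q + 3 ≤ x := fun x hx => hRq x (by rw [← g.eq]; exact Multiset.mem_add.2 (Or.inr hx))
  have hr : ∀ M : Multiset ℕ, (∀ x ∈ M, q + 3 ≤ x) → M ≠ 0 → ∀ x ∈ raise M, q + 3 ≤ x := by
    intro M hM h0 x hx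
    unfold raise at hx
    rcases Multiset.mem_cons.1 hx with rfl | hx
    · obtain ⟨y, hy⟩ := Multiset.exists_mem_of_ne_zero h0
      have := hM y hy
      have := Multiset.le_sup hy
      omega
    · exact hM x (Multiset.mem_of_mem_erase hx)
  have hR0 : cont R ≠ 0 := cont_ne g.R_ne
  have hS0 : cont S ≠ 0 := cont_ne g.S_ne
  -- the shapes
  have b1 : ∀ {P : BinaryTree Unit}, 1 ∈ cont P → U ≠ P := by
    rintro P h1 rfl
    have := hp 1 h1
    omega
  have b2 : c + 1 ≤ q + 1 → ∀ {P : BinaryTree Unit}, (∀ x ∈ cont P, q + 3 ≤ x) → U ≠ P := by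
    rintro hcq P h1 rfl
    have := h1 _ hm
    omega
  have s1 : ∀ P : BinaryTree Unit, P ≠ .nil → (∀ x ∈ cont P, q + 3 ≤ x) → ∀ x ∈ cont (P △ .nil), q + 3 ≤ x := by
    intro P h0 h1 x hx
    rw [cont_node, cont_nil, add_zero] at hx
    exact hr _ h1 (cont_ne h0) x hx
  have hSB : 1 ∈ cont (app S (B △ .nil)) ∨ ∀ x ∈ cont (app S (B △ .nil)), q + 3 ≤ x := by
    by_cases hB : B = .nil
    · left
      rw [hB, cont_app, cont_node, cont_nil, raise_zero]
      simp
    · right
      intro x hx
      rw [cont_app, cont_node, cont_nil, add_zero, Multiset.mem_add] at hx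
      rcases hx with hx | hx
      · exact hSq x hx
      · exact hr _ hBq (cont_ne hB) x hx
  have nSB : c ≤ q → U ≠ app S (B △ .nil) := by
    intro hcq
    rcases hSB with h1 | h1
    · exact b1 h1
    · exact b2 (by omega) h1
  have nSB1 : c ≤ q → U ≠ app S (B △ .nil) △ .nil := by
    intro hcq
    rcases hSB with h1 | h1
    · apply b1
      rw [cont_node, cont_nil, add_zero]
      refine mem_raise h1 ?_
      rw [cont_app, sup_add']
      obtain ⟨y, hy⟩ := Multiset.exists_mem_of_ne_zero hS0
      have := hSq y hy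
      have := Multiset.le_sup hy
      omega
    · exact b2 (by omega) (s1 _ (app_ne' (by simp)) h1)
  have small : c ≤ q → ∀ (e : (H1.wX R B S q w0 i).1 = w1 .nil U (pc (c + 1)) ∨
      (H1.wX R B S q w0 i).1 = w1 U (pc (c + 1)) .nil ∨ (H1.wX R B S q w0 i).1 = w1 (pc (c + 1)) .nil U), False := by
    intro hcq e
    rcases h.rC w0 hi (by omega) hcq hU e with ⟨-, e1 | e1⟩ | ⟨-, e1 | e1 | e1 | e1⟩
    · exact b2 (by omega) (s1 _ g.R_ne hRq) e1
    · exact nSB hcq e1
    · exact b1 (by rw [cont_node, cont_nil, raise_zero]; simp) e1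
    · exact b2 (by omega) (s1 _ (by simp) (s1 _ g.R_ne hRq)) e1
    · exact b1 (by rw [cont_node, cont_app, cont_node, cont_nil, raise_zero]; simp) e1
    · exact nSB1 hcq e1
  have hrs : cyc (H1.wX R B S q w0 10) = cyc (H1.wX R B S q w0 0) := (cyc_eq.2 (h.rsame10 w0)).symm
  have c010 : i = 0 ∨ i = 10 → cont (H1.wX R B S q w0 i).1 = cont R + {q + 3} := by
    rintro (rfl | rfl)
    · rw [h.rW' w0 (by norm_num), H1.cont_all h.dat (by norm_num)]
      rfl
    · rw [h.rW' w0 (by norm_num), H1.cont_all h.dat (by norm_num)]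
      rfl
  -- if `U = R`, the new word `U[c+1]` is word 0
  have own : c = q + 1 → U = R → cyc (H1.wX R B S q w0 0) ∈ F' := by
    rintro rfl rfl
    obtain ⟨b, c, hb, -, rfl⟩ := tri_F h2
    left
    have e1 : b = H1.wX U B S q w0 0 := by
      apply Subtype.ext
      rw [hb, h.rW' w0 (by norm_num)]
      simp only [w1, H1.W, app_assoc', app, app_nil', pc, H1.ch_eq]
    rw [← e1]
  rcases Nat.lt_or_ge q c with hqc | hqc
  swap
  · exfalso
    rcases h2.words _ hw with e1 | ⟨_, e1 | e1⟩
    · exact small hqc (Or.inl e1)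
    · exact small hqc (Or.inr (Or.inl e1))
    · exact small hqc (Or.inr (Or.inr e1))
  by_cases hcq : c = q + 1
  · rcases h2.words _ hw with e1 | ⟨hF, e1 | e1⟩
    · rcases h.rC1 w0 hi (by omega) (by omega) hU (Or.inl e1) with ⟨_, e2⟩ | ⟨h3, -⟩ | ⟨h3, -⟩
      · exact own hcq e2
      · omega
      · omega
    · by_cases h0 : i = 0 ∨ i = 10
      · rcases h0 with rfl | rfl
        · exact hF
        · rw [← hrs]; exact hF
      · exfalso
        have hc1 := congrArg cont e1
        have e3 : w1 U (pc (c + 1)) .nil = app U (pc (c + 1 + 1)) := rfl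
        rw [e3, cont_app, cont_pc] at hc1
        rcases h.low w0 hi (fun e => h0 (Or.inl e)) (fun e => h0 (Or.inr e)) with h3 | h3 <;> rw [hc1, Multiset.mem_add, Multiset.mem_singleton] at h3 <;>
          rcases h3 with h3 | h3
        · have := hp _ h3; omega
        · omega
        · have := hp _ h3; omega
        · omega
    · rcases h.rC1 w0 hi (by omega) (by omega) hU (Or.inr e1) with ⟨_, e2⟩ | ⟨h3, -⟩ | ⟨h3, -⟩
      · exact own hcq e2
      · omega
      · omega
  · exfalso
    have hpr : ∀ x ∈ raise (cont U), c + 1 + 1 ≤ x := by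
      intro x hx
      unfold raise at hx
      rcases Multiset.mem_cons.1 hx with rfl | hx
      · have := Multiset.le_sup hm
        omega
      · exact hp x (Multiset.mem_of_mem_erase hx)
    -- the contents
    have hcont : (H1.wX R B S q w0 i).1 = w1 .nil U (pc (c + 1)) ∧
          cont (H1.wX R B S q w0 i).1 = raise (cont U) + {c + 1} ∨
        cont (H1.wX R B S q w0 i).1 = cont U + {c + 1 + 1} ∨
        cont (H1.wX R B S q w0 i).1 = {c + 1} + ({1} + cont U) := by
      rcases h2.words _ hw with e1 | ⟨_, e1 | e1⟩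
      · left
        refine ⟨e1, ?_⟩
        have e3 : w1 .nil U (pc (c + 1)) = U △ pc (c + 1) := rfl
        rw [e1, e3, cont_node, cont_pc]
      · right; left
        have e3 : w1 U (pc (c + 1)) .nil = app U (pc (c + 1 + 1)) := rfl
        rw [e1, e3, cont_app, cont_pc]
      · right; right
        have e3 : w1 (pc (c + 1)) .nil U = app (pc (c + 1)) (.nil △ U) := rfl
        rw [e1, e3, cont_app, cont_pc, cont_node, cont_nil, raise_zero]
    by_cases h0 : i = 0 ∨ i = 10
    · have h3 := c010 h0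
      have hq3 : q + 3 ∈ cont R + {q + 3} := Multiset.mem_add.2 (Or.inr (Multiset.mem_singleton_self _))
      rcases hcont with ⟨e1, h4⟩ | h4 | h4
      · rw [h4] at h3
        have h5 := h3 ▸ hq3
        rw [Multiset.mem_add, Multiset.mem_singleton] at h5
        have hcc : c = q + 2 := by
          rcases h5 with h5 | h5
          · have := hpr _ h5; omega
          · omega
        rcases hs with hs | hs
        · have h6 := congrArg (Multiset.count (q + 3)) h3
          rw [Multiset.count_add, Multiset.count_add, hcc] at h6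
          have h7 : (raise (cont U)).count (q + 3) = 0 := by
            rw [Multiset.count_eq_zero]
            intro h8
            have := hpr _ h8
            omega
          have h8 := Multiset.count_pos.2 hs
          have h9 : ({q + 2 + 1} : Multiset ℕ).count (q + 3) = 1 := Multiset.count_singleton_self _
          have h10 : ({q + 3} : Multiset ℕ).count (q + 3) = 1 := Multiset.count_singleton_self _
          omega
        · rcases h0 with rfl | rfl
          · rw [h.rW' w0 (by norm_num)] at e1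
            have e2 : app R (pc (q + 2) △ .nil) = app (U △ .nil) (pc (q + 2) △ .nil) := by
              have e3 : w1 .nil U (pc (c + 1)) = app (U △ .nil) (pc (q + 2) △ .nil) := by
                rw [hcc]; rfl
              rw [← e3, ← e1]
              simp only [H1.W, H1.ch_eq]
              rfl
            have hRU := (app_snoc e2).1
            rcases hs with hs | ⟨hs, hs2⟩
            · exact hs U hRU
            · have h6 : cont R = raise (cont U) := by rw [hRU, cont_node, cont_nil, add_zero]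
              apply hs
              rw [h6]
              have hm4 : q + 4 ∈ cont U := by rw [hcc] at hm; exact hm
              by_cases h7 : q + 4 = (cont U).sup
              · unfold raise
                apply Multiset.mem_cons_of_mem
                have h8 : 2 ≤ Multiset.card (cont U) := by
                  rw [← raise_card (cont_ne hU), ← h6]
                  exact hs2
                have h9 : 0 < Multiset.card ((cont U).erase (cont U).sup) := by
                  rw [Multiset.card_erase_of_mem (sup_mem (cont_ne hU))]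
                  show 0 < Multiset.card (cont U) - 1
                  omega
                obtain ⟨x, hx⟩ := Multiset.card_pos_iff_exists_mem.1 h9
                have h10 := hp x (Multiset.mem_of_mem_erase hx)
                have h11 := Multiset.le_sup (Multiset.mem_of_mem_erase hx)
                have h12 : x = q + 4 := by omega
                rw [← h12]
                exact hx
              · exact mem_raise hm4 h7
          · rw [h.rW' w0 (by norm_num)] at e1
            have e2 := congrArg comps e1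
            have e3 : w1 .nil U (pc (c + 1)) = U △ (pc c △ .nil) := rfl
            rw [e3] at e2
            simp only [H1.W, comps_app, comps_node] at e2
            have e4 := congrArg List.length e2
            simp only [List.length_append, List.length_cons, comps, List.length_nil] at e4
            have h5 : 1 ≤ (comps S).length := by
              have h6 := g.S_ne
              cases S with
              | nil => exact absurd rfl h6
              | node u l r => rw [show BinaryTree.node u l r = l △ r from rfl, comps_node]; simp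
            have h6 : (comps B).length = 0 := by omega
            rw [List.length_eq_zero_iff.1 h6, List.nil_append] at e2
            injection e2 with e5 _
            have h7 : U = pc (q + 2) := by
              rw [← e5, H1.ch_eq]
              rfl
            rw [h7, cont_pc, Multiset.mem_singleton] at hm
            omega
      · rw [h4] at h3
        have h5 := h3 ▸ hq3
        rw [Multiset.mem_add, Multiset.mem_singleton] at h5
        rcases h5 with h5 | h5
        · have := hp _ h5; omega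
        · omega
      · have h5 : 1 ∈ cont R + {q + 3} := by
          rw [← h3, h4]
          simp
        rw [Multiset.mem_add, Multiset.mem_singleton] at h5
        rcases h5 with h5 | h5
        · have := hRq _ h5; omega
        · omega
    · rcases h.low w0 hi (fun e => h0 (Or.inl e)) (fun e => h0 (Or.inr e)) with h3 | h3 <;> rcases hcont with ⟨-, h4⟩ | h4 | h4 <;> rw [h4] at h3 <;>
        simp only [Multiset.mem_add, Multiset.mem_singleton] at h3
      · rcases h3 with h3 | h3
        · have := hpr _ h3; omega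
        · omega
      · rcases h3 with h3 | h3
        · have := hp _ h3; omega
        · omega
      · rcases h3 with h3 | h3 | h3
        · omega
        · omega
        · have := hp _ h3; omega
      · rcases h3 with h3 | h3
        · have := hpr _ h3; omega
        · omega
      · rcases h3 with h3 | h3
        · have := hp _ h3; omega
        · omega
      · rcases h3 with h3 | h3 | h3
        · omega
        · omega
        · have := hp _ h3; omega

end Pool.OddHC
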