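import Pool.Agent.Work.MP_8f87b2_h13.R3K
import Pool.Agent.Work.MP_8f87b2_h13.A0Dn
set_option autoImplicit false
set_option linter.all false

/-!
# MP_8f87b2_co: the DOWN links against the RIGHT windows R3, S3 (`c = 3`)
-/

namespace Pool.OddHC
open Finset Equiv BinaryTree Pool.Agent.Work.MP_8f87b2_co HM
variable {k : ℕ} {F F' : Set (Cyc k)} {g g' : DG k} {q : ℕ} {R B S X U V : BinaryTree Unit}

theorem count_comps {A : BinaryTree Unit} (h : A ∈ comps U) (x : ℕ) :
    (raise (cont A)).count x ≤ (cont U).count x := by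
  induction U with
  | nil => exact absurd h (by simp [comps])
  | node _ C D _ ih =>
    change _ ≤ (cont (C △ D)).count x
    rw [cont_node, Multiset.count_add]
    rcases List.mem_cons.1 h with h1 | h1
    · rw [← h1]
      exact Nat.le_add_right _ _
    · exact (ih h1).trans (Nat.le_add_left _ _)

theorem W_D (h : A0D 0 R B S) {i : ℕ} (hi : i < 20) (hU : U ≠ .nil) (hU2 : ∀ x ∈ cont U, x ≠ 2 ∧ x ≠ 3) (hU1 : (cont U).count 1 ≤ 1)
    (e : H1.W R (pc 1) B S i = w1 .nil U (pc 2)) :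
    False := by
  obtain ⟨⟨r, R1, R2, r', hr, hr', hr0, hr0'⟩, ⟨s, S1, S2, s', hs, hs', hs0, hs0'⟩, hB⟩ := h.dat
  have hr1 := lo_ne_nil hr0
  have hr1' := lo_ne_nil hr0'
  have hs1 := lo_ne_nil hs0
  have hs1' := lo_ne_nil hs0'
  have hr2 : r ≠ .nil △ .nil := lo_ne_pc hr0 (show 1 < 0 + 2 by omega)
  have hr2' : r' ≠ .nil △ .nil := lo_ne_pc hr0' (show 1 < 0 + 2 by omega)
  have hs2 : s ≠ .nil △ .nil := lo_ne_pc hs0 (show 1 < 0 + 2 by omega)
  have hs2' : s' ≠ .nil △ .nil := lo_ne_pc hs0' (show 1 < 0 + 2 by omega)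
  have hRn := h.R_ne
  have hSn := h.S_ne
  have hRl := h.hv.ne_lf
  have hSl := h.hvS.ne_lf
  have hBl := h.hvB.ne_lf
  have hp0 : pc 0 = .nil := rfl
  have hp1 : pc 1 = .nil △ .nil := rfl
  have hp2 : pc 2 = (.nil △ .nil) △ .nil := rfl
  have hp3 : pc 3 = ((.nil △ .nil) △ .nil) △ .nil := rfl
  have hUc := comps_ne hU
  have happ : ∀ P A Y : BinaryTree Unit, app P (A △ Y) ≠ .nil := fun P A Y => app_ne' (by simp)
  have bad2 : ∀ A, A ∈ comps U → 2 ∈ raise (cont A) → False := fun A h1 h2 => (hU2 2 (mem_comps h1 h2)).1 rfl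
  have bad3 : ∀ A, A ∈ comps U → 3 ∈ raise (cont A) → False := fun A h1 h2 => (hU2 3 (mem_comps h1 h2)).2 rfl
  have p1 : 2 ∈ raise (cont (BinaryTree.nil △ BinaryTree.nil : BinaryTree Unit)) := by
    change 2 ∈ raise (cont (pc 1)); rw [raise_pc]; exact Multiset.mem_singleton_self _
  have p2 : 3 ∈ raise (cont ((BinaryTree.nil △ BinaryTree.nil) △ BinaryTree.nil : BinaryTree Unit)) := by
    change 3 ∈ raise (cont (pc 2)); rw [raise_pc]; exact Multiset.mem_singleton_self _
  have e0 := congrArg comps e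
  have e1 := congrArg comps e
  have e2 := congrArg (fun t => (comps t).reverse) e
  rcases hB with hB | ⟨b, B1, B2, b', hBn, hb, hb', hb0, hb0'⟩
  · have hb : comps B = [] := by rw [hB]; rfl
    interval_cases i <;>
    simp [H1.W, comps_w1, comps_node, comps_app, comps_pc, comps, hr, hs, hb, hr1, hs1, hr2, hs2, hp0, hp1, hp2, hp3, hRn, hSn, hRl, hSl, hBl, hU, hU.symm, hUc, happ] at e1 <;>
    simp [H1.W, comps_w1, comps_node, comps_app, comps_pc, comps, hr', hs', hb, hr1', hs1', hr2', hs2', hp0, hp1, hp2, hp3, hRn, hSn, hRl, hSl, hBl, hU, hU.symm, hUc, happ] at e2 <;>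
    simp only [H1.W, comps_w1, comps_node, comps_app, comps_pc, comps, List.nil_append, List.cons_append, List.append_assoc] at e0
    · exact (hU2 3 (by rw [← e1]; exact h.mem)).2 rfl
    · exfalso
      have e7 := congrArg (fun t => (comps t).length) e2.1
      simp [comps_app, comps_node, comps] at e7
  · have hb1 := lo_ne_nil hb0
    have hb1' := lo_ne_nil hb0'
    have hb2 : b ≠ .nil △ .nil := lo_ne_pc hb0 (show 1 < 0 + 2 by omega)
    have hb2' : b' ≠ .nil △ .nil := lo_ne_pc hb0' (show 1 < 0 + 2 by omega)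
    interval_cases i <;>
    simp [H1.W, comps_w1, comps_node, comps_app, comps_pc, comps, hr, hs, hb, hr1, hs1, hb1, hr2, hs2, hb2, hBn, hp0, hp1, hp2, hp3, hRn, hSn, hRl, hSl, hBl, hU, hU.symm, hUc, happ] at e1 <;>
    simp [H1.W, comps_w1, comps_node, comps_app, comps_pc, comps, hr', hs', hb', hr1', hs1', hb1', hr2', hs2', hb2', hBn, hp0, hp1, hp2, hp3, hRn, hSn, hRl, hSl, hBl, hU, hU.symm, hUc, happ] at e2 <;>
    simp only [H1.W, comps_w1, comps_node, comps_app, comps_pc, comps, List.nil_append, List.cons_append, List.append_assoc] at e0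
    · exact (hU2 3 (by rw [← e1]; exact h.mem)).2 rfl
    · exfalso
      have e7 := congrArg (fun t => (comps t).length) e2.1
      simp [comps_app, comps_node, comps] at e7

theorem W_D1 (h : A0D 0 R B S) {i : ℕ} (hi : i < 20) (hU : U ≠ .nil) (hU2 : ∀ x ∈ cont U, x ≠ 2 ∧ x ≠ 3) (hU1 : (cont U).count 1 ≤ 1)
    (e : H1.W R (pc 1) B S i = w1 U (pc 2) .nil) :
    False := by
  obtain ⟨⟨r, R1, R2, r', hr, hr', hr0, hr0'⟩, ⟨s, S1, S2, s', hs, hs', hs0, hs0'⟩, hB⟩ := h.dat
  have hr1 := lo_ne_nil hr0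
  have hr1' := lo_ne_nil hr0'
  have hs1 := lo_ne_nil hs0
  have hs1' := lo_ne_nil hs0'
  have hr2 : r ≠ .nil △ .nil := lo_ne_pc hr0 (show 1 < 0 + 2 by omega)
  have hr2' : r' ≠ .nil △ .nil := lo_ne_pc hr0' (show 1 < 0 + 2 by omega)
  have hs2 : s ≠ .nil △ .nil := lo_ne_pc hs0 (show 1 < 0 + 2 by omega)
  have hs2' : s' ≠ .nil △ .nil := lo_ne_pc hs0' (show 1 < 0 + 2 by omega)
  have hRn := h.R_ne
  have hSn := h.S_ne
  have hRl := h.hv.ne_lf
  have hSl := h.hvS.ne_lf
  have hBl := h.hvB.ne_lf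
  have hp0 : pc 0 = .nil := rfl
  have hp1 : pc 1 = .nil △ .nil := rfl
  have hp2 : pc 2 = (.nil △ .nil) △ .nil := rfl
  have hp3 : pc 3 = ((.nil △ .nil) △ .nil) △ .nil := rfl
  have hUc := comps_ne hU
  have happ : ∀ P A Y : BinaryTree Unit, app P (A △ Y) ≠ .nil := fun P A Y => app_ne' (by simp)
  have bad2 : ∀ A, A ∈ comps U → 2 ∈ raise (cont A) → False := fun A h1 h2 => (hU2 2 (mem_comps h1 h2)).1 rfl
  have bad3 : ∀ A, A ∈ comps U → 3 ∈ raise (cont A) → False := fun A h1 h2 => (hU2 3 (mem_comps h1 h2)).2 rfl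
  have p1 : 2 ∈ raise (cont (BinaryTree.nil △ BinaryTree.nil : BinaryTree Unit)) := by
    change 2 ∈ raise (cont (pc 1)); rw [raise_pc]; exact Multiset.mem_singleton_self _
  have p2 : 3 ∈ raise (cont ((BinaryTree.nil △ BinaryTree.nil) △ BinaryTree.nil : BinaryTree Unit)) := by
    change 3 ∈ raise (cont (pc 2)); rw [raise_pc]; exact Multiset.mem_singleton_self _
  have e0 := congrArg comps e
  have e1 := congrArg comps e
  have e2 := congrArg (fun t => (comps t).reverse) e
  rcases hB with hB | ⟨b, B1, B2, b', hBn, hb, hb', hb0, hb0'⟩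
  · have hb : comps B = [] := by rw [hB]; rfl
    interval_cases i <;>
    simp [H1.W, comps_w1, comps_node, comps_app, comps_pc, comps, hr, hs, hb, hr1, hs1, hr2, hs2, hp0, hp1, hp2, hp3, hRn, hSn, hRl, hSl, hBl, hU, hU.symm, hUc, happ] at e1 <;>
    simp [H1.W, comps_w1, comps_node, comps_app, comps_pc, comps, hr', hs', hb, hr1', hs1', hr2', hs2', hp0, hp1, hp2, hp3, hRn, hSn, hRl, hSl, hBl, hU, hU.symm, hUc, happ] at e2 <;>
    simp only [H1.W, comps_w1, comps_node, comps_app, comps_pc, comps, List.nil_append, List.cons_append, List.append_assoc] at e0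
    · have e5 : U = R := by
        apply comps_inj
        have e6 : comps R ++ [pc 2] = comps U ++ [pc 2] := e0
        exact (snoc_inj e6).1.symm
      exact (hU2 3 (by rw [e5]; exact h.mem)).2 rfl
    · refine bad2 (app (.nil △ .nil) (.nil △ .nil)) (by rw [← List.mem_reverse, ← e2.2]; simp) ?_
      have : raise (cont (app (.nil △ .nil) (.nil △ .nil))) = {2} + {1} := by decide
      rw [this]
      exact Multiset.mem_add.2 (Or.inl (Multiset.mem_singleton_self _))
    · exact bad2 _ (by rw [← List.mem_reverse, ← e2.2]; simp : (BinaryTree.nil △ BinaryTree.nil : BinaryTree Unit) ∈ comps U) p1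
    · exact h.R_pc 2 e2.1
    · exact bad3 _ (by rw [← List.mem_reverse, ← e2.2]; simp : ((BinaryTree.nil △ BinaryTree.nil) △ BinaryTree.nil : BinaryTree Unit) ∈ comps U) p2
    · have e5 := congrArg (List.count BinaryTree.nil) e2.2
      simp [List.count_append, List.count_cons] at e5
      have := count_comps_nil (U := U)
      omega
    · have e7 := congrArg (fun t => (comps t).length) e2.1
      simp [comps_app, comps_node, comps] at e7
    · exact h.S_pc hB 2 e2.1
    · rw [hB] at e2; exact absurd e2.1 (by simp)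
  · have hb1 := lo_ne_nil hb0
    have hb1' := lo_ne_nil hb0'
    have hb2 : b ≠ .nil △ .nil := lo_ne_pc hb0 (show 1 < 0 + 2 by omega)
    have hb2' : b' ≠ .nil △ .nil := lo_ne_pc hb0' (show 1 < 0 + 2 by omega)
    interval_cases i <;>
    simp [H1.W, comps_w1, comps_node, comps_app, comps_pc, comps, hr, hs, hb, hr1, hs1, hb1, hr2, hs2, hb2, hBn, hp0, hp1, hp2, hp3, hRn, hSn, hRl, hSl, hBl, hU, hU.symm, hUc, happ] at e1 <;>
    simp [H1.W, comps_w1, comps_node, comps_app, comps_pc, comps, hr', hs', hb', hr1', hs1', hb1', hr2', hs2', hb2', hBn, hp0, hp1, hp2, hp3, hRn, hSn, hRl, hSl, hBl, hU, hU.symm, hUc, happ] at e2 <;>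
    simp only [H1.W, comps_w1, comps_node, comps_app, comps_pc, comps, List.nil_append, List.cons_append, List.append_assoc] at e0
    · have e5 : U = R := by
        apply comps_inj
        have e6 : comps R ++ [pc 2] = comps U ++ [pc 2] := e0
        exact (snoc_inj e6).1.symm
      exact (hU2 3 (by rw [e5]; exact h.mem)).2 rfl
    · refine bad2 (app (.nil △ .nil) (.nil △ .nil)) (by rw [← List.mem_reverse, ← e2.2]; simp) ?_
      have : raise (cont (app (.nil △ .nil) (.nil △ .nil))) = {2} + {1} := by decide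
      rw [this]
      exact Multiset.mem_add.2 (Or.inl (Multiset.mem_singleton_self _))
    · exact bad2 _ (by rw [← List.mem_reverse, ← e2.2]; simp : (BinaryTree.nil △ BinaryTree.nil : BinaryTree Unit) ∈ comps U) p1
    · exact h.R_pc 2 e2.1
    · exact bad3 _ (by rw [← List.mem_reverse, ← e2.2]; simp : ((BinaryTree.nil △ BinaryTree.nil) △ BinaryTree.nil : BinaryTree Unit) ∈ comps U) p2
    · have e5 := congrArg (List.count BinaryTree.nil) e2.2
      simp [List.count_append, List.count_cons] at e5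
      have := count_comps_nil (U := U)
      omega
    · have e7 := congrArg (fun t => (comps t).length) e2.1
      simp [comps_app, comps_node, comps] at e7
    · have e5 := count_comps (U := U) (A := app (.nil △ .nil) (.nil △ S)) (by rw [← List.mem_reverse, ← e2.2]; simp) 1
      have e6 : (raise (cont (app (.nil △ .nil) (.nil △ S)))).count 1 = 2 + (cont S).count 1 := by
        have e8 : cont (app (.nil △ .nil) (.nil △ S)) = {1} + ({1} + cont S) := by
          rw [cont_app, cont_node, cont_nil, raise_zero, add_zero, cont_node, cont_nil, raise_zero]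
        rw [H1.raise_one (by
          rw [e8, sup_add', sup_add', ← ht_eq]
          have := h.hS; have := h.top; omega), e8, Multiset.count_add, Multiset.count_add, Multiset.count_singleton_self]
        omega
      omega
    · exact bad2 _ (by rw [← List.mem_reverse, ← e2.2]; simp : (BinaryTree.nil △ BinaryTree.nil : BinaryTree Unit) ∈ comps U) p1
    · have := h.hvB 2 (by rw [e2.1]; change 2 ∈ cont (pc 2); rw [cont_pc]; exact Multiset.mem_singleton_self _)
      omega

theorem W_D2 (h : A0D 0 R B S) {i : ℕ} (hi : i < 20) (hU : U ≠ .nil) (hU2 : ∀ x ∈ cont U, x ≠ 2 ∧ x ≠ 3) (hU1 : (cont U).count 1 ≤ 1)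
    (e : H1.W R (pc 1) B S i = w1 (pc 2) .nil U) :
    False := by
  obtain ⟨⟨r, R1, R2, r', hr, hr', hr0, hr0'⟩, ⟨s, S1, S2, s', hs, hs', hs0, hs0'⟩, hB⟩ := h.dat
  have hr1 := lo_ne_nil hr0
  have hr1' := lo_ne_nil hr0'
  have hs1 := lo_ne_nil hs0
  have hs1' := lo_ne_nil hs0'
  have hr2 : r ≠ .nil △ .nil := lo_ne_pc hr0 (show 1 < 0 + 2 by omega)
  have hr2' : r' ≠ .nil △ .nil := lo_ne_pc hr0' (show 1 < 0 + 2 by omega)
  have hs2 : s ≠ .nil △ .nil := lo_ne_pc hs0 (show 1 < 0 + 2 by omega)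
  have hs2' : s' ≠ .nil △ .nil := lo_ne_pc hs0' (show 1 < 0 + 2 by omega)
  have hRn := h.R_ne
  have hSn := h.S_ne
  have hRl := h.hv.ne_lf
  have hSl := h.hvS.ne_lf
  have hBl := h.hvB.ne_lf
  have hp0 : pc 0 = .nil := rfl
  have hp1 : pc 1 = .nil △ .nil := rfl
  have hp2 : pc 2 = (.nil △ .nil) △ .nil := rfl
  have hp3 : pc 3 = ((.nil △ .nil) △ .nil) △ .nil := rfl
  have hUc := comps_ne hU
  have happ : ∀ P A Y : BinaryTree Unit, app P (A △ Y) ≠ .nil := fun P A Y => app_ne' (by simp)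
  have bad2 : ∀ A, A ∈ comps U → 2 ∈ raise (cont A) → False := fun A h1 h2 => (hU2 2 (mem_comps h1 h2)).1 rfl
  have bad3 : ∀ A, A ∈ comps U → 3 ∈ raise (cont A) → False := fun A h1 h2 => (hU2 3 (mem_comps h1 h2)).2 rfl
  have p1 : 2 ∈ raise (cont (BinaryTree.nil △ BinaryTree.nil : BinaryTree Unit)) := by
    change 2 ∈ raise (cont (pc 1)); rw [raise_pc]; exact Multiset.mem_singleton_self _
  have p2 : 3 ∈ raise (cont ((BinaryTree.nil △ BinaryTree.nil) △ BinaryTree.nil : BinaryTree Unit)) := by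
    change 3 ∈ raise (cont (pc 2)); rw [raise_pc]; exact Multiset.mem_singleton_self _
  have e0 := congrArg comps e
  have e1 := congrArg comps e
  have e2 := congrArg (fun t => (comps t).reverse) e
  rcases hB with hB | ⟨b, B1, B2, b', hBn, hb, hb', hb0, hb0'⟩
  · have hb : comps B = [] := by rw [hB]; rfl
    interval_cases i <;>
    simp [H1.W, comps_w1, comps_node, comps_app, comps_pc, comps, hr, hs, hb, hr1, hs1, hr2, hs2, hp0, hp1, hp2, hp3, hRn, hSn, hRl, hSl, hBl, hU, hU.symm, hUc, happ] at e1 <;>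
    simp [H1.W, comps_w1, comps_node, comps_app, comps_pc, comps, hr', hs', hb, hr1', hs1', hr2', hs2', hp0, hp1, hp2, hp3, hRn, hSn, hRl, hSl, hBl, hU, hU.symm, hUc, happ] at e2 <;>
    simp only [H1.W, comps_w1, comps_node, comps_app, comps_pc, comps, List.nil_append, List.cons_append, List.append_assoc] at e0
    · have e5 : U = R := by
        apply comps_inj
        injection e0 with _ e6
        injection e6 with _ e7
        exact e7.symm
      exact (hU2 3 (by rw [e5]; exact h.mem)).2 rfl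
  · have hb1 := lo_ne_nil hb0
    have hb1' := lo_ne_nil hb0'
    have hb2 : b ≠ .nil △ .nil := lo_ne_pc hb0 (show 1 < 0 + 2 by omega)
    have hb2' : b' ≠ .nil △ .nil := lo_ne_pc hb0' (show 1 < 0 + 2 by omega)
    interval_cases i <;>
    simp [H1.W, comps_w1, comps_node, comps_app, comps_pc, comps, hr, hs, hb, hr1, hs1, hb1, hr2, hs2, hb2, hBn, hp0, hp1, hp2, hp3, hRn, hSn, hRl, hSl, hBl, hU, hU.symm, hUc, happ] at e1 <;>
    simp [H1.W, comps_w1, comps_node, comps_app, comps_pc, comps, hr', hs', hb', hr1', hs1', hb1', hr2', hs2', hb2', hBn, hp0, hp1, hp2, hp3, hRn, hSn, hRl, hSl, hBl, hU, hU.symm, hUc, happ] at e2 <;>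
    simp only [H1.W, comps_w1, comps_node, comps_app, comps_pc, comps, List.nil_append, List.cons_append, List.append_assoc] at e0
    · have e5 : U = R := by
        apply comps_inj
        injection e0 with _ e6
        injection e6 with _ e7
        exact e7.symm
      exact (hU2 3 (by rw [e5]; exact h.mem)).2 rfl

theorem W_Dn (g : A0D 0 R B S) (h : DnSh U) {i : ℕ} (hi : i < 20) :
    H1.W R (pc 1) B S i ≠ w1 .nil U (pc 2) ∧ H1.W R (pc 1) B S i ≠ w1 U (pc 2) .nil ∧
    H1.W R (pc 1) B S i ≠ w1 (pc 2) .nil U :=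
  ⟨fun e => W_D g hi h.sh.ne h.p23 h.one e, fun e => W_D1 g hi h.sh.ne h.p23 h.one e,
    fun e => W_D2 g hi h.sh.ne h.p23 h.one e⟩

/-- **disjointness R3 - DOWN (right)** -/
theorem TyR3.disj_Dn (h : TyR3 F g) (hU : DnSh U) (h' : TyC 2 U F' g') : ∀ w ∈ g.B, w ∉ g'.B := by
  intro w hw hw'
  obtain ⟨R, B, S, w0, i, h1, -, -, hi, rfl, -⟩ := h.words w hw
  obtain ⟨k1, k2, k3⟩ := W_Dn h1.a0d3 hU hi
  have h2 : IsTri .nil U (pc 2) F' g' := by
    have := h'
    unfold TyC at this
    rwa [H1.ch_eq] at this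
  rcases h2.words _ hw' with e1 | ⟨_, e1 | e1⟩ <;> rw [h1.rW w0 hi] at e1
  · exact k1 e1
  · exact k2 e1
  · exact k3 e1

/-- **disjointness S3 - DOWN (right)** -/
theorem TyS3.disj_Dn (h : TyS3 F g) (hU : DnSh U) (h' : TyC 2 U F' g') : ∀ w ∈ g.B, w ∉ g'.B := by
  intro w hw hw'
  obtain ⟨R, B, S, w0, i, h1, -, hi, -, rfl, -⟩ := h.words w hw
  obtain ⟨k1, k2, k3⟩ := W_Dn h1.a0d3 hU hi
  have h2 : IsTri .nil U (pc 2) F' g' := by
    have := h'
    unfold TyC at this
    rwa [H1.ch_eq] at this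
  rcases h2.words _ hw' with e1 | ⟨_, e1 | e1⟩ <;> rw [h1.rW w0 hi] at e1
  · exact k1 e1
  · exact k2 e1
  · exact k3 e1

end Pool.OddHC
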