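import Pool.Agent.Work.MP_8f87b2_h13.A0Sh
set_option autoImplicit false
set_option linter.all false

/-!
# MP_8f87b2_co: the E-triples against the mirrored bare windows A0, B0

`TyE.low`: the first component `≠ ()` of `X` has height at most `2`, if `2` or `3` is a part of `X`.
-/

namespace Pool.OddHC
open Finset Equiv BinaryTree Pool.Agent.Work.MP_8f87b2_co HM
variable {k : ℕ} {F F' : Set (Cyc k)} {g g' : DG k} {d : ℕ} {R B S X U V : BinaryTree Unit}

theorem comps_lv (n : ℕ) (t : BinaryTree Unit) : comps (lv n t) = List.replicate n .nil ++ comps t := by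
  induction n with
  | zero => rfl
  | succ n ih => rw [lv, comps_node, ih, List.replicate_succ, List.cons_append]

theorem count_ins_succ (t : BinaryTree Unit) (e : List ℕ) (he : e.length = 2 * t.numNodes + 1) {n : ℕ}
    (hn : 1 ≤ n) : (cont (ins t e)).count (n + 1) = (cont t).count n := by
  rw [cont_ins t e he, Multiset.count_add, Multiset.count_eq_zero_of_notMem (a := n + 1)
    (s := Multiset.replicate e.sum 1), add_zero, Multiset.count_map_eq_count' _ _ (add_left_injective 1)]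
  intro h
  have := Multiset.eq_of_mem_replicate h
  omega

/-- first component `≠ ()` -/
def Fnb (A X : BinaryTree Unit) : Prop := ∃ m L, comps X = List.replicate m .nil ++ A :: L ∧ A ≠ .nil

theorem Fnb.unique {A A' : BinaryTree Unit} (h : Fnb A X) (h' : Fnb A' X) : A = A' := by
  obtain ⟨m, L, h1, h2⟩ := h
  obtain ⟨m', L', h1', h2'⟩ := h'
  exact (replicate_cons_app h2 h2' (h1.symm.trans h1')).2.1

theorem low_fnb {r : BinaryTree Unit} {e : List ℕ} (he : e.length = 2 * r.numNodes + 1) (hl : Low r)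
    (h : 2 ∈ cont (ins r e) ∨ 3 ∈ cont (ins r e)) : ∃ A, Fnb A (ins r e) ∧ ht A ≤ 2 := by
  have key : ∀ (A B : BinaryTree Unit), ht A ≤ 1 → (e : List ℕ) → e.length = 2 * (A △ B).numNodes + 1 →
      ∃ A', Fnb A' (ins (A △ B) e) ∧ ht A' ≤ 2 := by
    intro A B hA e he
    obtain ⟨n, a, b, rfl, ha, hb, h1, h2⟩ := split_e he
    refine ⟨ins A (bump A a), ⟨n, comps (ins B b), ?_, ins_ne_nil _ _⟩, ?_⟩
    · rw [ins, h1, h2, comps_lv, comps_node]
      rfl
    · rw [ht_eq, cont_ins, sup_add']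
      · apply max_le
        · apply Multiset.sup_le.2
          intro x hx
          obtain ⟨y, hy, rfl⟩ := Multiset.mem_map.1 hx
          have := Multiset.le_sup hy
          rw [← ht_eq] at this
          omega
        · apply Multiset.sup_le.2
          intro x hx
          rw [Multiset.eq_of_mem_replicate hx]
          omega
      · cases A with
        | nil =>
          rw [bump, List.length_cons, List.length_tail, ha]
          rfl
        | node _ _ _ => exact ha
  by_cases h1 : 1 ≤ (cont r).count 1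
  · obtain ⟨r', rfl⟩ := hl.1 h1
    exact key _ _ (by rw [ht]; omega) e he
  · have h2 : 1 ≤ (cont r).count 2 := by
      rcases h with h | h
      · have h3 := Multiset.count_pos.2 h
        rw [count_ins_succ r e he (n := 1) le_rfl] at h3
        omega
      · have h3 := Multiset.count_pos.2 h
        rw [count_ins_succ r e he (n := 2) (by omega)] at h3
        omega
    obtain ⟨r', rfl⟩ := hl.2 (by omega) h2
    exact key _ _ (by rw [ht_node, ht]; omega) e he

/-- the low rule for the words of an E-triple -/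
theorem TyE.low (h : TyE F g) : ∃ X : BinaryTree Unit, X ≠ .nil ∧ IsTri .nil X .nil F g ∧
    (2 ∈ cont X ∨ 3 ∈ cont X → ∃ A, Fnb A X ∧ ht A ≤ 2) := by
  obtain ⟨X, hX, ht, r, f, hf, rfl, hr⟩ := h.data
  exact ⟨_, hX, ht, low_fnb hf hr⟩

/-- the inside of the component `[3]` -/
theorem eq_pc_of_cont : ∀ {n : ℕ} {t : BinaryTree Unit}, cont t = {n} → t = pc n := by
  intro n t
  induction t generalizing n with
  | nil =>
    intro h
    rw [cont_nil] at h
    exact absurd h.symm (Multiset.singleton_ne_zero _)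
  | node _ A B ihA _ =>
    intro h
    have h1 : cont (A △ B) = {n} := h
    rw [cont_node] at h1
    have hc := congrArg Multiset.card h1
    rw [Multiset.card_add, Multiset.card_singleton] at hc
    have h2 : 1 ≤ Multiset.card (raise (cont A)) := by
      rw [Nat.one_le_iff_ne_zero, Ne, Multiset.card_eq_zero]
      exact raise_ne_zero _
    have hB : B = .nil := by
      rw [← cont_eq_zero, ← Multiset.card_eq_zero]
      omega
    subst hB
    rw [cont_nil, add_zero] at h1
    by_cases hA : A = .nil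
    · subst hA
      rw [cont_nil, raise_zero, Multiset.singleton_inj] at h1
      rw [← h1]
      rfl
    · have h3 : cont A ≠ 0 := cont_ne hA
      have h4 : Multiset.card (cont A) = 1 := by
        rw [← raise_card h3, h1, Multiset.card_singleton]
      obtain ⟨m, hm⟩ := Multiset.card_eq_one.1 h4
      rw [hm, raise_single, Multiset.singleton_inj] at h1
      rw [ihA hm, ← h1]
      rfl

/-- a heavy component of height at most `2` inside is `[3]` -/
theorem pc_two {A : BinaryTree Unit} (h : lo 0 A = 0) (h2 : ht A ≤ 2) : A = pc 2 := by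
  have hA := lo_ne_nil h
  have h3 := cont_ne hA
  have hr : ∀ x ∈ raise (cont A), 3 ≤ x := by
    unfold lo at h
    rw [Multiset.card_eq_zero, Multiset.filter_eq_nil] at h
    intro x hx
    have := h x hx
    omega
  have h4 : Multiset.card (cont A) = 1 := by
    by_contra hne
    have hpos : 0 < Multiset.card (cont A) := Multiset.card_pos.2 h3
    have h5 : 2 ≤ Multiset.card (cont A) := by omega
    have h6 : 0 < Multiset.card ((cont A).erase (cont A).sup) := by
      rw [Multiset.card_erase_of_mem (sup_mem h3)]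
      show 0 < Multiset.card (cont A) - 1
      omega
    obtain ⟨x, hx⟩ := Multiset.card_pos_iff_exists_mem.1 h6
    have h7 := hr x (by unfold raise; exact Multiset.mem_cons_of_mem hx)
    have h8 := Multiset.le_sup (Multiset.mem_of_mem_erase hx)
    rw [← ht_eq] at h8
    omega
  obtain ⟨m, hm⟩ := Multiset.card_eq_one.1 h4
  have h5 : ht A = m := by rw [ht_eq, hm, Multiset.sup_singleton]
  have h6 := hr (m + 1) (by rw [hm, raise_single]; exact Multiset.mem_singleton_self _)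
  have h7 : m = 2 := by omega
  rw [h7] at hm
  exact eq_pc_of_cont hm

/-- the word starts with `[3]` -/
def St3 (X : BinaryTree Unit) : Prop := ∃ Y, X = pc 2 △ Y

theorem Fnb.node {A Y : BinaryTree Unit} (h : A ≠ .nil) : Fnb A (A △ Y) := ⟨0, comps Y, rfl, h⟩

theorem Fnb.bead {A : BinaryTree Unit} (h : Fnb A X) : Fnb A (.nil △ X) := by
  obtain ⟨m, L, h1, h2⟩ := h
  exact ⟨m + 1, L, by rw [comps_node, h1]; rfl, h2⟩

theorem fnb_app {P Q : BinaryTree Unit} (h : Hv d P) (h0 : P ≠ .nil) : Fnb (fs P) (app P Q) := by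
  cases P with
  | nil => exact absurd rfl h0
  | node _ A C => exact Fnb.node (h.fs_ne h0)

theorem St3.of_fs (h0 : X ≠ .nil) (h : Hv 0 X) (h2 : ht (fs X) ≤ 2) : St3 X := by
  cases X with
  | nil => exact absurd rfl h0
  | node _ A C => exact ⟨C, by rw [← pc_two (h.fs h0) h2]; rfl⟩

theorem St3.of_ht (h0 : X ≠ .nil) (h : Hv 0 X) (h2 : ht X ≤ 3) : St3 X := by
  apply St3.of_fs h0 h
  cases X with
  | nil => exact absurd rfl h0
  | node _ A C =>
    change ht (A △ C) ≤ 3 at h2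
    rw [ht_node] at h2
    change ht A ≤ 2
    omega

/-- the low rule -/
def LowX (X : BinaryTree Unit) : Prop := 2 ∈ cont X ∨ 3 ∈ cont X → ∃ A, Fnb A X ∧ ht A ≤ 2

theorem LowX.not (h : LowX X) (h3 : 3 ∈ cont X) {A : BinaryTree Unit} (hA : Fnb A X) : ht A ≤ 2 := by
  obtain ⟨A', h1, h2⟩ := h (Or.inr h3)
  rw [hA.unique h1]
  exact h2

theorem mem3R (g : A0D 0 R B S) : 3 ∈ cont R := g.mem

theorem low_R (g : A0D 0 R B S) (hR : ¬ St3 R) : ¬ LowX (app (pc 1) (.nil △ R)) ∧
    ¬ LowX (.nil △ app R (.nil △ .nil)) := by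
  have f1 : Fnb (fs R) (app R (.nil △ .nil)) := fnb_app g.hv g.R_ne
  have f2 : Fnb (fs R) R := by
    have := fnb_app (Q := .nil) g.hv g.R_ne
    rwa [app_nil'] at this
  constructor
  · intro h
    apply hR
    apply St3.of_fs g.R_ne g.hv
    refine h.not ?_ (f2.bead.bead)
    rw [cont_app, cont_node]
    exact Multiset.mem_add.2 (Or.inr (Multiset.mem_add.2 (Or.inr (mem3R g))))
  · intro h
    apply hR
    apply St3.of_fs g.R_ne g.hv
    refine h.not ?_ f1.bead
    rw [cont_node, cont_app]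
    exact Multiset.mem_add.2 (Or.inr (Multiset.mem_add.2 (Or.inl (mem3R g))))

theorem low_S (g : A0D 0 R B S) (hB : B = .nil) (hS : ¬ St3 S) : ¬ LowX (app S (.nil △ pc 1)) ∧
    ¬ LowX (B △ app S (.nil △ .nil)) := by
  have h3 : 3 ∈ cont S := by
    have := mem3R g
    rw [← g.eq, hB, cont_nil, zero_add] at this
    exact this
  constructor
  · intro h
    apply hS
    apply St3.of_fs g.S_ne g.hvS
    refine h.not ?_ (fnb_app g.hvS g.S_ne)
    rw [cont_app]
    exact Multiset.mem_add.2 (Or.inl h3)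
  · intro h
    apply hS
    apply St3.of_fs g.S_ne g.hvS
    rw [hB] at h
    refine h.not ?_ (fnb_app g.hvS g.S_ne).bead
    rw [cont_node, cont_app]
    exact Multiset.mem_add.2 (Or.inr (Multiset.mem_add.2 (Or.inl h3)))

theorem low_0 (g : A0D 0 R B S) (hB : ¬ St3 B) : 
    ¬ LowX (app R (.nil △ .nil) △ .nil) ∧ ¬ LowX (R △ (.nil △ .nil)) ∧ ¬ LowX ((R △ .nil) △ .nil) ∧
    ¬ LowX (.nil △ app B (S △ .nil)) ∧ ¬ LowX (app B (S △ .nil) △ .nil) ∧
    (B ≠ .nil → ¬ LowX (B △ app S (.nil △ .nil))) ∧ ¬ LowX ((B △ S) △ .nil) := by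
  have hR := g.top
  have hS : 0 + 3 < ht S := by rw [g.hS]; exact hR
  have hR3 : 3 ≠ (cont R).sup := by rw [← ht_eq]; omega
  have hS3 : 3 ≠ (cont S).sup := by rw [← ht_eq]; omega
  have m1 : 3 ∈ raise (cont R) := mem_raise (mem3R g) hR3
  have hBS : 3 ∈ cont B ∨ 3 ∈ cont S := by
    have := mem3R g
    rw [← g.eq, Multiset.mem_add] at this
    exact this
  have m2 : 3 ∈ cont B + raise (cont S) := by
    rw [Multiset.mem_add]
    exact hBS.imp_right fun h => mem_raise h hS3
  have hB3 : B ≠ .nil → 3 ≠ (cont B).sup := by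
    intro h0 h
    apply hB
    apply St3.of_ht h0 g.hvB
    rw [ht_eq, ← h]
  have m3 : 3 ∈ raise (cont B) + cont S := by
    rw [Multiset.mem_add]
    rcases hBS with h | h
    · left
      refine mem_raise h (hB3 ?_)
      rintro rfl
      rw [cont_nil] at h
      exact absurd h (Multiset.notMem_zero _)
    · exact Or.inr h
  have n1 : app R (.nil △ .nil) ≠ .nil := app_ne' (by simp)
  have n2 : app B (S △ .nil) ≠ .nil := app_ne' (by simp)
  refine ⟨?_, ?_, ?_, ?_, ?_, ?_, ?_⟩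
  · intro h
    have := h.not (by
      rw [cont_node, cont_nil, add_zero, cont_app]
      refine mem_raise (Multiset.mem_add.2 (Or.inl (mem3R g))) ?_
      rw [sup_add', ← ht_eq]
      omega) (Fnb.node n1)
    rw [ht_app] at this
    omega
  · intro h
    have := h.not (by rw [cont_node]; exact Multiset.mem_add.2 (Or.inl m1)) (Fnb.node g.R_ne)
    omega
  · intro h
    have := h.not (by
      rw [cont_node, cont_nil, add_zero, cont_node, cont_nil, add_zero]
      refine mem_raise m1 ?_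
      rw [sup_raise, ← ht_eq]
      omega) (Fnb.node (by simp))
    rw [ht_node] at this
    omega
  · intro h
    have h3 : 3 ∈ cont (.nil △ app B (S △ .nil)) := by
      rw [cont_node, cont_app, cont_node, cont_nil, add_zero]
      exact Multiset.mem_add.2 (Or.inr m2)
    by_cases h0 : B = .nil
    · subst h0
      have := h.not h3 (Fnb.node (Y := .nil) g.S_ne).bead
      omega
    · have := h.not h3 (fnb_app g.hvB h0).bead
      exact hB (St3.of_fs h0 g.hvB this)
  · intro h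
    have := h.not (by
      rw [cont_node, cont_nil, add_zero, cont_app, cont_node, cont_nil, add_zero]
      refine mem_raise m2 ?_
      rw [sup_add', sup_raise, ← ht_eq, ← ht_eq]
      omega) (Fnb.node n2)
    rw [ht_app, ht_node] at this
    omega
  · intro h0 h
    have := h.not (by
      rw [cont_node, cont_app, ← add_assoc]
      exact Multiset.mem_add.2 (Or.inl m3)) (Fnb.node h0)
    have h5 : 3 < ht B ∨ ht B ≤ 2 := Or.inr this
    apply hB
    exact St3.of_ht h0 g.hvB (by omega)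
  · intro h
    have := h.not (by
      rw [cont_node, cont_nil, add_zero, cont_node]
      refine mem_raise m3 ?_
      rw [sup_add', sup_raise, ← ht_eq, ← ht_eq]
      omega) (Fnb.node (by simp))
    rw [ht_node] at this
    omega

/-- clean phases of a window with smallest part `3` against the E-triples -/
def ClE (d : ℕ) (R B S : BinaryTree Unit) : Prop :=
  d = 0 → ¬ St3 B ∧ (B = .nil → ¬ St3 S)

/-- for a low `X` only the words `1, 2, 3` and `11, 14, 18` are hit -/
theorem aw_low (g : A0D d R B S) (hc : ClE d R B S) (hX : X ≠ .nil) (hl : LowX X) {i : ℕ} (hi : i < 20)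
    (e : aw R (pc (d + 1)) B S i = w1 .nil X .nil ∨ aw R (pc (d + 1)) B S i = w1 X .nil .nil ∨
      aw R (pc (d + 1)) B S i = w1 .nil .nil X) :
    ((i = 1 ∨ i = 2 ∨ i = 3) ∧ X = app (pc (d + 1)) (.nil △ R)) ∨
      (d ≠ 0 ∧ B = .nil ∧ (i = 11 ∨ i = 14 ∨ i = 18) ∧ X = app S (.nil △ pc (d + 1))) ∨
      (d = 0 ∧ i = 2 ∧ X = .nil △ app R (.nil △ .nil)) := by
  have key : (((i = 1 ∨ i = 2 ∨ i = 3) ∧ X = app (pc (d + 1)) (.nil △ R)) ∨
      (B = .nil ∧ (i = 11 ∨ i = 14 ∨ i = 18) ∧ X = app S (.nil △ pc (d + 1))) ∨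
      (d = 0 ∧ ((i = 2 ∧ X = .nil △ app R (.nil △ .nil)) ∨ (i = 7 ∧ X = app R (.nil △ .nil) △ .nil) ∨
        (i = 8 ∧ X = R △ (.nil △ .nil)) ∨ (i = 9 ∧ X = (R △ .nil) △ .nil) ∨
        (i = 12 ∧ X = .nil △ app B (S △ .nil)) ∨ (i = 17 ∧ X = app B (S △ .nil) △ .nil) ∨
        (i = 18 ∧ X = B △ app S (.nil △ .nil)) ∨ (i = 19 ∧ X = (B △ S) △ .nil)))) := by
    rcases e with e | e | e
    · exact aw_E g hi hX e
    · exact aw_E1 g hi hX e
    · exact aw_E2 g hi hX e
  rcases key with h | ⟨hB, hi', h⟩ | ⟨hd, h⟩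
  · exact Or.inl h
  · by_cases hd : d = 0
    · subst hd
      obtain ⟨c1, c2⟩ := hc rfl
      rw [h] at hl
      exact absurd hl (low_S g hB (c2 hB)).1
    · exact Or.inr (Or.inl ⟨hd, hB, hi', h⟩)
  · subst hd
    obtain ⟨c1, c2⟩ := hc rfl
    obtain ⟨l1, l2, l3, l4, l5, l6, l7⟩ := low_0 g c1
    rcases h with ⟨hi', h⟩ | ⟨hi', h⟩ | ⟨hi', h⟩ | ⟨hi', h⟩ | ⟨hi', h⟩ | ⟨hi', h⟩ | ⟨hi', h⟩ | ⟨hi', h⟩
    · exact Or.inr (Or.inr ⟨rfl, hi', h⟩)
    · rw [h] at hl; exact absurd hl l1
    · rw [h] at hl; exact absurd hl l2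
    · rw [h] at hl; exact absurd hl l3
    · rw [h] at hl; exact absurd hl l4
    · rw [h] at hl; exact absurd hl l5
    · rw [h] at hl
      by_cases h0 : B = .nil
      · exact absurd hl (low_S g h0 (c2 h0)).2
      · exact absurd hl (l6 h0)
    · rw [h] at hl; exact absurd hl l7

/-- the `T`-cycles of an E-triple -/
theorem tri_F {P Q R : BinaryTree Unit} (h : IsTri P Q R F g) : ∃ b c : OddHC.X k, b.1 = w1 Q R P ∧ c.1 = w1 R P Q ∧
    F = {cyc b, cyc c} := by
  obtain ⟨a, b, c, ha, hb, hc, h1, h2, h3, rfl, rfl⟩ := h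
  exact ⟨b, c, hb, hc, rfl⟩

/-- TYPE A0, `c = 3`, clean phase -/
def TyA0c (F : Set (Cyc k)) (g : DG k) : Prop :=
  ∃ (R B S : BinaryTree Unit) (w0 : OddHC.X k), NodeM k 0 R B S ∧ mX R B S 0 w0 0 ≠ mX R B S 0 w0 10 ∧
    ¬ St3 (Tsq.mir R) ∧ ClE 0 (Tsq.mir R) (Tsq.mir B) (Tsq.mir S) ∧
    F = {cyc (mX R B S 0 w0 0)} ∧ g = gad20M (mX R B S 0 w0)

theorem TyA0c.toA0 (h : TyA0c F g) : TyA0 F g := by
  obtain ⟨R, B, S, w0, h1, h2, _, _, h3, h4⟩ := h
  exact ⟨0, R, B, S, w0, h1, h2, h3, h4⟩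

/-- **disjointness A0 (clean, `c = 3`) - E** -/
theorem TyA0c.disj_E (h : TyA0c F g) (h' : TyE F' g') : ∀ w ∈ g.B, w ∉ g'.B := by
  obtain ⟨R, B, S, w0, h1, hne, hR, hc, rfl, rfl⟩ := h
  obtain ⟨X, hX, ht, hl⟩ := h'.low
  intro w hw hw'
  obtain ⟨i, hi, rfl⟩ := mem_gad20M.1 hw
  have e : aw (Tsq.mir R) (pc (0 + 1)) (Tsq.mir B) (Tsq.mir S) i = w1 .nil X .nil ∨
      aw (Tsq.mir R) (pc (0 + 1)) (Tsq.mir B) (Tsq.mir S) i = w1 X .nil .nil ∨
      aw (Tsq.mir R) (pc (0 + 1)) (Tsq.mir B) (Tsq.mir S) i = w1 .nil .nil X := by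
    rcases ht.words _ hw' with e1 | ⟨_, e1 | e1⟩ <;> rw [h1.word' w0 hi] at e1
    · exact Or.inl e1
    · exact Or.inr (Or.inl e1)
    · exact Or.inr (Or.inr e1)
  have hlow := low_R h1.a0d hR
  rcases aw_low h1.a0d hc hX hl hi e with ⟨_, h⟩ | ⟨h, _⟩ | ⟨_, _, h⟩
  · have hl' : LowX X := hl
    rw [h] at hl'
    exact hlow.1 hl'
  · exact h rfl
  · have hl' : LowX X := hl
    rw [h] at hl'
    exact hlow.2 hl'

/-- TYPE B0, with a clean phase if `c = 3` -/
def TyB0c (F : Set (Cyc k)) (g : DG k) : Prop :=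
  ∃ (q : ℕ) (R B S : BinaryTree Unit) (w0 : OddHC.X k), NodeM k q R B S ∧
    mX R B S q w0 0 ≠ mX R B S q w0 10 ∧
    ¬ TT.SameCycle (mX R B S q w0 1) (mX R B S q w0 2) ∧
    (B = .nil → ¬ TT.SameCycle (mX R B S q w0 1) (mX R B S q w0 18) ∧
      ¬ TT.SameCycle (mX R B S q w0 2) (mX R B S q w0 18)) ∧
    ClE q (Tsq.mir R) (Tsq.mir B) (Tsq.mir S) ∧
    F = {cyc (mX R B S q w0 0), cyc (mX R B S q w0 1), cyc (mX R B S q w0 2)} ∧
    g = gadSM (mX R B S q w0)

theorem TyB0c.toB0 (h : TyB0c F g) : TyB0 F g := by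
  obtain ⟨q, R, B, S, w0, h1, h2, h3, h4, _, h5, h6⟩ := h
  exact ⟨q, R, B, S, w0, h1, h2, h3, h4, h5, h6⟩

/-- **disjointness B0 - E** -/
theorem TyB0c.disj_E (h : TyB0c F g) (h' : TyE F' g') (hd : ∀ c ∈ F, c ∉ F') : ∀ w ∈ g.B, w ∉ g'.B := by
  obtain ⟨q, R, B, S, w0, h1, hne, h12, h18, hc, rfl, rfl⟩ := h
  obtain ⟨X, hX, ht, hl⟩ := h'.low
  intro w hw hw'
  obtain ⟨i, hi, h9, rfl⟩ := mem_gadSM.1 hw
  have e : aw (Tsq.mir R) (pc (q + 1)) (Tsq.mir B) (Tsq.mir S) i = w1 .nil X .nil ∨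
      aw (Tsq.mir R) (pc (q + 1)) (Tsq.mir B) (Tsq.mir S) i = w1 X .nil .nil ∨
      aw (Tsq.mir R) (pc (q + 1)) (Tsq.mir B) (Tsq.mir S) i = w1 .nil .nil X := by
    rcases ht.words _ hw' with e1 | ⟨_, e1 | e1⟩ <;> rw [h1.word' w0 hi] at e1
    · exact Or.inl e1
    · exact Or.inr (Or.inl e1)
    · exact Or.inr (Or.inr e1)
  obtain ⟨b, c, hb, hc', rfl⟩ := tri_F ht
  rcases aw_low h1.a0d hc hX hl hi e with ⟨_, h⟩ | ⟨_, hB, _, h⟩ | ⟨hq, hi2, h⟩
  · -- `X = Q()R` : the word `()X` is word 1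
    have e1 : c = mX R B S q w0 1 := by
      apply Subtype.ext
      rw [hc', h1.word' w0 (by norm_num), h]
      rfl
    exact hd (cyc (mX R B S q w0 1)) (Or.inr (Or.inl rfl)) (Or.inr (by rw [← e1]; rfl))
  · -- `X = S()Q`, `B = e` : the word `X()` is word 11
    have e1 : b = mX R B S q w0 11 := by
      apply Subtype.ext
      rw [hb, h1.word' w0 (by norm_num), h, hB]
      simp only [w1, aw, app_assoc', app, app_nil']
    have e2 : cyc (mX R B S q w0 1) = cyc (mX R B S q w0 11) := cyc_eq.2 (h1.same11 w0)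
    exact hd (cyc (mX R B S q w0 1)) (Or.inr (Or.inl rfl)) (Or.inl (by rw [e2, ← e1]))
  · -- `X = ()R()` : the word `()X` is word 2
    have e1 : c = mX R B S q w0 2 := by
      apply Subtype.ext
      rw [hc', h1.word' w0 (by norm_num), h, hq]
      rfl
    exact hd (cyc (mX R B S q w0 2)) (Or.inr (Or.inr rfl)) (Or.inr (by rw [← e1]; rfl))

end Pool.OddHC
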