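import Pool.Agent.Work.MP_8f87b2_h13.TyRq
set_option autoImplicit false
set_option linter.all false

/-!
# MP_8f87b2_co: the right windows with smallest part `q + 3 ≥ 4` against the E triples

`NodeM.rE`: the exact list (any `X`): `X = R()Q` (words 1, 2, 3) or `B = e`, `X = Q()S` (words 11, 14, 18); `low_RQ`: `R()Q` is not
low for `q = 1, 2`.
-/

namespace Pool.OddHC
open Finset Equiv BinaryTree Pool.Agent.Work.MP_8f87b2_co HM
variable {k : ℕ} {F F' : Set (Cyc k)} {g g' : DG k} {q q' c d : ℕ} {R B S X U V : BinaryTree Unit}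

/-- **the exact list of the right windows against the E triples**, `q ≥ 1` -/
theorem HM.NodeM.rE (h : NodeM k q R B S) (hq : 1 ≤ q) (hX : X ≠ .nil) (w0 : OddHC.X k) {i : ℕ} (hi : i < 20)
    (e : (H1.wX R B S q w0 i).1 = w1 .nil X .nil ∨ (H1.wX R B S q w0 i).1 = w1 X .nil .nil ∨
      (H1.wX R B S q w0 i).1 = w1 .nil .nil X) :
    ((i = 1 ∨ i = 2 ∨ i = 3) ∧ X = app R (.nil △ pc (q + 1))) ∨
      (B = .nil ∧ (i = 11 ∨ i = 14 ∨ i = 18) ∧ X = app (pc (q + 1)) (.nil △ S)) := by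
  have key : (((i = 1 ∨ i = 2 ∨ i = 3) ∧ Tsq.mir X = app (pc (q + 1)) (.nil △ Tsq.mir R)) ∨
      (Tsq.mir B = .nil ∧ (i = 11 ∨ i = 14 ∨ i = 18) ∧ Tsq.mir X = app (Tsq.mir S) (.nil △ pc (q + 1)))) := by
    rw [h.rword w0 hi] at e
    rcases e with e | e | e <;> have e1 := eq_mirR e <;> rw [mirR_w1, mirR_nil] at e1
    · rcases aw_E h.a0d hi (mir_ne hX) e1 with h1 | h1 | ⟨h0, -⟩
      · exact Or.inl h1
      · exact Or.inr h1
      · omega
    · rcases aw_E2 h.a0d hi (mir_ne hX) e1 with h1 | h1 | ⟨h0, -⟩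
      · exact Or.inl h1
      · exact Or.inr h1
      · omega
    · rcases aw_E1 h.a0d hi (mir_ne hX) e1 with h1 | h1 | ⟨h0, -⟩
      · exact Or.inl h1
      · exact Or.inr h1
      · omega
  rcases key with ⟨h1, h2⟩ | ⟨h0, h1, h2⟩
  · left
    refine ⟨h1, ?_⟩
    have h3 := eq_mirR h2
    simpa only [Tsq.mir_app, Tsq.mir_node, Tsq.mir_mir, mirR_nil, app_assoc', app, mir_pc] using h3
  · right
    refine ⟨eq_mirR h0, h1, ?_⟩
    have h3 := eq_mirR h2
    simpa only [Tsq.mir_app, Tsq.mir_node, Tsq.mir_mir, mirR_nil, app_assoc', app, mir_pc] using h3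

/-- `R()Q` is not low for `c = 4, 5` -/
theorem low_RQ (g : A0D q R B S) (hq : q = 1 ∨ q = 2) : ¬ LowX (app R (.nil △ pc (q + 1))) := by
  intro h
  have h1 : 2 ∈ cont (app R (.nil △ pc (q + 1))) ∨ 3 ∈ cont (app R (.nil △ pc (q + 1))) := by
    rcases hq with rfl | rfl
    · left
      rw [cont_app, cont_node, cont_pc]
      simp
    · right
      rw [cont_app, cont_node, cont_pc]
      simp
  obtain ⟨A, hA, h2⟩ := h h1
  have h3 := fnb_app (Q := .nil △ pc (q + 1)) g.hv g.R_ne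
  rw [hA.unique h3] at h2
  have h4 := g.hv.fs g.R_ne
  have h5 := lo_ne_nil h4
  have h6 : ∀ x ∈ raise (cont (fs R)), q + 3 ≤ x := by
    unfold lo at h4
    rw [Multiset.card_eq_zero, Multiset.filter_eq_nil] at h4
    intro x hx
    have := h4 x hx
    omega
  have h7 := h6 ((cont (fs R)).sup + 1) (by unfold raise; exact Multiset.mem_cons_self _ _)
  rw [← ht_eq] at h7
  omega

/-- **a common word of a right window and an E triple**: the E pair is `{w1, w2}` (`q ≥ 3`) or `{w11, w18}` (`B = e`) -/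
theorem HM.NodeM.rE_low (h : NodeM k q R B S) (hq : 1 ≤ q) (h' : TyE F' g') (w0 : OddHC.X k) {i : ℕ} (hi : i < 20)
    (hw : H1.wX R B S q w0 i ∈ g'.B) :
    (3 ≤ q ∧ (i = 1 ∨ i = 2 ∨ i = 3) ∧ IsTri .nil (app R (.nil △ pc (q + 1))) .nil F' g' ∧
      F' = {cyc (H1.wX R B S q w0 1), cyc (H1.wX R B S q w0 2)}) ∨
    (B = .nil ∧ (i = 11 ∨ i = 14 ∨ i = 18) ∧ IsTri .nil (app (pc (q + 1)) (.nil △ S)) .nil F' g' ∧
      F' = {cyc (H1.wX R B S q w0 11), cyc (H1.wX R B S q w0 18)}) := by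
  obtain ⟨X, hX, ht, hl⟩ := h'.low
  have e : (H1.wX R B S q w0 i).1 = w1 .nil X .nil ∨ (H1.wX R B S q w0 i).1 = w1 X .nil .nil ∨
      (H1.wX R B S q w0 i).1 = w1 .nil .nil X := by
    rcases ht.words _ hw with e1 | ⟨_, e1 | e1⟩
    · exact Or.inl e1
    · exact Or.inr (Or.inl e1)
    · exact Or.inr (Or.inr e1)
  have word : ∀ {i : ℕ}, i < 20 → (H1.wX R B S q w0 i).1 = H1.W R (H1.ch (q + 1)) B S i :=
    fun hi => H1.wX_eq h.dat h.size w0 hi
  obtain ⟨b, c, hb, hc', hF⟩ := tri_F ht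
  rcases h.rE hq hX w0 hi e with ⟨h1, rfl⟩ | ⟨hB, h1, rfl⟩
  · left
    have hq3 : 3 ≤ q := by
      by_contra hlt
      exact low_RQ h.a0d3 (by omega) hl
    refine ⟨hq3, h1, ht, ?_⟩
    have e1 : b = H1.wX R B S q w0 1 := by
      apply Subtype.ext
      rw [hb, word (by norm_num)]
      simp only [w1, H1.W, app_assoc', app, app_nil', H1.ch_eq]
    have e2 : c = H1.wX R B S q w0 2 := by
      apply Subtype.ext
      rw [hc', word (by norm_num)]
      simp only [w1, H1.W, app_assoc', app, app_nil', H1.ch_eq]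
    rw [hF, e1, e2]
  · right
    refine ⟨hB, h1, ht, ?_⟩
    subst hB
    have e1 : b = H1.wX R .nil S q w0 18 := by
      apply Subtype.ext
      rw [hb, word (by norm_num)]
      simp only [w1, H1.W, app_assoc', app, app_nil', H1.ch_eq]
    have e2 : c = H1.wX R .nil S q w0 11 := by
      apply Subtype.ext
      rw [hc', word (by norm_num)]
      simp only [w1, H1.W, app_assoc', app, app_nil', H1.ch_eq]
    rw [hF, e1, e2, Set.pair_comm]

/-- **c = 4, 5, `B ≠ e`: no common word with an E triple over a low word** -/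
theorem HM.NodeM.rE_clean (h : NodeM k q R B S) (hq : q = 1 ∨ q = 2) (hB : B ≠ .nil) (h' : TyE F' g') (w0 : OddHC.X k)
    {i : ℕ} (hi : i < 20) : H1.wX R B S q w0 i ∉ g'.B := by
  intro hw
  rcases h.rE_low (by omega) h' w0 hi hw with ⟨h3, -⟩ | ⟨h0, -⟩
  · omega
  · exact hB h0

/-- **a common word of TyRq and E** -/
theorem TyRq.common_E (h : TyRq q F g) (hq : 1 ≤ q) (h' : TyE F' g') {w : OddHC.X k} (hw : w ∈ g.B) (hw' : w ∈ g'.B) :
    ∃ (R B S : BinaryTree Unit) (w0 : OddHC.X k), NodeM k q R B S ∧ F = {cyc (H1.wX R B S q w0 0)} ∧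
      g = gad20 (H1.wX R B S q w0) ∧
      ((3 ≤ q ∧ IsTri .nil (app R (.nil △ pc (q + 1))) .nil F' g' ∧
        F' = {cyc (H1.wX R B S q w0 1), cyc (H1.wX R B S q w0 2)}) ∨
      (B = .nil ∧ IsTri .nil (app (pc (q + 1)) (.nil △ S)) .nil F' g' ∧
        F' = {cyc (H1.wX R B S q w0 11), cyc (H1.wX R B S q w0 18)})) := by
  obtain ⟨R, B, S, w0, h1, hne, rfl, rfl⟩ := h
  obtain ⟨i, hi, rfl⟩ := mem_gad20.1 hw
  refine ⟨R, B, S, w0, h1, rfl, rfl, ?_⟩
  rcases h1.rE_low hq h' w0 hi hw' with ⟨a1, -, a2, a3⟩ | ⟨a1, -, a2, a3⟩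
  · exact Or.inl ⟨a1, a2, a3⟩
  · exact Or.inr ⟨a1, a2, a3⟩

/-- **disjointness Sq - E**, `q ≥ 1`, no condition -/
theorem TySq.disj_E (h : TySq q F g) (hq : 1 ≤ q) (h' : TyE F' g') (hd : ∀ c ∈ F, c ∉ F') : ∀ w ∈ g.B, w ∉ g'.B := by
  obtain ⟨R, B, S, w0, h1, hne, h12, h18, rfl, rfl⟩ := h
  intro w hw hw'
  obtain ⟨i, hi, h9, rfl⟩ := memR_gadS.1 hw
  rcases h1.rE_low hq h' w0 hi hw' with ⟨-, -, -, rfl⟩ | ⟨-, -, -, rfl⟩
  · exact hd (cyc (H1.wX R B S q w0 1)) (Or.inr (Or.inl rfl)) (Or.inl rfl)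
  · have h11 : cyc (H1.wX R B S q w0 11) = cyc (H1.wX R B S q w0 1) := by
      rw [← h1.rlink w0 (i := 1) (j := 11) (by simp)]
      have e : ∀ x : OddHC.X k, cyc (TT x) = cyc x := fun x => cyc_eq.2 ⟨-1, by simp⟩
      rw [e, e]
    exact hd (cyc (H1.wX R B S q w0 1)) (Or.inr (Or.inl rfl)) (Or.inl h11.symm)

end Pool.OddHC
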