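import Pool.Agent.Work.MP_8f87b2_h13.TyRq
set_option autoImplicit false
set_option linter.all false

/-!
# MP_8f87b2_co: the right windows with smallest part `q + 3 ≥ 4` against the links K and Km
-/

namespace Pool.OddHC
open Finset Equiv BinaryTree Pool.Agent.Work.MP_8f87b2_co HM
variable {k : ℕ} {F F' : Set (Cyc k)} {g g' : DG k} {q q' c d : ℕ} {R B S X U V : BinaryTree Unit}

/-- the last two components of the hosts of the `K` links -/
theorem KSh.two (h : KSh U) : (∃ V, U = app V (.nil △ (.nil △ .nil))) ∨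
    (∃ V n, U = app V (.nil △ (pc n △ (.nil △ .nil)))) ∨
    (∃ V A, A ≠ .nil ∧ U = app V (app A (.nil △ .nil) △ (.nil △ .nil))) ∨
    ∃ V n, 1 ≤ n ∧ U = app V (pc n △ .nil) := by
  rcases h with h | h | h | ⟨V, n, hn, e⟩ | ⟨V, n, hn, e, -⟩
  · exact Or.inl h
  · exact Or.inr (Or.inl h)
  · exact Or.inr (Or.inr (Or.inl h))
  · refine Or.inr (Or.inr (Or.inr ⟨app V (.nil △ .nil), n, hn, ?_⟩))
    rw [e, app_assoc']
    rfl
  · exact Or.inr (Or.inr (Or.inr ⟨V, n, hn, by rw [e]; rfl⟩))

/-- `P = V()()`, `V()(n)()`, `V(A())()` or `V(n)` -/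
theorem KSh.cleanR1 (h : KSh U) (g : A0D 1 R B S) :
    ¬ (U = .nil △ app R (.nil △ .nil) ∨ U = (R △ .nil) △ .nil ∨ U = S △ app B (.nil △ .nil) ∨
        U = app S (B △ .nil) △ .nil) := by
  rintro (e | e | e | e)
  · -- ()R()
    rcases h.two with ⟨V, e1⟩ | ⟨V, n, e1⟩ | ⟨V, A, hA, e1⟩ | ⟨V, n, hn, e1⟩
    · have e2 : app (.nil △ R) (.nil △ .nil) = app (app V (.nil △ .nil)) (.nil △ .nil) := by
        rw [app_assoc']
        change BinaryTree.nil △ app R (.nil △ .nil) = _
        rw [← e, e1]
        rfl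
      have e3 := (app_snoc e2).1
      cases V with
      | nil =>
        injection e3 with _ _ e4
        exact g.R_ne e4
      | node u l r =>
        have e4 : R = app r (.nil △ .nil) := by
          injection e3 with _ _ e4
        exact g.hv.ne_snoc r e4
    · have e2 : app (.nil △ R) (.nil △ .nil) = app (app V (.nil △ (pc n △ .nil))) (.nil △ .nil) := by
        rw [app_assoc']
        change BinaryTree.nil △ app R (.nil △ .nil) = _
        rw [← e, e1]
        rfl
      have e3 := (app_snoc e2).1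
      cases V with
      | nil =>
        have e4 : R = pc n △ .nil := by
          injection e3 with _ _ e4
        exact g.R_pc (n + 1) e4
      | node u l r =>
        have e4 : R = app r (.nil △ (pc n △ .nil)) := by
          injection e3 with _ _ e4
        have h1 : 1 ∈ cont R := by
          rw [e4, cont_app, cont_node, cont_nil, raise_zero]
          simp
        have := g.hv 1 h1
        omega
    · have e2 : app (.nil △ R) (.nil △ .nil) = app (app V (app A (.nil △ .nil) △ .nil)) (.nil △ .nil) := by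
        rw [app_assoc']
        change BinaryTree.nil △ app R (.nil △ .nil) = _
        rw [← e, e1]
        rfl
      have e3 := (app_snoc e2).1
      have h1 := congrArg OddHC.ls e3
      rw [ls_node _ g.R_ne, ls_app _ (by simp), ls_single] at h1
      have h2 := g.hv.ls g.R_ne
      rw [h1] at h2
      exact lo_bead hA h2
    · have e2 : app (.nil △ R) (.nil △ .nil) = app V (pc n △ .nil) := by
        change BinaryTree.nil △ app R (.nil △ .nil) = _
        rw [← e, e1]
      exact pc_ne hn (app_snoc e2).2.symm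
  · -- ((R))
    rcases h.two with ⟨V, e1⟩ | ⟨V, n, e1⟩ | ⟨V, A, hA, e1⟩ | ⟨V, n, hn, e1⟩
    · have e2 : app .nil ((R △ .nil) △ .nil) = app (app V (.nil △ .nil)) (.nil △ .nil) := by
        rw [app_assoc']
        change (R △ .nil) △ .nil = _
        rw [← e, e1]
        rfl
      exact app_ne' (by simp) (app_snoc e2).1.symm
    · have e2 : app .nil ((R △ .nil) △ .nil) = app (app V (.nil △ (pc n △ .nil))) (.nil △ .nil) := by
        rw [app_assoc']
        change (R △ .nil) △ .nil = _
        rw [← e, e1]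
        rfl
      exact app_ne' (by simp) (app_snoc e2).1.symm
    · have e2 : app .nil ((R △ .nil) △ .nil) = app (app V (app A (.nil △ .nil) △ .nil)) (.nil △ .nil) := by
        rw [app_assoc']
        change (R △ .nil) △ .nil = _
        rw [← e, e1]
        rfl
      exact app_ne' (by simp) (app_snoc e2).1.symm
    · have e2 : app .nil ((R △ .nil) △ .nil) = app V (pc n △ .nil) := by
        change (R △ .nil) △ .nil = _
        rw [← e, e1]
      obtain ⟨e3, e4⟩ := app_snoc e2
      obtain ⟨n, rfl⟩ : ∃ n', n = n' + 1 := ⟨n - 1, by omega⟩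
      have e5 : R = pc n := by
        injection e4 with _ e5 _
      exact g.R_pc n e5
  · -- (S)B()
    have e0 : app (S △ B) (.nil △ .nil) = U := by rw [e]; rfl
    rcases h.two with ⟨V, e1⟩ | ⟨V, n, e1⟩ | ⟨V, A, hA, e1⟩ | ⟨V, n, hn, e1⟩
    · have e2 : app (S △ B) (.nil △ .nil) = app (app V (.nil △ .nil)) (.nil △ .nil) := by
        rw [app_assoc', e0, e1]
        rfl
      have e3 := (app_snoc e2).1
      cases V with
      | nil =>
        injection e3 with _ e4 _
        exact g.S_ne e4
      | node u l r =>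
        have e4 : B = app r (.nil △ .nil) := by
          injection e3 with _ _ e4
        exact g.hvB.ne_snoc r e4
    · have e2 : app (S △ B) (.nil △ .nil) = app (app V (.nil △ (pc n △ .nil))) (.nil △ .nil) := by
        rw [app_assoc', e0, e1]
        rfl
      have e3 := (app_snoc e2).1
      cases V with
      | nil =>
        injection e3 with _ e4 _
        exact g.S_ne e4
      | node u l r =>
        have e4 : B = app r (.nil △ (pc n △ .nil)) := by
          injection e3 with _ _ e4
        have h1 : 1 ∈ cont B := by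
          rw [e4, cont_app, cont_node, cont_nil, raise_zero]
          simp
        have := g.hvB 1 h1
        omega
    · have e2 : app (S △ B) (.nil △ .nil) = app (app V (app A (.nil △ .nil) △ .nil)) (.nil △ .nil) := by
        rw [app_assoc', e0, e1]
        rfl
      have e3 := (app_snoc e2).1
      by_cases hB : B = .nil
      · rw [hB] at e3
        have e4 : app .nil (S △ .nil) = app V (app A (.nil △ .nil) △ .nil) := e3
        exact g.hvS.ne_snoc A (app_snoc e4).2
      · have h1 := congrArg OddHC.ls e3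
        rw [ls_node _ hB, ls_app _ (by simp), ls_single] at h1
        have h2 := g.hvB.ls hB
        rw [h1] at h2
        exact lo_bead hA h2
    · have e2 : app (S △ B) (.nil △ .nil) = app V (pc n △ .nil) := by
        rw [e0, e1]
      exact pc_ne hn (app_snoc e2).2.symm
  · -- (S(B))
    rcases h.two with ⟨V, e1⟩ | ⟨V, n, e1⟩ | ⟨V, A, hA, e1⟩ | ⟨V, n, hn, e1⟩
    · have e2 : app .nil (app S (B △ .nil) △ .nil) = app (app V (.nil △ .nil)) (.nil △ .nil) := by
        rw [app_assoc']
        change app S (B △ .nil) △ .nil = _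
        rw [← e, e1]
        rfl
      exact app_ne' (by simp) (app_snoc e2).1.symm
    · have e2 : app .nil (app S (B △ .nil) △ .nil) = app (app V (.nil △ (pc n △ .nil))) (.nil △ .nil) := by
        rw [app_assoc']
        change app S (B △ .nil) △ .nil = _
        rw [← e, e1]
        rfl
      exact app_ne' (by simp) (app_snoc e2).1.symm
    · have e2 : app .nil (app S (B △ .nil) △ .nil) = app (app V (app A (.nil △ .nil) △ .nil)) (.nil △ .nil) := by
        rw [app_assoc']
        change app S (B △ .nil) △ .nil = _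
        rw [← e, e1]
        rfl
      exact app_ne' (by simp) (app_snoc e2).1.symm
    · have e2 : app .nil (app S (B △ .nil) △ .nil) = app V (pc n △ .nil) := by
        change app S (B △ .nil) △ .nil = _
        rw [← e, e1]
      obtain ⟨e3, e4⟩ := app_snoc e2
      obtain ⟨n, rfl⟩ : ∃ n', n = n' + 1 := ⟨n - 1, by omega⟩
      have e5 : app S (B △ .nil) = app .nil (pc n △ .nil) := e4
      exact g.S_ne (app_snoc e5).1

/-- the shapes of the hosts of the `Km` links are clean -/
theorem KmSh.cleanR1 (h : KmSh U) (g : A0D 1 R B S) :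
    ¬ (U = (.nil △ R) △ .nil ∨ U = .nil △ (R △ .nil) ∨ U = (S △ B) △ .nil ∨ U = .nil △ app S (B △ .nil)) := by
  rintro (e | e | e | e)
  · refine h.not_one (fun P e1 => ?_) e
    cases P with
    | nil =>
      injection e1 with _ _ e4
      exact g.R_ne e4
    | node u l r =>
      have e4 : R = app r (.nil △ .nil) := by
        injection e1 with _ _ e4
      exact g.hv.ne_snoc r e4
  · rcases h.snoc with ⟨V, e1, hV⟩ | ⟨V, A, hA, e1⟩
    · have e2 : app V (.nil △ .nil) = app (.nil △ .nil) (R △ .nil) := by rw [← e1, e]; rfl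
      exact g.R_ne (app_snoc e2).2.symm
    · have e2 : app V (app A (.nil △ .nil) △ .nil) = app (.nil △ .nil) (R △ .nil) := by rw [← e1, e]; rfl
      exact g.hv.ne_snoc A (app_snoc e2).2.symm
  · refine h.not_one (fun P e1 => ?_) e
    cases P with
    | nil =>
      injection e1 with _ e4 _
      exact g.S_ne e4
    | node u l r =>
      have e4 : B = app r (.nil △ .nil) := by
        injection e1 with _ _ e4
      exact g.hvB.ne_snoc r e4
  · rcases h.snoc with ⟨V, e1, hV⟩ | ⟨V, A, hA, e1⟩
    · have e2 : app V (.nil △ .nil) = app (.nil △ S) (B △ .nil) := by rw [← e1, e]; rfl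
      have e3 := (app_snoc e2).1
      rw [e3] at hV
      exact hV.not_app (P := .nil △ .nil) g.hvS g.S_ne rfl
    · have e2 : app V (app A (.nil △ .nil) △ .nil) = app (.nil △ S) (B △ .nil) := by rw [← e1, e]; rfl
      exact g.hvB.ne_snoc A (app_snoc e2).2.symm

theorem HM.NodeM.rq_K (h : NodeM k q R B S) (hq : 1 ≤ q) (hU : KSh U) (w0 : OddHC.X k) {i : ℕ} (hi : i < 20)
    (e : (H1.wX R B S q w0 i).1 = w1 .nil U (pc 1) ∨ (H1.wX R B S q w0 i).1 = w1 U (pc 1) .nil ∨
      (H1.wX R B S q w0 i).1 = w1 (pc 1) .nil U) : False := by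
  rcases h.rK w0 hi hU.ne e with ⟨h0, -⟩ | ⟨rfl, h1⟩
  · omega
  · exact hU.cleanR1 h.a0d3 h1

theorem HM.NodeM.rq_Km (h : NodeM k q R B S) (hq : 1 ≤ q) (hU : KmSh U) (w0 : OddHC.X k) {i : ℕ} (hi : i < 20)
    (e : (H1.wX R B S q w0 i).1 = w1 (pc 1) U .nil ∨ (H1.wX R B S q w0 i).1 = w1 U .nil (pc 1) ∨
      (H1.wX R B S q w0 i).1 = w1 .nil (pc 1) U) : False := by
  rcases h.rKm w0 hi hU.ne e with ⟨h0, -⟩ | ⟨rfl, h1⟩
  · omega
  · exact hU.cleanR1 h.a0d3 h1

/-- **disjointness Rq - K** -/
theorem TyRq.disj_K (h : TyRq q F g) (hq : 1 ≤ q) (hU : KSh U) (h' : TyK U F' g') : ∀ w ∈ g.B, w ∉ g'.B := by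
  intro w hw hw'
  obtain ⟨R, B, S, w0, i, h1, hi, rfl, -⟩ := h.words w hw
  rcases IsTri.words h' _ hw' with e1 | ⟨_, e1 | e1⟩
  · exact h1.rq_K hq hU w0 hi (Or.inl e1)
  · exact h1.rq_K hq hU w0 hi (Or.inr (Or.inl e1))
  · exact h1.rq_K hq hU w0 hi (Or.inr (Or.inr e1))

/-- **disjointness Sq - K** -/
theorem TySq.disj_K (h : TySq q F g) (hq : 1 ≤ q) (hU : KSh U) (h' : TyK U F' g') : ∀ w ∈ g.B, w ∉ g'.B := by
  intro w hw hw'
  obtain ⟨R, B, S, w0, i, h1, hi, rfl, -⟩ := h.words' w hw
  rcases IsTri.words h' _ hw' with e1 | ⟨_, e1 | e1⟩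
  · exact h1.rq_K hq hU w0 hi (Or.inl e1)
  · exact h1.rq_K hq hU w0 hi (Or.inr (Or.inl e1))
  · exact h1.rq_K hq hU w0 hi (Or.inr (Or.inr e1))

/-- **disjointness Rq - Km** -/
theorem TyRq.disj_Km (h : TyRq q F g) (hq : 1 ≤ q) (hU : KmSh U) (h' : TyK' U F' g') : ∀ w ∈ g.B, w ∉ g'.B := by
  intro w hw hw'
  obtain ⟨R, B, S, w0, i, h1, hi, rfl, -⟩ := h.words w hw
  rcases IsTri.words h' _ hw' with e1 | ⟨_, e1 | e1⟩
  · exact h1.rq_Km hq hU w0 hi (Or.inl e1)
  · exact h1.rq_Km hq hU w0 hi (Or.inr (Or.inl e1))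
  · exact h1.rq_Km hq hU w0 hi (Or.inr (Or.inr e1))

/-- **disjointness Sq - Km** -/
theorem TySq.disj_Km (h : TySq q F g) (hq : 1 ≤ q) (hU : KmSh U) (h' : TyK' U F' g') : ∀ w ∈ g.B, w ∉ g'.B := by
  intro w hw hw'
  obtain ⟨R, B, S, w0, i, h1, hi, rfl, -⟩ := h.words' w hw
  rcases IsTri.words h' _ hw' with e1 | ⟨_, e1 | e1⟩
  · exact h1.rq_Km hq hU w0 hi (Or.inl e1)
  · exact h1.rq_Km hq hU w0 hi (Or.inr (Or.inl e1))
  · exact h1.rq_Km hq hU w0 hi (Or.inr (Or.inr e1))

end Pool.OddHC
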