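import Pool.Agent.Work.MP_8f87b2_h13.R3E
set_option autoImplicit false
set_option linter.all false

/-!
# MP_8f87b2_co: existence of the RIGHT windows R3, S3 (`c = 3`)

`NodeM.not_St3`: `S` never starts with `[3]`. `TyR3.ex_word`: every word `R[3]` of a bead free T-cycle (smallest part `3` at least
twice, a larger part) which is not a fixed point and for which not (`B = [3]` and `3` is no part of `S`) gives a `TyR3` gadget.
-/

namespace Pool.OddHC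
open Finset Equiv BinaryTree Pool.Agent.Work.MP_8f87b2_co HM
variable {k : ℕ} {F F' : Set (Cyc k)} {g g' : DG k} {q : ℕ} {R B S X : BinaryTree Unit}

/-- the first component of `S` in `sq R = (S, B)` has full height -/
theorem sq_top13 : ∀ t : BinaryTree Unit, t ≠ .nil →
    ∃ X Y, (Tsq.sq t).1 = X △ Y ∧ Tsq.ht X + 1 = Tsq.ht t := by
  intro t
  induction t with
  | nil => intro h; exact absurd rfl h
  | node u A C ihA ihC =>
    intro _
    by_cases h : Tsq.ht A + 1 < Tsq.ht C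
    · have hC : C ≠ .nil := by
        rintro rfl
        exact absurd h (by simp [Tsq.ht])
      obtain ⟨X, Y, e, hX⟩ := ihC hC
      refine ⟨A △ X, Y, ?_, ?_⟩
      · exact congrArg Prod.fst (Tsq.sq_lt h e)
      · rw [Tsq.ht_node]
        change _ = Tsq.ht (A △ C)
        rw [Tsq.ht_node]
        omega
    · by_cases hA : A = .nil
      · subst hA
        have h1 : Tsq.ht C ≤ 1 := by
          have : Tsq.ht (BinaryTree.nil : BinaryTree Unit) = 0 := rfl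
          omega
        refine ⟨.nil, .nil, ?_, ?_⟩
        · exact congrArg Prod.fst (Tsq.sq_nil h1)
        · change _ = Tsq.ht (.nil △ C)
          rw [Tsq.ht_node]
          have : Tsq.ht (BinaryTree.nil : BinaryTree Unit) = 0 := rfl
          omega
      · refine ⟨(Tsq.sq A).1, (Tsq.sq A).2, ?_, ?_⟩
        · exact congrArg Prod.fst (Tsq.sq_ge hA (by omega))
        · change _ = Tsq.ht (A △ C)
          rw [Tsq.ht_node, (Tsq.ht_sq hA).1]
          omega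

/-- **`S` never starts with `[3]`** -/
theorem HM.NodeM.not_St3 (h : NodeM k q R B S) : ¬ St3 S := by
  rintro ⟨Y', e'⟩
  obtain ⟨X, Y, e, hX⟩ := sq_top13 R h.ne
  rw [h.sq] at e
  change S = _ at e
  rw [e'] at e
  injection e with _ e1
  rw [← e1] at hX
  have h1 : Tsq.ht R = ht R := H1.ht_eq R
  have h2 := h.top
  have h3 : Tsq.ht (pc 2) = 2 := rfl
  omega

theorem HM.NodeM.clR (h : NodeM k 0 R B S) (h1 : ¬ (B = pc 3 ∧ 3 ∉ cont S)) : ClR B S := ⟨h.not_St3, h1⟩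

/-- the node data of a word `R[c]` -/
theorem nodeM_word {w : OddHC.X k} (hw : w.1 = app R (pc (q + 3))) (hmin : ∀ x ∈ cont R, q + 3 ≤ x) (hmem : q + 3 ∈ cont R)
    (htop : q + 3 < ht R) : NodeM k q R (Tsq.sq R).2 (Tsq.sq R).1 ∧
      ∀ w0 : OddHC.X k, H1.wX R (Tsq.sq R).2 (Tsq.sq R).1 q w0 0 = w := by
  have h : NodeM k q R (Tsq.sq R).2 (Tsq.sq R).1 := by
    refine ⟨rfl, hmin, Or.inl hmem, htop, ?_⟩
    have h1 := X_num w
    rw [hw, num_app, pc_num] at h1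
    omega
  refine ⟨h, fun w0 => ?_⟩
  apply Subtype.ext
  rw [H1.wX_eq h.dat h.size w0 (by norm_num), hw, H1.W, H1.ch_eq]
  rfl

/-- words 0 and 10 are different if `z` is not a fixed point -/
theorem neR_of_not_fixed (h : NodeM k q R B S) (w0 : OddHC.X k)
    (hz : TT (H1.wX R B S q w0 0) ≠ H1.wX R B S q w0 0) : H1.wX R B S q w0 0 ≠ H1.wX R B S q w0 10 := by
  intro e
  have h1 := h.rlink w0 (i := 0) (j := 10) (by simp)
  rw [← e] at h1
  obtain ⟨P, hP, h2⟩ := OddP.odd_period k (H1.wX R B S q w0 0)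
  apply hz
  obtain ⟨n, rfl⟩ := hP
  have h3 : ∀ n : ℕ, (TT ^ (2 * n)) (H1.wX R B S q w0 0) = H1.wX R B S q w0 0 := by
    intro n
    induction n with
    | zero => rfl
    | succ n ih =>
      rw [show 2 * (n + 1) = 2 + 2 * n by ring, pow_add, Perm.mul_apply, ih, pow_two,
        Perm.mul_apply, h1]
  have h4 : (TT ^ (2 * n + 1)) (H1.wX R B S q w0 0) = H1.wX R B S q w0 0 := by
    conv_rhs => rw [← h2]
    rw [Perm.coe_pow]
    rfl
  rw [pow_succ', Perm.mul_apply, h3 n] at h4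
  exact h4

/-- **existence** of R3 from a word `R[3]` -/
theorem TyR3.ex_word {w : OddHC.X k} (hw : w.1 = app R (pc 3)) (hmin : ∀ x ∈ cont R, 3 ≤ x) (hmem : 3 ∈ cont R)
    (htop : 3 < ht R) (hB : ¬ ((Tsq.sq R).2 = pc 3 ∧ 3 ∉ cont (Tsq.sq R).1)) (hz : TT w ≠ w) :
    ∃ g : DG k, TyR3 {cyc w} g := by
  obtain ⟨h, h0⟩ := nodeM_word (q := 0) hw hmin hmem htop
  have hz' : TT (H1.wX R (Tsq.sq R).2 (Tsq.sq R).1 0 w 0) ≠ H1.wX R (Tsq.sq R).2 (Tsq.sq R).1 0 w 0 := by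
    rw [h0 w]; exact hz
  exact ⟨gad20 (H1.wX R (Tsq.sq R).2 (Tsq.sq R).1 0 w), R, _, _, w, h, neR_of_not_fixed h w hz', h.ne, h.clR hB,
    by rw [h0 w], rfl⟩

/-- **existence** of R3, `R` does not start with `[3]` -/
theorem TyR3c.ex_word {w : OddHC.X k} (hw : w.1 = app R (pc 3)) (hmin : ∀ x ∈ cont R, 3 ≤ x) (hmem : 3 ∈ cont R)
    (htop : 3 < ht R) (hR : ¬ St3 R) (hB : ¬ ((Tsq.sq R).2 = pc 3 ∧ 3 ∉ cont (Tsq.sq R).1)) (hz : TT w ≠ w) :
    ∃ g : DG k, TyR3c {cyc w} g := by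
  obtain ⟨h, h0⟩ := nodeM_word (q := 0) hw hmin hmem htop
  have hz' : TT (H1.wX R (Tsq.sq R).2 (Tsq.sq R).1 0 w 0) ≠ H1.wX R (Tsq.sq R).2 (Tsq.sq R).1 0 w 0 := by
    rw [h0 w]; exact hz
  exact ⟨gad20 (H1.wX R (Tsq.sq R).2 (Tsq.sq R).1 0 w), R, _, _, w, h, neR_of_not_fixed h w hz', hR, h.clR hB,
    by rw [h0 w], rfl⟩

/-- **existence** of S3 from a word `R[3]`; the T-cycles of `R()()()` and `()R()()` are different, and for `B = e` word 18 is on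
neither of them -/
theorem TyS3.ex_word {w : OddHC.X k} (hw : w.1 = app R (pc 3)) (hmin : ∀ x ∈ cont R, 3 ≤ x) (hmem : 3 ∈ cont R)
    (htop : 3 < ht R) (hB : ¬ ((Tsq.sq R).2 = pc 3 ∧ 3 ∉ cont (Tsq.sq R).1)) (hz : TT w ≠ w)
    (h12 : ∀ w0 : OddHC.X k, ¬ TT.SameCycle (H1.wX R (Tsq.sq R).2 (Tsq.sq R).1 0 w0 1)
      (H1.wX R (Tsq.sq R).2 (Tsq.sq R).1 0 w0 2))
    (h18 : (Tsq.sq R).2 = .nil → ∀ w0 : OddHC.X k, ¬ TT.SameCycle (H1.wX R (Tsq.sq R).2 (Tsq.sq R).1 0 w0 1)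
      (H1.wX R (Tsq.sq R).2 (Tsq.sq R).1 0 w0 18) ∧
      ¬ TT.SameCycle (H1.wX R (Tsq.sq R).2 (Tsq.sq R).1 0 w0 2) (H1.wX R (Tsq.sq R).2 (Tsq.sq R).1 0 w0 18)) :
    ∃ (F : Set (Cyc k)) (g : DG k), TyS3 F g ∧ cyc w ∈ F := by
  obtain ⟨h, h0⟩ := nodeM_word (q := 0) hw hmin hmem htop
  have hz' : TT (H1.wX R (Tsq.sq R).2 (Tsq.sq R).1 0 w 0) ≠ H1.wX R (Tsq.sq R).2 (Tsq.sq R).1 0 w 0 := by
    rw [h0 w]; exact hz
  exact ⟨_, _, ⟨R, _, _, w, h, neR_of_not_fixed h w hz', h12 w, fun e => h18 e w, h.clR hB, rfl, rfl⟩,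
    Or.inl (by rw [h0 w])⟩

end Pool.OddHC
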