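import Pool.Agent.Work.MP_8f87b2_h13.A0K
set_option autoImplicit false
set_option linter.all false
namespace Pool.OddHC
open Finset Equiv BinaryTree Pool.Agent.Work.MP_8f87b2_co HM
variable {k : ℕ} {F F' : Set (Cyc k)} {g g' : DG k} {d : ℕ} {R B S X U V : BinaryTree Unit}

theorem aw_E (h : A0D d R B S) {i : ℕ} (hi : i < 20) (hX : X ≠ .nil) (e : aw R (pc (d + 1)) B S i = w1 .nil X .nil) :
    (((i = 1 ∨ i = 2 ∨ i = 3) ∧ X = app (pc (d + 1)) (.nil △ R)) ∨
      (B = .nil ∧ (i = 11 ∨ i = 14 ∨ i = 18) ∧ X = app S (.nil △ pc (d + 1))) ∨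
      (d = 0 ∧ ((i = 2 ∧ X = .nil △ app R (.nil △ .nil)) ∨ (i = 7 ∧ X = app R (.nil △ .nil) △ .nil) ∨
        (i = 8 ∧ X = R △ (.nil △ .nil)) ∨ (i = 9 ∧ X = (R △ .nil) △ .nil) ∨
        (i = 12 ∧ X = .nil △ app B (S △ .nil)) ∨ (i = 17 ∧ X = app B (S △ .nil) △ .nil) ∨
        (i = 18 ∧ X = B △ app S (.nil △ .nil)) ∨ (i = 19 ∧ X = (B △ S) △ .nil)))) := by
  obtain ⟨⟨r, R1, R2, r', hr, hr', hr0, hr0'⟩, ⟨s, S1, S2, s', hs, hs', hs0, hs0'⟩, hB⟩ := h.dat
  have hr1 := lo_ne_nil hr0
  have hr1' := lo_ne_nil hr0'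
  have hs1 := lo_ne_nil hs0
  have hs1' := lo_ne_nil hs0'
  have hr2 : r ≠ .nil △ .nil := lo_ne_pc hr0 (show 1 < d + 2 by omega)
  have hr2' : r' ≠ .nil △ .nil := lo_ne_pc hr0' (show 1 < d + 2 by omega)
  have hs2 : s ≠ .nil △ .nil := lo_ne_pc hs0 (show 1 < d + 2 by omega)
  have hs2' : s' ≠ .nil △ .nil := lo_ne_pc hs0' (show 1 < d + 2 by omega)
  have hRn := h.R_ne
  have hSn := h.S_ne
  have hRl := h.hv.ne_lf
  have hSl := h.hvS.ne_lf
  have hBl := h.hvB.ne_lf
  have hp0 : pc 0 = .nil := rfl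
  have hp1 : pc 1 = .nil △ .nil := rfl
  have hp : ∀ n, pc (n + 1) ≠ .nil := fun n => pc_ne (by omega)
  have hp1' : ∀ n, BinaryTree.nil ≠ pc (n + 1) := fun n => (hp n).symm
  have ha : ∀ n (Y : BinaryTree Unit), app (pc (n + 1)) Y ≠ .nil := fun n Y => by rw [pc, app]; simp
  have hXc := comps_ne hX
  have happ : ∀ P Y : BinaryTree Unit, app P (.nil △ Y) ≠ .nil := fun P Y => app_ne' (by simp)
  have happ2 : ∀ P : BinaryTree Unit, app P (S △ .nil) ≠ .nil := fun P => app_ne' (by simp)
  have e0 := congrArg comps e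
  have e1 := congrArg comps e
  have e2 := congrArg (fun t => (comps t).reverse) e
  rcases hB with hB | ⟨b, B1, B2, b', hBn, hb, hb', hb0, hb0'⟩
  · have hb : comps B = [] := by rw [hB]; rfl
    interval_cases i <;>
    simp [aw, comps_w1, comps_node, comps_app, comps_pc, comps, hr, hs, hb, hr1, hs1, hr2, hs2, hp, hp0, hp1', hp1, hRn, hSn, hRl, hSl, hBl, ha, hX, hX.symm, hXc, happ, happ2] at e1 <;>
    simp [aw, comps_w1, comps_node, comps_app, comps_pc, comps, hr', hs', hb, hr1', hs1', hr2', hs2', hp, hp0, hp1', hp1, hRn, hSn, hRl, hSl, hBl, ha, hX, hX.symm, hXc, happ, happ2] at e2 <;>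
    simp only [aw, comps_w1, comps_node, comps_app, comps_pc, comps, List.nil_append, List.cons_append, List.append_assoc] at e0
    · have e7 : X = app (pc (d + 1)) (.nil △ R) := by
        have e5 : [app (pc (d + 1)) (.nil △ R)] = [X] := by
          rw [← e0]
          try simp [hb]
        injection e5 with e6 _
        exact e6.symm
      exact Or.inl ⟨by omega, e7⟩
    · have e7 : X = app S (.nil △ pc (d + 1)) := by
        have e5 : [app S (.nil △ pc (d + 1))] = [X] := by
          rw [← e0]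
          try simp [hb]
        injection e5 with e6 _
        exact e6.symm
      exact Or.inr (Or.inl ⟨hB, by omega, e7⟩)
  · have hb1 := lo_ne_nil hb0
    have hb1' := lo_ne_nil hb0'
    have hb2 : b ≠ .nil △ .nil := lo_ne_pc hb0 (show 1 < d + 2 by omega)
    have hb2' : b' ≠ .nil △ .nil := lo_ne_pc hb0' (show 1 < d + 2 by omega)
    interval_cases i <;>
    simp [aw, comps_w1, comps_node, comps_app, comps_pc, comps, hr, hs, hb, hr1, hs1, hb1, hr2, hs2, hb2, hBn, hp, hp0, hp1', hp1, hRn, hSn, hRl, hSl, hBl, ha, hX, hX.symm, hXc, happ, happ2] at e1 <;>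
    simp [aw, comps_w1, comps_node, comps_app, comps_pc, comps, hr', hs', hb', hr1', hs1', hb1', hr2', hs2', hb2', hBn, hp, hp0, hp1', hp1, hRn, hSn, hRl, hSl, hBl, ha, hX, hX.symm, hXc, happ, happ2] at e2 <;>
    simp only [aw, comps_w1, comps_node, comps_app, comps_pc, comps, List.nil_append, List.cons_append, List.append_assoc] at e0
    · have e7 : X = app (pc (d + 1)) (.nil △ R) := by
        have e5 : [app (pc (d + 1)) (.nil △ R)] = [X] := by
          rw [← e0]
          try simp [hb]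
        injection e5 with e6 _
        exact e6.symm
      exact Or.inl ⟨by omega, e7⟩

theorem aw_E1 (h : A0D d R B S) {i : ℕ} (hi : i < 20) (hX : X ≠ .nil) (e : aw R (pc (d + 1)) B S i = w1 X .nil .nil) :
    (((i = 1 ∨ i = 2 ∨ i = 3) ∧ X = app (pc (d + 1)) (.nil △ R)) ∨
      (B = .nil ∧ (i = 11 ∨ i = 14 ∨ i = 18) ∧ X = app S (.nil △ pc (d + 1))) ∨
      (d = 0 ∧ ((i = 2 ∧ X = .nil △ app R (.nil △ .nil)) ∨ (i = 7 ∧ X = app R (.nil △ .nil) △ .nil) ∨
        (i = 8 ∧ X = R △ (.nil △ .nil)) ∨ (i = 9 ∧ X = (R △ .nil) △ .nil) ∨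
        (i = 12 ∧ X = .nil △ app B (S △ .nil)) ∨ (i = 17 ∧ X = app B (S △ .nil) △ .nil) ∨
        (i = 18 ∧ X = B △ app S (.nil △ .nil)) ∨ (i = 19 ∧ X = (B △ S) △ .nil)))) := by
  obtain ⟨⟨r, R1, R2, r', hr, hr', hr0, hr0'⟩, ⟨s, S1, S2, s', hs, hs', hs0, hs0'⟩, hB⟩ := h.dat
  have hr1 := lo_ne_nil hr0
  have hr1' := lo_ne_nil hr0'
  have hs1 := lo_ne_nil hs0
  have hs1' := lo_ne_nil hs0'
  have hr2 : r ≠ .nil △ .nil := lo_ne_pc hr0 (show 1 < d + 2 by omega)
  have hr2' : r' ≠ .nil △ .nil := lo_ne_pc hr0' (show 1 < d + 2 by omega)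
  have hs2 : s ≠ .nil △ .nil := lo_ne_pc hs0 (show 1 < d + 2 by omega)
  have hs2' : s' ≠ .nil △ .nil := lo_ne_pc hs0' (show 1 < d + 2 by omega)
  have hRn := h.R_ne
  have hSn := h.S_ne
  have hRl := h.hv.ne_lf
  have hSl := h.hvS.ne_lf
  have hBl := h.hvB.ne_lf
  have hp0 : pc 0 = .nil := rfl
  have hp1 : pc 1 = .nil △ .nil := rfl
  have hp : ∀ n, pc (n + 1) ≠ .nil := fun n => pc_ne (by omega)
  have hp1' : ∀ n, BinaryTree.nil ≠ pc (n + 1) := fun n => (hp n).symm
  have ha : ∀ n (Y : BinaryTree Unit), app (pc (n + 1)) Y ≠ .nil := fun n Y => by rw [pc, app]; simp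
  have hXc := comps_ne hX
  have happ : ∀ P Y : BinaryTree Unit, app P (.nil △ Y) ≠ .nil := fun P Y => app_ne' (by simp)
  have happ2 : ∀ P : BinaryTree Unit, app P (S △ .nil) ≠ .nil := fun P => app_ne' (by simp)
  have e0 := congrArg comps e
  have e1 := congrArg comps e
  have e2 := congrArg (fun t => (comps t).reverse) e
  rcases hB with hB | ⟨b, B1, B2, b', hBn, hb, hb', hb0, hb0'⟩
  · have hb : comps B = [] := by rw [hB]; rfl
    interval_cases i <;>
    simp [aw, comps_w1, comps_node, comps_app, comps_pc, comps, hr, hs, hb, hr1, hs1, hr2, hs2, hp, hp0, hp1', hp1, hRn, hSn, hRl, hSl, hBl, ha, hX, hX.symm, hXc, happ, happ2] at e1 <;>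
    simp [aw, comps_w1, comps_node, comps_app, comps_pc, comps, hr', hs', hb, hr1', hs1', hr2', hs2', hp, hp0, hp1', hp1, hRn, hSn, hRl, hSl, hBl, ha, hX, hX.symm, hXc, happ, happ2] at e2 <;>
    simp only [aw, comps_w1, comps_node, comps_app, comps_pc, comps, List.nil_append, List.cons_append, List.append_assoc] at e0
    · have e5 : (pc d :: .nil :: comps R) ++ [.nil] = comps X ++ [.nil] := by
        rw [← e0]
        simp [hb]
      have e7 : X = app (pc (d + 1)) (.nil △ R) := by
        apply comps_inj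
        rw [← (snoc_inj e5).1]
        simp [comps_app, comps_node, comps, comps_pc, hb]
      exact Or.inl ⟨by omega, e7⟩
    · have e5 : ([app R (.nil △ .nil)]) ++ [pc d] = comps X ++ [.nil] := by
        rw [← e0]
        simp [hb]
      have e7 : X = app R (.nil △ .nil) △ .nil := by
        apply comps_inj
        rw [← (snoc_inj e5).1]
        simp [comps_app, comps_node, comps, comps_pc, hb]
      have hd0 : d = 0 := pc_z (snoc_inj e5).2
      exact Or.inr (Or.inr ⟨hd0, Or.inr (Or.inl ⟨rfl, e7⟩)⟩)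
    · have e5 : ([R, .nil]) ++ [pc d] = comps X ++ [.nil] := by
        rw [← e0]
        simp [hb]
      have e7 : X = R △ (.nil △ .nil) := by
        apply comps_inj
        rw [← (snoc_inj e5).1]
        simp [comps_app, comps_node, comps, comps_pc, hb]
      have hd0 : d = 0 := pc_z (snoc_inj e5).2
      exact Or.inr (Or.inr ⟨hd0, Or.inr (Or.inr (Or.inl ⟨rfl, e7⟩))⟩)
    · have e5 : (comps S ++ [.nil, pc d]) ++ [.nil] = comps X ++ [.nil] := by
        rw [← e0]
        simp [hb]
      have e7 : X = app S (.nil △ pc (d + 1)) := by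
        apply comps_inj
        rw [← (snoc_inj e5).1]
        simp [comps_app, comps_node, comps, comps_pc, hb]
      exact Or.inr (Or.inl ⟨hB, by omega, e7⟩)
    · have e5 : ([app B (S △ .nil)]) ++ [pc d] = comps X ++ [.nil] := by
        rw [← e0]
        simp [hb]
      have e7 : X = app B (S △ .nil) △ .nil := by
        apply comps_inj
        rw [← (snoc_inj e5).1]
        simp [comps_app, comps_node, comps, comps_pc, hb]
      have hd0 : d = 0 := pc_z (snoc_inj e5).2
      exact Or.inr (Or.inr ⟨hd0, Or.inr (Or.inr (Or.inr (Or.inr (Or.inr (Or.inl ⟨rfl, e7⟩)))))⟩)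
    · have e5 : (B :: (comps S ++ [.nil])) ++ [pc d] = comps X ++ [.nil] := by
        rw [← e0]
        simp [hb]
      have e7 : X = B △ app S (.nil △ .nil) := by
        apply comps_inj
        rw [← (snoc_inj e5).1]
        simp [comps_app, comps_node, comps, comps_pc, hb]
      have hd0 : d = 0 := pc_z (snoc_inj e5).2
      exact Or.inr (Or.inr ⟨hd0, Or.inr (Or.inr (Or.inr (Or.inr (Or.inr (Or.inr (Or.inl ⟨rfl, e7⟩))))))⟩)
  · have hb1 := lo_ne_nil hb0
    have hb1' := lo_ne_nil hb0'
    have hb2 : b ≠ .nil △ .nil := lo_ne_pc hb0 (show 1 < d + 2 by omega)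
    have hb2' : b' ≠ .nil △ .nil := lo_ne_pc hb0' (show 1 < d + 2 by omega)
    interval_cases i <;>
    simp [aw, comps_w1, comps_node, comps_app, comps_pc, comps, hr, hs, hb, hr1, hs1, hb1, hr2, hs2, hb2, hBn, hp, hp0, hp1', hp1, hRn, hSn, hRl, hSl, hBl, ha, hX, hX.symm, hXc, happ, happ2] at e1 <;>
    simp [aw, comps_w1, comps_node, comps_app, comps_pc, comps, hr', hs', hb', hr1', hs1', hb1', hr2', hs2', hb2', hBn, hp, hp0, hp1', hp1, hRn, hSn, hRl, hSl, hBl, ha, hX, hX.symm, hXc, happ, happ2] at e2 <;>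
    simp only [aw, comps_w1, comps_node, comps_app, comps_pc, comps, List.nil_append, List.cons_append, List.append_assoc] at e0
    · have e5 : (pc d :: .nil :: comps R) ++ [.nil] = comps X ++ [.nil] := by
        rw [← e0]
        simp [hb]
      have e7 : X = app (pc (d + 1)) (.nil △ R) := by
        apply comps_inj
        rw [← (snoc_inj e5).1]
        simp [comps_app, comps_node, comps, comps_pc, hb]
      exact Or.inl ⟨by omega, e7⟩
    · have e5 : ([app R (.nil △ .nil)]) ++ [pc d] = comps X ++ [.nil] := by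
        rw [← e0]
        simp [hb]
      have e7 : X = app R (.nil △ .nil) △ .nil := by
        apply comps_inj
        rw [← (snoc_inj e5).1]
        simp [comps_app, comps_node, comps, comps_pc, hb]
      have hd0 : d = 0 := pc_z (snoc_inj e5).2
      exact Or.inr (Or.inr ⟨hd0, Or.inr (Or.inl ⟨rfl, e7⟩)⟩)
    · have e5 : ([R, .nil]) ++ [pc d] = comps X ++ [.nil] := by
        rw [← e0]
        simp [hb]
      have e7 : X = R △ (.nil △ .nil) := by
        apply comps_inj
        rw [← (snoc_inj e5).1]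
        simp [comps_app, comps_node, comps, comps_pc, hb]
      have hd0 : d = 0 := pc_z (snoc_inj e5).2
      exact Or.inr (Or.inr ⟨hd0, Or.inr (Or.inr (Or.inl ⟨rfl, e7⟩))⟩)
    · have e5 : ([app B (S △ .nil)]) ++ [pc d] = comps X ++ [.nil] := by
        rw [← e0]
        simp [hb]
      have e7 : X = app B (S △ .nil) △ .nil := by
        apply comps_inj
        rw [← (snoc_inj e5).1]
        simp [comps_app, comps_node, comps, comps_pc, hb]
      have hd0 : d = 0 := pc_z (snoc_inj e5).2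
      exact Or.inr (Or.inr ⟨hd0, Or.inr (Or.inr (Or.inr (Or.inr (Or.inr (Or.inl ⟨rfl, e7⟩)))))⟩)
    · have e5 : (B :: (comps S ++ [.nil])) ++ [pc d] = comps X ++ [.nil] := by
        rw [← e0]
        simp [hb]
      have e7 : X = B △ app S (.nil △ .nil) := by
        apply comps_inj
        rw [← (snoc_inj e5).1]
        simp [comps_app, comps_node, comps, comps_pc, hb]
      have hd0 : d = 0 := pc_z (snoc_inj e5).2
      exact Or.inr (Or.inr ⟨hd0, Or.inr (Or.inr (Or.inr (Or.inr (Or.inr (Or.inr (Or.inl ⟨rfl, e7⟩))))))⟩)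

theorem aw_E2 (h : A0D d R B S) {i : ℕ} (hi : i < 20) (hX : X ≠ .nil) (e : aw R (pc (d + 1)) B S i = w1 .nil .nil X) :
    (((i = 1 ∨ i = 2 ∨ i = 3) ∧ X = app (pc (d + 1)) (.nil △ R)) ∨
      (B = .nil ∧ (i = 11 ∨ i = 14 ∨ i = 18) ∧ X = app S (.nil △ pc (d + 1))) ∨
      (d = 0 ∧ ((i = 2 ∧ X = .nil △ app R (.nil △ .nil)) ∨ (i = 7 ∧ X = app R (.nil △ .nil) △ .nil) ∨
        (i = 8 ∧ X = R △ (.nil △ .nil)) ∨ (i = 9 ∧ X = (R △ .nil) △ .nil) ∨
        (i = 12 ∧ X = .nil △ app B (S △ .nil)) ∨ (i = 17 ∧ X = app B (S △ .nil) △ .nil) ∨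
        (i = 18 ∧ X = B △ app S (.nil △ .nil)) ∨ (i = 19 ∧ X = (B △ S) △ .nil)))) := by
  obtain ⟨⟨r, R1, R2, r', hr, hr', hr0, hr0'⟩, ⟨s, S1, S2, s', hs, hs', hs0, hs0'⟩, hB⟩ := h.dat
  have hr1 := lo_ne_nil hr0
  have hr1' := lo_ne_nil hr0'
  have hs1 := lo_ne_nil hs0
  have hs1' := lo_ne_nil hs0'
  have hr2 : r ≠ .nil △ .nil := lo_ne_pc hr0 (show 1 < d + 2 by omega)
  have hr2' : r' ≠ .nil △ .nil := lo_ne_pc hr0' (show 1 < d + 2 by omega)
  have hs2 : s ≠ .nil △ .nil := lo_ne_pc hs0 (show 1 < d + 2 by omega)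
  have hs2' : s' ≠ .nil △ .nil := lo_ne_pc hs0' (show 1 < d + 2 by omega)
  have hRn := h.R_ne
  have hSn := h.S_ne
  have hRl := h.hv.ne_lf
  have hSl := h.hvS.ne_lf
  have hBl := h.hvB.ne_lf
  have hp0 : pc 0 = .nil := rfl
  have hp1 : pc 1 = .nil △ .nil := rfl
  have hp : ∀ n, pc (n + 1) ≠ .nil := fun n => pc_ne (by omega)
  have hp1' : ∀ n, BinaryTree.nil ≠ pc (n + 1) := fun n => (hp n).symm
  have ha : ∀ n (Y : BinaryTree Unit), app (pc (n + 1)) Y ≠ .nil := fun n Y => by rw [pc, app]; simp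
  have hXc := comps_ne hX
  have happ : ∀ P Y : BinaryTree Unit, app P (.nil △ Y) ≠ .nil := fun P Y => app_ne' (by simp)
  have happ2 : ∀ P : BinaryTree Unit, app P (S △ .nil) ≠ .nil := fun P => app_ne' (by simp)
  have e0 := congrArg comps e
  have e1 := congrArg comps e
  have e2 := congrArg (fun t => (comps t).reverse) e
  rcases hB with hB | ⟨b, B1, B2, b', hBn, hb, hb', hb0, hb0'⟩
  · have hb : comps B = [] := by rw [hB]; rfl
    interval_cases i <;>
    simp [aw, comps_w1, comps_node, comps_app, comps_pc, comps, hr, hs, hb, hr1, hs1, hr2, hs2, hp, hp0, hp1', hp1, hRn, hSn, hRl, hSl, hBl, ha, hX, hX.symm, hXc, happ, happ2] at e1 <;>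
    simp [aw, comps_w1, comps_node, comps_app, comps_pc, comps, hr', hs', hb, hr1', hs1', hr2', hs2', hp, hp0, hp1', hp1, hRn, hSn, hRl, hSl, hBl, ha, hX, hX.symm, hXc, happ, happ2] at e2 <;>
    simp only [aw, comps_w1, comps_node, comps_app, comps_pc, comps, List.nil_append, List.cons_append, List.append_assoc] at e0
    · have e5 : pc d :: .nil :: comps R = comps X := by
        have e4 := congrArg (fun l => l.tail) e0
        simpa [hb] using e4
      have e7 : X = app (pc (d + 1)) (.nil △ R) := by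
        apply comps_inj
        rw [← e5]
        simp [comps_app, comps_node, comps, comps_pc, hb]
      exact Or.inl ⟨by omega, e7⟩
    · have e5 : .nil :: (comps R ++ [.nil]) = comps X := by
        have e4 := congrArg (fun l => l.tail) e0
        simpa [hb] using e4
      have e7 : X = .nil △ app R (.nil △ .nil) := by
        apply comps_inj
        rw [← e5]
        simp [comps_app, comps_node, comps, comps_pc, hb]
      have hd0 : d = 0 := pc_z e1.1
      exact Or.inr (Or.inr ⟨hd0, Or.inl ⟨rfl, e7⟩⟩)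
    · have e5 : [R △ .nil] = comps X := by
        have e4 := congrArg (fun l => l.tail) e0
        simpa [hb] using e4
      have e7 : X = (R △ .nil) △ .nil := by
        apply comps_inj
        rw [← e5]
        simp [comps_app, comps_node, comps, comps_pc, hb]
      have hd0 : d = 0 := pc_z e1.1
      exact Or.inr (Or.inr ⟨hd0, Or.inr (Or.inr (Or.inr (Or.inl ⟨rfl, e7⟩)))⟩)
    · have e5 : .nil :: (comps B ++ [S]) = comps X := by
        have e4 := congrArg (fun l => l.tail) e0
        simpa [hb] using e4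
      have e7 : X = .nil △ app B (S △ .nil) := by
        apply comps_inj
        rw [← e5]
        simp [comps_app, comps_node, comps, comps_pc, hb]
      have hd0 : d = 0 := pc_z e1.1
      exact Or.inr (Or.inr ⟨hd0, Or.inr (Or.inr (Or.inr (Or.inr (Or.inl ⟨rfl, e7⟩))))⟩)
    · have e5 : comps S ++ [.nil, pc d] = comps X := by
        have e4 := congrArg (fun l => l.tail) e0
        simpa [hb] using e4
      have e7 : X = app S (.nil △ pc (d + 1)) := by
        apply comps_inj
        rw [← e5]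
        simp [comps_app, comps_node, comps, comps_pc, hb]
      exact Or.inr (Or.inl ⟨hB, by omega, e7⟩)
    · have e5 : [B △ S] = comps X := by
        have e4 := congrArg (fun l => l.tail) e0
        simpa [hb] using e4
      have e7 : X = (B △ S) △ .nil := by
        apply comps_inj
        rw [← e5]
        simp [comps_app, comps_node, comps, comps_pc, hb]
      have hd0 : d = 0 := pc_z e1.1
      exact Or.inr (Or.inr ⟨hd0, Or.inr (Or.inr (Or.inr (Or.inr (Or.inr (Or.inr (Or.inr (⟨rfl, e7⟩)))))))⟩)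
  · have hb1 := lo_ne_nil hb0
    have hb1' := lo_ne_nil hb0'
    have hb2 : b ≠ .nil △ .nil := lo_ne_pc hb0 (show 1 < d + 2 by omega)
    have hb2' : b' ≠ .nil △ .nil := lo_ne_pc hb0' (show 1 < d + 2 by omega)
    interval_cases i <;>
    simp [aw, comps_w1, comps_node, comps_app, comps_pc, comps, hr, hs, hb, hr1, hs1, hb1, hr2, hs2, hb2, hBn, hp, hp0, hp1', hp1, hRn, hSn, hRl, hSl, hBl, ha, hX, hX.symm, hXc, happ, happ2] at e1 <;>
    simp [aw, comps_w1, comps_node, comps_app, comps_pc, comps, hr', hs', hb', hr1', hs1', hb1', hr2', hs2', hb2', hBn, hp, hp0, hp1', hp1, hRn, hSn, hRl, hSl, hBl, ha, hX, hX.symm, hXc, happ, happ2] at e2 <;>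
    simp only [aw, comps_w1, comps_node, comps_app, comps_pc, comps, List.nil_append, List.cons_append, List.append_assoc] at e0
    · have e5 : pc d :: .nil :: comps R = comps X := by
        have e4 := congrArg (fun l => l.tail) e0
        simpa [hb] using e4
      have e7 : X = app (pc (d + 1)) (.nil △ R) := by
        apply comps_inj
        rw [← e5]
        simp [comps_app, comps_node, comps, comps_pc, hb]
      exact Or.inl ⟨by omega, e7⟩
    · have e5 : .nil :: (comps R ++ [.nil]) = comps X := by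
        have e4 := congrArg (fun l => l.tail) e0
        simpa [hb] using e4
      have e7 : X = .nil △ app R (.nil △ .nil) := by
        apply comps_inj
        rw [← e5]
        simp [comps_app, comps_node, comps, comps_pc, hb]
      have hd0 : d = 0 := pc_z e1.1
      exact Or.inr (Or.inr ⟨hd0, Or.inl ⟨rfl, e7⟩⟩)
    · have e5 : [R △ .nil] = comps X := by
        have e4 := congrArg (fun l => l.tail) e0
        simpa [hb] using e4
      have e7 : X = (R △ .nil) △ .nil := by
        apply comps_inj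
        rw [← e5]
        simp [comps_app, comps_node, comps, comps_pc, hb]
      have hd0 : d = 0 := pc_z e1.1
      exact Or.inr (Or.inr ⟨hd0, Or.inr (Or.inr (Or.inr (Or.inl ⟨rfl, e7⟩)))⟩)
    · have e5 : .nil :: (comps B ++ [S]) = comps X := by
        have e4 := congrArg (fun l => l.tail) e0
        simpa [hb] using e4
      have e7 : X = .nil △ app B (S △ .nil) := by
        apply comps_inj
        rw [← e5]
        simp [comps_app, comps_node, comps, comps_pc, hb]
      have hd0 : d = 0 := pc_z e1.1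
      exact Or.inr (Or.inr ⟨hd0, Or.inr (Or.inr (Or.inr (Or.inr (Or.inl ⟨rfl, e7⟩))))⟩)
    · have e5 : [B △ S] = comps X := by
        have e4 := congrArg (fun l => l.tail) e0
        simpa [hb] using e4
      have e7 : X = (B △ S) △ .nil := by
        apply comps_inj
        rw [← e5]
        simp [comps_app, comps_node, comps, comps_pc, hb]
      have hd0 : d = 0 := pc_z e1.1
      exact Or.inr (Or.inr ⟨hd0, Or.inr (Or.inr (Or.inr (Or.inr (Or.inr (Or.inr (Or.inr (⟨rfl, e7⟩)))))))⟩)

end Pool.OddHC
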