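import Pool.Agent.Work.MP_8f87b2_h13.A0Plain
set_option autoImplicit false
set_option linter.all false
namespace Pool.OddHC
open Finset Equiv BinaryTree Pool.Agent.Work.MP_8f87b2_co HM
variable {k : ℕ} {F F' : Set (Cyc k)} {g g' : DG k} {d : ℕ} {R B S X U V : BinaryTree Unit}

/-- no smallest soliton equal to a trivial component -/
theorem Hv.ne_lf {X : BinaryTree Unit} (h : Hv d X) : X ≠ .nil △ .nil := by
  rintro rfl
  have h1 := h.fs (by simp)
  rw [fs_node, lo_nil] at h1
  omega


theorem snoc_inj {α : Type*} {L L' : List α} {y y' : α} (h : L ++ [y] = L' ++ [y']) : L = L' ∧ y = y' := by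
  have h1 := congrArg List.reverse h
  simp only [List.reverse_append, List.reverse_cons, List.reverse_nil, List.nil_append,
    List.cons_append, List.cons.injEq, List.reverse_inj] at h1
  exact ⟨h1.2, h1.1⟩

theorem pc_z {n : ℕ} (h : pc n = .nil) : n = 0 := by
  by_contra h1
  exact pc_ne (by omega) h

theorem pc_o {n : ℕ} (h : pc n = .nil △ .nil) : n = 1 := by
  cases n with
  | zero => exact absurd h (by simp [pc])
  | succ n =>
    have h1 : pc n = .nil := by
      have h2 : pc n △ .nil = .nil △ .nil := h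
      injection h2
    rw [pc_z h1]

theorem aw_K (h : A0D d R B S) {i : ℕ} (hi : i < 20) (hU : U ≠ .nil) (e : aw R (pc (d + 1)) B S i = w1 .nil U (pc 1)) :
    (d = 0 ∧ (U = app R (.nil △ .nil) ∨ U = app B (S △ .nil) ∨ U = .nil △ R)) ∨
      (d = 1 ∧ (U = app R (.nil △ .nil) △ .nil ∨ U = R △ (.nil △ .nil) ∨ U = app B (S △ .nil) △ .nil ∨
        U = B △ app S (.nil △ .nil))) := by
  obtain ⟨⟨r, R1, R2, r', hr, hr', hr0, hr0'⟩, ⟨s, S1, S2, s', hs, hs', hs0, hs0'⟩, hB⟩ := h.dat
  have hr1 := lo_ne_nil hr0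
  have hr1' := lo_ne_nil hr0'
  have hs1 := lo_ne_nil hs0
  have hs1' := lo_ne_nil hs0'
  have hr2 : r ≠ .nil △ .nil := lo_ne_pc hr0 (show 1 < d + 2 by omega)
  have hr2' : r' ≠ .nil △ .nil := lo_ne_pc hr0' (show 1 < d + 2 by omega)
  have hs2 : s ≠ .nil △ .nil := lo_ne_pc hs0 (show 1 < d + 2 by omega)
  have hs2' : s' ≠ .nil △ .nil := lo_ne_pc hs0' (show 1 < d + 2 by omega)
  have hRn := h.R_ne
  have hSn := h.S_ne
  have hRl := h.hv.ne_lf
  have hSl := h.hvS.ne_lf
  have hBl := h.hvB.ne_lf
  have hp0 : pc 0 = .nil := rfl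
  have hp1 : pc 1 = .nil △ .nil := rfl
  have hp : ∀ n, pc (n + 1) ≠ .nil := fun n => pc_ne (by omega)
  have hp1' : ∀ n, BinaryTree.nil ≠ pc (n + 1) := fun n => (hp n).symm
  have ha : ∀ n (Y : BinaryTree Unit), app (pc (n + 1)) Y ≠ .nil := fun n Y => by rw [pc, app]; simp
  have hUc := comps_ne hU
  have happ : ∀ P Y : BinaryTree Unit, app P (.nil △ Y) ≠ .nil := fun P Y => app_ne' (by simp)
  have e0 := congrArg comps e
  have e1 := congrArg comps e
  have e2 := congrArg (fun t => (comps t).reverse) e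
  rcases hB with hB | ⟨b, B1, B2, b', hBn, hb, hb', hb0, hb0'⟩
  · have hb : comps B = [] := by rw [hB]; rfl
    interval_cases i <;>
    simp [aw, comps_w1, comps_node, comps_app, comps_pc, comps, hr, hs, hb, hr1, hs1, hr2, hs2, hp, hp0, hp1', hp1, hRn, hSn, hRl, hSl, hBl, ha, hU, hU.symm, hUc, happ] at e1 <;>
    simp [aw, comps_w1, comps_node, comps_app, comps_pc, comps, hr', hs', hb, hr1', hs1', hr2', hs2', hp, hp0, hp1', hp1, hRn, hSn, hRl, hSl, hBl, ha, hU, hU.symm, hUc, happ] at e2 <;>
    simp only [aw, comps_w1, comps_node, comps_app, comps_pc, comps, List.nil_append, List.cons_append, List.append_assoc] at e0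
    · exact Or.inl ⟨pc_z e1.2, Or.inl e1.1.symm⟩
    · exact Or.inl ⟨pc_z e1.2, Or.inr (Or.inl e1.1.symm)⟩
  · have hb1 := lo_ne_nil hb0
    have hb1' := lo_ne_nil hb0'
    have hb2 : b ≠ .nil △ .nil := lo_ne_pc hb0 (show 1 < d + 2 by omega)
    have hb2' : b' ≠ .nil △ .nil := lo_ne_pc hb0' (show 1 < d + 2 by omega)
    interval_cases i <;>
    simp [aw, comps_w1, comps_node, comps_app, comps_pc, comps, hr, hs, hb, hr1, hs1, hb1, hr2, hs2, hb2, hBn, hp, hp0, hp1', hp1, hRn, hSn, hRl, hSl, hBl, ha, hU, hU.symm, hUc, happ] at e1 <;>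
    simp [aw, comps_w1, comps_node, comps_app, comps_pc, comps, hr', hs', hb', hr1', hs1', hb1', hr2', hs2', hb2', hBn, hp, hp0, hp1', hp1, hRn, hSn, hRl, hSl, hBl, ha, hU, hU.symm, hUc, happ] at e2 <;>
    simp only [aw, comps_w1, comps_node, comps_app, comps_pc, comps, List.nil_append, List.cons_append, List.append_assoc] at e0
    · exact Or.inl ⟨pc_z e1.2, Or.inl e1.1.symm⟩
    · exact Or.inl ⟨pc_z e1.2, Or.inr (Or.inl e1.1.symm)⟩

theorem aw_K1 (h : A0D d R B S) {i : ℕ} (hi : i < 20) (hU : U ≠ .nil) (e : aw R (pc (d + 1)) B S i = w1 U (pc 1) .nil) :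
    (d = 0 ∧ (U = app R (.nil △ .nil) ∨ U = app B (S △ .nil) ∨ U = .nil △ R)) ∨
      (d = 1 ∧ (U = app R (.nil △ .nil) △ .nil ∨ U = R △ (.nil △ .nil) ∨ U = app B (S △ .nil) △ .nil ∨
        U = B △ app S (.nil △ .nil))) := by
  obtain ⟨⟨r, R1, R2, r', hr, hr', hr0, hr0'⟩, ⟨s, S1, S2, s', hs, hs', hs0, hs0'⟩, hB⟩ := h.dat
  have hr1 := lo_ne_nil hr0
  have hr1' := lo_ne_nil hr0'
  have hs1 := lo_ne_nil hs0
  have hs1' := lo_ne_nil hs0'
  have hr2 : r ≠ .nil △ .nil := lo_ne_pc hr0 (show 1 < d + 2 by omega)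
  have hr2' : r' ≠ .nil △ .nil := lo_ne_pc hr0' (show 1 < d + 2 by omega)
  have hs2 : s ≠ .nil △ .nil := lo_ne_pc hs0 (show 1 < d + 2 by omega)
  have hs2' : s' ≠ .nil △ .nil := lo_ne_pc hs0' (show 1 < d + 2 by omega)
  have hRn := h.R_ne
  have hSn := h.S_ne
  have hRl := h.hv.ne_lf
  have hSl := h.hvS.ne_lf
  have hBl := h.hvB.ne_lf
  have hp0 : pc 0 = .nil := rfl
  have hp1 : pc 1 = .nil △ .nil := rfl
  have hp : ∀ n, pc (n + 1) ≠ .nil := fun n => pc_ne (by omega)
  have hp1' : ∀ n, BinaryTree.nil ≠ pc (n + 1) := fun n => (hp n).symm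
  have ha : ∀ n (Y : BinaryTree Unit), app (pc (n + 1)) Y ≠ .nil := fun n Y => by rw [pc, app]; simp
  have hUc := comps_ne hU
  have happ : ∀ P Y : BinaryTree Unit, app P (.nil △ Y) ≠ .nil := fun P Y => app_ne' (by simp)
  have e0 := congrArg comps e
  have e1 := congrArg comps e
  have e2 := congrArg (fun t => (comps t).reverse) e
  rcases hB with hB | ⟨b, B1, B2, b', hBn, hb, hb', hb0, hb0'⟩
  · have hb : comps B = [] := by rw [hB]; rfl
    interval_cases i <;>
    simp [aw, comps_w1, comps_node, comps_app, comps_pc, comps, hr, hs, hb, hr1, hs1, hr2, hs2, hp, hp0, hp1', hp1, hRn, hSn, hRl, hSl, hBl, ha, hU, hU.symm, hUc, happ] at e1 <;>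
    simp [aw, comps_w1, comps_node, comps_app, comps_pc, comps, hr', hs', hb, hr1', hs1', hr2', hs2', hp, hp0, hp1', hp1, hRn, hSn, hRl, hSl, hBl, ha, hU, hU.symm, hUc, happ] at e2 <;>
    simp only [aw, comps_w1, comps_node, comps_app, comps_pc, comps, List.nil_append, List.cons_append, List.append_assoc] at e0
    · have e5 : (comps R ++ [.nil]) ++ [pc (d + 1)] = comps U ++ [pc 1] := by
        rw [← e0]
        simp
      have e6 : comps U = comps (app R (.nil △ .nil)) := by
        rw [← (snoc_inj e5).1]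
        simp [comps_app, comps_node, comps]
      have e7 : U = app R (.nil △ .nil) := comps_inj e6
      have e8 : pc (d + 1) = pc 1 := (snoc_inj e5).2
      have e9 := pc_o e8
      exact Or.inl ⟨by omega, Or.inl e7⟩
    · have e5 : ([app R (.nil △ .nil)]) ++ [pc d] = comps U ++ [pc 1] := by
        rw [← e0]
        simp
      have e6 : comps U = comps (app R (.nil △ .nil) △ .nil) := by
        rw [← (snoc_inj e5).1]
        simp [comps_app, comps_node, comps]
      have e7 : U = app R (.nil △ .nil) △ .nil := comps_inj e6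
      have e8 : pc d = pc 1 := (snoc_inj e5).2
      exact Or.inr ⟨pc_o e8, Or.inl e7⟩
    · have e5 : ([R, .nil]) ++ [pc d] = comps U ++ [pc 1] := by
        rw [← e0]
        simp
      have e6 : comps U = comps (R △ (.nil △ .nil)) := by
        rw [← (snoc_inj e5).1]
        simp [comps_app, comps_node, comps]
      have e7 : U = R △ (.nil △ .nil) := comps_inj e6
      have e8 : pc d = pc 1 := (snoc_inj e5).2
      exact Or.inr ⟨pc_o e8, Or.inr (Or.inl e7)⟩
    · have e5 : (comps B ++ [S]) ++ [pc (d + 1)] = comps U ++ [pc 1] := by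
        rw [← e0]
        simp
      have e6 : comps U = comps (app B (S △ .nil)) := by
        rw [← (snoc_inj e5).1]
        simp [comps_app, comps_node, comps]
      have e7 : U = app B (S △ .nil) := comps_inj e6
      have e8 : pc (d + 1) = pc 1 := (snoc_inj e5).2
      have e9 := pc_o e8
      exact Or.inl ⟨by omega, Or.inr (Or.inl e7)⟩
    · have e5 : ([app B (S △ .nil)]) ++ [pc d] = comps U ++ [pc 1] := by
        rw [← e0]
        simp
      have e6 : comps U = comps (app B (S △ .nil) △ .nil) := by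
        rw [← (snoc_inj e5).1]
        simp [comps_app, comps_node, comps]
      have e7 : U = app B (S △ .nil) △ .nil := comps_inj e6
      have e8 : pc d = pc 1 := (snoc_inj e5).2
      exact Or.inr ⟨pc_o e8, Or.inr (Or.inr (Or.inl e7))⟩
    · have e5 : (B :: (comps S ++ [.nil])) ++ [pc d] = comps U ++ [pc 1] := by
        rw [← e0]
        simp
      have e6 : comps U = comps (B △ app S (.nil △ .nil)) := by
        rw [← (snoc_inj e5).1]
        simp [comps_app, comps_node, comps]
      have e7 : U = B △ app S (.nil △ .nil) := comps_inj e6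
      have e8 : pc d = pc 1 := (snoc_inj e5).2
      exact Or.inr ⟨pc_o e8, Or.inr (Or.inr (Or.inr e7))⟩
  · have hb1 := lo_ne_nil hb0
    have hb1' := lo_ne_nil hb0'
    have hb2 : b ≠ .nil △ .nil := lo_ne_pc hb0 (show 1 < d + 2 by omega)
    have hb2' : b' ≠ .nil △ .nil := lo_ne_pc hb0' (show 1 < d + 2 by omega)
    interval_cases i <;>
    simp [aw, comps_w1, comps_node, comps_app, comps_pc, comps, hr, hs, hb, hr1, hs1, hb1, hr2, hs2, hb2, hBn, hp, hp0, hp1', hp1, hRn, hSn, hRl, hSl, hBl, ha, hU, hU.symm, hUc, happ] at e1 <;>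
    simp [aw, comps_w1, comps_node, comps_app, comps_pc, comps, hr', hs', hb', hr1', hs1', hb1', hr2', hs2', hb2', hBn, hp, hp0, hp1', hp1, hRn, hSn, hRl, hSl, hBl, ha, hU, hU.symm, hUc, happ] at e2 <;>
    simp only [aw, comps_w1, comps_node, comps_app, comps_pc, comps, List.nil_append, List.cons_append, List.append_assoc] at e0
    · have e5 : (comps R ++ [.nil]) ++ [pc (d + 1)] = comps U ++ [pc 1] := by
        rw [← e0]
        simp
      have e6 : comps U = comps (app R (.nil △ .nil)) := by
        rw [← (snoc_inj e5).1]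
        simp [comps_app, comps_node, comps]
      have e7 : U = app R (.nil △ .nil) := comps_inj e6
      have e8 : pc (d + 1) = pc 1 := (snoc_inj e5).2
      have e9 := pc_o e8
      exact Or.inl ⟨by omega, Or.inl e7⟩
    · have e5 : ([app R (.nil △ .nil)]) ++ [pc d] = comps U ++ [pc 1] := by
        rw [← e0]
        simp
      have e6 : comps U = comps (app R (.nil △ .nil) △ .nil) := by
        rw [← (snoc_inj e5).1]
        simp [comps_app, comps_node, comps]
      have e7 : U = app R (.nil △ .nil) △ .nil := comps_inj e6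
      have e8 : pc d = pc 1 := (snoc_inj e5).2
      exact Or.inr ⟨pc_o e8, Or.inl e7⟩
    · have e5 : ([R, .nil]) ++ [pc d] = comps U ++ [pc 1] := by
        rw [← e0]
        simp
      have e6 : comps U = comps (R △ (.nil △ .nil)) := by
        rw [← (snoc_inj e5).1]
        simp [comps_app, comps_node, comps]
      have e7 : U = R △ (.nil △ .nil) := comps_inj e6
      have e8 : pc d = pc 1 := (snoc_inj e5).2
      exact Or.inr ⟨pc_o e8, Or.inr (Or.inl e7)⟩
    · exfalso
      have e5 := e2.1
      cases S with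
      | nil => exact hSn rfl
      | node _ A C =>
        have e6 := congrArg OddHC.fs e5
        exact h.hvS.fs_ne hSn e6
    · have e5 : (comps B ++ [S]) ++ [pc (d + 1)] = comps U ++ [pc 1] := by
        rw [← e0]
        simp
      have e6 : comps U = comps (app B (S △ .nil)) := by
        rw [← (snoc_inj e5).1]
        simp [comps_app, comps_node, comps]
      have e7 : U = app B (S △ .nil) := comps_inj e6
      have e8 : pc (d + 1) = pc 1 := (snoc_inj e5).2
      have e9 := pc_o e8
      exact Or.inl ⟨by omega, Or.inr (Or.inl e7)⟩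
    · have e5 : ([app B (S △ .nil)]) ++ [pc d] = comps U ++ [pc 1] := by
        rw [← e0]
        simp
      have e6 : comps U = comps (app B (S △ .nil) △ .nil) := by
        rw [← (snoc_inj e5).1]
        simp [comps_app, comps_node, comps]
      have e7 : U = app B (S △ .nil) △ .nil := comps_inj e6
      have e8 : pc d = pc 1 := (snoc_inj e5).2
      exact Or.inr ⟨pc_o e8, Or.inr (Or.inr (Or.inl e7))⟩
    · have e5 : (B :: (comps S ++ [.nil])) ++ [pc d] = comps U ++ [pc 1] := by
        rw [← e0]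
        simp
      have e6 : comps U = comps (B △ app S (.nil △ .nil)) := by
        rw [← (snoc_inj e5).1]
        simp [comps_app, comps_node, comps]
      have e7 : U = B △ app S (.nil △ .nil) := comps_inj e6
      have e8 : pc d = pc 1 := (snoc_inj e5).2
      exact Or.inr ⟨pc_o e8, Or.inr (Or.inr (Or.inr e7))⟩

theorem aw_K2 (h : A0D d R B S) {i : ℕ} (hi : i < 20) (hU : U ≠ .nil) (e : aw R (pc (d + 1)) B S i = w1 (pc 1) .nil U) :
    (d = 0 ∧ (U = app R (.nil △ .nil) ∨ U = app B (S △ .nil) ∨ U = .nil △ R)) ∨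
      (d = 1 ∧ (U = app R (.nil △ .nil) △ .nil ∨ U = R △ (.nil △ .nil) ∨ U = app B (S △ .nil) △ .nil ∨
        U = B △ app S (.nil △ .nil))) := by
  obtain ⟨⟨r, R1, R2, r', hr, hr', hr0, hr0'⟩, ⟨s, S1, S2, s', hs, hs', hs0, hs0'⟩, hB⟩ := h.dat
  have hr1 := lo_ne_nil hr0
  have hr1' := lo_ne_nil hr0'
  have hs1 := lo_ne_nil hs0
  have hs1' := lo_ne_nil hs0'
  have hr2 : r ≠ .nil △ .nil := lo_ne_pc hr0 (show 1 < d + 2 by omega)
  have hr2' : r' ≠ .nil △ .nil := lo_ne_pc hr0' (show 1 < d + 2 by omega)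
  have hs2 : s ≠ .nil △ .nil := lo_ne_pc hs0 (show 1 < d + 2 by omega)
  have hs2' : s' ≠ .nil △ .nil := lo_ne_pc hs0' (show 1 < d + 2 by omega)
  have hRn := h.R_ne
  have hSn := h.S_ne
  have hRl := h.hv.ne_lf
  have hSl := h.hvS.ne_lf
  have hBl := h.hvB.ne_lf
  have hp0 : pc 0 = .nil := rfl
  have hp1 : pc 1 = .nil △ .nil := rfl
  have hp : ∀ n, pc (n + 1) ≠ .nil := fun n => pc_ne (by omega)
  have hp1' : ∀ n, BinaryTree.nil ≠ pc (n + 1) := fun n => (hp n).symm
  have ha : ∀ n (Y : BinaryTree Unit), app (pc (n + 1)) Y ≠ .nil := fun n Y => by rw [pc, app]; simp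
  have hUc := comps_ne hU
  have happ : ∀ P Y : BinaryTree Unit, app P (.nil △ Y) ≠ .nil := fun P Y => app_ne' (by simp)
  have e0 := congrArg comps e
  have e1 := congrArg comps e
  have e2 := congrArg (fun t => (comps t).reverse) e
  rcases hB with hB | ⟨b, B1, B2, b', hBn, hb, hb', hb0, hb0'⟩
  · have hb : comps B = [] := by rw [hB]; rfl
    interval_cases i <;>
    simp [aw, comps_w1, comps_node, comps_app, comps_pc, comps, hr, hs, hb, hr1, hs1, hr2, hs2, hp, hp0, hp1', hp1, hRn, hSn, hRl, hSl, hBl, ha, hU, hU.symm, hUc, happ] at e1 <;>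
    simp [aw, comps_w1, comps_node, comps_app, comps_pc, comps, hr', hs', hb, hr1', hs1', hr2', hs2', hp, hp0, hp1', hp1, hRn, hSn, hRl, hSl, hBl, ha, hU, hU.symm, hUc, happ] at e2 <;>
    simp only [aw, comps_w1, comps_node, comps_app, comps_pc, comps, List.nil_append, List.cons_append, List.append_assoc] at e0
    · have e5 : comps U = .nil :: comps R := by
        have e4 := congrArg (fun l => l.tail.tail) e0
        exact e4.symm
      have e7 : U = .nil △ R := by
        apply comps_inj
        rw [e5]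
        simp [comps_app, comps_node, comps]
      exact Or.inl ⟨pc_z e1.1, Or.inr (Or.inr e7)⟩
    · have e5 : comps U = comps R ++ [.nil] := by
        have e4 := congrArg (fun l => l.tail.tail) e0
        exact e4.symm
      have e7 : U = app R (.nil △ .nil) := by
        apply comps_inj
        rw [e5]
        simp [comps_app, comps_node, comps]
      exact Or.inl ⟨pc_z e1.1, Or.inl e7⟩
    · have e5 : comps U = comps B ++ [S] := by
        have e4 := congrArg (fun l => l.tail.tail) e0
        exact e4.symm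
      have e7 : U = app B (S △ .nil) := by
        apply comps_inj
        rw [e5]
        simp [comps_app, comps_node, comps]
      exact Or.inl ⟨pc_z e1.1, Or.inr (Or.inl e7)⟩
  · have hb1 := lo_ne_nil hb0
    have hb1' := lo_ne_nil hb0'
    have hb2 : b ≠ .nil △ .nil := lo_ne_pc hb0 (show 1 < d + 2 by omega)
    have hb2' : b' ≠ .nil △ .nil := lo_ne_pc hb0' (show 1 < d + 2 by omega)
    interval_cases i <;>
    simp [aw, comps_w1, comps_node, comps_app, comps_pc, comps, hr, hs, hb, hr1, hs1, hb1, hr2, hs2, hb2, hBn, hp, hp0, hp1', hp1, hRn, hSn, hRl, hSl, hBl, ha, hU, hU.symm, hUc, happ] at e1 <;>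
    simp [aw, comps_w1, comps_node, comps_app, comps_pc, comps, hr', hs', hb', hr1', hs1', hb1', hr2', hs2', hb2', hBn, hp, hp0, hp1', hp1, hRn, hSn, hRl, hSl, hBl, ha, hU, hU.symm, hUc, happ] at e2 <;>
    simp only [aw, comps_w1, comps_node, comps_app, comps_pc, comps, List.nil_append, List.cons_append, List.append_assoc] at e0
    · have e5 : comps U = .nil :: comps R := by
        have e4 := congrArg (fun l => l.tail.tail) e0
        exact e4.symm
      have e7 : U = .nil △ R := by
        apply comps_inj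
        rw [e5]
        simp [comps_app, comps_node, comps]
      exact Or.inl ⟨pc_z e1.1, Or.inr (Or.inr e7)⟩
    · have e5 : comps U = comps R ++ [.nil] := by
        have e4 := congrArg (fun l => l.tail.tail) e0
        exact e4.symm
      have e7 : U = app R (.nil △ .nil) := by
        apply comps_inj
        rw [e5]
        simp [comps_app, comps_node, comps]
      exact Or.inl ⟨pc_z e1.1, Or.inl e7⟩
    · have e5 : comps U = comps B ++ [S] := by
        have e4 := congrArg (fun l => l.tail.tail) e0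
        exact e4.symm
      have e7 : U = app B (S △ .nil) := by
        apply comps_inj
        rw [e5]
        simp [comps_app, comps_node, comps]
      exact Or.inl ⟨pc_z e1.1, Or.inr (Or.inl e7)⟩

end Pool.OddHC
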