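import Pool.Agent.Work.MP_8f87b2_h60.TyA0
import Pool.Agent.Work.MP_8f87b2_mid.DisC

/-!
# MP_8f87b2_co: words of the mirrored bead free windows (A0) against the plain triples
-/

set_option autoImplicit false
set_option linter.all false

namespace Pool.OddHC

open Finset Equiv BinaryTree Pool.Agent.Work.MP_8f87b2_co HM

variable {k : ℕ} {F F' : Set (Cyc k)} {g g' : DG k}

/-- first component of a heavy word -/
theorem Hv.cons {d : ℕ} {X : BinaryTree Unit} (h : Hv d X) (h0 : X ≠ .nil) :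
    ∃ a l, comps X = a :: l ∧ lo d a = 0 := by
  cases X with
  | nil => exact absurd rfl h0
  | node _ A B => exact ⟨A, comps B, rfl, h.fs h0⟩

/-- last component of a heavy word -/
theorem Hv.snoc {d : ℕ} {X : BinaryTree Unit} (h : Hv d X) (h0 : X ≠ .nil) :
    ∃ l a, comps X = l ++ [a] ∧ lo d a = 0 := by
  induction X with
  | nil => exact absurd rfl h0
  | node _ A B _ ih =>
    by_cases hB : B = .nil
    · subst hB
      exact ⟨[], A, rfl, h.fs h0⟩
    · obtain ⟨l, a, h1, h2⟩ := ih h.tl hB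
      exact ⟨A :: l, a, by rw [comps, h1]; rfl, h2⟩

theorem lo_ne_nil {d : ℕ} {a : BinaryTree Unit} (h : lo d a = 0) : a ≠ .nil := by
  rintro rfl
  rw [lo_nil] at h
  omega

theorem lo_ne_pc {d e : ℕ} {a : BinaryTree Unit} (h : lo d a = 0) (he : e < d + 2) : a ≠ pc e := by
  rintro rfl
  rw [lo_pc he] at h
  omega

theorem comps_pc (d : ℕ) : comps (pc (d + 1)) = [pc d] := rfl

theorem lastB_comps {X : BinaryTree Unit} {l : List (BinaryTree Unit)} (h : comps X = l ++ [.nil]) :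
    H1.lastB X = true := by
  induction X generalizing l with
  | nil => 
    have := congrArg List.length h
    simp [comps] at this
  | node _ A B _ ih =>
    cases l with
    | nil =>
      rw [comps, List.nil_append, List.cons.injEq] at h
      have h1 : B = .nil := comps_inj (h.2.trans rfl)
      rw [h.1, h1]
      rfl
    | cons b l =>
      rw [comps, List.cons_append, List.cons.injEq] at h
      have hB : B ≠ .nil := by
        rintro rfl
        have := congrArg List.length h.2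
        simp [comps] at this
      change H1.lastB (A △ B) = true
      rw [H1.lastB_cons hB]
      exact ih h.2

theorem fb_comps {X : BinaryTree Unit} {l : List (BinaryTree Unit)} (h : comps X = .nil :: l) :
    H1.fb X = true := by
  cases X with
  | nil => cases h
  | node _ A B =>
    rw [comps, List.cons.injEq] at h
    rw [h.1]
    rfl

variable {d : ℕ} {R B S X U V : BinaryTree Unit}

/-- the two-sided component data of `R`, `S`, `B` -/
theorem A0D.dat (h : A0D d R B S) :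
    (∃ r R1 R2 r', comps R = r :: R1 ∧ comps R = R2 ++ [r'] ∧ lo d r = 0 ∧ lo d r' = 0) ∧
    (∃ s S1 S2 s', comps S = s :: S1 ∧ comps S = S2 ++ [s'] ∧ lo d s = 0 ∧ lo d s' = 0) ∧
    (B = .nil ∨ ∃ b B1 B2 b', B ≠ .nil ∧ comps B = b :: B1 ∧ comps B = B2 ++ [b'] ∧ lo d b = 0 ∧ lo d b' = 0) := by
  obtain ⟨r, R1, hr, hr0⟩ := h.hv.cons h.R_ne
  obtain ⟨R2, r', hr', hr0'⟩ := h.hv.snoc h.R_ne
  obtain ⟨s, S1, hs, hs0⟩ := h.hvS.cons h.S_ne
  obtain ⟨S2, s', hs', hs0'⟩ := h.hvS.snoc h.S_ne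
  refine ⟨⟨r, R1, R2, r', hr, hr', hr0, hr0'⟩, ⟨s, S1, S2, s', hs, hs', hs0, hs0'⟩, ?_⟩
  by_cases hB : B = .nil
  · exact Or.inl hB
  · obtain ⟨b, B1, hb, hb0⟩ := h.hvB.cons hB
    obtain ⟨B2, b', hb', hb0'⟩ := h.hvB.snoc hB
    exact Or.inr ⟨b, B1, B2, b', hB, hb, hb', hb0, hb0'⟩

theorem aw_L (h : A0D d R B S) {i : ℕ} (hi : i < 20) (hX : X ≠ .nil) :
    aw R (pc (d + 1)) B S i ≠ w1 (lp 1) X (lp 1) := by
  intro e
  obtain ⟨⟨r, R1, R2, r', hr, hr', hr0, hr0'⟩, ⟨s, S1, S2, s', hs, hs', hs0, hs0'⟩, hB⟩ := h.dat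
  have hr1 := lo_ne_nil hr0
  have hr1' := lo_ne_nil hr0'
  have hs1 := lo_ne_nil hs0
  have hs1' := lo_ne_nil hs0'
  have hr2 := lo_ne_pc hr0 (show 1 < d + 2 by omega)
  have hr2' := lo_ne_pc hr0' (show 1 < d + 2 by omega)
  have hs2 := lo_ne_pc hs0 (show 1 < d + 2 by omega)
  have hs2' := lo_ne_pc hs0' (show 1 < d + 2 by omega)
  have hRn := h.R_ne
  have hSn := h.S_ne
  have hl1 : comps (lp 1) = [.nil] := rfl
  have hl2 : lp 1 = pc 1 := rfl
  have hp0 : pc 0 = .nil := rfl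
  have hp : ∀ n, pc (n + 1) ≠ .nil := fun n => pc_ne (by omega)
  have hp1' : BinaryTree.nil ≠ pc 1 := (hp 0).symm
  have ha : ∀ n (Y : BinaryTree Unit), app (pc (n + 1)) Y ≠ .nil := fun n Y => by rw [pc, app]; simp
  have hXc := comps_ne hX
  have e1 := congrArg comps e
  have e2 := congrArg (fun t => (comps t).reverse) e
  have e3 := congrArg (fun t => (comps t).length) e
  rcases hB with hB | ⟨b, B1, B2, b', hBn, hb, hb', hb0, hb0'⟩
  · have hb : comps B = [] := by rw [hB]; rfl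
    interval_cases i <;>
    simp [aw, comps_w1, comps_node, comps_app, comps_pc, comps, hr, hs, hb, hl1, hl2, hr1, hs1, hr2, hs2, hp, hp0, hp1', hRn, hSn, ha, hX, hX.symm, hXc] at e1 <;>
    simp [aw, comps_w1, comps_node, comps_app, comps_pc, comps, hr', hs', hb, hl1, hl2, hr1', hs1', hr2', hs2', hp, hp0, hp1', hRn, hSn, ha, hX, hX.symm, hXc] at e2
  · have hb1 := lo_ne_nil hb0
    have hb1' := lo_ne_nil hb0'
    have hb2 := lo_ne_pc hb0 (show 1 < d + 2 by omega)
    have hb2' := lo_ne_pc hb0' (show 1 < d + 2 by omega)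
    interval_cases i <;>
    simp [aw, comps_w1, comps_node, comps_app, comps_pc, comps, hr, hs, hb, hl1, hl2, hr1, hs1, hb1, hr2, hs2, hb2, hBn, hp, hp0, hp1', hRn, hSn, ha, hX, hX.symm, hXc] at e1 <;>
    simp [aw, comps_w1, comps_node, comps_app, comps_pc, comps, hr', hs', hb', hl1, hl2, hr1', hs1', hb1', hr2', hs2', hb2', hBn, hp, hp0, hp1', hRn, hSn, ha, hX, hX.symm, hXc] at e2

theorem aw_L1 (h : A0D d R B S) {i : ℕ} (hi : i < 20) (hX : X ≠ .nil) (hl : H1.lastB X = false) :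
    aw R (pc (d + 1)) B S i ≠ w1 X (lp 1) (lp 1) := by
  intro e
  obtain ⟨⟨r, R1, R2, r', hr, hr', hr0, hr0'⟩, ⟨s, S1, S2, s', hs, hs', hs0, hs0'⟩, hB⟩ := h.dat
  have hr1 := lo_ne_nil hr0
  have hr1' := lo_ne_nil hr0'
  have hs1 := lo_ne_nil hs0
  have hs1' := lo_ne_nil hs0'
  have hr2 := lo_ne_pc hr0 (show 1 < d + 2 by omega)
  have hr2' := lo_ne_pc hr0' (show 1 < d + 2 by omega)
  have hs2 := lo_ne_pc hs0 (show 1 < d + 2 by omega)
  have hs2' := lo_ne_pc hs0' (show 1 < d + 2 by omega)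
  have hRn := h.R_ne
  have hSn := h.S_ne
  have hl1 : comps (lp 1) = [.nil] := rfl
  have hl2 : lp 1 = pc 1 := rfl
  have hp0 : pc 0 = .nil := rfl
  have hp : ∀ n, pc (n + 1) ≠ .nil := fun n => pc_ne (by omega)
  have hp1' : BinaryTree.nil ≠ pc 1 := (hp 0).symm
  have ha : ∀ n (Y : BinaryTree Unit), app (pc (n + 1)) Y ≠ .nil := fun n Y => by rw [pc, app]; simp
  have hXc := comps_ne hX
  have e1 := congrArg comps e
  have e2 := congrArg (fun t => (comps t).reverse) e
  have e3 := congrArg (fun t => (comps t).length) e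
  rcases hB with hB | ⟨b, B1, B2, b', hBn, hb, hb', hb0, hb0'⟩
  · have hb : comps B = [] := by rw [hB]; rfl
    interval_cases i <;>
    simp [aw, comps_w1, comps_node, comps_app, comps_pc, comps, hr, hs, hb, hl1, hl2, hr1, hs1, hr2, hs2, hp, hp0, hp1', hRn, hSn, ha, hX, hX.symm, hXc] at e1 <;>
    simp [aw, comps_w1, comps_node, comps_app, comps_pc, comps, hr', hs', hb, hl1, hl2, hr1', hs1', hr2', hs2', hp, hp0, hp1', hRn, hSn, ha, hX, hX.symm, hXc] at e2
    have e4 : comps X = (s' :: S2.reverse).reverse ++ [.nil] := by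
      have e5 := congrArg List.reverse e2.2
      rw [List.reverse_reverse] at e5
      rw [← e5, List.reverse_cons]
    rw [lastB_comps e4] at hl
    exact absurd hl (by simp)
  · have hb1 := lo_ne_nil hb0
    have hb1' := lo_ne_nil hb0'
    have hb2 := lo_ne_pc hb0 (show 1 < d + 2 by omega)
    have hb2' := lo_ne_pc hb0' (show 1 < d + 2 by omega)
    interval_cases i <;>
    simp [aw, comps_w1, comps_node, comps_app, comps_pc, comps, hr, hs, hb, hl1, hl2, hr1, hs1, hb1, hr2, hs2, hb2, hBn, hp, hp0, hp1', hRn, hSn, ha, hX, hX.symm, hXc] at e1 <;>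
    simp [aw, comps_w1, comps_node, comps_app, comps_pc, comps, hr', hs', hb', hl1, hl2, hr1', hs1', hb1', hr2', hs2', hb2', hBn, hp, hp0, hp1', hRn, hSn, ha, hX, hX.symm, hXc] at e2

theorem aw_L2 (h : A0D d R B S) {i : ℕ} (hi : i < 20) (hX : X ≠ .nil) (hf : H1.fb X = false) :
    aw R (pc (d + 1)) B S i ≠ w1 (lp 1) (lp 1) X := by
  intro e
  obtain ⟨⟨r, R1, R2, r', hr, hr', hr0, hr0'⟩, ⟨s, S1, S2, s', hs, hs', hs0, hs0'⟩, hB⟩ := h.dat
  have hr1 := lo_ne_nil hr0
  have hr1' := lo_ne_nil hr0'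
  have hs1 := lo_ne_nil hs0
  have hs1' := lo_ne_nil hs0'
  have hr2 := lo_ne_pc hr0 (show 1 < d + 2 by omega)
  have hr2' := lo_ne_pc hr0' (show 1 < d + 2 by omega)
  have hs2 := lo_ne_pc hs0 (show 1 < d + 2 by omega)
  have hs2' := lo_ne_pc hs0' (show 1 < d + 2 by omega)
  have hRn := h.R_ne
  have hSn := h.S_ne
  have hl1 : comps (lp 1) = [.nil] := rfl
  have hl2 : lp 1 = pc 1 := rfl
  have hp0 : pc 0 = .nil := rfl
  have hp : ∀ n, pc (n + 1) ≠ .nil := fun n => pc_ne (by omega)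
  have hp1' : BinaryTree.nil ≠ pc 1 := (hp 0).symm
  have ha : ∀ n (Y : BinaryTree Unit), app (pc (n + 1)) Y ≠ .nil := fun n Y => by rw [pc, app]; simp
  have hXc := comps_ne hX
  have e1 := congrArg comps e
  have e2 := congrArg (fun t => (comps t).reverse) e
  have e3 := congrArg (fun t => (comps t).length) e
  rcases hB with hB | ⟨b, B1, B2, b', hBn, hb, hb', hb0, hb0'⟩
  · have hb : comps B = [] := by rw [hB]; rfl
    interval_cases i <;>
    simp [aw, comps_w1, comps_node, comps_app, comps_pc, comps, hr, hs, hb, hl1, hl2, hr1, hs1, hr2, hs2, hp, hp0, hp1', hRn, hSn, ha, hX, hX.symm, hXc] at e1 <;>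
    simp [aw, comps_w1, comps_node, comps_app, comps_pc, comps, hr', hs', hb, hl1, hl2, hr1', hs1', hr2', hs2', hp, hp0, hp1', hRn, hSn, ha, hX, hX.symm, hXc] at e2
    rw [fb_comps e1.2.symm] at hf
    exact absurd hf (by simp)
  · have hb1 := lo_ne_nil hb0
    have hb1' := lo_ne_nil hb0'
    have hb2 := lo_ne_pc hb0 (show 1 < d + 2 by omega)
    have hb2' := lo_ne_pc hb0' (show 1 < d + 2 by omega)
    interval_cases i <;>
    simp [aw, comps_w1, comps_node, comps_app, comps_pc, comps, hr, hs, hb, hl1, hl2, hr1, hs1, hb1, hr2, hs2, hb2, hBn, hp, hp0, hp1', hRn, hSn, ha, hX, hX.symm, hXc] at e1 <;>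
    simp [aw, comps_w1, comps_node, comps_app, comps_pc, comps, hr', hs', hb', hl1, hl2, hr1', hs1', hb1', hr2', hs2', hb2', hBn, hp, hp0, hp1', hRn, hSn, ha, hX, hX.symm, hXc] at e2
    rw [fb_comps e1.2.symm] at hf
    exact absurd hf (by simp)

/-- **disjointness A0 - L** -/
theorem TyA0.disj_L (h : TyA0 F g) (h' : TyL F' g') : ∀ w ∈ g.B, w ∉ g'.B := by
  obtain ⟨q, R, B, S, w0, h1, hne, rfl, rfl⟩ := h
  obtain ⟨R', e, h2, h3, h4, h5, ht⟩ := h'
  have hX := ht2_ne (ht_ins_ge R' e h2)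
  intro w hw hw'
  obtain ⟨i, hi, rfl⟩ := mem_gad20M.1 hw
  rcases ht.words _ hw' with e1 | ⟨_, e1 | e1⟩ <;> rw [h1.word' w0 hi] at e1
  · exact aw_L h1.a0d hi hX e1
  · exact aw_L1 h1.a0d hi hX h5 e1
  · exact aw_L2 h1.a0d hi hX h4 e1



end Pool.OddHC
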