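import Pool.Agent.Work.MP_8f87b2_h71ae.AEG
import Pool.Agent.Work.MP_8f87b2_h13.A0Low
set_option autoImplicit false
set_option linter.all false

/-!
# MP_8f87b2_co: windows `NodeG` with a marker part `3` against the E triples

`ae_mark` (`q ≥ 1`), `ae_mark0` (`q = 0`): any `R`, `B`, `S` with `3 ≤ fh R` (the first component which is no bead is higher than
`[3]`). `NodeG.ae_mark`, `NodeG.ae_mark0`: the rows.
-/

namespace Pool.OddHC

open BinaryTree Finset Equiv Pool.Agent.Work.MP_8f87b2_co

namespace H1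

variable {k q a t m : ℕ} {R B S T X : BinaryTree Unit} {B1 H s : BinaryTree Unit} {F F' : Set (Cyc k)} {g g' : DG k}

theorem low_fh' {r : BinaryTree Unit} {e : List ℕ} (he : e.length = 2 * r.numNodes + 1) (hL : Low r)
    (h : 2 ∈ OddHC.cont (ins r e) ∨ 3 ∈ OddHC.cont (ins r e)) : fh (ins r e) ≤ 2 := by
  obtain ⟨l1, l2⟩ := low_fh he hL
  by_cases h2 : 1 ≤ (OddHC.cont (ins r e)).count 2
  · rw [l1 h2]; omega
  · rcases h with h | h
    · exact absurd (Multiset.count_pos.2 h) (by omega)
    · rw [l2 (by omega) (Multiset.count_pos.2 h)]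

/-- **a window with a marker `3` against a low E triple**, `q ≥ 1` -/
theorem ae_mark (h : Wd R B S) (hq : 1 ≤ q) (hf : 3 ≤ fh R) (h3 : q = 1 ∨ q = 2 ∨ 3 ∈ OddHC.cont R)
    (h3S : B = .nil → q = 1 ∨ q = 2 ∨ 3 ∈ OddHC.cont S) {r : BinaryTree Unit} {e : List ℕ}
    (he : e.length = 2 * r.numNodes + 1) (hL : Low r) {i : ℕ} (hi : i < 20)
    (hw : W R (ch (q + 1)) B S i = ins r e △ .nil ∨
      W R (ch (q + 1)) B S i = app (ins r e) (.nil △ .nil) ∨
      W R (ch (q + 1)) B S i = .nil △ ins r e) :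
    B = .nil ∧ ins r e = app (ch (q + 1)) (.nil △ S) ∧ (i = 11 ∨ i = 14 ∨ i = 18) ∧ (q = 1 ∨ q = 2) := by
  have l := fun h => low_fh' he hL h
  have hs := ae_shape h hi hw
  generalize ins r e = X at l hs
  have hch : OddHC.cont (ch (q + 1)) = {q + 1} := ch_cont q
  rcases hs with ⟨rfl, h1⟩ | ⟨h0, rfl, h1⟩ | ⟨rfl, h1⟩
  · exfalso
    have e1 : fh (app R (.nil △ ch (q + 1))) = fh R := fh_app (by omega) _
    rw [e1] at l
    have := l (by
      rw [OddHC.cont_app, OddHC.cont_node, hch]
      rcases h3 with rfl | rfl | h3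
      · left; simp
      · right; simp
      · right; exact Multiset.mem_add.2 (Or.inl h3))
    omega
  · have e1 : fh (app (ch (q + 1)) (.nil △ S)) = q := by
      obtain ⟨p, rfl⟩ : ∃ p, q = p + 1 := ⟨q - 1, by omega⟩
      change fh ((ch p △ .nil) △ (.nil △ S)) = p + 1
      rw [fh_node (by simp), OddHC.ht_node, ch_ht, OddHC.ht]
      omega
    rw [e1] at l
    refine ⟨h0, rfl, h1, ?_⟩
    by_contra hq2
    have h4 : 3 ∈ OddHC.cont S := by
      rcases h3S h0 with h | h | h
      · omega
      · omega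
      · exact h
    have := l (by
      right
      rw [OddHC.cont_app, OddHC.cont_node]
      exact Multiset.mem_add.2 (Or.inr (Multiset.mem_add.2 (Or.inr h4))))
    omega
  · omega

/-- **a `c = 3` window with a part `3` in `R` against a low E triple** -/
theorem ae_mark0 (h : Wd R B S) (hcon : OddHC.cont B + OddHC.cont S = OddHC.cont R) (h3 : 3 ∈ OddHC.cont R)
    (hR : 4 ≤ OddHC.ht R) (hS : 4 ≤ OddHC.ht S) (fR : 3 ≤ fh R) (fS : 3 ≤ fh S)
    (m3 : 3 ∈ OddHC.cont S + raise (OddHC.cont B)) {r : BinaryTree Unit} {e : List ℕ}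
    (he : e.length = 2 * r.numNodes + 1) (hL : Low r) {i : ℕ} (hi : i < 20) :
    ¬ (W R (ch 1) B S i = ins r e △ .nil ∨ W R (ch 1) B S i = app (ins r e) (.nil △ .nil) ∨
      W R (ch 1) B S i = .nil △ ins r e) := by
  intro hw
  have l := fun h => low_fh' he hL h
  have hs := ae_shape (q := 0) h hi hw
  generalize ins r e = X at l hs
  have sR : (OddHC.cont R).sup = OddHC.ht R := (OddHC.ht_eq R).symm
  have sS : (OddHC.cont S).sup = OddHC.ht S := (OddHC.ht_eq S).symm
  have m1 : 3 ∈ raise (OddHC.cont R) := mem_raise h3 (by omega)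
  have m2 : 3 ∈ raise (OddHC.cont S) + OddHC.cont B := by
    rw [Multiset.mem_add]
    rw [← hcon, Multiset.mem_add] at h3
    exact h3.symm.imp_left fun h => mem_raise h (by omega)
  have hB : ∀ Y, fh (.nil △ Y) = fh Y := fun Y => fh_leaf Y
  rcases hs with ⟨rfl, h1⟩ | ⟨h0, rfl, h1⟩ | ⟨-, h1⟩
  · have e1 : fh (app R (.nil △ ch (0 + 1))) = fh R := fh_app (by omega) _
    rw [e1] at l
    have := l (by
      rw [OddHC.cont_app]
      exact Or.inr (Multiset.mem_add.2 (Or.inl h3)))
    omega
  · have e1 : fh (app (ch (0 + 1)) (.nil △ S)) = fh S := by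
      change fh (.nil △ (.nil △ S)) = fh S
      rw [hB, hB]
    rw [e1] at l
    have h4 : 3 ∈ OddHC.cont S := by
      rw [← hcon, h0, OddHC.cont_nil, zero_add] at h3
      exact h3
    have := l (by
      right
      rw [OddHC.cont_app, OddHC.cont_node]
      exact Multiset.mem_add.2 (Or.inr (Multiset.mem_add.2 (Or.inr h4))))
    omega
  · rcases h1 with ⟨-, rfl⟩ | ⟨-, rfl⟩ | ⟨-, rfl⟩ | ⟨-, rfl⟩ | ⟨-, rfl⟩ | ⟨-, rfl⟩ | ⟨-, rfl⟩ | ⟨-, rfl⟩
    · rw [hB, fh_app (by omega)] at l
      have := l (by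
        rw [OddHC.cont_node, OddHC.cont_app]
        exact Or.inr (Multiset.mem_add.2 (Or.inr (Multiset.mem_add.2 (Or.inl h3)))))
      omega
    · rw [fh_node (by simp), OddHC.ht_node] at l
      have := l (by
        right
        rw [OddHC.cont_node, OddHC.cont_nil, add_zero, OddHC.cont_node, OddHC.cont_nil, raise_zero]
        refine mem_raise (Multiset.mem_add.2 (Or.inr h3)) ?_
        rw [sup_add', Multiset.sup_singleton]
        omega)
      omega
    · rw [hB, fh_node h.R0] at l
      have := l (by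
        right
        rw [OddHC.cont_node, OddHC.cont_node]
        exact Multiset.mem_add.2 (Or.inr (Multiset.mem_add.2 (Or.inl m1))))
      omega
    · rw [fh_node (by simp), OddHC.ht_node] at l
      have := l (by
        right
        rw [OddHC.cont_node, OddHC.cont_nil, add_zero, OddHC.cont_node, OddHC.cont_nil, add_zero]
        refine mem_raise m1 ?_
        rw [sup_raise]
        omega)
      omega
    · rw [fh_node h.S0] at l
      have := l (by
        right
        rw [OddHC.cont_node, OddHC.cont_app, ← add_assoc]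
        exact Multiset.mem_add.2 (Or.inl m2))
      omega
    · rw [fh_node (by simp), OddHC.ht_node] at l
      have := l (by
        right
        rw [OddHC.cont_node, OddHC.cont_nil, add_zero, OddHC.cont_node]
        refine mem_raise m2 ?_
        rw [sup_add', sup_raise]
        omega)
      omega
    · rw [hB, fh_app (by omega)] at l
      have := l (by
        right
        rw [OddHC.cont_node, OddHC.cont_app, OddHC.cont_node, OddHC.cont_nil, add_zero]
        exact Multiset.mem_add.2 (Or.inr m3))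
      omega
    · rw [fh_node (OddHC.app_ne' (by simp)), OddHC.ht_app] at l
      have := l (by
        right
        rw [OddHC.cont_node, OddHC.cont_nil, add_zero, OddHC.cont_app, OddHC.cont_node, OddHC.cont_nil, add_zero]
        refine mem_raise m3 ?_
        rw [sup_add']
        omega)
      omega

/-- `3` in `S + raise B` -/
theorem m3_of (hB : ∀ x ∈ OddHC.cont B, 3 ≤ x) (hcon : OddHC.cont B + OddHC.cont S = OddHC.cont R)
    (h3 : 3 ∈ OddHC.cont R) (hc : ¬ (B = pc 3 ∧ 3 ∉ OddHC.cont S)) : 3 ∈ OddHC.cont S + raise (OddHC.cont B) := by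
  rw [Multiset.mem_add]
  by_cases h4 : 3 ∈ OddHC.cont S
  · exact Or.inl h4
  · right
    have hB3 : 3 ∈ OddHC.cont B := by
      rw [← hcon, Multiset.mem_add] at h3
      exact h3.resolve_right h4
    have hB0 : OddHC.cont B ≠ 0 := by
      intro h
      rw [h] at hB3
      exact absurd hB3 (Multiset.notMem_zero _)
    by_cases hs : 3 = (OddHC.cont B).sup
    · have h5 : 3 ∈ (OddHC.cont B).erase (OddHC.cont B).sup := by
        have h6 : (OddHC.cont B).erase (OddHC.cont B).sup ≠ 0 := by
          intro h0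
          have h7 : OddHC.cont B = {3} := by
            rw [← Multiset.cons_erase (sup_mem hB0), h0, ← hs]
            rfl
          exact hc ⟨eq_pc_of_cont h7, h4⟩
        obtain ⟨x, hx⟩ := Multiset.exists_mem_of_ne_zero h6
        have h8 := hB x (Multiset.mem_of_mem_erase hx)
        have h9 := Multiset.le_sup (Multiset.mem_of_mem_erase hx)
        rw [← hs] at h9
        have : x = 3 := by omega
        rwa [this] at hx
      unfold raise
      exact Multiset.mem_cons_of_mem h5
    · exact mem_raise hB3 hs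

/-- the first component -/
theorem NodeG.fh3 (h : NodeG k q B1 H s B) (hB1 : ∀ x ∈ OddHC.cont B1, 3 ≤ x) (hst : ¬ St3 (gR B1 H s B)) :
    3 ≤ fh (gR B1 H s B) := by
  by_cases hb0 : B1 = .nil
  · subst hb0
    have e : fh (gR .nil H s B) = OddHC.ht s := by
      unfold gR
      rw [app, fh_node (app_ne h.s0), h.P_ht]
    rw [e]
    have := h.hs3
    have := h.big
    omega
  · cases B1 with
    | nil => exact absurd rfl hb0
    | node u C D =>
      have v1 := h.h1
      have hC := gd_ne v1.1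
      have e : fh (gR (C △ D) H s B) = OddHC.ht C := by
        unfold gR
        change fh (C △ app D _) = _
        rw [fh_node hC]
      change 3 ≤ fh (gR (C △ D) H s B)
      rw [e]
      by_contra hlt
      apply hst
      have h2 : lo 0 C = 0 := by
        unfold lo
        rw [Multiset.card_eq_zero, Multiset.filter_eq_nil]
        intro x hx hx2
        have := hB1 x (by
          change x ∈ OddHC.cont (C △ D)
          rw [OddHC.cont_node]
          exact Multiset.mem_add.2 (Or.inl hx))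
        omega
      have h3 := pc_two h2 (by omega)
      refine ⟨app D ((app H s) △ B), ?_⟩
      rw [← h3]
      rfl

/-- **A with a marker `3` (or `c = 4, 5`) against E**, `q ≥ 1`: only the last-step merge remains -/
theorem NodeG.ae_markT (h : NodeG k q B1 H s B) (hq : 1 ≤ q) (hf : 3 ≤ fh (gR B1 H s B))
    (h3 : q = 1 ∨ q = 2 ∨ 3 ∈ OddHC.cont (gR B1 H s B)) (h' : TyE F' g') (w0 : OddHC.X k) {i : ℕ} (hi : i < 20)
    (hw : gX q B1 H s B w0 i ∈ g'.B) : B = .nil ∧ (i = 11 ∨ i = 14 ∨ i = 18) ∧ (q = 1 ∨ q = 2) ∧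
      IsTri .nil (app (ch (q + 1)) (.nil △ (Tsq.sq (gR B1 H s B)).1)) .nil F' g' ∧
      F' = {cyc (gX q B1 H s B w0 11), cyc (gX q B1 H s B w0 18)} := by
  obtain ⟨j, r, f, hj, hL, ht⟩ := h'
  have he : (lf f).length = 2 * r.1.numNodes + 1 := by rw [lf_length, X_num]
  have hcon := h.dat.cont
  have e : W (gR B1 H s B) (ch (q + 1)) B (Tsq.sq (gR B1 H s B)).1 i = ins r.1 (lf f) △ .nil ∨
      W (gR B1 H s B) (ch (q + 1)) B (Tsq.sq (gR B1 H s B)).1 i = app (ins r.1 (lf f)) (.nil △ .nil) ∨
      W (gR B1 H s B) (ch (q + 1)) B (Tsq.sq (gR B1 H s B)).1 i = .nil △ ins r.1 (lf f) := by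
    rw [← h.word w0 hi]
    rcases ht.words _ hw with e1 | ⟨_, e1 | e1⟩
    · exact Or.inl e1
    · exact Or.inr (Or.inl e1)
    · exact Or.inr (Or.inr e1)
  obtain ⟨hB, hX, h1, h2⟩ := ae_mark h.wd hq hf h3 (fun hB => by
    rcases h3 with h3 | h3 | h3
    · exact Or.inl h3
    · exact Or.inr (Or.inl h3)
    · refine Or.inr (Or.inr ?_)
      rw [← hcon, Multiset.mem_add, show OddHC.cont B = 0 from by rw [hB]; rfl] at h3
      rcases h3 with h3 | h3
      · exact absurd h3 (Multiset.notMem_zero _)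
      · exact h3) he hL hi e
  rw [hX] at ht
  obtain ⟨b, c, hb, hc, hF⟩ := tri_F ht
  refine ⟨hB, h1, h2, ht, ?_⟩
  have e1 : b = gX q B1 H s B w0 18 := by
    apply Subtype.ext
    rw [hb, h.word w0 (by norm_num)]
    simp only [w1, W, app_assoc', app, hB, app_nil']
  have e2 : c = gX q B1 H s B w0 11 := by
    apply Subtype.ext
    rw [hc, h.word w0 (by norm_num)]
    simp only [w1, W, app_assoc', app, hB, app_nil']
  rw [hF, e1, e2, Set.pair_comm]

/-- **A with a marker `3` against E**, `q = 0` -/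
theorem NodeG.ae_mark0T (h : NodeG k 0 B1 H s B) (h3 : 3 ∈ OddHC.cont (gR B1 H s B)) (hR : 4 ≤ OddHC.ht (gR B1 H s B))
    (hf : 3 ≤ fh (gR B1 H s B)) (hS : 3 ≤ fh (Tsq.sq (gR B1 H s B)).1)
    (hc : ¬ (B = pc 3 ∧ 3 ∉ OddHC.cont (Tsq.sq (gR B1 H s B)).1)) (h' : TyE F' g') (w0 : OddHC.X k) {i : ℕ} (hi : i < 20) :
    gX 0 B1 H s B w0 i ∉ g'.B := by
  intro hw
  obtain ⟨j, r, f, hj, hL, ht⟩ := h'
  have he : (lf f).length = 2 * r.1.numNodes + 1 := by rw [lf_length, X_num]
  have hcon := h.dat.cont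
  have htS := h.dat.htS
  have e : W (gR B1 H s B) (ch 1) B (Tsq.sq (gR B1 H s B)).1 i = ins r.1 (lf f) △ .nil ∨
      W (gR B1 H s B) (ch 1) B (Tsq.sq (gR B1 H s B)).1 i = app (ins r.1 (lf f)) (.nil △ .nil) ∨
      W (gR B1 H s B) (ch 1) B (Tsq.sq (gR B1 H s B)).1 i = .nil △ ins r.1 (lf f) := by
    rw [← h.word w0 hi]
    rcases ht.words _ hw with e1 | ⟨_, e1 | e1⟩
    · exact Or.inl e1
    · exact Or.inr (Or.inl e1)
    · exact Or.inr (Or.inr e1)
  exact ae_mark0 h.wd hcon h3 hR (by rw [htS]; exact hR) hf hS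
    (m3_of (fun x hx => by have := h.bare x hx; omega) hcon h3 hc) he hL hi e

end H1

end Pool.OddHC
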