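import Pool.Agent.Work.MP_8f87b2_h40.H3c
import Pool.Agent.Work.MP_8f87b2_mid.Types
set_option autoImplicit false
set_option linter.all false

/-!
# MP_8f87b2_co: the exact types of the content links

`TyClX`: left content links `TyC' 2 S`, `S` over one big soliton `s = n + 2 ≥ 4` (`Hole2.ShC n a m`, `([s-1]()^q)`, `q ≥ 2`), and
`TyC' c [s]`, `c ≥ 4` even, `c < s`. `TyCrX`: right content links `TyC c [s]`, `c ≥ 3` odd, `c < s`.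
-/

namespace Pool.OddHC
open Finset Equiv BinaryTree Pool.Agent.Work.MP_8f87b2_co S5

variable {k : ℕ} {F F' : Set (Cyc k)} {g g' : DG k} {n a m q c : ℕ} {S C Y U : BinaryTree Unit}

/-- the shapes of the links with `c = 2` -/
def ShK (S : BinaryTree Unit) : Prop :=
  (∃ n a m, 2 ≤ n ∧ 1 ≤ a ∧ Hole2.ShC n a m S) ∨
    ∃ n q, 2 ≤ n ∧ 2 ≤ q ∧ S = app (H1.ch (n + 1)) (lp q) △ .nil

/-- left content links, exact -/
def TyClX (F : Set (Cyc k)) (g : DG k) : Prop :=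
  (∃ S, ShK S ∧ TyC' 2 S F g) ∨ ∃ s c, Even c ∧ 4 ≤ c ∧ c + 1 ≤ s ∧ TyC' c (H1.ch s) F g

/-- right content links, exact -/
def TyCrX (F : Set (Cyc k)) (g : DG k) : Prop :=
  ∃ s c, Odd c ∧ 3 ≤ c ∧ c + 1 ≤ s ∧ TyC c (H1.ch s) F g

/-- the first component of `S`: `([r] Z)`, `r ≥ 2`, `Z = e, (()), ()^q, (()())` -/
def FC (S : BinaryTree Unit) : Prop :=
  ∃ (r : ℕ) (Z Y : BinaryTree Unit), 2 ≤ r ∧ S = (H1.ch r △ Z) △ Y ∧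
    (Z = .nil ∨ Z = H1.ch 2 ∨ (∃ q, 1 ≤ q ∧ Z = lp q) ∨ Z = lp 2 △ .nil)

theorem ch_two (n : ℕ) : H1.ch (n + 2) = (H1.ch n △ .nil) △ .nil := rfl

theorem FC.ch {s : ℕ} (hs : 4 ≤ s) : FC (H1.ch s) := by
  obtain ⟨n, rfl⟩ : ∃ n, s = n + 2 := ⟨s - 2, by omega⟩
  exact ⟨n, .nil, .nil, by omega, rfl, Or.inl rfl⟩

theorem ShK.fc (h : ShK S) : FC S := by
  have hE : ∀ n Y, 2 ≤ n → FC (app (H1.ch (n + 2)) Y) := fun n Y hn => ⟨n, .nil, Y, hn, rfl, Or.inl rfl⟩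
  rcases h with ⟨n, a, m, hn, ha, h, -, -⟩ | ⟨n, q, hn, hq, rfl⟩
  · rcases h with (⟨hm, rfl | rfl | (rfl | rfl | rfl)⟩ | ⟨rfl, h2, rfl | ⟨h3, rfl⟩ | ⟨rfl, rfl⟩⟩) | ⟨rfl, rfl | rfl⟩
    · exact ⟨n, .nil, _, hn, rfl, Or.inl rfl⟩
    · exact ⟨n, H1.ch 2, _, hn, rfl, Or.inr (Or.inl rfl)⟩
    · exact ⟨n, .nil, _, hn, rfl, Or.inl rfl⟩
    · exact ⟨n, lp 1, _, hn, rfl, Or.inr (Or.inr (Or.inl ⟨1, le_rfl, rfl⟩))⟩
    · exact ⟨n, .nil, _, hn, rfl, Or.inl rfl⟩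
    · exact ⟨n, .nil, _, hn, rfl, Or.inl rfl⟩
    · exact ⟨n, H1.ch 2, _, hn, rfl, Or.inr (Or.inl rfl)⟩
    · exact ⟨n, lp 2 △ .nil, _, hn, rfl, Or.inr (Or.inr (Or.inr rfl))⟩
    · exact ⟨n, .nil, _, hn, rfl, Or.inl rfl⟩
    · exact ⟨n, H1.ch 2, _, hn, rfl, Or.inr (Or.inl rfl)⟩
  · exact ⟨n, lp q, .nil, hn, rfl, Or.inr (Or.inr (Or.inl ⟨q, by omega, rfl⟩))⟩

/-- the contents -/
theorem ShK.cont (h : ShK S) : ∃ n a m, 2 ≤ n ∧ OddHC.cont S = {n + 2} + Multiset.replicate a 2 + Multiset.replicate m 1 ∧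
    (1 ≤ a ∨ (2 ≤ m ∧ S = app (H1.ch (n + 1)) (lp m) △ .nil)) := by
  rcases h with ⟨n, a, m, hn, ha, h⟩ | ⟨n, q, hn, hq, rfl⟩
  · exact ⟨n, a, m, hn, h.cont (by omega) ha, Or.inl ha⟩
  · refine ⟨n, 0, q, hn, ?_, Or.inr ⟨hq, rfl⟩⟩
    rw [cont_node, cont_app, c_ch (by omega), c_lp, cont_nil, raise_top (s := n + 1) (M := Multiset.replicate q 1)
      fun x hx => by
        rw [Multiset.eq_of_mem_replicate hx]
        omega]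
    simp

theorem ShK.ht (h : ShK S) : 4 ≤ OddHC.ht S := by
  obtain ⟨n, a, m, hn, h, -⟩ := h.cont
  have h1 : n + 2 ∈ OddHC.cont S := by
    rw [h]
    simp
  have := Multiset.le_sup h1
  rw [OddHC.ht_eq]
  omega

theorem TyClX.cl (h : TyClX F g) : TyCl F g := by
  rcases h with ⟨S, h1, h2⟩ | ⟨s, c, h1, h2, h3, h4⟩
  · exact ⟨2, S, le_rfl, by have := h1.ht; omega, by decide, h2⟩
  · exact ⟨c, H1.ch s, by omega, by rw [H1.ch_ht]; omega, h1, h4⟩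

theorem TyCrX.cr (h : TyCrX F g) : TyCr F g := by
  obtain ⟨s, c, h1, h2, h3, h4⟩ := h
  exact ⟨c, H1.ch s, by omega, by rw [H1.ch_ht]; omega, h1, h4⟩

end Pool.OddHC
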