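import Pool.Agent.Work.MP_8f87b2_h69.Basic
import Pool.Agent.Work.MP_8f87b2_h26.Toggle

/-!
# CLS: the unified model of helper69 is a toggle model in the sense of helper26
-/

set_option autoImplicit false

namespace Pool.OddHop

open Finset

variable {h cap g n : ℕ} [NeZero h]

instance instNeZeroTwoMul : NeZero (2 * h) :=
  ⟨by have := NeZero.ne h; omega⟩

theorem cls_nx_nx (x : ℕ) : nx (nx x) = x := by
  unfold nx
  split_ifs <;> omega

theorem cls_nx_ne (x : ℕ) : nx x ≠ x := by
  unfold nx
  split_ifs <;> omega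

/-- rotation of the places by `k` -/
def St.rot (k : ZMod (2 * h)) (s : St h cap g n) : St h cap g n where
  c := fun i => s.c (i + k)
  lab := fun i => s.lab (i + k)
  hcap := fun _ => s.hcap _
  hsum := (Equiv.sum_comp (Equiv.addRight k) s.c).trans s.hsum
  hlab := by
    intro i
    have := s.hlab (i + k)
    rw [← this]
    congr 1
    ring

theorem St.rot_c (k : ZMod (2 * h)) (s : St h cap g n) (i : ZMod (2 * h)) :
    (s.rot k).c i = s.c (i + k) := rfl

theorem St.rot_lab (k : ZMod (2 * h)) (s : St h cap g n) (i : ZMod (2 * h)) :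
    (s.rot k).lab i = s.lab (i + k) := rfl

theorem St.rot_zero (s : St h cap g n) : s.rot 0 = s := by
  ext i <;> simp [St.rot]

theorem St.rot_rot (k l : ZMod (2 * h)) (s : St h cap g n) :
    (s.rot l).rot k = s.rot (k + l) := by
  ext i <;> simp [St.rot, add_assoc]

theorem St.shift_eq (s : St h cap g n) : s.shift = s.rot 1 := rfl

/-- the shift as a permutation -/
def shiftPerm : Equiv.Perm (St h cap g n) where
  toFun := St.shift
  invFun := St.rot (-1)
  left_inv := by
    intro s
    rw [St.shift_eq, St.rot_rot]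
    simp [St.rot_zero]
  right_inv := by
    intro s
    rw [St.shift_eq, St.rot_rot]
    simp [St.rot_zero]

@[simp] theorem shiftPerm_apply (s : St h cap g n) : shiftPerm s = s.shift := rfl

theorem shift_shift (s : St h cap g n) : s.shift.shift = s.rot 2 := by
  rw [St.shift_eq, St.shift_eq, St.rot_rot]
  norm_num

theorem par_two' : par (2 : ZMod (2 * h)) = 0 := by
  have : (2 : ZMod (2 * h)) = 1 + 1 := by norm_num
  rw [this, map_add, map_one]
  decide

theorem par_ne {p : ZMod (2 * h)} : par p ≠ 0 ↔ par p = 1 := by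
  generalize par p = a
  revert a
  decide

theorem sum_pair {M : Type*} [AddCommMonoid M] (F : ZMod (2 * h) → M) :
    ∑ i, F i = ∑ i ∈ univ.filter (fun i : ZMod (2 * h) => par i = 0), (F i + F (i + 1)) := by
  rw [Finset.sum_add_distrib, ← Finset.sum_filter_add_sum_filter_not univ
    (fun i : ZMod (2 * h) => par i = 0)]
  congr 1
  refine Finset.sum_bij' (fun i _ => i - 1) (fun i _ => i + 1) ?_ ?_ ?_ ?_ ?_
  · intro i hi
    rw [Finset.mem_filter] at hi ⊢
    have := par_ne.1 hi.2
    refine ⟨Finset.mem_univ _, ?_⟩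
    rw [map_sub, this, map_one, sub_self]
  · intro i hi
    rw [Finset.mem_filter] at hi ⊢
    refine ⟨Finset.mem_univ _, ?_⟩
    rw [map_add, hi.2, map_one]
    decide
  · intro i _; simp
  · intro i _; simp
  · intro i _; simp

/-- the set of the available toggles at even places -/
def av (s : St h cap g n) : Finset (ZMod (2 * h)) := univ.filter (fun p => par p = 0 ∧ s.Av p)

theorem mem_av {s : St h cap g n} {p : ZMod (2 * h)} : p ∈ av s ↔ par p = 0 ∧ s.Av p := by
  simp [av]

/-- the set of the pairs at even places with odd sum -/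
def act (s : St h cap g n) : Finset (ZMod (2 * h)) :=
  univ.filter (fun p => par p = 0 ∧ (s.c p + s.c (p + 1)) % 2 = 1)

theorem mem_act {s : St h cap g n} {p : ZMod (2 * h)} :
    p ∈ act s ↔ par p = 0 ∧ (s.c p + s.c (p + 1)) % 2 = 1 := by
  simp [act]

theorem av_bounds {s : St h cap g n} {p : ZMod (2 * h)} (ha : s.Av p) :
    nx (s.c p) ≤ s.c p + s.c (p + 1) ∧ s.c p + s.c (p + 1) ≤ nx (s.c p) + cap ∧
      nx (s.c p) ≤ cap := by
  have h1 := s.hcap p
  have h2 := s.hcap (p + 1)
  unfold St.Av avXY at ha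
  unfold nx
  split_ifs <;> omega

/-- content after the toggles in `T` -/
def tc (T : Finset (ZMod (2 * h))) (s : St h cap g n) (i : ZMod (2 * h)) : ℕ :=
  if par i = 0 then (if i ∈ T then nx (s.c i) else s.c i)
  else (if i - 1 ∈ T then s.c (i - 1) + s.c i - nx (s.c (i - 1)) else s.c i)

/-- label after the toggles in `T` -/
def tl (T : Finset (ZMod (2 * h))) (s : St h cap g n) (i : ZMod (2 * h)) : ZMod g :=
  if par i = 0 then s.lab i
  else (if i - 1 ∈ T then s.lab (i - 1) + (nx (s.c (i - 1)) : ZMod g) else s.lab i)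

theorem par_succ_ne {p : ZMod (2 * h)} (hp : par p = 0) : par (p + 1) ≠ 0 := by
  rw [map_add, hp, map_one]
  decide

theorem tc_even {T : Finset (ZMod (2 * h))} {s : St h cap g n} {p : ZMod (2 * h)}
    (hp : par p = 0) : tc T s p = if p ∈ T then nx (s.c p) else s.c p := if_pos hp

theorem tc_succ {T : Finset (ZMod (2 * h))} {s : St h cap g n} {p : ZMod (2 * h)}
    (hp : par p = 0) : tc T s (p + 1) =
      if p ∈ T then s.c p + s.c (p + 1) - nx (s.c p) else s.c (p + 1) := by
  unfold tc
  rw [if_neg (par_succ_ne hp), add_sub_cancel_right]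

theorem tl_even {T : Finset (ZMod (2 * h))} {s : St h cap g n} {p : ZMod (2 * h)}
    (hp : par p = 0) : tl T s p = s.lab p := if_pos hp

theorem tl_succ {T : Finset (ZMod (2 * h))} {s : St h cap g n} {p : ZMod (2 * h)}
    (hp : par p = 0) : tl T s (p + 1) =
      if p ∈ T then s.lab p + (nx (s.c p) : ZMod g) else s.lab (p + 1) := by
  unfold tl
  rw [if_neg (par_succ_ne hp), add_sub_cancel_right]

/-- every place is an even place or the successor of one -/
theorem place_cases (i : ZMod (2 * h)) : par i = 0 ∨ ∃ p, par p = 0 ∧ i = p + 1 := by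
  by_cases hi : par i = 0
  · exact Or.inl hi
  · refine Or.inr ⟨i - 1, ?_, by ring⟩
    rw [map_sub, par_ne.1 hi, map_one, sub_self]

theorem tc_sum {T : Finset (ZMod (2 * h))} {s : St h cap g n} (hT : T ⊆ av s) {p : ZMod (2 * h)}
    (hp : par p = 0) : tc T s p + tc T s (p + 1) = s.c p + s.c (p + 1) := by
  rw [tc_even hp, tc_succ hp]
  by_cases h1 : p ∈ T
  · have h2 := (av_bounds (mem_av.1 (hT h1)).2).1
    simp only [h1, if_true]
    omega
  · simp only [h1, if_false]

/-- apply the toggles in `T` -/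
def tt' (T : Finset (ZMod (2 * h))) (s : St h cap g n) (hT : T ⊆ av s) : St h cap g n where
  c := tc T s
  lab := tl T s
  hcap := by
    intro i
    rcases place_cases i with hi | ⟨p, hp, rfl⟩
    · rw [tc_even hi]
      split_ifs with h1
      · exact (av_bounds (mem_av.1 (hT h1)).2).2.2
      · exact s.hcap i
    · rw [tc_succ hp]
      split_ifs with h1
      · have h2 := (av_bounds (mem_av.1 (hT h1)).2).2.1
        omega
      · exact s.hcap _
  hsum := by
    have h1 := sum_pair (tc T s)
    have h2 := sum_pair s.c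
    refine (h1.trans ?_).trans (h2.symm.trans s.hsum)
    apply Finset.sum_congr rfl
    intro p hp
    exact tc_sum hT (Finset.mem_filter.1 hp).2
  hlab := by
    intro i
    rcases place_cases i with hi | ⟨p, hp, rfl⟩
    · rw [tl_succ hi, tl_even hi, tc_even hi]
      split_ifs with h1
      · rfl
      · exact s.hlab i
    · have hp2 : par (p + 1 + 1) = 0 := by
        rw [map_add, map_add, hp, map_one]; decide
      rw [tl_even hp2, tl_succ hp, tc_succ hp]
      split_ifs with h1
      · have h2 := (av_bounds (mem_av.1 (hT h1)).2).1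
        rw [s.hlab (p + 1), s.hlab p, Nat.cast_sub h2]
        push_cast
        ring
      · exact s.hlab _

/-- apply the toggles in `T` (if all of them are available) -/
def tt (T : Finset (ZMod (2 * h))) (s : St h cap g n) : St h cap g n :=
  if hT : T ⊆ av s then tt' T s hT else s

theorem tt_c {T : Finset (ZMod (2 * h))} {s : St h cap g n} (hT : T ⊆ av s) :
    (tt T s).c = tc T s := by
  unfold tt
  rw [dif_pos hT]
  rfl

theorem tt_lab {T : Finset (ZMod (2 * h))} {s : St h cap g n} (hT : T ⊆ av s) :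
    (tt T s).lab = tl T s := by
  unfold tt
  rw [dif_pos hT]
  rfl

theorem av_tt {T : Finset (ZMod (2 * h))} {s : St h cap g n} (hT : T ⊆ av s) :
    av (tt T s) = av s := by
  ext p
  rw [mem_av, mem_av]
  apply and_congr_right
  intro hp
  rw [av_iff_avL, av_iff_avL]
  have : (tt T s).letter p = s.letter p := by
    unfold St.letter
    rw [tt_c hT, tc_sum hT hp, tc_even hp]
    by_cases h1 : p ∈ T
    · simp only [h1, if_true, nx_div]
    · simp only [h1, if_false]
  rw [this]

theorem letter_tt {T : Finset (ZMod (2 * h))} {s : St h cap g n} (hT : T ⊆ av s)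
    {p : ZMod (2 * h)} (hp : par p = 0) : (tt T s).letter p = s.letter p := by
  unfold St.letter
  rw [tt_c hT, tc_sum hT hp, tc_even hp]
  by_cases h1 : p ∈ T
  · simp only [h1, if_true, nx_div]
  · simp only [h1, if_false]

theorem lab_tt {T : Finset (ZMod (2 * h))} {s : St h cap g n} (hT : T ⊆ av s)
    {p : ZMod (2 * h)} (hp : par p = 0) : (tt T s).lab p = s.lab p := by
  rw [tt_lab hT, tl_even hp]

theorem act_tt {T : Finset (ZMod (2 * h))} {s : St h cap g n} (hT : T ⊆ av s) :
    act (tt T s) = act s := by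
  ext p
  rw [mem_act, mem_act]
  apply and_congr_right
  intro hp
  rw [tt_c hT, tc_sum hT hp]

theorem symmDiff_sub {α : Type*} [DecidableEq α] {A B C : Finset α} (hA : A ⊆ C) (hB : B ⊆ C) :
    symmDiff A B ⊆ C := by
  intro i hi
  rw [Finset.mem_symmDiff] at hi
  rcases hi with ⟨h1, _⟩ | ⟨h1, _⟩
  · exact hA h1
  · exact hB h1

theorem tt_tt {s : St h cap g n} {T : Finset (ZMod (2 * h))} (hT : T ⊆ av s)
    {T' : Finset (ZMod (2 * h))} (hT' : T' ⊆ av s) :
    tt T (tt T' s) = tt (symmDiff T T') s := by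
  have hs := symmDiff_sub hT hT'
  have hT2 : T ⊆ av (tt T' s) := by rw [av_tt hT']; exact hT
  have key : ∀ p, par p = 0 → (tt T (tt T' s)).c p = (tt (symmDiff T T') s).c p := by
    intro p hp
    rw [tt_c hT2, tt_c hs, tc_even hp, tc_even hp, tt_c hT', tc_even hp]
    by_cases h1 : p ∈ T <;> by_cases h2 : p ∈ T' <;>
      simp [h1, h2, Finset.mem_symmDiff, cls_nx_nx]
  have hsum : ∀ p, par p = 0 → (tt T (tt T' s)).c p + (tt T (tt T' s)).c (p + 1) =
      (tt (symmDiff T T') s).c p + (tt (symmDiff T T') s).c (p + 1) := by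
    intro p hp
    rw [tt_c hT2, tc_sum hT2 hp, tt_c hs, tc_sum hs hp, tt_c hT', tc_sum hT' hp]
  have hlab : ∀ p, par p = 0 → (tt T (tt T' s)).lab p = (tt (symmDiff T T') s).lab p := by
    intro p hp
    rw [lab_tt hT2 hp, lab_tt hT' hp, lab_tt hs hp]
  apply St.ext_lab (j := 0)
  · funext i
    rcases place_cases i with hi | ⟨p, hp, rfl⟩
    · exact key i hi
    · have h1 := key p hp
      have h2 := hsum p hp
      omega
  · exact hlab 0 (map_zero _)

theorem tt_empty (s : St h cap g n) : tt ∅ s = s := by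
  have h0 : (∅ : Finset (ZMod (2 * h))) ⊆ av s := Finset.empty_subset _
  apply St.ext_lab (j := 0)
  · rw [tt_c h0]
    funext i
    unfold tc
    simp
  · exact lab_tt h0 (map_zero _)

/-- one toggle is the toggle of the model -/
theorem tt_singleton {s : St h cap g n} {p : ZMod (2 * h)} (hp : p ∈ av s) :
    tt {p} s = s.tog p := by
  have hT : {p} ⊆ av s := Finset.singleton_subset_iff.2 hp
  obtain ⟨hp0, ha⟩ := mem_av.1 hp
  have hb := av_bounds ha
  have hxy := nx_add_ny ha
  apply St.ext_lab (j := p)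
  · rw [tt_c hT, tog_c ha]
    funext i
    rcases place_cases i with hi | ⟨q, hq, rfl⟩
    · rw [tc_even hi]
      by_cases h1 : i = p
      · subst h1
        simp [togc_self]
      · rw [togc_other _ h1 (by rintro rfl; exact par_succ_ne hp0 hi)]
        simp [h1]
    · rw [tc_succ hq]
      by_cases h1 : q = p
      · subst h1
        rw [togc_succ]
        simp only [Finset.mem_singleton, if_true]
        omega
      · rw [togc_other]
        · simp [h1]
        · rintro rfl; exact par_succ_ne hq hp0
        · intro hh; exact h1 (add_right_cancel hh)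
  · rw [lab_tt hT hp0, tog_lab_other s (add_one_ne p).symm]

theorem act_sub (hc : Odd cap) (s : St h cap g n) : act s ⊆ av s := by
  intro p hp
  rw [mem_act] at hp
  exact mem_av.2 ⟨hp.1, av_of_odd hc s p hp.2⟩

theorem act_odd (hn : Odd n) (s : St h cap g n) : Odd (act s).card := by
  have h1 : Odd (∑ i, s.c i) := by rw [s.hsum]; exact hn
  rw [sum_pair, Finset.odd_sum_iff_odd_card_odd] at h1
  have h2 : act s = (univ.filter (fun i : ZMod (2 * h) => par i = 0)).filter
      (fun i => Odd (s.c i + s.c (i + 1))) := by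
    unfold act
    rw [Finset.filter_filter]
    simp only [Nat.odd_iff]
  rw [h2]
  exact h1

/-- the number of units at even places -/
def ev (s : St h cap g n) : ℕ := ∑ i ∈ univ.filter (fun i : ZMod (2 * h) => par i = 0), s.c i

/-- the sign -/
def sg (s : St h cap g n) : Bool := decide (Even (ev s))

theorem sg_not {s s' : St h cap g n} (hs : Odd (ev s + ev s')) : sg s' = !(sg s) := by
  unfold sg
  rw [Nat.odd_add] at hs
  rcases Nat.even_or_odd (ev s) with h1 | h1
  · have h2 : ¬ Even (ev s') := by
      intro h3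
      exact Nat.not_even_iff_odd.2 (hs.2 h3) h1
    simp [h1, h2]
  · have h2 : Even (ev s') := hs.1 h1
    have h3 : ¬ Even (ev s) := Nat.not_even_iff_odd.2 h1
    simp [h3, h2]

theorem sg_shift (hn : Odd n) (s : St h cap g n) : sg s.shift = !(sg s) := by
  apply sg_not
  have h1 : ev s + ev s.shift = ∑ i, s.c i := by
    rw [sum_pair s.c, Finset.sum_add_distrib]
    rfl
  rw [h1, s.hsum]
  exact hn

theorem sg_tt (s : St h cap g n) {p : ZMod (2 * h)} (hp : p ∈ av s) :
    sg (tt {p} s) = !(sg s) := by
  apply sg_not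
  have hT : {p} ⊆ av s := Finset.singleton_subset_iff.2 hp
  have hmem : p ∈ univ.filter (fun i : ZMod (2 * h) => par i = 0) :=
    Finset.mem_filter.2 ⟨Finset.mem_univ _, (mem_av.1 hp).1⟩
  unfold ev
  rw [← Finset.add_sum_erase _ _ hmem, ← Finset.add_sum_erase _ (tt {p} s).c hmem]
  have h1 : ∑ i ∈ (univ.filter (fun i : ZMod (2 * h) => par i = 0)).erase p, (tt {p} s).c i =
      ∑ i ∈ (univ.filter (fun i : ZMod (2 * h) => par i = 0)).erase p, s.c i := by
    apply Finset.sum_congr rfl
    intro i hi
    rw [Finset.mem_erase, Finset.mem_filter] at hi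
    rw [tt_c hT, tc_even hi.2.2]
    simp [hi.1]
  have h2 : (tt {p} s).c p = nx (s.c p) := by
    rw [tt_c hT, tc_even (mem_av.1 hp).1]
    simp
  rw [h1, h2]
  have h3 : ∃ k, s.c p + nx (s.c p) = 2 * k + 1 := by
    unfold nx
    split_ifs with h4
    · exact ⟨s.c p, by omega⟩
    · exact ⟨s.c p - 1, by omega⟩
  obtain ⟨k, hk⟩ := h3
  exact ⟨k + ∑ i ∈ (univ.filter (fun i : ZMod (2 * h) => par i = 0)).erase p, s.c i, by omega⟩

/-- what the shift by two places does on the places -/
def rhoPerm : Equiv.Perm (ZMod (2 * h)) := Equiv.subRight 2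

theorem mem_map_rho {A : Finset (ZMod (2 * h))} {p : ZMod (2 * h)} :
    p ∈ A.map rhoPerm.toEmbedding ↔ p + 2 ∈ A := by
  rw [Finset.mem_map]
  constructor
  · rintro ⟨q, hq, rfl⟩
    have : rhoPerm.toEmbedding q + 2 = q := by simp [rhoPerm]
    rw [this]
    exact hq
  · intro hp
    exact ⟨p + 2, hp, by simp [rhoPerm]⟩

theorem par_add_two (p : ZMod (2 * h)) : par (p + 2) = par p := by
  rw [map_add, par_two', add_zero]

theorem av_shift (s : St h cap g n) : av s.shift.shift = (av s).map rhoPerm.toEmbedding := by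
  ext p
  rw [mem_map_rho, mem_av, mem_av, shift_shift, par_add_two]
  unfold St.Av
  rw [St.rot_c, St.rot_c, show p + 1 + 2 = p + 2 + 1 by ring]

theorem act_shift (s : St h cap g n) : act s.shift.shift = (act s).map rhoPerm.toEmbedding := by
  ext p
  rw [mem_map_rho, mem_act, mem_act, shift_shift, par_add_two, St.rot_c, St.rot_c,
    show p + 1 + 2 = p + 2 + 1 by ring]

theorem tt_shift (s : St h cap g n) {T : Finset (ZMod (2 * h))} (hT : T ⊆ av s) :
    tt (T.map rhoPerm.toEmbedding) s.shift.shift = (tt T s).shift.shift := by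
  have hT2 : T.map rhoPerm.toEmbedding ⊆ av s.shift.shift := by
    rw [av_shift]
    exact Finset.map_subset_map.2 hT
  apply St.ext_lab (j := 0)
  · rw [tt_c hT2, shift_shift (tt T s)]
    funext i
    rw [St.rot_c, tt_c hT, shift_shift]
    unfold tc
    rw [par_add_two]
    simp only [mem_map_rho, St.rot_c]
    rw [show i - 1 + 2 = i + 2 - 1 by ring]
  · rw [lab_tt hT2 (map_zero _), shift_shift, shift_shift, St.rot_lab, St.rot_lab]
    rw [lab_tt hT]
    rw [zero_add, par_two']

/-- **CLS**: the toggle model. -/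
def toggleModel (hc : Odd cap) (hn : Odd n) :
    Pool.Agent.Work.MP_8f87b2_h26.Toggle (St h cap g n) (ZMod (2 * h)) where
  σ := shiftPerm
  ρ := rhoPerm
  s := sg
  av := av
  act := act
  tt := tt
  s_σ := fun x => sg_shift hn x
  av_σ := fun x => av_shift x
  act_σ := fun x => act_shift x
  tt_σ := fun x _ hT => tt_shift x hT
  act_sub := fun x => act_sub hc x
  act_odd := fun x => act_odd hn x
  tt_empty := fun x => tt_empty x
  av_tt := fun _ _ hT => av_tt hT
  act_tt := fun _ _ hT => act_tt hT
  tt_tt := fun _ _ hT _ hT' => tt_tt hT hT'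
  s_tt := fun x _ hp => sg_tt x hp

/-- powers of the double shift are rotations by even amounts -/
theorem zpow_shift (k : ℤ) (s : St h cap g n) :
    ((shiftPerm * shiftPerm : Equiv.Perm (St h cap g n)) ^ k : Equiv.Perm (St h cap g n)) s =
      s.rot ((2 * k : ℤ) : ZMod (2 * h)) := by
  have hn : ∀ (m : ℕ) (s : St h cap g n),
      ((shiftPerm * shiftPerm : Equiv.Perm (St h cap g n)) ^ m : Equiv.Perm (St h cap g n)) s =
        s.rot ((2 * m : ℕ) : ZMod (2 * h)) := by
    intro m s
    induction m with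
    | zero => simp [St.rot_zero]
    | succ m ih =>
      rw [pow_succ', Equiv.Perm.mul_apply, ih, Equiv.Perm.mul_apply, shiftPerm_apply,
        shiftPerm_apply, shift_shift, St.rot_rot]
      congr 1
      push_cast
      ring
  obtain ⟨m, rfl | rfl⟩ := k.eq_nat_or_neg
  · rw [zpow_natCast, hn]
    push_cast
    rfl
  · rw [zpow_neg, zpow_natCast, Equiv.Perm.inv_eq_iff_eq, hn, St.rot_rot]
    push_cast
    simp [St.rot_zero]

theorem not_bad_good (hc : Odd cap) (hn : Odd n) {s : St h cap g n} (hs : ¬ s.Bad 0) :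
    (toggleModel hc hn).Good s := by
  intro T hT T' hT' hr
  obtain ⟨k, hk⟩ := hr
  change ((shiftPerm * shiftPerm : Equiv.Perm (St h cap g n)) ^ k : Equiv.Perm (St h cap g n)) (tt T s) = tt T' s at hk
  change T ⊆ av s at hT
  change T' ⊆ av s at hT'
  rw [zpow_shift] at hk
  set t : ZMod (2 * h) := ((2 * k : ℤ) : ZMod (2 * h)) with ht
  have htp : par t = 0 := by
    rw [ht]
    push_cast
    rw [map_mul, par_two', zero_mul]
  have ht0 : t = 0 := by
    by_contra ht0
    apply hs
    refine ⟨t, ht0, htp, ?_⟩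
    intro i hi
    have hit : par (i + t) = 0 := by rw [map_add, hi, htp, add_zero]
    have e1 : (tt T' s).letter i = (tt T s).letter (i + t) := by
      rw [← hk]
      unfold St.letter
      rw [St.rot_c, St.rot_c, show i + 1 + t = i + t + 1 by ring]
    have e2 : (tt T' s).lab i = (tt T s).lab (i + t) := by rw [← hk, St.rot_lab]
    rw [letter_tt hT' hi, letter_tt hT hit] at e1
    rw [lab_tt hT' hi, lab_tt hT hit] at e2
    exact ⟨e1.symm, e2.symm⟩
  rw [ht0, St.rot_zero] at hk
  ext p
  by_cases hp : par p = 0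
  · have h1 : (tt T s).c p = (tt T' s).c p := by rw [hk]
    rw [tt_c hT, tt_c hT', tc_even hp, tc_even hp] at h1
    have h2 := cls_nx_ne (s.c p)
    by_cases h3 : p ∈ T <;> by_cases h4 : p ∈ T' <;> simp [h3, h4] at h1 ⊢
    · exact h2 h1
    · exact h2 h1.symm
  · constructor
    · intro h1; exact absurd (mem_av.1 (hT h1)).1 hp
    · intro h1; exact absurd (mem_av.1 (hT' h1)).1 hp

instance instFiniteSt [NeZero g] : Finite (St h cap g n) := by
  have : Finite ((ZMod (2 * h) → Fin (cap + 1)) × (ZMod (2 * h) → ZMod g)) := inferInstance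
  refine Finite.of_injective (fun s : St h cap g n =>
    ((fun i => (⟨s.c i, Nat.lt_succ_of_le (s.hcap i)⟩ : Fin (cap + 1)), s.lab) :
      (ZMod (2 * h) → Fin (cap + 1)) × (ZMod (2 * h) → ZMod g))) ?_
  intro s s' hss
  rw [Prod.mk.injEq] at hss
  apply St.ext
  · funext i
    have := congrFun hss.1 i
    exact congrArg Fin.val this
  · exact hss.2

/-- states modulo the shift -/
def shiftSetoid : Setoid (St h cap g n) := Equiv.Perm.SameCycle.setoid shiftPerm

theorem shift_rel (s : St h cap g n) :
    Quotient.mk (shiftSetoid (h := h) (cap := cap) (g := g) (n := n)) s.shift =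
      Quotient.mk shiftSetoid s := by
  apply Quotient.sound
  change Equiv.Perm.SameCycle shiftPerm s.shift s
  exact ⟨-1, by rw [zpow_neg, zpow_one, Equiv.Perm.inv_eq_iff_eq]; rfl⟩

theorem av_shift_iff (s : St h cap g n) (i : ZMod (2 * h)) : s.shift.Av (i - 1) ↔ s.Av i := by
  unfold St.Av
  rw [St.shift_eq, St.rot_c, St.rot_c, sub_add_cancel]

theorem tog_shift (s : St h cap g n) {i : ZMod (2 * h)} (ha : s.Av i) :
    s.shift.tog (i - 1) = (s.tog i).shift := by
  have hb := (av_shift_iff s i).2 ha
  refine St.ext_lab (j := i - 1) ?_ ?_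
  · rw [tog_c hb]
    funext j
    change togc s.shift.c (i - 1) j = (s.tog i).c (j + 1)
    rw [tog_c ha]
    unfold togc
    rw [St.shift_eq, St.rot_c, St.rot_c, St.rot_c, sub_add_cancel]
    have e1 : j = i - 1 ↔ j + 1 = i := by
      constructor
      · rintro rfl; ring
      · rintro rfl; ring
    have e2 : j = i ↔ j + 1 = i + 1 := add_left_inj 1 |>.symm
    simp only [e1, ← e2]
  · rw [tog_lab_other _ (add_one_ne _).symm]
    change s.lab (i - 1 + 1) = (s.tog i).lab (i - 1 + 1)
    rw [sub_add_cancel, tog_lab_other s (add_one_ne i).symm]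

theorem bad_shift (s : St h cap g n) : s.shift.Bad 0 → s.Bad 1 := by
  rintro ⟨t, ht0, htp, ht⟩
  refine ⟨t, ht0, htp, ?_⟩
  intro i hi
  have h1 : par (i - 1) = 0 := by rw [map_sub, hi, map_one, sub_self]
  obtain ⟨h2, h3⟩ := ht (i - 1) h1
  constructor
  · have e1 : ∀ j, s.shift.letter (j - 1) = s.letter j := by
      intro j
      unfold St.letter
      rw [St.shift_eq, St.rot_c, St.rot_c, sub_add_cancel]
    rw [← e1, ← e1 i, ← h2]
    congr 1
    ring
  · have e1 : ∀ j, s.shift.lab (j - 1) = s.lab j := by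
      intro j
      rw [St.shift_eq, St.rot_lab, sub_add_cancel]
    rw [← e1, ← e1 i, ← h3]
    congr 1
    ring

/-- **Steps (1) to (3) in the unified model**: a permutation `f` of the states modulo the shift,
which moves every element by one toggle; every step by a toggle of a good class, and for every state
at least one step by a toggle, stays in the cycle. -/
theorem exists_perm [NeZero g] (hc : Odd cap) (hn : Odd n) :
    ∃ f : Equiv.Perm (Quotient (shiftSetoid (h := h) (cap := cap) (g := g) (n := n))),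
      (∀ q, ∃ s : St h cap g n, ∃ i, s.Av i ∧ Quotient.mk shiftSetoid s = q ∧
        f q = Quotient.mk shiftSetoid (s.tog i)) ∧
      (∀ s : St h cap g n, ∃ i, s.Av i ∧
        f.SameCycle (Quotient.mk shiftSetoid s) (Quotient.mk shiftSetoid (s.tog i))) ∧
      (∀ (s : St h cap g n) (i : ZMod (2 * h)), ¬ s.Bad (par i) → s.Av i →
        f.SameCycle (Quotient.mk shiftSetoid s) (Quotient.mk shiftSetoid (s.tog i))) := by
  obtain ⟨f, h1, h2, h3⟩ := (toggleModel (h := h) (cap := cap) (g := g) (n := n) hc hn).exists_perm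
  have h4 : ∀ (s : St h cap g n) (i : ZMod (2 * h)), par i = 0 → ¬ s.Bad 0 → s.Av i →
      f.SameCycle (Quotient.mk shiftSetoid s) (Quotient.mk shiftSetoid (s.tog i)) := by
    intro s i hi hb ha
    have hm : i ∈ av s := mem_av.2 ⟨hi, ha⟩
    have h5 := h3 s (not_bad_good hc hn hb) {i} (Finset.singleton_subset_iff.2 hm)
    change f.SameCycle (Quotient.mk shiftSetoid s) (Quotient.mk shiftSetoid (tt {i} s)) at h5
    rwa [tt_singleton hm] at h5
  refine ⟨f, ?_, ?_, ?_⟩
  · intro q
    obtain ⟨s, i, hi, hs, hf⟩ := h1 q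
    change i ∈ av s at hi
    change f q = Quotient.mk shiftSetoid (tt {i} s) at hf
    rw [tt_singleton hi] at hf
    exact ⟨s, i, (mem_av.1 hi).2, hs, hf⟩
  · intro s
    obtain ⟨i, hi, hf⟩ := h2 s
    change i ∈ av s at hi
    change f.SameCycle (Quotient.mk shiftSetoid s) (Quotient.mk shiftSetoid (tt {i} s)) at hf
    rw [tt_singleton hi] at hf
    exact ⟨i, (mem_av.1 hi).2, hf⟩
  · intro s i hb ha
    by_cases hi : par i = 0
    · rw [hi] at hb
      exact h4 s i hi hb ha
    · replace hi := par_ne.1 hi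
      rw [hi] at hb
      have h5 := h4 s.shift (i - 1) (by rw [map_sub, hi, map_one, sub_self])
        (fun h => hb (bad_shift s h)) ((av_shift_iff s i).2 ha)
      rwa [tog_shift s ha, shift_rel, shift_rel] at h5

end Pool.OddHop
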