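import Pool.Agent.Work.MP_8f87b2_h62.Drift
import Pool.Agent.Work.MP_8f87b2_end.End

/-!
# Labels of the letters of a reduced word (abstract form), levels 1 and 2

`P t l` = label in the big ring of the letter `l` of the small ring at time `t`.
-/

set_option autoImplicit false

namespace Pool.OddHC

open Finset BinaryTree

variable {i j k : ℕ}

/-- labels with star and drift -/
structure LabD (v : X i) (u : X j) (P : ℕ → ZMod (2 * i + 1) → ZMod (2 * j + 1)) : Prop where
  star : ∀ t, P t (sp v t) = sp u t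
  drift : ∀ t l, P (t + 1) l = P t l + (if l ∈ vt v t ∨ l = sp v t then 1 else -1)

section

variable {v : X i} {u : X j} {P : ℕ → ZMod (2 * i + 1) → ZMod (2 * j + 1)}

/-- between two visits the label alternates -/
theorem LabD.alt (h : LabD v u P) {q : ZMod (2 * i + 1)} {a : ℕ} (ha : sp v a = q) : ∀ d : ℕ,
    (∀ s, a < s → s < a + 1 + d → sp v s ≠ q) →
    (q ∈ vt v (a + 1 + d) → P (a + 1 + d) q = sp u a) ∧
      (q ∉ vt v (a + 1 + d) → P (a + 1 + d) q = sp u a + 1) := by
  intro d
  induction d with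
  | zero =>
    intro _
    rw [add_zero, vt_succ, h.drift, ← ha, h.star]
    refine ⟨fun h1 => absurd rfl h1.1, fun _ => ?_⟩
    rw [if_pos (Or.inr rfl)]
  | succ d ih =>
    intro hs
    obtain ⟨h1, h2⟩ := ih (fun s h1 h2 => hs s h1 (by omega))
    have h3 : sp v (a + 1 + d) ≠ q := hs _ (by omega) (by omega)
    rw [← add_assoc, vt_succ, h.drift]
    by_cases h4 : q ∈ vt v (a + 1 + d)
    · rw [if_pos (Or.inl h4), h1 h4]
      exact ⟨fun h5 => absurd h4 h5.2, fun _ => rfl⟩
    · rw [if_neg (by rintro (h5 | h5); exacts [h4 h5, h3 h5.symm]), h2 h4]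
      exact ⟨fun _ => by ring, fun h5 => absurd ⟨fun h6 => h3 h6.symm, h4⟩ h5⟩

theorem LabD.alt' (h : LabD v u P) {q : ZMod (2 * i + 1)} {a b : ℕ} (ha : sp v a = q) (hab : a < b)
    (hs : ∀ s, a < s → s < b → sp v s ≠ q) :
    (q ∈ vt v b → P b q = sp u a) ∧ (q ∉ vt v b → P b q = sp u a + 1) := by
  obtain ⟨d, rfl⟩ : ∃ d, b = a + 1 + d := ⟨b - a - 1, by omega⟩
  exact h.alt ha d hs

/-- LEVEL 1: the label of the star increases by `1` -/
theorem LabD.succ (h : LabD v u P) {q : ZMod (2 * i + 1)} {a b : ℕ} (ha : sp v a = q)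
    (hb : sp v b = q) (hab : a < b) (hs : ∀ s, a < s → s < b → sp v s ≠ q) :
    sp u b = sp u a + 1 := by
  have h1 := (h.alt' ha hab hs).2 (by rw [← hb]; exact star_notMem v b)
  rw [← h1, ← hb, h.star]

/-- the big star does not come back between two visits of the small star -/
theorem LabD.ne (hj : 1 ≤ j) (h : LabD v u P) (hm : ∀ t l, P t l ∈ vt u t ↔ l ∈ vt v t)
    {q : ZMod (2 * i + 1)} {a b : ℕ} (ha : sp v a = q)
    (hs : ∀ s, a < s → s < b → sp v s ≠ q) {s : ℕ} (has : a < s) (hsb : s < b) :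
    sp u s ≠ sp u a := by
  intro h0
  obtain ⟨h1, h2⟩ := h.alt' ha has (fun r hr hr' => hs r hr (by omega))
  by_cases h3 : q ∈ vt v s
  · have h4 := (hm s q).2 h3
    rw [h1 h3, ← h0] at h4
    exact star_notMem u s h4
  · have h4 : P s q ∉ vt u s := fun h5 => h3 ((hm s q).1 h5)
    rw [h2 h3, ← h0] at h4
    exact h4 (first_mem hj u s)

end

/-- LEVEL 2: the label of the star increases by `2 + 2 e` -/
theorem lab_two (hj : 1 ≤ j) {v : X i} {u : X j} {w : X k}
    {P : ℕ → ZMod (2 * i + 1) → ZMod (2 * j + 1)} {Q : ℕ → ZMod (2 * j + 1) → ZMod (2 * k + 1)}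
    (hP : LabD v u P) (hm : ∀ t l, P t l ∈ vt u t ↔ l ∈ vt v t) (hQ : LabD u w Q)
    (x : ZMod (2 * j + 1) → ZMod (2 * k + 1))
    (hN : ∀ t l, l ∉ vt u t → Q t (l + 1) = Q t l + 1 + 2 * x l)
    {q : ZMod (2 * i + 1)} {a b : ℕ} (ha : sp v a = q)
    (hb : sp v b = q) (hab : a < b) (hs : ∀ s, a < s → s < b → sp v s ≠ q) :
    sp w b = sp w a + 2 + 2 * x (sp u a) := by
  have h1 := hP.succ ha hb hab hs
  have h2 : sp u a ∉ vt u b := by
    have := last_notMem hj u b
    rwa [h1, add_sub_cancel_right] at this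
  have h3 := (hQ.alt' (q := sp u a) rfl hab
    (fun s h4 h5 => hP.ne hj hm ha hs h4 h5)).2 h2
  have h4 := hN b (sp u a) h2
  rw [← h1, hQ.star, h3] at h4
  rw [h4]
  ring

/-- consecutive visits -/
theorem next_visit (v : X i) (a : ℕ) : ∃ b, a < b ∧ sp v b = sp v a ∧
    ∀ s, a < s → s < b → sp v s ≠ sp v a := by
  classical
  have hex : ∃ b, a < b ∧ sp v b = sp v a := recur v a
  obtain ⟨h1, h2⟩ := Nat.find_spec hex
  exact ⟨Nat.find hex, h1, h2, fun s hs hs' h4 => Nat.find_min hex hs' ⟨hs, h4⟩⟩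

theorem exists_sp' (v : X i) (q : ZMod (2 * i + 1)) : ∃ t, sp v t = q := by
  rcases Nat.eq_zero_or_pos i with h | h
  · subst h
    exact ⟨0, Subsingleton.elim (α := ZMod 1) _ _⟩
  · exact exists_sp h v q

/-- if the star moves by the unit `c` between consecutive visits, then everything occurs -/
theorem visit_all (v : X i) (w : X k) (q : ZMod (2 * i + 1)) {c c' : ZMod (2 * k + 1)}
    (hc : c * c' = 1)
    (h : ∀ a b, sp v a = q → sp v b = q → a < b → (∀ s, a < s → s < b → sp v s ≠ q) →
      sp w b = sp w a + c) (p : ZMod (2 * k + 1)) : ∃ t, sp v t = q ∧ sp w t = p := by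
  obtain ⟨t0, h0⟩ := exists_sp' v q
  have key : ∀ n : ℕ, ∃ t, sp v t = q ∧ sp w t = sp w t0 + (n : ZMod (2 * k + 1)) * c := by
    intro n
    induction n with
    | zero => exact ⟨t0, h0, by rw [Nat.cast_zero, zero_mul, add_zero]⟩
    | succ n ih =>
      obtain ⟨a, h1, h2⟩ := ih
      obtain ⟨b, h3, h4, h5⟩ := next_visit v a
      rw [h1] at h4 h5
      refine ⟨b, h4, ?_⟩
      rw [h a b h1 h4 h3 h5, h2]
      push_cast
      ring
  obtain ⟨t, h1, h2⟩ := key ((p - sp w t0) * c').val
  refine ⟨t, h1, ?_⟩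
  rw [h2, ZMod.natCast_zmod_val, mul_assoc, mul_comm c' c, hc]
  ring

theorem two_half : (2 : ZMod (2 * k + 1)) * ((k + 1 : ℕ) : ZMod (2 * k + 1)) = 1 := by
  have h0 : ((2 * k + 1 : ℕ) : ZMod (2 * k + 1)) = 0 := ZMod.natCast_self _
  push_cast at h0 ⊢
  linear_combination h0

/-- **INDEP 1**, abstract form -/
theorem lab_indep1 {v : X i} {u : X j} {P : ℕ → ZMod (2 * i + 1) → ZMod (2 * j + 1)}
    (h : LabD v u P) (q : ZMod (2 * i + 1)) (p : ZMod (2 * j + 1)) :
    ∃ t, sp v t = q ∧ sp u t = p :=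
  visit_all v u q (c := 1) (c' := 1) (mul_one 1)
    (fun _ _ ha hb hab hs => h.succ ha hb hab hs) p

/-- **INDEP 2**, abstract form -/
theorem lab_indep2 (hj : 1 ≤ j) {v : X i} {u : X j} {w : X k}
    {P : ℕ → ZMod (2 * i + 1) → ZMod (2 * j + 1)} {Q : ℕ → ZMod (2 * j + 1) → ZMod (2 * k + 1)}
    (hP : LabD v u P) (hm : ∀ t l, P t l ∈ vt u t ↔ l ∈ vt v t) (hQ : LabD u w Q)
    (hN : ∀ t l, l ∉ vt u t → Q t (l + 1) = Q t l + 1)
    (q : ZMod (2 * i + 1)) (p : ZMod (2 * k + 1)) : ∃ t, sp v t = q ∧ sp w t = p :=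
  visit_all v w q two_half (fun _ _ ha hb hab hs => by
    have := lab_two hj hP hm hQ (fun _ => 0) (fun t l h => by rw [hN t l h]; ring) ha hb hab hs
    rw [this]; ring) p

/-! ### The labels of `C(u, e)` -/

/-- the letter `l` of the small ring is the letter `pl l` of the big ring -/
theorem pl_mem (u : X j) (e : List ℕ) (he : e.length = 2 * j + 1) (w : X k)
    (hw : w.1 = ins u.1 e) (t : ℕ) (l : ZMod (2 * j + 1)) :
    pl u e w t l ∈ vt w t ↔ l ∈ vt u t := by
  obtain ⟨f, h1, h2, h3⟩ := word_at u e he w hw t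
  obtain ⟨c, hc⟩ : ∃ c, c = (l - sp u t).val := ⟨_, rfl⟩
  have hlt : c < 2 * j + 1 := by rw [hc]; exact ZMod.val_lt _
  obtain ⟨L, hL⟩ : ∃ L, L = sl ((TT ^ t) u).1 := ⟨_, rfl⟩
  have hLl : L.length = 2 * j + 1 := by rw [hL]; exact sl_len _
  obtain ⟨z, hz⟩ : ∃ z, z = (L.drop c).headD false := ⟨_, rfl⟩
  have hd : L.drop c = z :: L.drop (c + 1) := by
    have h4 : c < L.length := by omega
    have h5 := List.drop_eq_getElem_cons h4
    rw [h5] at hz
    rw [h5, hz]
    rfl
  have hz2 : L[c]? = some z := by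
    have h5 := congrArg (fun l : List Bool => l[0]?) hd
    simpa [List.getElem?_drop] using h5
  have h4 := sl_ins ((TT ^ t) u).1 f (by rw [X_num]; exact h1)
  rw [← h2, ← hL] at h4
  have h5 : CL false L f = CL z (L.take c) (f.take c) ++ CL false (L.drop c) (f.drop c) := by
    have h6 := CL_append false (L.drop c) (f.drop c) (L.take c) (f.take c)
      (by rw [List.length_take, List.length_take, hLl, h1])
    rw [List.take_append_drop, List.take_append_drop, ← hz] at h6
    exact h6
  obtain ⟨S, hS⟩ : ∃ S, S = ∑ a ∈ range c, cst u e t (sp u t + (a : ZMod (2 * j + 1))) := ⟨_, rfl⟩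
  have h6 : (CL z (L.take c) (f.take c)).length = S := by
    rw [CL_length _ _ _ (by rw [List.length_take, List.length_take, hLl, h1]), hS,
      cst_sum u e t h1 h3 hlt.le, List.length_take, hLl, Nat.min_eq_left hlt.le, ← hL, dsc_sum,
      List.length_take, hLl, Nat.min_eq_left hlt.le]
    congr 2
    have key : ∀ a : ℕ, a < c + 1 → (L.take c ++ [z]).getD a false = (L ++ [false]).getD a false := by
      intro a ha
      rw [List.getD_eq_getElem?_getD, List.getD_eq_getElem?_getD,
        List.getElem?_append_left (show a < L.length by omega)]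
      rcases Nat.lt_or_ge a c with h | h
      · rw [List.getElem?_append_left (by rw [List.length_take]; omega), List.getElem?_take,
          if_pos h]
      · have h7 : a = c := by omega
        subst h7
        rw [List.getElem?_append_right (by rw [List.length_take]; omega), List.length_take, hLl,
          Nat.min_eq_left hlt.le, Nat.sub_self, hz2]
        rfl
    apply sum_congr rfl
    intro a ha
    rw [mem_range] at ha
    rw [key a (by omega), key (a + 1) (by omega)]
  have h7 : (sl ((TT ^ t) w).1)[S]? = some z := by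
    rw [h4, h5, List.getElem?_append_right (by omega), h6, Nat.sub_self, hd, CL]
    rfl
  have h8 : S < 2 * k + 1 := by
    have := (List.getElem?_eq_some_iff.1 h7).1
    rwa [sl_len] at this
  have h9 : pl u e w t l - sp w t = (S : ZMod (2 * k + 1)) := by
    unfold pl
    rw [← hc, ← hS]
    ring
  unfold vt io
  rw [mem_st, mem_st, h9, ZMod.val_natCast, Nat.mod_eq_of_lt h8, h7, ← hc, ← hL, hz2]

/-- the labels of `C(u, e)` -/
theorem labD_pl (u : X j) (e : List ℕ) (he : e.length = 2 * j + 1) (w : X k)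
    (hw : w.1 = ins u.1 e) : LabD u w (pl u e w) where
  star := pl_star u e w
  drift := pl_drift u e he w hw

/-- LEVEL 2: between two consecutive visits of the star of `v` the label of the star of `w` increases by
`2 + 2 e` -/
theorem visit_two (hj : 1 ≤ j) (v : X i) (e : List ℕ) (he : e.length = 2 * i + 1) (u : X j)
    (hu : u.1 = ins v.1 e) (f : List ℕ) (hf : f.length = 2 * j + 1) (w : X k)
    (hw : w.1 = ins u.1 f) {a b : ℕ} (hab : a < b) (h : sp v b = sp v a)
    (hmin : ∀ s, a < s → s < b → sp v s ≠ sp v a) :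
    sp w b = sp w a + 2 + 2 * (exl j f (sp u a) : ZMod (2 * k + 1)) := by
  refine lab_two hj (labD_pl v e he u hu) (pl_mem v e he u hu) (labD_pl u f hf w hw)
    (fun l => (exl j f l : ZMod (2 * k + 1))) ?_ rfl h hab hmin
  intro t l hl
  rw [pl_next u f hf w hw]
  unfold cst
  have : pk01 (decide (l ∈ vt u t)) (decide (l + 1 ∈ vt u t)) = 0 := by simp [pk01, hl]
  rw [this]
  push_cast
  ring

/-- **INDEPENDENCE, level 2** -/
theorem indep2 (v : X i) (e : List ℕ) (he : e.length = 2 * i + 1) (u : X j)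
    (hu : u.1 = ins v.1 e) (w : X k) (hw : w.1 = inf u.1) (q : ZMod (2 * i + 1))
    (p : ZMod (2 * k + 1)) : ∃ t, sp v t = q ∧ sp w t = p := by
  rcases Nat.eq_zero_or_pos j with hj | hj
  · subst hj
    have hu0 : u.1 = .nil := by
      have := X_num u
      cases h : u.1 with
      | nil => rfl
      | node _ A B => rw [h] at this; simp at this
    have hk : k = 0 := by
      have := X_num w
      rw [hw, hu0, inf_nil] at this
      exact this.symm
    subst hk
    obtain ⟨t, ht⟩ := exists_sp' v q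
    exact ⟨t, ht, Subsingleton.elim (α := ZMod 1) _ _⟩
  · refine visit_all v w q two_half (fun a b ha hb hab hs => ?_) p
    have hw' : w.1 = ins u.1 (List.replicate (2 * j + 1) 0) := by
      rw [hw]
      unfold inf
      rw [X_num]
    have := visit_two hj v e he u hu (List.replicate (2 * j + 1) 0) (by simp) w hw' hab
      (hb.trans ha.symm) (fun s h1 h2 => by rw [ha]; exact hs s h1 h2)
    rw [this]
    have h0 : exl j (List.replicate (2 * j + 1) 0) (sp u a) = 0 := by
      unfold exl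
      rw [List.getD_eq_getElem?_getD, List.getElem?_replicate]
      split <;> rfl
    rw [h0]
    push_cast
    ring

end Pool.OddHC
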