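import Pool.Agent.Work.MP_8f87b2_h13.R3E
set_option autoImplicit false
set_option linter.all false

/-!
# MP_8f87b2_co: the K links and the DOWN links against the RIGHT windows R3, S3 (`c = 3`)
-/

namespace Pool.OddHC
open Finset Equiv BinaryTree Pool.Agent.Work.MP_8f87b2_co HM
variable {k : ℕ} {F F' : Set (Cyc k)} {g g' : DG k} {q : ℕ} {R B S X U V : BinaryTree Unit}

theorem W_K (h : A0D 0 R B S) {i : ℕ} (hi : i < 20) (hU : U ≠ .nil)
    (e : H1.W R (pc 1) B S i = w1 .nil U (pc 1)) :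
    U = R △ .nil ∨ U = app S (B △ .nil) ∨ (B = .nil ∧ U = .nil △ S) := by
  obtain ⟨⟨r, R1, R2, r', hr, hr', hr0, hr0'⟩, ⟨s, S1, S2, s', hs, hs', hs0, hs0'⟩, hB⟩ := h.dat
  have hr1 := lo_ne_nil hr0
  have hr1' := lo_ne_nil hr0'
  have hs1 := lo_ne_nil hs0
  have hs1' := lo_ne_nil hs0'
  have hr2 : r ≠ .nil △ .nil := lo_ne_pc hr0 (show 1 < 0 + 2 by omega)
  have hr2' : r' ≠ .nil △ .nil := lo_ne_pc hr0' (show 1 < 0 + 2 by omega)
  have hs2 : s ≠ .nil △ .nil := lo_ne_pc hs0 (show 1 < 0 + 2 by omega)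
  have hs2' : s' ≠ .nil △ .nil := lo_ne_pc hs0' (show 1 < 0 + 2 by omega)
  have hRn := h.R_ne
  have hSn := h.S_ne
  have hRl := h.hv.ne_lf
  have hSl := h.hvS.ne_lf
  have hBl := h.hvB.ne_lf
  have hp0 : pc 0 = .nil := rfl
  have hp1 : pc 1 = .nil △ .nil := rfl
  have hp2 : pc 2 = (.nil △ .nil) △ .nil := rfl
  have hp3 : pc 3 = ((.nil △ .nil) △ .nil) △ .nil := rfl
  have hUc := comps_ne hU
  have happ : ∀ P A Y : BinaryTree Unit, app P (A △ Y) ≠ .nil := fun P A Y => app_ne' (by simp)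
  have e0 := congrArg comps e
  have e1 := congrArg comps e
  have e2 := congrArg (fun t => (comps t).reverse) e
  rcases hB with hB | ⟨b, B1, B2, b', hBn, hb, hb', hb0, hb0'⟩
  · have hb : comps B = [] := by rw [hB]; rfl
    interval_cases i <;>
    simp [H1.W, comps_w1, comps_node, comps_app, comps_pc, comps, hr, hs, hb, hr1, hs1, hr2, hs2, hp0, hp1, hp2, hp3, hRn, hSn, hRl, hSl, hBl, hU, hU.symm, hUc, happ] at e1 <;>
    simp [H1.W, comps_w1, comps_node, comps_app, comps_pc, comps, hr', hs', hb, hr1', hs1', hr2', hs2', hp0, hp1, hp2, hp3, hRn, hSn, hRl, hSl, hBl, hU, hU.symm, hUc, happ] at e2 <;>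
    simp only [H1.W, comps_w1, comps_node, comps_app, comps_pc, comps, List.nil_append, List.cons_append, List.append_assoc] at e0
    · exact Or.inl e1.symm
    · exact Or.inr (Or.inl e1.symm)
  · have hb1 := lo_ne_nil hb0
    have hb1' := lo_ne_nil hb0'
    have hb2 : b ≠ .nil △ .nil := lo_ne_pc hb0 (show 1 < 0 + 2 by omega)
    have hb2' : b' ≠ .nil △ .nil := lo_ne_pc hb0' (show 1 < 0 + 2 by omega)
    interval_cases i <;>
    simp [H1.W, comps_w1, comps_node, comps_app, comps_pc, comps, hr, hs, hb, hr1, hs1, hb1, hr2, hs2, hb2, hBn, hp0, hp1, hp2, hp3, hRn, hSn, hRl, hSl, hBl, hU, hU.symm, hUc, happ] at e1 <;>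
    simp [H1.W, comps_w1, comps_node, comps_app, comps_pc, comps, hr', hs', hb', hr1', hs1', hb1', hr2', hs2', hb2', hBn, hp0, hp1, hp2, hp3, hRn, hSn, hRl, hSl, hBl, hU, hU.symm, hUc, happ] at e2 <;>
    simp only [H1.W, comps_w1, comps_node, comps_app, comps_pc, comps, List.nil_append, List.cons_append, List.append_assoc] at e0
    · exact Or.inl e1.symm
    · exact Or.inr (Or.inl e1.symm)

theorem W_K1 (h : A0D 0 R B S) {i : ℕ} (hi : i < 20) (hU : U ≠ .nil)
    (e : H1.W R (pc 1) B S i = w1 U (pc 1) .nil) :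
    U = R △ .nil ∨ U = app S (B △ .nil) ∨ (B = .nil ∧ U = .nil △ S) := by
  obtain ⟨⟨r, R1, R2, r', hr, hr', hr0, hr0'⟩, ⟨s, S1, S2, s', hs, hs', hs0, hs0'⟩, hB⟩ := h.dat
  have hr1 := lo_ne_nil hr0
  have hr1' := lo_ne_nil hr0'
  have hs1 := lo_ne_nil hs0
  have hs1' := lo_ne_nil hs0'
  have hr2 : r ≠ .nil △ .nil := lo_ne_pc hr0 (show 1 < 0 + 2 by omega)
  have hr2' : r' ≠ .nil △ .nil := lo_ne_pc hr0' (show 1 < 0 + 2 by omega)
  have hs2 : s ≠ .nil △ .nil := lo_ne_pc hs0 (show 1 < 0 + 2 by omega)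
  have hs2' : s' ≠ .nil △ .nil := lo_ne_pc hs0' (show 1 < 0 + 2 by omega)
  have hRn := h.R_ne
  have hSn := h.S_ne
  have hRl := h.hv.ne_lf
  have hSl := h.hvS.ne_lf
  have hBl := h.hvB.ne_lf
  have hp0 : pc 0 = .nil := rfl
  have hp1 : pc 1 = .nil △ .nil := rfl
  have hp2 : pc 2 = (.nil △ .nil) △ .nil := rfl
  have hp3 : pc 3 = ((.nil △ .nil) △ .nil) △ .nil := rfl
  have hUc := comps_ne hU
  have happ : ∀ P A Y : BinaryTree Unit, app P (A △ Y) ≠ .nil := fun P A Y => app_ne' (by simp)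
  have e0 := congrArg comps e
  have e1 := congrArg comps e
  have e2 := congrArg (fun t => (comps t).reverse) e
  rcases hB with hB | ⟨b, B1, B2, b', hBn, hb, hb', hb0, hb0'⟩
  · have hb : comps B = [] := by rw [hB]; rfl
    interval_cases i <;>
    simp [H1.W, comps_w1, comps_node, comps_app, comps_pc, comps, hr, hs, hb, hr1, hs1, hr2, hs2, hp0, hp1, hp2, hp3, hRn, hSn, hRl, hSl, hBl, hU, hU.symm, hUc, happ] at e1 <;>
    simp [H1.W, comps_w1, comps_node, comps_app, comps_pc, comps, hr', hs', hb, hr1', hs1', hr2', hs2', hp0, hp1, hp2, hp3, hRn, hSn, hRl, hSl, hBl, hU, hU.symm, hUc, happ] at e2 <;>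
    simp only [H1.W, comps_w1, comps_node, comps_app, comps_pc, comps, List.nil_append, List.cons_append, List.append_assoc] at e0
    · have e6 : comps U = [R] := by
        have e5 : ([R]) ++ [pc 1] = comps U ++ [pc 1] := by
          rw [← e0]
          simp
        exact (snoc_inj e5).1.symm
      exact Or.inl (comps_inj (by rw [e6]; rfl))
    · exfalso
      have e7 := congrArg (fun t => (comps t).length) e2.1
      simp [comps_app, comps_node, comps] at e7
    · have e6 : comps U = comps S ++ [B] := by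
        have e5 : (comps S ++ [B]) ++ [pc 1] = comps U ++ [pc 1] := by
          rw [← e0]
          simp
        exact (snoc_inj e5).1.symm
      exact Or.inr (Or.inl (comps_inj (by rw [e6, comps_app]; rfl)))
  · have hb1 := lo_ne_nil hb0
    have hb1' := lo_ne_nil hb0'
    have hb2 : b ≠ .nil △ .nil := lo_ne_pc hb0 (show 1 < 0 + 2 by omega)
    have hb2' : b' ≠ .nil △ .nil := lo_ne_pc hb0' (show 1 < 0 + 2 by omega)
    interval_cases i <;>
    simp [H1.W, comps_w1, comps_node, comps_app, comps_pc, comps, hr, hs, hb, hr1, hs1, hb1, hr2, hs2, hb2, hBn, hp0, hp1, hp2, hp3, hRn, hSn, hRl, hSl, hBl, hU, hU.symm, hUc, happ] at e1 <;>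
    simp [H1.W, comps_w1, comps_node, comps_app, comps_pc, comps, hr', hs', hb', hr1', hs1', hb1', hr2', hs2', hb2', hBn, hp0, hp1, hp2, hp3, hRn, hSn, hRl, hSl, hBl, hU, hU.symm, hUc, happ] at e2 <;>
    simp only [H1.W, comps_w1, comps_node, comps_app, comps_pc, comps, List.nil_append, List.cons_append, List.append_assoc] at e0
    · have e6 : comps U = [R] := by
        have e5 : ([R]) ++ [pc 1] = comps U ++ [pc 1] := by
          rw [← e0]
          simp
        exact (snoc_inj e5).1.symm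
      exact Or.inl (comps_inj (by rw [e6]; rfl))
    · exfalso
      have e7 := congrArg (fun t => (comps t).length) e2.1
      simp [comps_app, comps_node, comps] at e7
    · have e6 : comps U = comps S ++ [B] := by
        have e5 : (comps S ++ [B]) ++ [pc 1] = comps U ++ [pc 1] := by
          rw [← e0]
          simp
        exact (snoc_inj e5).1.symm
      exact Or.inr (Or.inl (comps_inj (by rw [e6, comps_app]; rfl)))

theorem W_K2 (h : A0D 0 R B S) {i : ℕ} (hi : i < 20) (hU : U ≠ .nil)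
    (e : H1.W R (pc 1) B S i = w1 (pc 1) .nil U) :
    U = R △ .nil ∨ U = app S (B △ .nil) ∨ (B = .nil ∧ U = .nil △ S) := by
  obtain ⟨⟨r, R1, R2, r', hr, hr', hr0, hr0'⟩, ⟨s, S1, S2, s', hs, hs', hs0, hs0'⟩, hB⟩ := h.dat
  have hr1 := lo_ne_nil hr0
  have hr1' := lo_ne_nil hr0'
  have hs1 := lo_ne_nil hs0
  have hs1' := lo_ne_nil hs0'
  have hr2 : r ≠ .nil △ .nil := lo_ne_pc hr0 (show 1 < 0 + 2 by omega)
  have hr2' : r' ≠ .nil △ .nil := lo_ne_pc hr0' (show 1 < 0 + 2 by omega)
  have hs2 : s ≠ .nil △ .nil := lo_ne_pc hs0 (show 1 < 0 + 2 by omega)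
  have hs2' : s' ≠ .nil △ .nil := lo_ne_pc hs0' (show 1 < 0 + 2 by omega)
  have hRn := h.R_ne
  have hSn := h.S_ne
  have hRl := h.hv.ne_lf
  have hSl := h.hvS.ne_lf
  have hBl := h.hvB.ne_lf
  have hp0 : pc 0 = .nil := rfl
  have hp1 : pc 1 = .nil △ .nil := rfl
  have hp2 : pc 2 = (.nil △ .nil) △ .nil := rfl
  have hp3 : pc 3 = ((.nil △ .nil) △ .nil) △ .nil := rfl
  have hUc := comps_ne hU
  have happ : ∀ P A Y : BinaryTree Unit, app P (A △ Y) ≠ .nil := fun P A Y => app_ne' (by simp)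
  have e0 := congrArg comps e
  have e1 := congrArg comps e
  have e2 := congrArg (fun t => (comps t).reverse) e
  rcases hB with hB | ⟨b, B1, B2, b', hBn, hb, hb', hb0, hb0'⟩
  · have hb : comps B = [] := by rw [hB]; rfl
    interval_cases i <;>
    simp [H1.W, comps_w1, comps_node, comps_app, comps_pc, comps, hr, hs, hb, hr1, hs1, hr2, hs2, hp0, hp1, hp2, hp3, hRn, hSn, hRl, hSl, hBl, hU, hU.symm, hUc, happ] at e1 <;>
    simp [H1.W, comps_w1, comps_node, comps_app, comps_pc, comps, hr', hs', hb, hr1', hs1', hr2', hs2', hp0, hp1, hp2, hp3, hRn, hSn, hRl, hSl, hBl, hU, hU.symm, hUc, happ] at e2 <;>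
    simp only [H1.W, comps_w1, comps_node, comps_app, comps_pc, comps, List.nil_append, List.cons_append, List.append_assoc] at e0
    · exact Or.inl (comps_inj (by rw [← e1]; rfl))
    · refine Or.inr (Or.inr ⟨hB, comps_inj ?_⟩)
      rw [hb] at e0
      injection e0 with _ e3
      injection e3 with _ e4
      exact e4.symm
    · refine Or.inr (Or.inl (comps_inj ?_))
      injection e0 with _ e3
      injection e3 with _ e4
      rw [← e4, comps_app]
      rfl
  · have hb1 := lo_ne_nil hb0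
    have hb1' := lo_ne_nil hb0'
    have hb2 : b ≠ .nil △ .nil := lo_ne_pc hb0 (show 1 < 0 + 2 by omega)
    have hb2' : b' ≠ .nil △ .nil := lo_ne_pc hb0' (show 1 < 0 + 2 by omega)
    interval_cases i <;>
    simp [H1.W, comps_w1, comps_node, comps_app, comps_pc, comps, hr, hs, hb, hr1, hs1, hb1, hr2, hs2, hb2, hBn, hp0, hp1, hp2, hp3, hRn, hSn, hRl, hSl, hBl, hU, hU.symm, hUc, happ] at e1 <;>
    simp [H1.W, comps_w1, comps_node, comps_app, comps_pc, comps, hr', hs', hb', hr1', hs1', hb1', hr2', hs2', hb2', hBn, hp0, hp1, hp2, hp3, hRn, hSn, hRl, hSl, hBl, hU, hU.symm, hUc, happ] at e2 <;>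
    simp only [H1.W, comps_w1, comps_node, comps_app, comps_pc, comps, List.nil_append, List.cons_append, List.append_assoc] at e0
    · exact Or.inl (comps_inj (by rw [← e1]; rfl))
    · refine Or.inr (Or.inl (comps_inj ?_))
      injection e0 with _ e3
      injection e3 with _ e4
      rw [← e4, comps_app]
      rfl

/-- the shapes of the hosts of the `K` links are clean -/
theorem KSh.cleanR (h : KSh U) (g : A0D 0 R B S) (hc : ClR B S) :
    ¬ (U = R △ .nil ∨ U = app S (B △ .nil) ∨ (B = .nil ∧ U = .nil △ S)) := by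
  have hlast : ∃ L n, comps U = L ++ [pc n] := by
    rcases h with ⟨V, rfl⟩ | ⟨V, n, rfl⟩ | ⟨V, A, hA, rfl⟩ | h
    · exact ⟨comps V ++ [.nil], 0, by simp [comps_app, comps_node, comps, pc]⟩
    · exact ⟨comps V ++ [.nil, pc n], 0, by simp [comps_app, comps_node, comps, pc]⟩
    · exact ⟨comps V ++ [app A (.nil △ .nil)], 0, by simp [comps_app, comps_node, comps, pc]⟩
    · obtain ⟨L, n, -, e⟩ := h.last
      exact ⟨L, n, e⟩
  have hlo : ∀ A, A ≠ .nil → lo 0 (app A (.nil △ .nil)) ≠ 0 := by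
    intro A hA h0
    unfold lo at h0
    rw [Multiset.card_eq_zero, Multiset.filter_eq_nil] at h0
    have h1 : 1 ∈ raise (cont (app A (.nil △ .nil))) := by
      unfold raise
      apply Multiset.mem_cons_of_mem
      rw [cont_app, cont_node, cont_nil, raise_zero, add_zero, sup_add', Multiset.sup_singleton]
      have h2 : 1 ≤ (cont A).sup := by
        rw [← ht_eq]
        exact ht_pos hA
      rw [max_eq_left h2, Multiset.erase_add_left_pos _ (sup_mem (cont_ne hA))]
      exact Multiset.mem_add.2 (Or.inr (Multiset.mem_singleton_self _))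
    exact h0 1 h1 (by omega)
  rintro (e | e | ⟨hB, e⟩)
  · obtain ⟨L, n, e1⟩ := hlast
    rw [e, comps_node] at e1
    have e2 : [] ++ [R] = L ++ [pc n] := e1
    exact g.R_pc n (snoc_inj e2).2
  · rcases h with ⟨V, e1⟩ | ⟨V, n, e1⟩ | ⟨V, A, hA, e1⟩ | ⟨V, n, hn, e1⟩ | ⟨V, n, hn, e1, h2⟩
    · have e2 : app S (B △ .nil) = app (app V (.nil △ .nil)) (.nil △ .nil) := by
        rw [← e, e1, app_assoc']
        rfl
      exact g.hvS.ne_snoc V (app_snoc e2).1
    · have e2 : app S (B △ .nil) = app (app (app V (.nil △ .nil)) (pc n △ .nil)) (.nil △ .nil) := by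
        rw [← e, e1, app_assoc', app_assoc']
        rfl
      have e3 := (app_snoc e2).1
      have h1 : Hv 0 (app V (.nil △ .nil)) := by
        intro x hx
        apply g.hvS x
        rw [e3, cont_app]
        exact Multiset.mem_add.2 (Or.inl hx)
      exact h1.ne_snoc V rfl
    · have e2 : app S (B △ .nil) = app (app V (app A (.nil △ .nil) △ .nil)) (.nil △ .nil) := by
        rw [← e, e1, app_assoc']
        rfl
      have e3 := (app_snoc e2).1
      have h1 := g.hvS.ls g.S_ne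
      rw [e3, ls_app _ (by simp), ls_single] at h1
      exact hlo A hA h1
    · have e2 : app S (B △ .nil) = app (app V (.nil △ .nil)) (pc n △ .nil) := by
        rw [← e, e1, app_assoc']
        rfl
      exact g.hvS.ne_snoc V (app_snoc e2).1
    · have e2 : app S (B △ .nil) = app V (pc n △ .nil) := by
        rw [← e, e1]
        rfl
      obtain ⟨e3, e4⟩ := app_snoc e2
      obtain ⟨n, rfl⟩ : ∃ n', n = n' + 1 := ⟨n - 1, by omega⟩
      have hBc : cont B = {n + 1} := by rw [e4, cont_pc]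
      have h3 : 3 ≤ n + 1 := by
        have := g.hvB (n + 1) (by rw [hBc]; exact Multiset.mem_singleton_self _)
        omega
      have h4 : 3 ∉ cont S := by
        intro h5
        have := h2 3 (by
          rw [e, cont_app]
          exact Multiset.mem_add.2 (Or.inl h5))
        omega
      have h5 : 3 ∈ cont B := by
        have := mem3R g
        rw [← g.eq, Multiset.mem_add] at this
        exact this.resolve_right h4
      rw [hBc, Multiset.mem_singleton] at h5
      apply hc.2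
      rw [← h5] at e4
      exact ⟨e4, h4⟩
  · have g' : A0D 0 S .nil S := by
      refine ⟨g.hvS, ?_, ?_, ?_, rfl⟩
      · have := g.mem
        rw [← g.eq, hB, cont_nil, zero_add] at this
        exact Or.inl this
      · rw [g.hS]; exact g.top
      · rw [cont_nil, zero_add]
    rcases h with ⟨V, e1⟩ | ⟨V, n, e1⟩ | ⟨V, A, hA, e1⟩ | h
    · have e2 : ls (.nil △ S) = .nil := by
        rw [← e, e1, ls_app _ (by simp)]
        rfl
      rw [ls_node _ g.S_ne] at e2
      exact g.hvS.ls_ne g.S_ne e2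
    · have e2 : ls (.nil △ S) = .nil := by
        rw [← e, e1, ls_app _ (by simp)]
        rfl
      rw [ls_node _ g.S_ne] at e2
      exact g.hvS.ls_ne g.S_ne e2
    · have e2 : ls (.nil △ S) = .nil := by
        rw [← e, e1, ls_app _ (by simp)]
        rfl
      rw [ls_node _ g.S_ne] at e2
      exact g.hvS.ls_ne g.S_ne e2
    · exact h.ne_nR g' e

theorem W_KSh (g : A0D 0 R B S) (hc : ClR B S) (h : KSh U) {i : ℕ} (hi : i < 20) :
    H1.W R (pc 1) B S i ≠ w1 .nil U (pc 1) ∧ H1.W R (pc 1) B S i ≠ w1 U (pc 1) .nil ∧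
    H1.W R (pc 1) B S i ≠ w1 (pc 1) .nil U :=
  ⟨fun e => h.cleanR g hc (W_K g hi h.ne e), fun e => h.cleanR g hc (W_K1 g hi h.ne e),
    fun e => h.cleanR g hc (W_K2 g hi h.ne e)⟩

/-- **disjointness R3 - K** -/
theorem TyR3.disj_K (h : TyR3 F g) (hU : KSh U) (h' : TyK U F' g') : ∀ w ∈ g.B, w ∉ g'.B := by
  intro w hw hw'
  obtain ⟨R, B, S, w0, i, h1, -, hc, hi, rfl, -⟩ := h.words w hw
  obtain ⟨k1, k2, k3⟩ := W_KSh h1.a0d3 hc hU hi
  rcases IsTri.words h' _ hw' with e1 | ⟨_, e1 | e1⟩ <;> rw [h1.rW w0 hi] at e1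
  · exact k1 e1
  · exact k2 e1
  · exact k3 e1

/-- **disjointness S3 - K** -/
theorem TyS3.disj_K (h : TyS3 F g) (hU : KSh U) (h' : TyK U F' g') : ∀ w ∈ g.B, w ∉ g'.B := by
  intro w hw hw'
  obtain ⟨R, B, S, w0, i, h1, hc, hi, -, rfl, -⟩ := h.words w hw
  obtain ⟨k1, k2, k3⟩ := W_KSh h1.a0d3 hc hU hi
  rcases IsTri.words h' _ hw' with e1 | ⟨_, e1 | e1⟩ <;> rw [h1.rW w0 hi] at e1
  · exact k1 e1
  · exact k2 e1
  · exact k3 e1

end Pool.OddHC
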