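import Pool.Agent.Work.MP_8f87b2_base.TV

/-!
# The star visits every position

`sp u i`: the position of the star after `i` steps of `T`, if it is at `0` for `u`.
-/

set_option autoImplicit false

namespace Pool.OddHC

open Finset BinaryTree

variable {j : ℕ}

/-- position of the star after `i` steps -/
noncomputable def sp (u : X j) : ℕ → ZMod (2 * j + 1)
  | 0 => 0
  | i + 1 => sp u i + Vo ((TT ^ i) u)

theorem sp_zero (u : X j) : sp u 0 = 0 := rfl

theorem sp_succ (u : X j) (i : ℕ) : sp u (i + 1) = sp u i + Vo ((TT ^ i) u) := rfl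

theorem sp_add (u : X j) (a : ℕ) : ∀ b : ℕ, sp u (a + b) = sp u a + sp ((TT ^ a) u) b := by
  intro b
  induction b with
  | zero => rw [add_zero, sp_zero, add_zero]
  | succ b ih =>
    rw [← add_assoc, sp_succ, ih, sp_succ, ← Equiv.Perm.mul_apply, ← pow_add, add_comm b a,
      add_assoc]

theorem mem_cw (t : X j) (s p : ZMod (2 * j + 1)) :
    p ∈ st (2 * j + 1) (cw t.1) s ↔ p ≠ s ∧ p ∉ io t s := by
  have h1 : s ∉ st (2 * j + 1) (cw t.1) s := by
    rw [mem_st, sub_self, ZMod.val_zero]
    unfold cw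
    simp
  have h2 := compl_cw t s
  constructor
  · intro hp
    refine ⟨fun h => h1 (h ▸ hp), fun h => ?_⟩
    have h3 : p ∈ insert s (st (2 * j + 1) (cw t.1) s) := mem_insert_of_mem hp
    rw [h2, mem_sdiff] at h3
    exact h3.2 h
  · rintro ⟨h3, h4⟩
    have h5 : p ∈ univ \ io t s := mem_sdiff.2 ⟨mem_univ _, h4⟩
    rw [← h2, mem_insert] at h5
    exact h5.resolve_left h3

/-- the vertex at time `i` -/
noncomputable def vt (u : X j) (i : ℕ) : Finset (ZMod (2 * j + 1)) := io ((TT ^ i) u) (sp u i)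

theorem vt_succ (u : X j) (i : ℕ) (p : ZMod (2 * j + 1)) :
    p ∈ vt u (i + 1) ↔ p ≠ sp u i ∧ p ∉ vt u i := by
  unfold vt
  rw [sp_succ, pow_succ', Equiv.Perm.mul_apply, TT_apply, TF_spec, mem_cw]

theorem star_notMem (u : X j) (i : ℕ) : sp u i ∉ vt u i := by
  unfold vt io
  rw [mem_st, sub_self, ZMod.val_zero]
  unfold sl
  simp

theorem wd_getLast (t : BinaryTree Unit) (h : wd t ≠ []) : (wd t).getLast h = false := by
  induction t with
  | nil => exact absurd rfl h
  | node _ A B _ ihB =>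
    cases B with
    | nil => simp [wd]
    | node _ B₁ B₂ =>
      have h1 : wd (BinaryTree.node () B₁ B₂) ≠ [] := by simp [wd]
      have h2 := ihB h1
      have h3 : wd (BinaryTree.node () A (BinaryTree.node () B₁ B₂)) =
          (true :: (wd A ++ [false])) ++ wd (BinaryTree.node () B₁ B₂) := by
        rw [wd]; simp
      simp only [h3]
      rw [List.getLast_append_of_ne_nil _ h1]
      exact h2

theorem last_notMem (hj : 1 ≤ j) (u : X j) (i : ℕ) : sp u i - 1 ∉ vt u i := by
  unfold vt io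
  generalize (TT ^ i) u = t
  rw [mem_st]
  have h1 : (sp u i - 1 - sp u i).val = 2 * j := by
    rw [show sp u i - 1 - sp u i = -1 by ring]
    have : (-1 : ZMod (2 * j + 1)) = ((2 * j : ℕ) : ZMod (2 * j + 1)) := by
      have h0 : ((2 * j + 1 : ℕ) : ZMod (2 * j + 1)) = 0 := ZMod.natCast_self _
      push_cast at h0 ⊢
      linear_combination -h0
    rw [this, ZMod.val_natCast, Nat.mod_eq_of_lt (by omega)]
  rw [h1]
  have hl : (wd t.1).length = 2 * j := by rw [wd_length, X_num]
  have hne : wd t.1 ≠ [] := by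
    intro h
    rw [h] at hl
    simp at hl
    omega
  obtain ⟨q, hq⟩ : ∃ q, 2 * j = q + 1 := ⟨2 * j - 1, by omega⟩
  unfold sl
  rw [hq, List.getElem?_cons_succ]
  have h2 := wd_getLast t.1 hne
  rw [List.getLast_eq_getElem] at h2
  have h3 : q = (wd t.1).length - 1 := by omega
  rw [h3, List.getElem?_eq_getElem (by omega), h2]
  simp

/-- between two moments the letter at `p` flips at every step, if `p` is never the star -/
theorem flips (u : X j) {p : ZMod (2 * j + 1)} {a : ℕ} : ∀ d : ℕ,
    (∀ i, a ≤ i → i < a + d → sp u i ≠ p) →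
    (p ∈ vt u (a + d) ↔ (p ∈ vt u a ↔ Even d)) := by
  intro d
  induction d with
  | zero => simp
  | succ d ih =>
    intro h
    have h1 := ih (fun i hi hi' => h i hi (by omega))
    rw [← add_assoc, vt_succ, h1, Nat.even_add_one]
    have h2 := h (a + d) (by omega) (by omega)
    constructor
    · rintro ⟨_, h3⟩
      tauto
    · intro h3
      refine ⟨fun h4 => h2 h4.symm, ?_⟩
      tauto

theorem between (hj : 1 ≤ j) (u : X j) {p : ZMod (2 * j + 1)} {a b : ℕ} (hab : a < b)
    (ha : sp u a = p + 1) (hb : sp u b = p + 1) (hmin : ∀ i, a < i → i < b → sp u i ≠ p + 1) :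
    ∃ i, a ≤ i ∧ i < b ∧ sp u i = p := by
  by_contra hcon
  push Not at hcon
  obtain ⟨d, rfl⟩ : ∃ d, b = a + 1 + d := ⟨b - a - 1, by omega⟩
  have h1 := flips u (p := p) (a := a) (1 + d) (fun i hi hi' => hcon i hi (by omega))
  have h2 := flips u (p := p + 1) (a := a + 1) d (fun i hi hi' => hmin i (by omega) (by omega))
  have h3 : p ∉ vt u a := by
    have := last_notMem hj u a
    rwa [ha, add_sub_cancel_right] at this
  have h4 : p ∉ vt u (a + (1 + d)) := by
    have := last_notMem hj u (a + 1 + d)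
    rwa [hb, add_sub_cancel_right, add_assoc] at this
  have h5 : p + 1 ∉ vt u (a + 1) := by
    rw [vt_succ]
    rintro ⟨h6, _⟩
    exact h6 ha.symm
  have h6 : p + 1 ∉ vt u (a + 1 + d) := by
    have := star_notMem u (a + 1 + d)
    rwa [hb] at this
  have h7 : Even (1 + d) := by
    by_contra h7
    exact h4 (h1.2 ⟨fun h => absurd h h3, fun h => absurd h h7⟩)
  have h9 : Even d := by
    by_contra h9
    exact h6 (h2.2 ⟨fun h => absurd h h5, fun h => absurd h h9⟩)
  rw [add_comm, Nat.even_add_one] at h7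
  exact h7 h9

/-- positions are visited again and again -/
theorem recur (u : X j) (a : ℕ) : ∃ b, a < b ∧ sp u b = sp u a := by
  obtain ⟨N, hN, hN1⟩ : ∃ N, 0 < N ∧ (TT : Equiv.Perm (X j)) ^ N = 1 :=
    ⟨orderOf (TT : Equiv.Perm (X j)), orderOf_pos _, pow_orderOf_eq_one _⟩
  have key : ∀ (v : X j) (c : ℕ), sp v (N * c) = (c : ZMod (2 * j + 1)) * sp v N := by
    intro v c
    induction c with
    | zero => rw [mul_zero, sp_zero, Nat.cast_zero, zero_mul]
    | succ c ih =>
      rw [Nat.mul_succ, sp_add, ih, pow_mul, hN1, one_pow, Equiv.Perm.one_apply]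
      push_cast
      ring
  refine ⟨a + N * (2 * j + 1), ?_, ?_⟩
  · have : 0 < N * (2 * j + 1) := Nat.mul_pos hN (by omega)
    omega
  · rw [sp_add, key, ZMod.natCast_self, zero_mul, add_zero]

/-- **LEMMA VIS**: in every orbit the star visits every position. -/
theorem exists_sp (hj : 1 ≤ j) (u : X j) (x : ZMod (2 * j + 1)) : ∃ i, sp u i = x := by
  have key : ∀ l : ℕ, ∃ i, sp u i = -(l : ZMod (2 * j + 1)) := by
    intro l
    induction l with
    | zero => exact ⟨0, by rw [sp_zero, Nat.cast_zero, neg_zero]⟩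
    | succ l ih =>
      obtain ⟨a, ha⟩ := ih
      classical
      have hex : ∃ b, a < b ∧ sp u b = sp u a := recur u a
      obtain ⟨h1, h2⟩ := Nat.find_spec hex
      have h3 : ∀ i, a < i → i < Nat.find hex → sp u i ≠ sp u a := by
        intro i hi hi' h4
        exact Nat.find_min hex hi' ⟨hi, h4⟩
      have ha' : sp u a = -((l + 1 : ℕ) : ZMod (2 * j + 1)) + 1 := by
        rw [ha]; push_cast; ring
      obtain ⟨i, _, _, hi⟩ := between hj u h1 ha' (h2.trans ha')
        (fun i hi hi' => by rw [← ha']; exact h3 i hi hi')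
      exact ⟨i, hi⟩
  obtain ⟨i, hi⟩ := key (-x).val
  exact ⟨i, by rw [hi, ZMod.natCast_zmod_val, neg_neg]⟩

end Pool.OddHC
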